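import Pool.Agent.Lib.MP_85a137_nt.Spec2
import Pool.Agent.MP0a1886.Sieve

/-!
# Brun's pure sieve for MP_85a137_nt
-/

set_option autoImplicit false

namespace Pool.Agent.Lib.MP_85a137_nt

open Finset

namespace Brun

open Pool.Agent.MP0a1886 (altSum elemSum)

/-- The number of elements of a residue class in an interval. -/
theorem abs_card_modEq (T r v : ℕ) (hr : 0 < r) :
    |(((Ico T (2 * T)).filter fun t => t ≡ v [MOD r]).card : ℝ) - (T : ℝ) / r| ≤ 1 := by
  have h := Nat.Ico_filter_modEq_card T (2 * T) hr v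
  have hr' : (0 : ℚ) < r := by exact_mod_cast hr
  have e1 : ((2 * T : ℕ) - v : ℚ) / (r : ℚ) = ((T : ℕ) - v : ℚ) / (r : ℚ) + (T : ℚ) / r := by
    push_cast
    field_simp
    ring
  have h2 := Int.ceil_lt_add_one (((2 * T : ℕ) - v : ℚ) / (r : ℚ))
  have h3 := Int.le_ceil (((T : ℕ) - v : ℚ) / (r : ℚ))
  have h2' := Int.le_ceil (((2 * T : ℕ) - v : ℚ) / (r : ℚ))
  have h3' := Int.ceil_lt_add_one (((T : ℕ) - v : ℚ) / (r : ℚ))
  have hTr : 0 ≤ (T : ℚ) / r := by positivity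
  have h5 : ⌈((T : ℕ) - v : ℚ) / (r : ℚ)⌉ ≤ ⌈((2 * T : ℕ) - v : ℚ) / (r : ℚ)⌉ := by
    apply Int.ceil_le_ceil
    rw [e1]
    linarith
  have h4 : (((((Ico T (2 * T)).filter fun t => t ≡ v [MOD r]).card : ℕ) : ℤ) : ℚ) =
      (⌈((2 * T : ℕ) - v : ℚ) / (r : ℚ)⌉ : ℚ) - (⌈((T : ℕ) - v : ℚ) / (r : ℚ)⌉ : ℚ) := by
    rw [h, max_eq_left (by linarith)]
    push_cast
    ring
  have h6 : |((((Ico T (2 * T)).filter fun t => t ≡ v [MOD r]).card : ℕ) : ℚ) -
      (T : ℚ) / r| ≤ 1 := by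
    have h7 : ((((Ico T (2 * T)).filter fun t => t ≡ v [MOD r]).card : ℕ) : ℚ) =
        (⌈((2 * T : ℕ) - v : ℚ) / (r : ℚ)⌉ : ℚ) - (⌈((T : ℕ) - v : ℚ) / (r : ℚ)⌉ : ℚ) := by
      exact_mod_cast h4
    rw [h7, abs_le]
    push_cast at *
    constructor <;> linarith
  have h7 := (Rat.cast_le (K := ℝ)).2 h6
  push_cast at h7
  exact h7

/-- The number of `t` in `[T, 2T)` with `g ∣ P t - 1`. -/
theorem abs_card_dvd (P T g : ℕ) (hg : 0 < g) (hP : 1 ≤ P) (hT : 1 ≤ T) (hc : Nat.Coprime g P) :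
    |(((Ico T (2 * T)).filter fun t => g ∣ P * t - 1).card : ℝ) - (T : ℝ) / g| ≤ 1 := by
  obtain ⟨v, hv⟩ : ∃ v : ℕ, P * v ≡ 1 [MOD g] := by
    rcases Nat.lt_or_ge 1 g with h1 | h1
    · obtain ⟨v, hv⟩ := Nat.exists_mul_mod_eq_one_of_coprime hc.symm h1
      refine ⟨v, ?_⟩
      rw [Nat.ModEq, hv.2, Nat.mod_eq_of_lt h1]
    · have : g = 1 := by omega
      subst this
      exact ⟨0, Nat.modEq_one⟩
  have hset : ((Ico T (2 * T)).filter fun t => g ∣ P * t - 1) =
      ((Ico T (2 * T)).filter fun t => t ≡ v [MOD g]) := by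
    apply Finset.filter_congr
    intro t ht
    have ht' := (Finset.mem_Ico.1 ht).1
    have e1 : 1 ≤ P * t := Nat.mul_pos hP (by omega)
    rw [← Nat.modEq_iff_dvd' e1]
    constructor
    · intro h
      exact Nat.ModEq.cancel_left_of_coprime hc (h.symm.trans hv.symm)
    · intro h
      exact hv.symm.trans (h.symm.mul_left P)
  rw [hset]
  exact abs_card_modEq T g v hg

/-- The number of small subsets. -/
theorem card_small (D : Finset ℕ) (r : ℕ) :
    ∑ B ∈ D.powerset, (if B.card ≤ r then (1 : ℝ) else 0) ≤ ((D.card : ℝ) + 1) ^ r := by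
  have h1 : ∑ B ∈ D.powerset, (if B.card ≤ r then (1 : ℝ) else 0) =
      ∑ i ∈ Finset.range (r + 1), (D.card.choose i : ℝ) := by
    have h2 : ∀ B : Finset ℕ, (if B.card ≤ r then (1 : ℝ) else 0) =
        ∑ i ∈ Finset.range (r + 1), if B.card = i then (1 : ℝ) else 0 := by
      intro B
      rw [Finset.sum_ite_eq]
      simp
    rw [Finset.sum_congr rfl fun B _ => h2 B, Finset.sum_comm]
    refine Finset.sum_congr rfl fun i _ => ?_
    rw [← Finset.sum_filter, Finset.sum_const, nsmul_eq_mul, mul_one]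
    rw [← Finset.card_powersetCard i D, Finset.powersetCard_eq_filter]
  rw [h1, add_pow]
  refine Finset.sum_le_sum fun i hi => ?_
  have hi' : i ≤ r := Nat.lt_succ_iff.1 (Finset.mem_range.1 hi)
  have h3 : (D.card.choose i : ℝ) ≤ (D.card : ℝ) ^ i := by
    exact_mod_cast Nat.choose_le_pow D.card i
  have h4 : (1 : ℝ) ≤ (r.choose i : ℝ) := by
    exact_mod_cast Nat.choose_pos hi'
  have h5 : (0 : ℝ) ≤ (D.card : ℝ) ^ i := by positivity
  rw [one_pow, mul_one]
  nlinarith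

/-- the sieving primes -/
noncomputable def DD (w P : ℕ) : Finset ℕ :=
  ((Icc 1 w).filter Nat.Prime).filter fun p => ¬ p ∣ P

/-- rough numbers detected by `DD` -/
theorem rough_iff (w P t : ℕ) (h : 1 ≤ P * t) :
    Rough w (P * t - 1) ↔ ∀ p ∈ DD w P, ¬ p ∣ P * t - 1 := by
  constructor
  · intro hR p hp
    rw [DD, Finset.mem_filter, Finset.mem_filter, Finset.mem_Icc] at hp
    exact hR p hp.1.2 hp.1.1.2
  · intro hD p hp hpw hdvd
    by_cases hpP : p ∣ P
    · have h1 : p ∣ P * t := hpP.mul_right t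
      have h2 : p ∣ 1 := by
        have := Nat.dvd_sub h1 hdvd
        rwa [Nat.sub_sub_self h] at this
      exact hp.one_lt.ne' (Nat.dvd_one.1 h2)
    · refine hD p ?_ hdvd
      rw [DD, Finset.mem_filter, Finset.mem_filter, Finset.mem_Icc]
      exact ⟨⟨⟨hp.one_lt.le, hpw⟩, hp⟩, hpP⟩

theorem card_DD (w P : ℕ) (hw : 1 ≤ w) : ((DD w P).card : ℝ) + 1 ≤ w := by
  have h1 : DD w P ⊆ Finset.Ioc 1 w := by
    intro p hp
    rw [DD, Finset.mem_filter, Finset.mem_filter, Finset.mem_Icc] at hp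
    exact Finset.mem_Ioc.2 ⟨hp.1.2.one_lt, hp.1.1.2⟩
  have h2 := Finset.card_le_card h1
  rw [Nat.card_Ioc] at h2
  have h3 : (DD w P).card + 1 ≤ w := by omega
  exact_mod_cast h3

/-- Product of a set of primes. -/
theorem prod_dvd_iff (B : Finset ℕ) (hB : ∀ p ∈ B, p.Prime) (N : ℕ) :
    (∏ p ∈ B, p) ∣ N ↔ ∀ p ∈ B, p ∣ N := by
  constructor
  · intro h p hp
    exact (Finset.dvd_prod_of_mem _ hp).trans h
  · intro h
    apply Finset.prod_primes_dvd
    · intro p hp
      exact (hB p hp).prime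
    · exact h

/-- Brun's sieve, general form. -/
theorem sieve (w T P u : ℕ) (hw : 1 ≤ w) (hT : 1 ≤ T) (hP : 1 ≤ P) :
    (T : ℝ) * ((∏ p ∈ DD w P, (1 - 1 / (p : ℝ))) -
      (∑ p ∈ DD w P, 1 / (p : ℝ)) ^ (2 * u + 2) / ((2 * u + 2).factorial : ℝ)) -
      (w : ℝ) ^ (2 * u + 1) ≤ ((RR w T P).card : ℝ) := by
  classical
  set D := DD w P with hD
  have hDp : ∀ p ∈ D, p.Prime ∧ ¬ p ∣ P := by
    intro p hp
    rw [hD, DD, Finset.mem_filter, Finset.mem_filter, Finset.mem_Icc] at hp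
    exact ⟨hp.1.2, hp.2⟩
  have hx0 : ∀ p ∈ D, (0 : ℝ) ≤ 1 / (p : ℝ) := fun p _ => by positivity
  have hx1 : ∀ p ∈ D, 1 / (p : ℝ) ≤ 1 := by
    intro p hp
    have : (1 : ℝ) ≤ p := by exact_mod_cast (hDp p hp).1.one_lt.le
    rw [div_le_one (by linarith)]
    exact this
  -- the main term
  have hmain : (∏ p ∈ D, (1 - 1 / (p : ℝ))) -
      (∑ p ∈ D, 1 / (p : ℝ)) ^ (2 * u + 2) / ((2 * u + 2).factorial : ℝ) ≤
      altSum (fun p : ℕ => 1 / (p : ℝ)) D (2 * u + 1) := by
    have h1 := (Pool.Agent.MP0a1886.bonferroni (fun p : ℕ => 1 / (p : ℝ)) D hx0 hx1 (u + 1)).1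
    have h2 := Pool.Agent.MP0a1886.altSum_succ (fun p : ℕ => 1 / (p : ℝ)) D (2 * u + 1)
    have h3 := Pool.Agent.MP0a1886.elemSum_le (fun p : ℕ => 1 / (p : ℝ)) D hx0 (2 * u + 2)
    rw [show 2 * (u + 1) = 2 * u + 1 + 1 by ring] at h1
    have h4 : (-1 : ℝ) ^ (2 * u + 1 + 1) = 1 := by
      rw [show 2 * u + 1 + 1 = 2 * (u + 1) by ring, pow_mul]
      simp
    rw [h4, one_mul] at h2
    rw [h2] at h1
    rw [show 2 * u + 2 = 2 * u + 1 + 1 by ring] at h3 ⊢
    linarith
  -- the count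
  have hcount : ((RR w T P).card : ℝ) =
      ∑ t ∈ Ico T (2 * T), ∏ p ∈ D, (1 - if p ∣ P * t - 1 then (1 : ℝ) else 0) := by
    have h1 : ∀ t ∈ Ico T (2 * T), (∏ p ∈ D, (1 - if p ∣ P * t - 1 then (1 : ℝ) else 0)) =
        if Rough w (P * t - 1) then (1 : ℝ) else 0 := by
      intro t ht
      have ht' := (Finset.mem_Ico.1 ht).1
      have e1 : 1 ≤ P * t := Nat.mul_pos hP (by omega)
      by_cases hR : Rough w (P * t - 1)
      · rw [if_pos hR]
        apply Finset.prod_eq_one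
        intro p hp
        rw [if_neg (((rough_iff w P t e1).1 hR) p hp)]
        ring
      · rw [if_neg hR]
        have h2 : ¬ ∀ p ∈ DD w P, ¬ p ∣ P * t - 1 := fun h => hR ((rough_iff w P t e1).2 h)
        push Not at h2
        obtain ⟨p, hp, hpd⟩ := h2
        refine Finset.prod_eq_zero hp ?_
        rw [if_pos hpd]
        ring
    rw [Finset.sum_congr rfl h1, ← Finset.sum_filter, Finset.sum_const, nsmul_eq_mul, mul_one]
    unfold RR
    congr
  have hbon : ∑ t ∈ Ico T (2 * T),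
      altSum (fun p : ℕ => if p ∣ P * t - 1 then (1 : ℝ) else 0) D (2 * u + 1) ≤
      ((RR w T P).card : ℝ) := by
    rw [hcount]
    refine Finset.sum_le_sum fun t _ => ?_
    refine (Pool.Agent.MP0a1886.bonferroni
      (fun p : ℕ => if p ∣ P * t - 1 then (1 : ℝ) else 0) D ?_ ?_ u).2
    · intro p _
      split_ifs <;> norm_num
    · intro p _
      split_ifs <;> norm_num
  -- exchange
  have hsw : ∑ t ∈ Ico T (2 * T),
      altSum (fun p : ℕ => if p ∣ P * t - 1 then (1 : ℝ) else 0) D (2 * u + 1) =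
      ∑ B ∈ D.powerset, if B.card ≤ 2 * u + 1 then (-1 : ℝ) ^ B.card *
        (((Ico T (2 * T)).filter fun t => (∏ p ∈ B, p) ∣ P * t - 1).card : ℝ) else 0 := by
    unfold altSum
    rw [Finset.sum_comm]
    refine Finset.sum_congr rfl fun B hB => ?_
    have hBp : ∀ p ∈ B, p.Prime := fun p hp => (hDp p (Finset.mem_powerset.1 hB hp)).1
    by_cases hc : B.card ≤ 2 * u + 1
    · simp only [hc, if_true]
      rw [← Finset.mul_sum]
      congr 1
      rw [Finset.card_filter]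
      push_cast
      refine Finset.sum_congr rfl fun t _ => ?_
      by_cases hd : (∏ p ∈ B, p) ∣ P * t - 1
      · rw [if_pos hd]
        apply Finset.prod_eq_one
        intro p hp
        rw [if_pos ((prod_dvd_iff B hBp _).1 hd p hp)]
      · rw [if_neg hd]
        have h2 : ¬ ∀ p ∈ B, p ∣ P * t - 1 := fun h => hd ((prod_dvd_iff B hBp _).2 h)
        push Not at h2
        obtain ⟨p, hp, hpd⟩ := h2
        exact Finset.prod_eq_zero hp (if_neg hpd)
    · simp only [hc, if_false]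
      simp
  have hmain2 : (T : ℝ) * altSum (fun p : ℕ => 1 / (p : ℝ)) D (2 * u + 1) =
      ∑ B ∈ D.powerset, if B.card ≤ 2 * u + 1 then (-1 : ℝ) ^ B.card *
        ((T : ℝ) / ((∏ p ∈ B, p : ℕ) : ℝ)) else 0 := by
    unfold altSum
    rw [Finset.mul_sum]
    refine Finset.sum_congr rfl fun B _ => ?_
    by_cases hc : B.card ≤ 2 * u + 1
    · simp only [hc, if_true]
      have : ∏ p ∈ B, (1 / (p : ℝ)) = 1 / ((∏ p ∈ B, p : ℕ) : ℝ) := by
        rw [Finset.prod_div_distrib]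
        simp
      rw [this]
      ring
    · simp only [hc, if_false]
      ring
  have hdiff : (T : ℝ) * altSum (fun p : ℕ => 1 / (p : ℝ)) D (2 * u + 1) -
      ∑ t ∈ Ico T (2 * T),
      altSum (fun p : ℕ => if p ∣ P * t - 1 then (1 : ℝ) else 0) D (2 * u + 1) ≤
      (w : ℝ) ^ (2 * u + 1) := by
    rw [hsw, hmain2, ← Finset.sum_sub_distrib]
    calc ∑ B ∈ D.powerset, ((if B.card ≤ 2 * u + 1 then (-1 : ℝ) ^ B.card *
        ((T : ℝ) / ((∏ p ∈ B, p : ℕ) : ℝ)) else 0) - (if B.card ≤ 2 * u + 1 then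
          (-1 : ℝ) ^ B.card *
        (((Ico T (2 * T)).filter fun t => (∏ p ∈ B, p) ∣ P * t - 1).card : ℝ) else 0))
        ≤ ∑ B ∈ D.powerset, (if B.card ≤ 2 * u + 1 then (1 : ℝ) else 0) := by
          refine Finset.sum_le_sum fun B hB => ?_
          by_cases hc : B.card ≤ 2 * u + 1
          · simp only [hc, if_true]
            rw [← mul_sub]
            have hBp : ∀ p ∈ B, p.Prime := fun p hp => (hDp p (Finset.mem_powerset.1 hB hp)).1
            have hpos : 0 < ∏ p ∈ B, p := Finset.prod_pos fun p hp => (hBp p hp).pos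
            have hcop : Nat.Coprime (∏ p ∈ B, p) P := by
              apply Nat.Coprime.prod_left
              intro p hp
              exact ((hBp p hp).coprime_iff_not_dvd).2 (hDp p (Finset.mem_powerset.1 hB hp)).2
            have h := abs_card_dvd P T (∏ p ∈ B, p) hpos hP hT hcop
            refine le_trans (le_abs_self _) ?_
            rw [abs_mul, abs_pow, abs_neg, abs_one, one_pow, one_mul, abs_sub_comm]
            exact h
          · simp only [hc, if_false]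
            simp
      _ ≤ ((D.card : ℝ) + 1) ^ (2 * u + 1) := card_small D (2 * u + 1)
      _ ≤ (w : ℝ) ^ (2 * u + 1) := by
          apply pow_le_pow_left₀ (by positivity)
          exact card_DD w P hw
  have hT0 : (0 : ℝ) ≤ T := by positivity
  have := mul_le_mul_of_nonneg_left hmain hT0
  linarith

/-- lower bound of the product -/
theorem prod_ge (w P : ℕ) (l : ℝ) (hl : ∑ p ∈ (Icc 1 w).filter Nat.Prime, (1 : ℝ) / p ≤ l) :
    Real.exp (-2 * l) ≤ ∏ p ∈ DD w P, (1 - 1 / (p : ℝ)) := by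
  have hle : ∑ p ∈ DD w P, (1 : ℝ) / p ≤ l := by
    refine le_trans ?_ hl
    unfold DD
    apply Finset.sum_le_sum_of_subset_of_nonneg (Finset.filter_subset _ _)
    intro i _ _
    positivity
  have h1 : Real.exp (-2 * ∑ p ∈ DD w P, 1 / (p : ℝ)) ≤ ∏ p ∈ DD w P, (1 - 1 / (p : ℝ)) := by
    rw [Finset.mul_sum, Real.exp_sum]
    apply Finset.prod_le_prod
    · intro i _; exact (Real.exp_pos _).le
    · intro p hp
      rw [DD, Finset.mem_filter, Finset.mem_filter, Finset.mem_Icc] at hp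
      have h2 : (2 : ℝ) ≤ p := by exact_mod_cast hp.1.2.two_le
      refine Pool.Agent.MP0a1886.exp_neg_two_le (by positivity) ?_
      rw [div_le_div_iff₀ (by linarith) (by norm_num)]
      linarith
  refine le_trans (Real.exp_le_exp.2 ?_) h1
  linarith

/-- the tail -/
theorem tail_le (s : ℝ) (K : ℕ) (hs : 0 ≤ s) (h : Real.exp 2 * s ≤ K) :
    s ^ K / (K.factorial : ℝ) ≤ Real.exp (-(K : ℝ)) := by
  have hK : (0 : ℝ) < (K.factorial : ℝ) := by positivity
  rw [div_le_iff₀ hK]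
  -- K^K / K! ≤ exp K
  have h1 : (K : ℝ) ^ K / (K.factorial : ℝ) ≤ Real.exp K := by
    have := Real.pow_div_factorial_le_exp (K : ℝ) (by positivity) K
    exact this
  rw [div_le_iff₀ hK] at h1
  have h2 : s ≤ K * Real.exp (-2) := by
    rw [Real.exp_neg, ← div_eq_mul_inv, le_div_iff₀ (Real.exp_pos _)]
    linarith
  calc s ^ K ≤ (K * Real.exp (-2)) ^ K := pow_le_pow_left₀ hs h2 K
    _ = (K : ℝ) ^ K * Real.exp (-2 * K) := by
        rw [mul_pow, ← Real.exp_nat_mul]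
        congr 2
        ring
    _ ≤ (Real.exp K * (K.factorial : ℝ)) * Real.exp (-2 * K) := by
        apply mul_le_mul_of_nonneg_right h1 (Real.exp_pos _).le
    _ = Real.exp (-(K : ℝ)) * (K.factorial : ℝ) := by
        rw [show Real.exp (K : ℝ) * (K.factorial : ℝ) * Real.exp (-2 * K) =
          (Real.exp (K : ℝ) * Real.exp (-2 * K)) * (K.factorial : ℝ) by ring, ← Real.exp_add]
        congr 2
        ring

end Brun

open Brun in
/-- `StmtBrunG` from Chebyshev's upper bound. -/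
theorem brunG (hU : StmtUp) : StmtBrunG := by
  refine ⟨300, fun J P T hJ hP hT => ?_⟩
  set L := Nat.log 2 J + 1 with hL
  have hJ0 : (0 : ℝ) < J := by
    have : (0 : ℕ) < J := by omega
    exact_mod_cast this
  have hJ300 : (300 : ℝ) ≤ J := by exact_mod_cast hJ
  have hJL : J < 2 ^ L := Nat.lt_pow_succ_log_self (by norm_num) J
  have hJL' : (J : ℝ) ≤ 2 ^ L := by exact_mod_cast hJL.le
  have hL8 : 9 ≤ L := by
    by_contra hcon
    have : 2 ^ L ≤ 2 ^ 8 := Nat.pow_le_pow_right (by norm_num) (by omega)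
    norm_num at this
    omega
  have hL8' : (9 : ℝ) ≤ L := by exact_mod_cast hL8
  have hlogJ : Real.log J ≤ L * 0.6931471808 := by
    calc Real.log J ≤ Real.log (2 ^ L) := Real.log_le_log hJ0 hJL'
      _ = L * Real.log 2 := Real.log_pow 2 L
      _ ≤ _ := by
        have := Real.log_two_lt_d9
        gcongr
  have hlogJ0 : 0 ≤ Real.log J := Real.log_nonneg (by linarith)
  have hsum := hU J (by omega)
  have hT1 : 1 ≤ T := le_trans Nat.one_le_two_pow hT
  have hT0 : (0 : ℝ) < T := by exact_mod_cast hT1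
  have hsv := sieve (2 ^ J) T P (15 * L - 1) Nat.one_le_two_pow hT1 hP
  have hK : 2 * (15 * L - 1) + 2 = 30 * L := by omega
  have hK1 : 2 * (15 * L - 1) + 1 = 30 * L - 1 := by omega
  rw [hK, hK1] at hsv
  have hprod := prod_ge (2 ^ J) P (5 + 4 * Real.log J) hsum
  have hs0 : 0 ≤ ∑ p ∈ DD (2 ^ J) P, 1 / (p : ℝ) := Finset.sum_nonneg fun _ _ => by positivity
  have hsle : ∑ p ∈ DD (2 ^ J) P, (1 : ℝ) / p ≤ 5 + 4 * Real.log J := by
    refine le_trans ?_ hsum
    unfold DD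
    apply Finset.sum_le_sum_of_subset_of_nonneg (Finset.filter_subset _ _)
    intro i _ _
    positivity
  have he2 : Real.exp 2 ≤ 7.39 := by
    have h5 : Real.exp 2 = Real.exp 1 * Real.exp 1 := by rw [← Real.exp_add]; norm_num
    have h6 := Real.exp_one_lt_d9
    have h7 := Real.exp_pos 1
    rw [h5]
    nlinarith
  have htail : (∑ p ∈ DD (2 ^ J) P, 1 / (p : ℝ)) ^ (30 * L) / ((30 * L).factorial : ℝ) ≤
      Real.exp (-((30 * L : ℕ) : ℝ)) := by
    apply tail_le _ _ hs0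
    push_cast
    have h8 : ∑ p ∈ DD (2 ^ J) P, (1 : ℝ) / p ≤ 5 + 4 * (L * 0.6931471808) := by linarith
    calc Real.exp 2 * ∑ p ∈ DD (2 ^ J) P, (1 : ℝ) / p ≤ 7.39 * (5 + 4 * (L * 0.6931471808)) := by
          apply mul_le_mul he2 h8 hs0 (by norm_num)
      _ ≤ 30 * L := by nlinarith
  -- exp (-30 L) ≤ J ^ (-30)
  have htail2 : Real.exp (-((30 * L : ℕ) : ℝ)) ≤ 1 / (J : ℝ) ^ 30 := by
    rw [Real.exp_neg, one_div]
    apply inv_anti₀ (by positivity)
    have h9 : (J : ℝ) ≤ Real.exp L := by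
      calc (J : ℝ) = Real.exp (Real.log J) := (Real.exp_log hJ0).symm
        _ ≤ Real.exp L := Real.exp_le_exp.2 (by nlinarith)
    calc (J : ℝ) ^ 30 ≤ (Real.exp L) ^ 30 := pow_le_pow_left₀ hJ0.le h9 30
      _ = Real.exp (((30 * L : ℕ) : ℝ)) := by
          rw [← Real.exp_nat_mul]
          congr 1
          push_cast
          ring
  -- main product
  have hprod2 : 3 / (J : ℝ) ^ 10 ≤ Real.exp (-2 * (5 + 4 * Real.log J)) := by
    have h10 : Real.exp (-2 * (5 + 4 * Real.log J)) = Real.exp (-10) * (1 / (J : ℝ) ^ 8) := by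
      rw [show -2 * (5 + 4 * Real.log J) = -10 + -((8 : ℕ) * Real.log J) by push_cast; ring,
        Real.exp_add, Real.exp_neg ((8 : ℕ) * Real.log J), Real.exp_nat_mul, Real.exp_log hJ0, one_div]
    rw [h10]
    have h11 : Real.exp 10 ≤ 22200 := by
      have h5 : Real.exp 10 = (Real.exp 1) ^ 10 := by
        rw [← Real.exp_nat_mul]; norm_num
      have h6 := Real.exp_one_lt_d9
      rw [h5]
      calc (Real.exp 1) ^ 10 ≤ (2.7182818286 : ℝ) ^ 10 :=
            pow_le_pow_left₀ (Real.exp_pos 1).le h6.le 10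
        _ ≤ 22200 := by norm_num
    have h12 : (1 : ℝ) / 22200 ≤ Real.exp (-10) := by
      rw [Real.exp_neg, one_div]
      exact inv_anti₀ (Real.exp_pos _) h11
    calc 3 / (J : ℝ) ^ 10 = (3 / (J : ℝ) ^ 2) * (1 / (J : ℝ) ^ 8) := by
          field_simp
      _ ≤ (1 / 22200) * (1 / (J : ℝ) ^ 8) := by
          apply mul_le_mul_of_nonneg_right _ (by positivity)
          rw [div_le_div_iff₀ (by positivity) (by norm_num)]
          nlinarith
      _ ≤ Real.exp (-10) * (1 / (J : ℝ) ^ 8) := by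
          apply mul_le_mul_of_nonneg_right h12 (by positivity)
  have h30 : 1 / (J : ℝ) ^ 30 ≤ 1 / (J : ℝ) ^ 10 := by
    apply one_div_le_one_div_of_le (by positivity)
    exact pow_le_pow_right₀ (by linarith) (by norm_num)
  -- error term
  have herr : ((2 ^ J : ℕ) : ℝ) ^ (30 * L - 1) ≤ T / (J : ℝ) ^ 10 := by
    rw [le_div_iff₀ (by positivity)]
    have hN : (2 ^ J) ^ (30 * L - 1) * J ^ 10 ≤ T := by
      calc (2 ^ J) ^ (30 * L - 1) * J ^ 10 ≤ (2 ^ J) ^ (30 * L) * (2 ^ L) ^ 10 := by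
            apply Nat.mul_le_mul
            · exact Nat.pow_le_pow_right (by positivity) (by omega)
            · exact Nat.pow_le_pow_left hJL.le 10
        _ = 2 ^ (J * (30 * L) + L * 10) := by
            rw [← pow_mul, ← pow_mul, ← pow_add]
        _ ≤ 2 ^ (100 * J * L) := by
            apply Nat.pow_le_pow_right (by norm_num)
            nlinarith
        _ ≤ T := hT
    exact_mod_cast hN
  calc (T : ℝ) / (J : ℝ) ^ 10 = T * (3 / (J : ℝ) ^ 10 - 1 / (J : ℝ) ^ 10) - T / (J : ℝ) ^ 10 := by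
        field_simp
        ring
    _ ≤ T * ((∏ p ∈ DD (2 ^ J) P, (1 - 1 / (p : ℝ))) -
        (∑ p ∈ DD (2 ^ J) P, 1 / (p : ℝ)) ^ (30 * L) / ((30 * L).factorial : ℝ)) -
        ((2 ^ J : ℕ) : ℝ) ^ (30 * L - 1) := by
        apply sub_le_sub _ herr
        apply mul_le_mul_of_nonneg_left _ hT0.le
        linarith
    _ ≤ _ := hsv

/-- `StmtBrun` is the case `J = m ^ 2`. -/
theorem brun_of_brunG (h : StmtBrunG) : StmtBrun := by
  obtain ⟨J₀, hJ₀⟩ := h
  refine ⟨max J₀ 512, fun m P T hm hP hT => ?_⟩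
  have hm1 : J₀ ≤ m := le_trans (le_max_left _ _) hm
  have hm2 : 512 ≤ m := le_trans (le_max_right _ _) hm
  have hmm : J₀ ≤ m ^ 2 := by nlinarith
  set l := Nat.log 2 m with hl
  have hml : m < 2 ^ (l + 1) := Nat.lt_pow_succ_log_self (by norm_num) m
  have hlm : 2 ^ l ≤ m := Nat.pow_log_le_self 2 (by omega)
  have hl9 : 9 ≤ l := by
    by_contra hcon
    have : 2 ^ (l + 1) ≤ 2 ^ 9 := Nat.pow_le_pow_right (by norm_num) (by omega)
    norm_num at this
    omega
  have hlog : Nat.log 2 (m ^ 2) + 1 ≤ 2 * (l + 1) := by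
    have h1 : m ^ 2 < 2 ^ (2 * (l + 1)) := by
      rw [mul_comm, pow_mul]
      exact Nat.pow_lt_pow_left hml (by norm_num)
    have h2 : Nat.log 2 (m ^ 2) < 2 * (l + 1) := Nat.log_lt_of_lt_pow (by positivity) h1
    omega
  have hpow : 200 * (l + 1) ≤ 8 * 2 ^ l := by
    have : ∀ j, 9 ≤ j → 200 * (j + 1) ≤ 8 * 2 ^ j := by
      intro j hj
      induction j, hj using Nat.le_induction with
      | base => norm_num
      | succ j hj ih =>
        rw [pow_succ]
        omega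
    exact this l hl9
  have hexp : 100 * m ^ 2 * (Nat.log 2 (m ^ 2) + 1) ≤ 8 * m ^ 3 := by
    calc 100 * m ^ 2 * (Nat.log 2 (m ^ 2) + 1) ≤ 100 * m ^ 2 * (2 * (l + 1)) :=
          Nat.mul_le_mul_left _ hlog
      _ = m ^ 2 * (200 * (l + 1)) := by ring
      _ ≤ m ^ 2 * (8 * 2 ^ l) := Nat.mul_le_mul_left _ hpow
      _ ≤ m ^ 2 * (8 * m) := Nat.mul_le_mul_left _ (Nat.mul_le_mul_left _ hlm)
      _ = 8 * m ^ 3 := by ring
  have := hJ₀ (m ^ 2) P T hmm hP (le_trans (Nat.pow_le_pow_right (by norm_num) hexp) hT)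
  have e : ((m ^ 2 : ℕ) : ℝ) ^ 10 = (m : ℝ) ^ 20 := by
    push_cast
    ring
  rw [e] at this
  exact this

/-- Brun's pure sieve. -/
theorem brun (hU : StmtUp) : StmtBrun := brun_of_brunG (brunG hU)

end Pool.Agent.Lib.MP_85a137_nt
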