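import Pool.Agent.Lib.MP_85a137_nt.Spec3

/-!
# MP_85a137_nt, third version: the small factors
-/

set_option autoImplicit false

namespace Pool.Agent.Lib.MP_85a137_nt

namespace CCM

open Finset ArithmeticFunction

/-- the weight `z^Ω(c) / c` -/
noncomputable def wt : ℕ →*₀ ℝ where
  toFun c := if c = 0 then 0 else (3 / 2 : ℝ) ^ cardFactors c / c
  map_zero' := by simp
  map_one' := by simp
  map_mul' := by
    intro a b
    by_cases ha : a = 0
    · simp [ha]
    by_cases hb : b = 0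
    · simp [hb]
    rw [if_neg ha, if_neg hb, if_neg (mul_ne_zero ha hb), cardFactors_mul ha hb, pow_add]
    push_cast
    field_simp

theorem wt_apply {c : ℕ} (hc : c ≠ 0) : wt c = (3 / 2 : ℝ) ^ cardFactors c / c := if_neg hc

theorem wt_nonneg (c : ℕ) : 0 ≤ wt c := by
  by_cases hc : c = 0
  · rw [hc, _root_.map_zero]
  · rw [wt_apply hc]
    positivity

theorem wt_prime {p : ℕ} (hp : p.Prime) : wt p = 3 / 2 * (1 / p) := by
  rw [wt_apply hp.ne_zero, cardFactors_apply_prime hp]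
  ring

theorem wt_prime_le {p : ℕ} (hp : p.Prime) : wt p ≤ 3 / 4 := by
  rw [wt_prime hp]
  have h2 : (2 : ℝ) ≤ p := by exact_mod_cast hp.two_le
  have h3 : (1 : ℝ) / p ≤ 1 / 2 := one_div_le_one_div_of_le (by norm_num) h2
  linarith

theorem inv_le_exp {x : ℝ} (h0 : 0 ≤ x) (h1 : x ≤ 3 / 4) : (1 - x)⁻¹ ≤ Real.exp (4 * x) := by
  have h2 : 0 < 1 - x := by linarith
  rw [inv_le_comm₀ h2 (Real.exp_pos _)]
  have h3 : 1 + 4 * x ≤ Real.exp (4 * x) := by
    have := Real.add_one_le_exp (4 * x)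
    linarith
  calc (Real.exp (4 * x))⁻¹ ≤ (1 + 4 * x)⁻¹ := inv_anti₀ (by linarith) h3
    _ ≤ 1 - x := by
        rw [inv_le_iff_one_le_mul₀ (by linarith)]
        nlinarith

theorem sum_wt_le (N : ℕ) : ∑ c ∈ Ico 1 N, wt c ≤
    Real.exp (6 * ∑ p ∈ N.primesBelow, (1 : ℝ) / p) := by
  have h := EulerProduct.summable_and_hasSum_smoothNumbers_prod_primesBelow_geometric (f := (wt : ℕ →* ℝ))
    (fun {p} hp => by
      change ‖wt p‖ < 1
      rw [Real.norm_of_nonneg (wt_nonneg p)]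
      exact (wt_prime_le hp).trans_lt (by norm_num)) N
  have h1 : ∑ c ∈ Ico 1 N, wt c ≤ ∏ p ∈ N.primesBelow, (1 - wt p)⁻¹ := by
    have hmem : ∀ c ∈ Ico 1 N, c ∈ N.smoothNumbers := by
      intro c hc
      rw [mem_Ico] at hc
      exact Nat.mem_smoothNumbers_of_lt (by omega) hc.2
    have h2 : ∑ c ∈ Ico 1 N, wt c = ∑ c ∈ (Ico 1 N).subtype (· ∈ N.smoothNumbers), wt c := by
      rw [Finset.sum_subtype_eq_sum_filter, Finset.filter_true_of_mem hmem]
    rw [h2]
    exact sum_le_hasSum _ (fun c _ => wt_nonneg c) h.2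
  refine h1.trans ?_
  rw [Finset.mul_sum, Real.exp_sum]
  refine Finset.prod_le_prod (fun p hp => ?_) (fun p hp => ?_)
  · have := wt_prime_le (Nat.prime_of_mem_primesBelow hp)
    exact inv_nonneg.2 (by linarith)
  · have hp' := Nat.prime_of_mem_primesBelow hp
    refine (inv_le_exp (wt_nonneg p) (wt_prime_le hp')).trans (le_of_eq ?_)
    rw [wt_prime hp']
    congr 1
    ring

end CCM

open Finset ArithmeticFunction CCM

theorem cc (h : StmtUp) : StmtCC := by
  refine ⟨16, fun m hm => ?_⟩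
  obtain ⟨L, hL⟩ : ∃ L : ℕ, L = Nat.log 2 m + 1 := ⟨_, rfl⟩
  have hmL : m < 2 ^ L := by
    rw [hL]
    exact Nat.lt_pow_succ_log_self (by norm_num) m
  have hm0 : (16 : ℝ) ≤ m := by exact_mod_cast hm
  -- the harmonic sum
  have hharm : (m : ℝ) / 2 ≤ ∑ c ∈ (Ico 1 (2 ^ m) : Finset ℕ), (1 : ℝ) / c := by
    have h1 := log_add_one_le_harmonic (2 ^ m - 1)
    have h2 : (2 ^ m - 1 : ℕ) + 1 = 2 ^ m := Nat.sub_add_cancel Nat.one_le_two_pow
    have h3 : ((2 ^ m - 1 : ℕ) : ℝ) + 1 = 2 ^ m := by exact_mod_cast h2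
    have h4 : (harmonic (2 ^ m - 1) : ℝ) = ∑ c ∈ (Ico 1 (2 ^ m) : Finset ℕ), (1 : ℝ) / c := by
      rw [harmonic_eq_sum_Icc]
      push_cast
      have : Icc 1 (2 ^ m - 1) = Ico 1 (2 ^ m) := by
        ext c
        simp only [mem_Icc, mem_Ico]
        omega
      rw [this]
      refine Finset.sum_congr rfl fun c _ => ?_
      rw [one_div]
    rw [← h4]
    refine le_trans ?_ h1
    push_cast at h3 ⊢
    rw [h3, Real.log_pow]
    have := Real.log_two_gt_d9
    nlinarith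
  -- the numbers with many prime factors
  have hmany : ∑ c ∈ (Ico 1 (2 ^ m)).filter (fun c => ¬ cardFactors c ≤ 100 * L), (1 : ℝ) / c ≤
      m / 4 := by
    have h1 : ∑ c ∈ (Ico 1 (2 ^ m)).filter (fun c => ¬ cardFactors c ≤ 100 * L), (1 : ℝ) / c ≤
        (2 / 3 : ℝ) ^ (100 * L) * ∑ c ∈ Ico 1 (2 ^ m), wt c := by
      rw [Finset.mul_sum]
      refine le_trans (Finset.sum_le_sum (g := fun c => (2 / 3 : ℝ) ^ (100 * L) * wt c)
        fun c hc => ?_) (Finset.sum_le_sum_of_subset_of_nonneg (Finset.filter_subset _ _)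
          fun c _ _ => mul_nonneg (by positivity) (wt_nonneg c))
      rw [mem_filter, mem_Ico, not_le] at hc
      have hc0 : c ≠ 0 := by omega
      have hcr : (0 : ℝ) < c := by exact_mod_cast Nat.pos_of_ne_zero hc0
      rw [wt_apply hc0]
      have h2 : (1 : ℝ) ≤ (2 / 3 : ℝ) ^ (100 * L) * (3 / 2 : ℝ) ^ cardFactors c := by
        obtain ⟨r, hr⟩ := Nat.exists_eq_add_of_le hc.2.le
        rw [hr, pow_add, ← mul_assoc, ← mul_pow]
        have : (2 / 3 : ℝ) * (3 / 2) = 1 := by norm_num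
        rw [this, one_pow, one_mul]
        exact one_le_pow₀ (by norm_num)
      calc (1 : ℝ) / c ≤ ((2 / 3 : ℝ) ^ (100 * L) * (3 / 2 : ℝ) ^ cardFactors c) / c :=
            div_le_div_of_nonneg_right h2 hcr.le
        _ = _ := by ring
    have h2 : ∑ c ∈ Ico 1 (2 ^ m), wt c ≤ Real.exp 30 * (m : ℝ) ^ 24 := by
      refine (sum_wt_le (2 ^ m)).trans ?_
      have h3 := h m (by omega)
      have h4 : ∑ p ∈ Nat.primesBelow (2 ^ m), (1 : ℝ) / p ≤
          ∑ p ∈ (Icc 1 (2 ^ m)).filter Nat.Prime, (1 : ℝ) / p := by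
        refine Finset.sum_le_sum_of_subset_of_nonneg (fun p hp => ?_) fun p _ _ => by positivity
        rw [mem_filter, mem_Icc]
        exact ⟨⟨(Nat.prime_of_mem_primesBelow hp).one_le, (Nat.lt_of_mem_primesBelow hp).le⟩,
          Nat.prime_of_mem_primesBelow hp⟩
      have h5 : 6 * ∑ p ∈ Nat.primesBelow (2 ^ m), (1 : ℝ) / p ≤ 30 + 24 * Real.log m := by
        linarith
      calc Real.exp (6 * ∑ p ∈ Nat.primesBelow (2 ^ m), (1 : ℝ) / p)
          ≤ Real.exp (30 + 24 * Real.log m) := Real.exp_le_exp.2 h5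
        _ = Real.exp 30 * (m : ℝ) ^ 24 := by
            rw [Real.exp_add]
            congr 1
            have : (24 : ℝ) * Real.log m = ((24 : ℕ) : ℝ) * Real.log m := by norm_num
            rw [this, Real.exp_nat_mul, Real.exp_log (by linarith)]
    have h3 : (2 / 3 : ℝ) ^ (100 * L) ≤ ((m : ℝ) ^ 50)⁻¹ := by
      have h4 : (2 / 3 : ℝ) ^ (100 * L) = (((2 / 3 : ℝ) ^ 2) ^ 50) ^ L := by
        rw [← pow_mul, ← pow_mul]
        congr 1
        ring
      have h5 : (((2 / 3 : ℝ) ^ 2) ^ 50) ^ L ≤ (((1 / 2 : ℝ)) ^ 50) ^ L :=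
        pow_le_pow_left₀ (by positivity) (pow_le_pow_left₀ (by positivity) (by norm_num) 50) L
      have h6 : (((1 / 2 : ℝ)) ^ 50) ^ L = (((2 : ℝ) ^ L) ^ 50)⁻¹ := by
        rw [← pow_mul, ← pow_mul, one_div, inv_pow, mul_comm]
      rw [h4]
      refine h5.trans ?_
      rw [h6]
      refine inv_anti₀ (by positivity) (pow_le_pow_left₀ (by linarith) ?_ 50)
      exact_mod_cast hmL.le
    have h7 : Real.exp 30 ≤ 2 ^ 60 := by
      have h8 : Real.exp 1 ≤ 4 := by
        have := Real.exp_one_lt_d9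
        linarith
      have h9 : Real.exp 30 = Real.exp 1 ^ 30 := by
        rw [← Real.exp_nat_mul]
        norm_num
      rw [h9]
      calc Real.exp 1 ^ 30 ≤ 4 ^ 30 := pow_le_pow_left₀ (Real.exp_pos 1).le h8 30
        _ = 2 ^ 60 := by norm_num
    have h10 : (2 : ℝ) ^ 60 * 4 ≤ (m : ℝ) ^ 27 := by
      calc (2 : ℝ) ^ 60 * 4 ≤ 16 ^ 27 := by norm_num
        _ ≤ (m : ℝ) ^ 27 := pow_le_pow_left₀ (by norm_num) hm0 27
    refine h1.trans ?_
    have hsum0 : 0 ≤ ∑ c ∈ Ico 1 (2 ^ m), wt c := Finset.sum_nonneg fun c _ => wt_nonneg c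
    calc (2 / 3 : ℝ) ^ (100 * L) * ∑ c ∈ Ico 1 (2 ^ m), wt c
        ≤ ((m : ℝ) ^ 50)⁻¹ * (Real.exp 30 * (m : ℝ) ^ 24) :=
          mul_le_mul h3 h2 hsum0 (by positivity)
      _ ≤ ((m : ℝ) ^ 50)⁻¹ * ((m : ℝ) ^ 27 / 4 * (m : ℝ) ^ 24) := by
          refine mul_le_mul_of_nonneg_left ?_ (by positivity)
          refine mul_le_mul_of_nonneg_right ?_ (by positivity)
          linarith
      _ = m / 4 := by
          have : (m : ℝ) ≠ 0 := by linarith
          field_simp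
  have hsplit := Finset.sum_filter_add_sum_filter_not (Ico 1 (2 ^ m))
    (fun c => cardFactors c ≤ 100 * L) (fun c => (1 : ℝ) / c)
  have hCC : CC m = (Ico 1 (2 ^ m)).filter fun c => cardFactors c ≤ 100 * L := by
    rw [hL]
    rfl
  rw [hCC]
  linarith

end Pool.Agent.Lib.MP_85a137_nt
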