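import Pool.Agent.Lib.MP_85a137_nt.Spec3

set_option autoImplicit false

namespace Pool.Agent.Lib.MP_85a137_nt

open Finset Filter Topology

namespace Main3M

/-- the integer parameters -/
theorem params (s m ρ Λ : ℕ) (hs : 1 ≤ s) (hm : 1 ≤ m) (hρ : 1 ≤ ρ) (hΛρ : Λ < 2 ^ ρ)
    (hB : 200 * s * (Nat.log 2 m + 1) ^ 2 * (1100 * ρ * (Nat.log 2 m + 1)) ≤ m)
    (hC : 34 * m ^ 2 ≤ 200 * Λ * (Nat.log 2 m + 1) ^ 2) :
    ∃ n J u R : ℕ, 1100 ≤ n ∧ 200 * s * (Nat.log 2 m + 1) ^ 2 * n ≤ m ∧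
      m < 200 * s * (Nat.log 2 m + 1) ^ 2 * (n + 1) ∧ m ≤ J ∧ 16 ≤ n ∧ 4 * n ≤ m ∧ s * n ≤ m ∧
      100 * J * (Nat.log 2 J + 1) ≤ 4 * m * n ∧ 7 * m * n + 1 ≤ J * u ∧ 2 * u + 2 * n + 7 ≤ J ∧
      1 ≤ R ∧ 32 * u * J ^ 10 * R ^ (2 * u + 1) < 2 ^ J ∧ 4 * J ^ 10 * R ^ u ≤ 2 ^ (n / 2) ∧
      200 * n * (Nat.log 2 m + 1) ^ 2 ≤ m ∧ 34 * m * n * R ≤ Λ ∧ Λ < 34 * m * n * (R + 1) := by
  obtain ⟨ℓ, hℓ⟩ : ∃ ℓ, ℓ = Nat.log 2 m + 1 := ⟨_, rfl⟩
  have hmlt : m < 2 ^ ℓ := by rw [hℓ]; exact Nat.lt_pow_succ_log_self (by norm_num) m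
  rw [← hℓ] at hB hC ⊢
  have hℓ1 : 1 ≤ ℓ := by omega
  have hd : 0 < 200 * s * ℓ ^ 2 := by positivity
  obtain ⟨n, hn⟩ : ∃ n, n = m / (200 * s * ℓ ^ 2) := ⟨_, rfl⟩
  have hn1 : 200 * s * ℓ ^ 2 * n ≤ m := by rw [hn]; exact Nat.mul_div_le _ _
  have hn2 : m < 200 * s * ℓ ^ 2 * (n + 1) := by
    rw [hn]; exact Nat.lt_mul_div_succ _ hd
  have hn3 : 1100 * ρ * ℓ ≤ n := by
    rw [hn, Nat.le_div_iff_mul_le hd, mul_comm]
    exact hB
  have hρℓ : 1 ≤ ρ * ℓ := Nat.mul_le_mul hρ hℓ1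
  have hℓρ : ℓ ≤ ρ * ℓ := Nat.le_mul_of_pos_left _ hρ
  have hρρ : ρ ≤ ρ * ℓ := Nat.le_mul_of_pos_right _ hℓ1
  have hn4 : 1100 * (ρ * ℓ) ≤ n := by rw [← mul_assoc]; exact hn3
  have hn5 : 200 * s * ℓ ^ 2 * n = 200 * n * (s * ℓ ^ 2) := by ring
  have hsl : 1 ≤ s * ℓ ^ 2 := Nat.mul_le_mul hs (Nat.one_le_pow _ _ hℓ1)
  have h200 : 200 * n ≤ m := by
    calc 200 * n = 200 * n * 1 := by ring
      _ ≤ 200 * n * (s * ℓ ^ 2) := Nat.mul_le_mul_left _ hsl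
      _ ≤ m := by rw [← hn5]; exact hn1
  have hsn : s * n ≤ m := by
    have h1 : s ≤ 200 * s * ℓ ^ 2 := by
      calc s = 1 * s * 1 := by ring
        _ ≤ 200 * s * ℓ ^ 2 := by
          apply Nat.mul_le_mul
          · exact Nat.mul_le_mul_right _ (by norm_num)
          · exact Nat.one_le_pow _ _ hℓ1
    exact (Nat.mul_le_mul_right _ h1).trans hn1
  have h200ℓ : 200 * n * ℓ ^ 2 ≤ m := by
    have h1 : ℓ ^ 2 ≤ s * ℓ ^ 2 := Nat.le_mul_of_pos_left _ hs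
    calc 200 * n * ℓ ^ 2 ≤ 200 * n * (s * ℓ ^ 2) := Nat.mul_le_mul_left _ h1
      _ ≤ m := by rw [← hn5]; exact hn1
  obtain ⟨J, hJ⟩ : ∃ J, J = m * n / (50 * ℓ) := ⟨_, rfl⟩
  have h50 : 0 < 50 * ℓ := by positivity
  have hJ1 : 50 * ℓ * J ≤ m * n := by rw [hJ]; exact Nat.mul_div_le _ _
  have hJ2 : m * n < 50 * ℓ * (J + 1) := by rw [hJ]; exact Nat.lt_mul_div_succ _ h50
  have hJ3 : 22 * m ≤ J := by
    rw [hJ, Nat.le_div_iff_mul_le h50]
    have h1 : 22 * (50 * ℓ) ≤ n := by omega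
    calc 22 * m * (50 * ℓ) = m * (22 * (50 * ℓ)) := by ring
      _ ≤ m * n := Nat.mul_le_mul_left _ h1
  -- `J < 2 ^ (2ℓ)`
  have hJ4 : J < 2 ^ (2 * ℓ) := by
    have h1 : J ≤ m * n := by
      have h2 : J ≤ 50 * ℓ * J := Nat.le_mul_of_pos_left _ h50
      exact h2.trans hJ1
    have h2 : m * n ≤ m * m := Nat.mul_le_mul_left _ (by omega)
    have h3 : m * m < 2 ^ ℓ * 2 ^ ℓ := Nat.mul_lt_mul'' hmlt hmlt
    have h4 : (2 : ℕ) ^ (2 * ℓ) = 2 ^ ℓ * 2 ^ ℓ := by rw [two_mul, pow_add]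
    omega
  have hJ0 : J ≠ 0 := by omega
  have hlogJ : Nat.log 2 J + 1 ≤ 2 * ℓ := Nat.log_lt_of_lt_pow hJ0 hJ4
  have h100 : 100 * J * (Nat.log 2 J + 1) ≤ 4 * m * n := by
    calc 100 * J * (Nat.log 2 J + 1) ≤ 100 * J * (2 * ℓ) := Nat.mul_le_mul_left _ hlogJ
      _ = 4 * (50 * ℓ * J) := by ring
      _ ≤ 4 * (m * n) := Nat.mul_le_mul_left _ hJ1
      _ = 4 * m * n := by ring
  have hmn : 220 * ℓ ≤ m * n := by
    have h1 : 220 * ℓ ≤ n := by omega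
    exact h1.trans (Nat.le_mul_of_pos_left _ hm)
  have h7 : 7 * m * n + 1 ≤ J * (500 * ℓ) := by
    have h1 : J * (500 * ℓ) = 10 * (50 * ℓ * J) := by ring
    have h2 : 50 * ℓ * (J + 1) = 50 * ℓ * J + 50 * ℓ := by ring
    have h3 : 7 * m * n = 7 * (m * n) := by ring
    omega
  have hR0 : 0 < 34 * m * n := by
    have : 1 ≤ n := by omega
    positivity
  obtain ⟨R, hR⟩ : ∃ R, R = Λ / (34 * m * n) := ⟨_, rfl⟩
  have hR1 : 34 * m * n * R ≤ Λ := by rw [hR]; exact Nat.mul_div_le _ _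
  have hR2 : Λ < 34 * m * n * (R + 1) := by rw [hR]; exact Nat.lt_mul_div_succ _ hR0
  have hR3 : 1 ≤ R := by
    rw [hR, Nat.le_div_iff_mul_le hR0, one_mul]
    have h1 : 34 * m * n * (200 * ℓ ^ 2) ≤ Λ * (200 * ℓ ^ 2) := by
      calc 34 * m * n * (200 * ℓ ^ 2) = 34 * m * (200 * n * ℓ ^ 2) := by ring
        _ ≤ 34 * m * m := Nat.mul_le_mul_left _ h200ℓ
        _ = 34 * m ^ 2 := by ring
        _ ≤ 200 * Λ * ℓ ^ 2 := hC
        _ = Λ * (200 * ℓ ^ 2) := by ring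
    exact Nat.le_of_mul_le_mul_right h1 (by positivity)
  have hR4 : R ≤ 2 ^ ρ := by
    have h1 : R ≤ 34 * m * n * R := Nat.le_mul_of_pos_left _ hR0
    omega
  have hJ5 : J ^ 10 ≤ 2 ^ (20 * ℓ) := by
    have h1 := Nat.pow_le_pow_left hJ4.le 10
    rw [← pow_mul] at h1
    have h2 : 2 * ℓ * 10 = 20 * ℓ := by ring
    rwa [h2] at h1
  have hpow : ∀ a, R ^ a ≤ 2 ^ (ρ * a) := by
    intro a
    have h1 := Nat.pow_le_pow_left hR4 a
    rwa [← pow_mul] at h1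
  have hu : 500 * ℓ ≤ 2 ^ (9 + ℓ) := by
    rw [pow_add]
    exact Nat.mul_le_mul (by norm_num) Nat.lt_two_pow_self.le
  refine ⟨n, J, 500 * ℓ, R, by omega, hn1, hn2, by omega, by omega, by omega, hsn, h100, h7,
    by omega, hR3, ?_, ?_, h200ℓ, hR1, hR2⟩
  · calc 32 * (500 * ℓ) * J ^ 10 * R ^ (2 * (500 * ℓ) + 1)
        ≤ 2 ^ 5 * 2 ^ (9 + ℓ) * 2 ^ (20 * ℓ) * 2 ^ (ρ * (2 * (500 * ℓ) + 1)) := by
          apply Nat.mul_le_mul _ (hpow _)
          apply Nat.mul_le_mul _ hJ5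
          exact Nat.mul_le_mul (by norm_num) hu
      _ = 2 ^ (5 + (9 + ℓ) + 20 * ℓ + ρ * (2 * (500 * ℓ) + 1)) := by
          rw [← pow_add, ← pow_add, ← pow_add]
      _ < 2 ^ J := by
          apply Nat.pow_lt_pow_right (by norm_num)
          have h1 : ρ * (2 * (500 * ℓ) + 1) = 1000 * (ρ * ℓ) + ρ := by ring
          omega
  · calc 4 * J ^ 10 * R ^ (500 * ℓ)
        ≤ 2 ^ 2 * 2 ^ (20 * ℓ) * 2 ^ (ρ * (500 * ℓ)) := by
          apply Nat.mul_le_mul _ (hpow _)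
          exact Nat.mul_le_mul (by norm_num) hJ5
      _ = 2 ^ (2 + 20 * ℓ + ρ * (500 * ℓ)) := by
          rw [← pow_add, ← pow_add]
      _ ≤ 2 ^ (n / 2) := by
          apply Nat.pow_le_pow_right (by norm_num)
          have h1 : ρ * (500 * ℓ) = 500 * (ρ * ℓ) := by ring
          omega

/-- `2^(log2 k) ≤ k` in logarithms -/
theorem log_lower (k : ℕ) (hk : 1 ≤ k) : (Nat.log 2 k : ℝ) * Real.log 2 ≤ Real.log k := by
  have h1 := Nat.pow_log_le_self 2 (by omega : k ≠ 0)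
  have h2 : ((2 : ℝ)) ^ (Nat.log 2 k) ≤ k := by exact_mod_cast h1
  have h3 := Real.log_le_log (by positivity) h2
  rwa [Real.log_pow] at h3

theorem log_upper (k : ℕ) (hk : 1 ≤ k) : Real.log k ≤ ((Nat.log 2 k : ℝ) + 1) * Real.log 2 := by
  have h1 := Nat.lt_pow_succ_log_self (b := 2) (by norm_num) k
  have h2 : (k : ℝ) ≤ (2 : ℝ) ^ (Nat.log 2 k + 1) := by exact_mod_cast h1.le
  have hk' : (0 : ℝ) < k := by exact_mod_cast hk
  have h3 := Real.log_le_log hk' h2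
  rw [Real.log_pow] at h3
  push_cast at h3
  exact h3

/-- the number of hits is large -/
theorem two_pow_large (n : ℕ) (hn : 1100 ≤ n) :
    ((n : ℝ) + 3) ^ 2 * Real.exp (n / 40) ≤ 2 ^ (n / 4) := by
  have hnr : (1100 : ℝ) ≤ n := by exact_mod_cast hn
  have hl2 : 0.6931471803 < Real.log 2 := Real.log_two_gt_d9
  -- `n + 3 ≤ exp (n / 40)`
  have h1 : (n : ℝ) + 3 ≤ Real.exp (n / 40) := by
    have h := Real.quadratic_le_exp_of_nonneg (x := (n : ℝ) / 80) (by positivity)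
    have e1 : Real.exp ((n : ℝ) / 40) = Real.exp (n / 80) ^ 2 := by
      rw [← Real.exp_nat_mul]
      congr 1
      push_cast
      ring
    rw [e1]
    obtain ⟨a, ha⟩ : ∃ a : ℝ, a = n / 80 := ⟨_, rfl⟩
    rw [← ha] at h ⊢
    have hna : (n : ℝ) = 80 * a := by rw [ha]; ring
    have ha1 : 13.75 ≤ a := by rw [ha]; linarith
    have h2 : 7 * a ≤ Real.exp a := by nlinarith
    have h3 : (7 * a) ^ 2 ≤ Real.exp a ^ 2 := pow_le_pow_left₀ (by linarith) h2 2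
    rw [hna]
    nlinarith
  have h2 : ((n : ℝ) + 3) ^ 2 ≤ Real.exp (n / 20) := by
    have h3 := pow_le_pow_left₀ (by positivity) h1 2
    rw [← Real.exp_nat_mul] at h3
    refine h3.trans (le_of_eq ?_)
    congr 1
    push_cast
    ring
  have h4 : ((n : ℝ) - 3) / 4 ≤ ((n / 4 : ℕ) : ℝ) := by
    have h5 : n ≤ 4 * (n / 4) + 3 := by omega
    have h6 : (n : ℝ) ≤ 4 * ((n / 4 : ℕ) : ℝ) + 3 := by exact_mod_cast h5
    linarith
  have h7 : (2 : ℝ) ^ (n / 4) = Real.exp (((n / 4 : ℕ) : ℝ) * Real.log 2) := by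
    rw [Real.exp_nat_mul, Real.exp_log (by norm_num)]
  rw [h7]
  calc ((n : ℝ) + 3) ^ 2 * Real.exp (n / 40) ≤ Real.exp (n / 20) * Real.exp (n / 40) :=
        mul_le_mul_of_nonneg_right h2 (Real.exp_pos _).le
    _ = Real.exp (n / 20 + n / 40) := by rw [Real.exp_add]
    _ ≤ _ := by
      apply Real.exp_le_exp.2
      have h8 : ((n : ℝ) - 3) / 4 * Real.log 2 ≤ ((n / 4 : ℕ) : ℝ) * Real.log 2 :=
        mul_le_mul_of_nonneg_right h4 (by linarith)
      nlinarith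

/-- `c y / (log y)^2 ≤ n / 40` -/
theorem exponent_le (s m n : ℕ) (y : ℝ) (hs : 1 ≤ s) (hm : 4 ≤ m) (hn : 1100 ≤ n)
    (hmn : m < 200 * s * (Nat.log 2 m + 1) ^ 2 * (n + 1)) (hmy : (m : ℝ) ≤ y) (hym : y < m + 1) :
    1 / (68000 * s) * y / Real.log y ^ 2 ≤ n / 40 := by
  have hl2 : 0.6931471803 < Real.log 2 := Real.log_two_gt_d9
  have hmr : (4 : ℝ) ≤ m := by exact_mod_cast hm
  have hsr : (1 : ℝ) ≤ s := by exact_mod_cast hs
  have hnr : (1100 : ℝ) ≤ n := by exact_mod_cast hn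
  have hlog : 2 ≤ Nat.log 2 m := by
    rw [show (2 : ℕ) = Nat.log 2 4 by norm_num]
    exact Nat.log_mono_right hm
  obtain ⟨a, ha⟩ : ∃ a, a = Nat.log 2 m := ⟨_, rfl⟩
  have har : (2 : ℝ) ≤ a := by rw [ha]; exact_mod_cast hlog
  have h1 : (a : ℝ) * Real.log 2 ≤ Real.log y := by
    rw [ha]
    exact (log_lower m (by omega)).trans (Real.log_le_log (by linarith) hmy)
  rw [← ha] at hmn
  have h2 : y ≤ 200 * s * (a + 1) ^ 2 * (n + 1) := by
    have h3 : ((m + 1 : ℕ) : ℝ) ≤ ((200 * s * (a + 1) ^ 2 * (n + 1) : ℕ) : ℝ) := by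
      exact_mod_cast hmn
    push_cast at h3
    linarith
  have h4 : 0 < Real.log y := lt_of_lt_of_le (by nlinarith) h1
  have h5 : 1 / 5 * (a + 1) ^ 2 ≤ Real.log y ^ 2 := by
    have h6 : (a : ℝ) * 0.69 ≤ Real.log y := le_trans (by nlinarith) h1
    have h7 : ((a : ℝ) * 0.69) ^ 2 ≤ Real.log y ^ 2 := pow_le_pow_left₀ (by positivity) h6 2
    nlinarith
  rw [div_le_iff₀ (by positivity)]
  have h8 : 1 / (68000 * (s : ℝ)) * y ≤ 1 / (68000 * s) * (200 * s * (a + 1) ^ 2 * (n + 1)) :=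
    mul_le_mul_of_nonneg_left h2 (by positivity)
  have h9 : 1 / (68000 * (s : ℝ)) * (200 * s * (a + 1) ^ 2 * (n + 1)) =
      (a + 1) ^ 2 * (n + 1) / 340 := by
    field_simp
    ring
  rw [h9] at h8
  refine h8.trans ?_
  have h10 : (n : ℝ) / 40 * (1 / 5 * (a + 1) ^ 2) ≤ n / 40 * Real.log y ^ 2 :=
    mul_le_mul_of_nonneg_left h5 (by positivity)
  refine le_trans ?_ h10
  have h11 : 0 ≤ ((a : ℝ) + 1) ^ 2 := by positivity
  nlinarith

/-- the final count -/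
theorem count_bound (x m n R Λ : ℕ) (y : ℝ) (hx : 1 ≤ x) (hΛ : Λ = Nat.log 2 x) (hΛ1 : 1 ≤ Λ)
    (hR1 : 34 * m * n * R ≤ Λ) (hR2 : Λ < 34 * m * n * (R + 1)) (hR : 1 ≤ R) (hn : 16 ≤ n)
    (hnm : 4 * n ≤ m) (hmy : (m : ℝ) ≤ y) (hy : 8800 * y ≤ Real.log x) :
    (n : ℝ) + 2 + (x / 2 ^ (n / 8 * R) + 2 ^ (17 * m * n * R)) ≤
      x * Real.exp (-(1 / 4400 * Real.log x / y)) := by
  have hl2 : 0.6931471803 < Real.log 2 := Real.log_two_gt_d9
  have hxr : (0 : ℝ) < x := by exact_mod_cast hx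
  have hnr : (16 : ℝ) ≤ n := by exact_mod_cast hn
  have hnmr : 4 * (n : ℝ) ≤ m := by exact_mod_cast hnm
  have hy0 : 64 ≤ y := by linarith
  obtain ⟨L, hL⟩ : ∃ L, L = Real.log x := ⟨_, rfl⟩
  have hxL : (x : ℝ) = Real.exp L := by rw [hL, Real.exp_log hxr]
  rw [← hL] at hy ⊢
  have hL0 : 563200 ≤ L := by linarith
  obtain ⟨δ, hδ⟩ : ∃ δ, δ = 1 / 4400 * L / y := ⟨_, rfl⟩
  rw [← hδ]
  have hδ2 : 2 ≤ δ := by
    rw [hδ, le_div_iff₀ (by linarith)]
    linarith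
  have hδL : δ ≤ L / 4400 := by
    rw [hδ, div_le_iff₀ (by linarith)]
    nlinarith
  have hexp2 : (3 : ℝ) ≤ Real.exp 2 := by
    have := Real.add_one_le_exp (2 : ℝ)
    linarith
  -- the target
  obtain ⟨E, hE⟩ : ∃ E, E = x * Real.exp (-δ) := ⟨_, rfl⟩
  rw [← hE]
  have hE1 : E = Real.exp (L - δ) := by rw [hE, hxL, ← Real.exp_add]; congr 1
  -- the half power
  have hhalf : 3 * Real.exp (L / 2) ≤ E := by
    calc 3 * Real.exp (L / 2) ≤ Real.exp 2 * Real.exp (L / 2) :=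
          mul_le_mul_of_nonneg_right hexp2 (Real.exp_pos _).le
      _ = Real.exp (2 + L / 2) := by rw [Real.exp_add]
      _ ≤ E := by
        rw [hE1]
        apply Real.exp_le_exp.2
        linarith
  have hsmall : (n : ℝ) + 2 ≤ Real.exp (L / 2) := by
    have h1 := Real.quadratic_le_exp_of_nonneg (x := L / 2) (by positivity)
    have h2 : (n : ℝ) + 2 ≤ L := by linarith
    nlinarith
  have hpow2 : (2 : ℝ) ^ (17 * m * n * R) ≤ Real.exp (L / 2) := by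
    have h1 : (2 : ℝ) ^ (17 * m * n * R) = Real.exp (((17 * m * n * R : ℕ) : ℝ) * Real.log 2) := by
      rw [Real.exp_nat_mul, Real.exp_log (by norm_num)]
    rw [h1]
    apply Real.exp_le_exp.2
    have h2 : (Λ : ℝ) * Real.log 2 ≤ L := by rw [hΛ, hL]; exact log_lower x hx
    have h3 : 2 * ((17 * m * n * R : ℕ) : ℝ) ≤ Λ := by
      have h4 : 2 * (17 * m * n * R) ≤ Λ := by
        have h5 : 2 * (17 * m * n * R) = 34 * m * n * R := by ring
        omega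
      exact_mod_cast h4
    have h6 := mul_le_mul_of_nonneg_right h3 (by linarith : 0 ≤ Real.log 2)
    linarith
  have hmain : 3 * ((x : ℝ) / 2 ^ (n / 8 * R)) ≤ E := by
    have h1 : (2 : ℝ) ^ (n / 8 * R) = Real.exp (((n / 8 * R : ℕ) : ℝ) * Real.log 2) := by
      rw [Real.exp_nat_mul, Real.exp_log (by norm_num)]
    have h2 : L ≤ ((Λ : ℝ) + 1) * Real.log 2 := by rw [hΛ, hL]; exact log_upper x hx
    have hΛr : (1 : ℝ) ≤ Λ := by exact_mod_cast hΛ1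
    have hRr : (1 : ℝ) ≤ R := by exact_mod_cast hR
    have h3 : (Λ : ℝ) ≤ 68 * m * n * R := by
      have h4 : Λ ≤ 68 * m * n * R := by
        have h5 : 34 * m * n * (R + 1) ≤ 34 * m * n * (2 * R) :=
          Nat.mul_le_mul_left _ (by omega)
        have h6 : 34 * m * n * (2 * R) = 68 * m * n * R := by ring
        omega
      exact_mod_cast h4
    have h7 : (n : ℝ) / 16 ≤ ((n / 8 : ℕ) : ℝ) := by
      have h8 : n ≤ 16 * (n / 8) := by omega
      have h9 : (n : ℝ) ≤ 16 * ((n / 8 : ℕ) : ℝ) := by exact_mod_cast h8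
      linarith
    -- `δ' = L / (2200 y) ≤ (n/8) R log 2`
    have hm0 : (0 : ℝ) < m := by linarith
    have h10 : 2 * δ ≤ ((n / 8 * R : ℕ) : ℝ) * Real.log 2 := by
      push_cast
      have h11 : (n : ℝ) / 16 * R * Real.log 2 ≤ ((n / 8 : ℕ) : ℝ) * R * Real.log 2 := by
        apply mul_le_mul_of_nonneg_right _ (by linarith)
        exact mul_le_mul_of_nonneg_right h7 (by linarith)
      refine le_trans ?_ h11
      have h12 : L ≤ 2 * (68 * m * n * R) * Real.log 2 := by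
        have h13 : (Λ : ℝ) + 1 ≤ 2 * (68 * m * n * R) := by linarith
        exact h2.trans (mul_le_mul_of_nonneg_right h13 (by linarith))
      have h14 : L ≤ 2176 * ((n : ℝ) / 16 * R * Real.log 2) * y := by
        have h15 : 2 * (68 * m * n * R) * Real.log 2 = 2176 * ((n : ℝ) / 16 * R * Real.log 2) * m := by
          ring
        rw [h15] at h12
        refine h12.trans (mul_le_mul_of_nonneg_left hmy ?_)
        have : 0 ≤ (n : ℝ) / 16 * R * Real.log 2 := by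
          have : 0 ≤ Real.log 2 := by linarith
          positivity
        linarith
      have h16 : 0 ≤ (n : ℝ) / 16 * R * Real.log 2 := by
        have : 0 ≤ Real.log 2 := by linarith
        positivity
      rw [hδ]
      have h17 : 2 * (1 / 4400 * L / y) = L / 2200 / y := by ring
      rw [h17, div_le_iff₀ (by linarith)]
      nlinarith
    rw [h1, div_eq_mul_inv, ← Real.exp_neg, hxL, ← Real.exp_add, hE1]
    calc 3 * Real.exp (L + -(((n / 8 * R : ℕ) : ℝ) * Real.log 2))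
        ≤ Real.exp 2 * Real.exp (L + -(((n / 8 * R : ℕ) : ℝ) * Real.log 2)) :=
          mul_le_mul_of_nonneg_right hexp2 (Real.exp_pos _).le
      _ = Real.exp (2 + (L + -(((n / 8 * R : ℕ) : ℝ) * Real.log 2))) := (Real.exp_add _ _).symm
      _ ≤ Real.exp (L - δ) := by
        apply Real.exp_le_exp.2
        linarith
  linarith

/-- `(log m)^3` is small compared with `m^(1/2)` -/
theorem log_cube (K : ℝ) : ∃ M : ℝ, 1 ≤ M ∧ ∀ z : ℝ, M ≤ z →
    K * (Real.log z / Real.log 2 + 1) ^ 3 ≤ Real.sqrt z := by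
  have h1 : Tendsto (fun z : ℝ => (Real.log z / Real.log 2 + 1) ^ 3 / Real.sqrt z) atTop (𝓝 0) := by
    have h2 : Tendsto (fun z : ℝ => (Real.log z / Real.log 2 + 1) / z ^ (1 / 6 : ℝ)) atTop (𝓝 0) := by
      have h3 := (isLittleO_log_rpow_atTop (r := 1 / 6) (by norm_num)).tendsto_div_nhds_zero
      have h4 : Tendsto (fun z : ℝ => (z ^ (1 / 6 : ℝ))⁻¹) atTop (𝓝 0) :=
        (tendsto_rpow_atTop (by norm_num)).inv_tendsto_atTop
      have h5 := (h3.const_mul (Real.log 2)⁻¹).add h4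
      rw [mul_zero, add_zero] at h5
      refine h5.congr fun z => ?_
      ring
    have h6 := h2.pow 3
    rw [zero_pow (by norm_num)] at h6
    refine h6.congr' ?_
    filter_upwards [eventually_ge_atTop 0] with z hz
    rw [div_pow, ← Real.rpow_natCast (z ^ (1 / 6 : ℝ)), ← Real.rpow_mul hz, Real.sqrt_eq_rpow]
    norm_num
  have h2 := h1.eventually_lt_const (show (0 : ℝ) < 1 / (|K| + 1) by positivity)
  obtain ⟨M, hM⟩ := eventually_atTop.1 (h2.and (eventually_ge_atTop 1))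
  refine ⟨max M 1, le_max_right _ _, fun z hz => ?_⟩
  obtain ⟨h3, h4⟩ := hM z ((le_max_left _ _).trans hz)
  have hs : 0 < Real.sqrt z := Real.sqrt_pos.2 (by linarith)
  have hA : 0 ≤ (Real.log z / Real.log 2 + 1) ^ 3 := by
    have : 0 ≤ Real.log z := Real.log_nonneg h4
    positivity
  generalize (Real.log z / Real.log 2 + 1) ^ 3 = A at *
  rw [div_lt_iff₀ hs, one_div, ← div_eq_inv_mul, lt_div_iff₀ (by positivity)] at h3
  have hK := le_abs_self K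
  nlinarith [mul_le_mul_of_nonneg_right hK hA]

/-- `w (log m)^3` is small compared with `m` for `m ≥ w (log w)^4 - 1` -/
theorem w_log_cube (K : ℝ) (hK : 1 ≤ K) : ∃ w₀ : ℝ, ∀ w : ℝ, w₀ ≤ w → ∀ z : ℝ,
    w * Real.log w ^ 4 - 1 ≤ z → K * w * (Real.log z / Real.log 2 + 1) ^ 3 ≤ z := by
  obtain ⟨M, hM1, hM⟩ := log_cube K
  refine ⟨max M (Real.exp (64 * K + 1)), fun w hw z hz => ?_⟩
  have hwM : M ≤ w := (le_max_left _ _).trans hw
  have hwe : Real.exp (64 * K + 1) ≤ w := (le_max_right _ _).trans hw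
  have hw0 : 0 < w := lt_of_lt_of_le (Real.exp_pos _) hwe
  have ht : 64 * K + 1 ≤ Real.log w := by
    rw [Real.le_log_iff_exp_le hw0]
    exact hwe
  have hw1 : 1 ≤ w := hM1.trans hwM
  obtain ⟨t, htdef⟩ : ∃ t, t = Real.log w := ⟨_, rfl⟩
  rw [← htdef] at ht hz
  have hl2 : 0.6931471803 < Real.log 2 := Real.log_two_gt_d9
  have ht65 : 65 ≤ t := by linarith
  have ht3 : 1 ≤ t ^ 3 := one_le_pow₀ (by linarith)
  have hwt : 1 ≤ w * t ^ 3 := one_le_mul_of_one_le_of_one_le hw1 ht3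
  have hz2 : 64 * K * (w * t ^ 3) ≤ z := by
    refine le_trans ?_ hz
    have h1 : w * t ^ 4 = t * (w * t ^ 3) := by ring
    rw [h1]
    nlinarith
  have hz0 : 0 < z := by nlinarith
  by_cases hc : z ≤ w ^ 2
  · have h1 : Real.log z ≤ 2 * t := by
      have h2 := Real.log_le_log hz0 hc
      rw [Real.log_pow] at h2
      rw [htdef]
      push_cast at h2
      exact h2
    have hz1 : 1 ≤ z := by nlinarith
    have h3 : Real.log z / Real.log 2 + 1 ≤ 4 * t := by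
      rw [← le_sub_iff_add_le, div_le_iff₀ (by linarith)]
      nlinarith
    have h4 : 0 ≤ Real.log z / Real.log 2 + 1 := by
      have : 0 ≤ Real.log z := Real.log_nonneg hz1
      positivity
    have h5 := pow_le_pow_left₀ h4 h3 3
    calc K * w * (Real.log z / Real.log 2 + 1) ^ 3 ≤ K * w * (4 * t) ^ 3 :=
          mul_le_mul_of_nonneg_left h5 (by positivity)
      _ = 64 * K * (w * t ^ 3) := by ring
      _ ≤ z := hz2
  · have hc' := not_le.1 hc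
    have h1 : w ≤ Real.sqrt z := Real.le_sqrt_of_sq_le hc'.le
    have h2 : M ≤ z := by nlinarith
    have h3 := hM z h2
    have h4 : 0 ≤ K * (Real.log z / Real.log 2 + 1) ^ 3 := by
      have : 0 ≤ Real.log z := Real.log_nonneg (by linarith)
      positivity
    calc K * w * (Real.log z / Real.log 2 + 1) ^ 3 = w * (K * (Real.log z / Real.log 2 + 1) ^ 3) := by
          ring
      _ ≤ Real.sqrt z * Real.sqrt z := mul_le_mul h1 h3 h4 (Real.sqrt_nonneg _)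
      _ = z := Real.mul_self_sqrt hz0.le

/-- the regime of the parameters -/
theorem regime (D : ℕ) (M₁ : ℕ) : ∃ x₀ : ℕ, ∀ x : ℕ, x₀ ≤ x → ∀ y : ℝ,
    Real.log (Real.log x) * Real.log (Real.log (Real.log x)) ^ 4 ≤ y →
    y ≤ Real.sqrt (Real.log x) * Real.log (Real.log x) →
    1 ≤ x ∧ 1 ≤ Nat.log 2 x ∧ M₁ ≤ ⌊y⌋₊ ∧ (⌊y⌋₊ : ℝ) ≤ y ∧ y < ⌊y⌋₊ + 1 ∧ 8800 * y ≤ Real.log x ∧
    D * (Nat.log 2 (Nat.log 2 x) + 1) * (Nat.log 2 ⌊y⌋₊ + 1) ^ 3 ≤ ⌊y⌋₊ ∧
    34 * ⌊y⌋₊ ^ 2 ≤ 200 * Nat.log 2 x * (Nat.log 2 ⌊y⌋₊ + 1) ^ 2 := by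
  obtain ⟨w₀, hw₀⟩ := w_log_cube (3 * D + 1) (by have : (0 : ℝ) ≤ D := Nat.cast_nonneg D
                                                 linarith)
  obtain ⟨M₂, hM₂1, hM₂⟩ := log_cube 8800
  -- all conditions in terms of `w = log log x`
  have htend : Tendsto (fun x : ℕ => Real.log (Real.log x)) atTop atTop :=
    Real.tendsto_log_atTop.comp (Real.tendsto_log_atTop.comp tendsto_natCast_atTop_atTop)
  obtain ⟨x₀, hx₀⟩ := eventually_atTop.1 (htend.eventually_ge_atTop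
    (max (max w₀ M₂) (max (Real.exp 1) (M₁ + 3))))
  refine ⟨max x₀ 2, fun x hx y hy1 hy2 => ?_⟩
  have hw := hx₀ x ((le_max_left _ _).trans hx)
  have hx2 : 2 ≤ x := (le_max_right _ _).trans hx
  obtain ⟨L, hL⟩ : ∃ L, L = Real.log x := ⟨_, rfl⟩
  obtain ⟨w, hwdef⟩ : ∃ w, w = Real.log L := ⟨_, rfl⟩
  rw [← hL] at hw hy1 hy2 ⊢
  rw [← hwdef] at hw hy1 hy2
  have hww₀ : w₀ ≤ w := (le_max_left _ _).trans ((le_max_left _ _).trans hw)
  have hwM₂ : M₂ ≤ w := (le_max_right _ _).trans ((le_max_left _ _).trans hw)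
  have hwe : Real.exp 1 ≤ w := (le_max_left _ _).trans ((le_max_right _ _).trans hw)
  have hwM₁ : (M₁ : ℝ) + 3 ≤ w := (le_max_right _ _).trans ((le_max_right _ _).trans hw)
  have hM₁0 : (0 : ℝ) ≤ M₁ := Nat.cast_nonneg _
  have hw3 : 3 ≤ w := by linarith
  have hlw : 1 ≤ Real.log w := by
    rw [Real.le_log_iff_exp_le (by linarith)]
    exact hwe
  have hyw : w ≤ y := by
    have h1 : 1 ≤ Real.log w ^ 4 := one_le_pow₀ hlw
    nlinarith
  have hl2 : 0.6931471803 < Real.log 2 := Real.log_two_gt_d9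
  have hl2' : Real.log 2 < 0.6931471808 := Real.log_two_lt_d9
  have hxr : (2 : ℝ) ≤ x := by exact_mod_cast hx2
  have hLpos : 0 < L := by rw [hL]; exact Real.log_pos (by linarith)
  have hLw : L = Real.exp w := by rw [hwdef, Real.exp_log hLpos]
  have hLgew : w + 1 ≤ L := by rw [hLw]; exact Real.add_one_le_exp w
  -- `8800 y ≤ L`
  have hyL : 8800 * y ≤ L := by
    have h1 := hM₂ L (by linarith)
    have h2 : w ≤ (Real.log L / Real.log 2 + 1) ^ 3 := by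
      rw [← hwdef]
      have h3 : w ≤ w / Real.log 2 + 1 := by
        have h4 : w ≤ w / Real.log 2 := by
          rw [le_div_iff₀ (by linarith)]
          nlinarith
        linarith
      have h5 : 1 ≤ w / Real.log 2 + 1 := by linarith
      exact h3.trans (le_self_pow₀ h5 (by norm_num))
    have h3 : 8800 * w ≤ Real.sqrt L := by linarith
    have h4 := Real.mul_self_sqrt hLpos.le
    have h5 : Real.sqrt L * (8800 * w) ≤ Real.sqrt L * Real.sqrt L :=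
      mul_le_mul_of_nonneg_left h3 (Real.sqrt_nonneg _)
    linarith
  have hy0 : 0 ≤ y := by linarith
  obtain ⟨m, hm⟩ : ∃ m, m = ⌊y⌋₊ := ⟨_, rfl⟩
  have hmy : (m : ℝ) ≤ y := by rw [hm]; exact Nat.floor_le hy0
  have hym : y < m + 1 := by rw [hm]; exact Nat.lt_floor_add_one y
  rw [← hm]
  have hmM₁ : M₁ ≤ m := by
    have h1 : (M₁ : ℝ) < (m : ℝ) + 1 := by linarith
    have h2 : M₁ < m + 1 := by exact_mod_cast h1
    omega
  have hm1 : 1 ≤ m := by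
    have h1 : (1 : ℝ) < (m : ℝ) + 1 := by linarith
    have h2 : 1 < m + 1 := by exact_mod_cast h1
    omega
  obtain ⟨Λ, hΛ⟩ : ∃ Λ, Λ = Nat.log 2 x := ⟨_, rfl⟩
  have hΛ1 : (Λ : ℝ) * Real.log 2 ≤ L := by rw [hΛ, hL]; exact log_lower x (by omega)
  have hΛ2 : L ≤ ((Λ : ℝ) + 1) * Real.log 2 := by rw [hΛ, hL]; exact log_upper x (by omega)
  rw [← hΛ]
  have hΛL : L ≤ Λ := by nlinarith
  have hΛge : 1 ≤ Λ := by
    have h1 : (0 : ℝ) < Λ := lt_of_lt_of_le hLpos hΛL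
    exact_mod_cast h1
  obtain ⟨a, ha⟩ : ∃ a, a = Nat.log 2 m := ⟨_, rfl⟩
  obtain ⟨ρ, hρ⟩ : ∃ ρ, ρ = Nat.log 2 Λ := ⟨_, rfl⟩
  have ha1 : (a : ℝ) * Real.log 2 ≤ Real.log m := by rw [ha]; exact log_lower m hm1
  have ha2 : Real.log m ≤ ((a : ℝ) + 1) * Real.log 2 := by rw [ha]; exact log_upper m hm1
  have hρ1 : (ρ : ℝ) * Real.log 2 ≤ Real.log Λ := by rw [hρ]; exact log_lower Λ hΛge
  rw [← ha, ← hρ]
  -- `ρ + 1 ≤ 3 w`
  have hρw : (ρ : ℝ) + 1 ≤ 3 * w := by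
    have h1 : (Λ : ℝ) ≤ 2 * L := by nlinarith
    have hΛ0 : (0 : ℝ) < Λ := by exact_mod_cast hΛge
    have h2 : Real.log Λ ≤ Real.log (2 * L) := Real.log_le_log hΛ0 h1
    rw [Real.log_mul (by norm_num) hLpos.ne', ← hwdef] at h2
    have h3 : (ρ : ℝ) * Real.log 2 ≤ Real.log 2 + w := by linarith
    nlinarith
  refine ⟨by omega, hΛge, hmM₁, hmy, hym, hyL, ?_, ?_⟩
  · -- condition (B)
    have h1 := hw₀ w hww₀ m (by linarith)
    have h2 : (a : ℝ) + 1 ≤ Real.log m / Real.log 2 + 1 := by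
      have : (a : ℝ) ≤ Real.log m / Real.log 2 := by
        rw [le_div_iff₀ (by linarith)]
        exact ha1
      linarith
    have h3 : ((a : ℝ) + 1) ^ 3 ≤ (Real.log m / Real.log 2 + 1) ^ 3 :=
      pow_le_pow_left₀ (by positivity) h2 3
    have hD0 : (0 : ℝ) ≤ D := Nat.cast_nonneg _
    have h4 : (D : ℝ) * ((ρ : ℝ) + 1) * ((a : ℝ) + 1) ^ 3 ≤ m := by
      calc (D : ℝ) * ((ρ : ℝ) + 1) * ((a : ℝ) + 1) ^ 3
          ≤ (D : ℝ) * (3 * w) * (Real.log m / Real.log 2 + 1) ^ 3 := by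
            apply mul_le_mul _ h3 (by positivity)
            · positivity
            · exact mul_le_mul_of_nonneg_left hρw hD0
        _ ≤ (3 * D + 1) * w * (Real.log m / Real.log 2 + 1) ^ 3 := by
            apply mul_le_mul_of_nonneg_right
            · nlinarith
            · exact le_trans (by positivity) h3
        _ ≤ m := h1
    exact_mod_cast h4
  · -- condition (C)
    have hmr : (m : ℝ) ^ 2 ≤ L * w ^ 2 := by
      have h1 : (m : ℝ) ≤ Real.sqrt L * w := hmy.trans hy2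
      have h2 := pow_le_pow_left₀ (Nat.cast_nonneg m) h1 2
      rw [mul_pow, Real.sq_sqrt hLpos.le] at h2
      exact h2
    have h5 : 34 * (m : ℝ) ^ 2 ≤ 200 * Λ * ((a : ℝ) + 1) ^ 2 := by
      have ha0 : (0 : ℝ) ≤ a := Nat.cast_nonneg _
      by_cases hc : (m : ℝ) ^ 2 ≤ L
      · have h1 : (1 : ℝ) ≤ ((a : ℝ) + 1) ^ 2 := one_le_pow₀ (by linarith)
        nlinarith
      · have hc' := (not_le.1 hc).le
        have h1 : w ≤ 2 * Real.log m := by
          have h2 := Real.log_le_log hLpos hc'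
          rw [Real.log_pow, ← hwdef] at h2
          push_cast at h2
          exact h2
        have h2 : w ≤ 2 * ((a : ℝ) + 1) := by nlinarith
        have h3 : w ^ 2 ≤ (2 * ((a : ℝ) + 1)) ^ 2 := pow_le_pow_left₀ (by linarith) h2 2
        have h4 : L * w ^ 2 ≤ Λ * (2 * ((a : ℝ) + 1)) ^ 2 :=
          mul_le_mul hΛL h3 (by positivity) (by positivity)
        nlinarith
    exact_mod_cast h5

end Main3M

open Main3M

theorem main3 (hW : StmtWeight3) (hX : StmtMult3) (hM : StmtMom3) (hH : StmtHits3) : StmtMain3 := by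
  classical
  obtain ⟨s, mW, hs, hW⟩ := hW
  obtain ⟨mX, hX⟩ := hX
  obtain ⟨mM, hM⟩ := hM
  obtain ⟨x₀, hreg⟩ := regime (200 * s * 1100) (mW + mX + mM + 4)
  have hsr : (1 : ℝ) ≤ s := by exact_mod_cast hs
  refine ⟨1 / (68000 * s), x₀, by positivity, fun x hx y hy1 hy2 => ?_⟩
  obtain ⟨hx1, hΛ1, hmM, hmy, hym, hyL, hB, hC⟩ := hreg x hx y hy1 hy2
  clear hreg
  obtain ⟨m, hm⟩ : ∃ m, m = ⌊y⌋₊ := ⟨_, rfl⟩
  rw [← hm] at hmM hmy hym hB hC
  obtain ⟨Λ, hΛ⟩ : ∃ Λ, Λ = Nat.log 2 x := ⟨_, rfl⟩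
  rw [← hΛ] at hΛ1 hB hC
  obtain ⟨n, J, u, R, hn1100, hn1, hn2, hmJ, hn16, hnm, hsn, h100, h7, hu, hR, h32, h4, h200, hR1, hR2⟩ :=
    params s m (Nat.log 2 Λ + 1) Λ hs (by omega) (by omega)
      (Nat.lt_pow_succ_log_self (by norm_num) Λ)
      (by refine le_trans (le_of_eq ?_) hB; ring) hC
  obtain ⟨hW1, hW2⟩ := hW m n (by omega) hsn
  have hX1 := hX s m n (by omega) (by omega) hsn h200 hW2
  have hmom := hM s m n J u R x (by omega) (by omega) hn16 hnm hsn h100 h7 hu hR h32 h4 hW1 hX1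
  clear hW2 hX1 hW1 h32 h4 h7 hu h100
  have hm4 : 4 ≤ m := by omega
  have hexp := exponent_le s m n y hs hm4 hn1100 hn2 hmy hym
  have hlarge := two_pow_large n hn1100
  have hcount := count_bound x m n R Λ y hx1 hΛ hΛ1 hR1 hR2 hR hn16 hnm hmy hyL
  obtain ⟨E, hE⟩ : ∃ E, E = Real.exp (1 / (68000 * s) * y / Real.log y ^ 2) := ⟨_, rfl⟩
  have hE1 : E ≤ Real.exp (n / 40) := by rw [hE]; exact Real.exp_le_exp.2 hexp
  rw [← hE]
  -- bad `k` have few hits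
  have hbad : ∀ k : ℕ, n + 2 ≤ k → NN k < ((⌈E⌉₊ : ℕ) : ℕ∞) →
      ((hits3 s m n (2 ^ (4 * m * n)) k).card : ℝ) ≤ 2 ^ (n / 4) := by
    intro k hk hNN
    have hT : 2 ≤ 2 ^ (4 * m * n) := by
      have h1 : 1 ≤ 4 * m * n := Nat.mul_le_mul (by omega : 1 ≤ 4 * m) (by omega : 1 ≤ n)
      have h2 : 2 ^ 1 ≤ 2 ^ (4 * m * n) := Nat.pow_le_pow_right (by norm_num) h1
      rwa [pow_one] at h2
    have hh := hH s m n (2 ^ (4 * m * n)) k (by omega) hT hk
    obtain ⟨N, hN⟩ : ∃ N : ℕ, NN k = N := ⟨(NN k).toNat, (ENat.natCast_toNat (ne_top_of_lt hNN)).symm⟩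
    rw [hN] at hh hNN
    have hNlt : N < ⌈E⌉₊ := by exact_mod_cast hNN
    have hNE : (N : ℝ) < E := Nat.lt_ceil.1 hNlt
    generalize (hits3 s m n (2 ^ (4 * m * n)) k).card = C at hh ⊢
    have hh' : C ≤ (n + 3) ^ 2 * N := by exact_mod_cast hh
    have hh'' : (C : ℝ) ≤ ((n : ℝ) + 3) ^ 2 * N := by exact_mod_cast hh'
    refine hh''.trans (le_trans ?_ hlarge)
    exact mul_le_mul_of_nonneg_left (hNE.le.trans hE1) (by positivity)
  -- the count
  have hsub : ((range x).filter fun k => NN k < ((⌈E⌉₊ : ℕ) : ℕ∞)) ⊆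
      range (n + 2) ∪ ((range x).filter fun k => n + 2 ≤ k ∧
        ((hits3 s m n (2 ^ (4 * m * n)) k).card : ℝ) ≤ 2 ^ (n / 4)) := by
    intro k hk
    rw [Finset.mem_filter, Finset.mem_range] at hk
    rw [Finset.mem_union, Finset.mem_range, Finset.mem_filter, Finset.mem_range]
    by_cases h : k < n + 2
    · exact Or.inl h
    · exact Or.inr ⟨hk.1, not_lt.1 h, hbad k (not_lt.1 h) hk.2⟩
  have h1 := (Finset.card_le_card hsub).trans (Finset.card_union_le _ _)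
  rw [Finset.card_range] at h1
  have h2 := (Nat.cast_le (α := ℝ)).2 h1
  rw [Nat.cast_add, Nat.cast_add, Nat.cast_ofNat] at h2
  refine (h2.trans (add_le_add_right hmom _)).trans (hcount.trans ?_)
  apply mul_le_mul_of_nonneg_left _ (Nat.cast_nonneg x)
  apply Real.exp_le_exp.2
  apply neg_le_neg
  have hy0 : 0 < y := by
    have : (4 : ℝ) ≤ m := by exact_mod_cast hm4
    linarith
  have hL0 : 0 ≤ Real.log x := by linarith
  apply div_le_div_of_nonneg_right _ hy0.le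
  apply mul_le_mul_of_nonneg_right _ hL0
  apply one_div_le_one_div_of_le (by norm_num)
  linarith

end Pool.Agent.Lib.MP_85a137_nt
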