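import Pool.Agent.Lib.MP_85a137_nt.Spec4
import Pool.Agent.Lib.MP_85a137_nt.Main3

set_option autoImplicit false

/-!
# MP_85a137_nt, fourth version: the final estimates
-/

namespace Pool.Agent.Lib.MP_85a137_nt

open Finset Main3M

/-- The size of the logarithms. -/
private theorem cb4_logs (m ℓ v : ℕ) (y : ℝ) (hm : 4400 ≤ m) (hℓ : ℓ = Nat.log 2 m + 1)
    (hv : v = Nat.log 2 ℓ) (hmy : (m : ℝ) ≤ y) (hym : y < m + 1) :
    1 ≤ v ∧ (v : ℝ) ≤ m ∧ (13 : ℝ) ≤ ℓ ∧ (ℓ : ℝ) / 2 ≤ Real.log y ∧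
      0 ≤ Real.log (Real.log y) ∧ Real.log (Real.log y) ≤ 2 * v := by
  have hl2 : 0.6931471803 < Real.log 2 := Real.log_two_gt_d9
  have hl2' : Real.log 2 < 0.6931471808 := Real.log_two_lt_d9
  have hmr : (4400 : ℝ) ≤ m := by exact_mod_cast hm
  have h12 : 12 ≤ Nat.log 2 m := by
    refine Nat.le_log_of_pow_le (by norm_num) ?_
    exact le_trans (by norm_num) hm
  have hℓ13 : 13 ≤ ℓ := by omega
  have hℓr : (13 : ℝ) ≤ ℓ := by exact_mod_cast hℓ13
  have hv1 : 3 ≤ v := by
    rw [hv]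
    refine Nat.le_log_of_pow_le (by norm_num) ?_
    exact le_trans (by norm_num) hℓ13
  have hvr : (3 : ℝ) ≤ v := by exact_mod_cast hv1
  have hvm : v ≤ m := by
    have h1 : v ≤ ℓ := by rw [hv]; exact Nat.log_le_self 2 ℓ
    have h2 : ℓ ≤ m := by
      rw [hℓ]
      exact Nat.log_lt_self 2 (by omega)
    omega
  have hlow : (ℓ : ℝ) / 2 ≤ Real.log y := by
    have h1 := log_lower m (by omega)
    have h2 : Real.log m ≤ Real.log y := Real.log_le_log (by linarith) hmy
    have h3 : ((Nat.log 2 m : ℕ) : ℝ) = ℓ - 1 := by rw [hℓ]; push_cast; ring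
    rw [h3] at h1
    nlinarith
  have hup : Real.log y ≤ ℓ := by
    have h1 : m + 1 ≤ 2 ^ ℓ := by
      rw [hℓ]
      exact Nat.lt_pow_succ_log_self (by norm_num) m
    have h2 : (m : ℝ) + 1 ≤ (2 : ℝ) ^ ℓ := by exact_mod_cast h1
    have h3 : Real.log y ≤ Real.log ((2 : ℝ) ^ ℓ) := Real.log_le_log (by linarith) (by linarith)
    rw [Real.log_pow] at h3
    nlinarith
  have hlog1 : 1 ≤ Real.log y := by linarith
  refine ⟨by omega, by exact_mod_cast hvm, hℓr, hlow, Real.log_nonneg hlog1, ?_⟩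
  have h1 : Real.log (Real.log y) ≤ Real.log ℓ := Real.log_le_log (by linarith) hup
  have h2 := log_upper ℓ (by omega)
  rw [← hv] at h2
  nlinarith

/-- **Cb4**. -/
theorem tCb4 : StmtCb4 := by
  refine ⟨4400, fun m n J R Λ x ℓ v y hm hℓ hv hn hnm hmn hmJ hm2 hR hx hΛ hΛ1 hR1 hR2 hmy hym
    hyL => ?_⟩
  obtain ⟨hv1, hvm, hℓ13, hlow, hll0, hllv⟩ := cb4_logs m ℓ v y hm hℓ hv hmy hym
  have hl2 : 0.6931471803 < Real.log 2 := Real.log_two_gt_d9
  have hl2' : Real.log 2 < 0.6931471808 := Real.log_two_lt_d9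
  have hmr : (4400 : ℝ) ≤ m := by exact_mod_cast hm
  have hnr : (1100 : ℝ) ≤ n := by exact_mod_cast hn
  have hvr : (1 : ℝ) ≤ v := by exact_mod_cast hv1
  have hRr : (1 : ℝ) ≤ R := by exact_mod_cast hR
  have hy0 : 0 < y := by linarith
  obtain ⟨r, hr⟩ : ∃ r, r = Real.log y := ⟨_, rfl⟩
  rw [← hr] at hlow hll0 hllv ⊢
  have hr0 : 0 < r := by linarith
  obtain ⟨t, ht⟩ : ∃ t, t = Real.log r := ⟨_, rfl⟩
  rw [← ht] at hll0 hllv ⊢
  have hvn : 1100 ≤ v * n := le_trans hn (Nat.le_mul_of_pos_left _ hv1)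
  have hvnr : (1100 : ℝ) ≤ v * n := by exact_mod_cast hvn
  refine ⟨hv1, ?_, ?_, ?_⟩
  · -- part 1
    have h1 := two_pow_large (v * n) hvn
    refine le_trans ?_ h1
    push_cast
    have h2 : ((n : ℝ) + 3) ^ 2 ≤ ((v : ℝ) * n + 3) ^ 2 := by
      apply pow_le_pow_left₀ (by linarith)
      nlinarith
    apply mul_le_mul h2 _ (Real.exp_pos _).le (by positivity)
    apply Real.exp_le_exp.2
    have h3 : y ≤ 201 * (ℓ : ℝ) ^ 2 * n := by
      have h4 : (m : ℝ) + 1 ≤ 200 * (ℓ : ℝ) ^ 2 * (n + 1) := by exact_mod_cast hmn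
      have h5 : 0 ≤ (ℓ : ℝ) ^ 2 := by positivity
      nlinarith
    have h4 : (ℓ : ℝ) ^ 2 / 4 ≤ r ^ 2 := by
      have h5 := pow_le_pow_left₀ (by positivity) hlow 2
      linarith
    rw [div_le_iff₀ (by positivity)]
    have h5 : 1 / 10 ^ 7 * y * t ≤ 1 / 10 ^ 7 * (201 * (ℓ : ℝ) ^ 2 * n) * (2 * v) := by
      apply mul_le_mul _ hllv hll0 (by positivity)
      exact mul_le_mul_of_nonneg_left h3 (by norm_num)
    refine h5.trans ?_
    have h6 : (v : ℝ) * n / 40 * ((ℓ : ℝ) ^ 2 / 4) ≤ v * n / 40 * r ^ 2 :=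
      mul_le_mul_of_nonneg_left h4 (by positivity)
    refine le_trans ?_ h6
    have h7 : 0 ≤ (v : ℝ) * n * (ℓ : ℝ) ^ 2 := by positivity
    linarith
  · -- part 2
    obtain ⟨L, hL⟩ : ∃ L, L = Real.log x := ⟨_, rfl⟩
    have hxr : (0 : ℝ) < x := by exact_mod_cast hx
    have hxL : (x : ℝ) = Real.exp L := by rw [hL, Real.exp_log hxr]
    rw [← hL] at hyL ⊢
    have hL0 : 38720000 ≤ L := by linarith
    obtain ⟨D, hD⟩ : ∃ D, D = 1 / 10 ^ 7 * L * t / y := ⟨_, rfl⟩
    rw [← hD]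
    obtain ⟨δ, hδ⟩ : ∃ δ, δ = v * L / (4352 * y) := ⟨_, rfl⟩
    have hδ2 : 2 ≤ δ := by
      rw [hδ, le_div_iff₀ (by positivity)]
      nlinarith
    have hδL : δ ≤ L / 4352 := by
      rw [hδ, div_le_iff₀ (by positivity)]
      have h1 : (v : ℝ) * L ≤ y * L := mul_le_mul_of_nonneg_right (by linarith) (by linarith)
      linarith
    have hDδ : D ≤ δ := by
      rw [hD, hδ, div_le_div_iff₀ hy0 (by positivity)]
      have h1 : t * (L * y) ≤ 2 * v * (L * y) := mul_le_mul_of_nonneg_right hllv (by positivity)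
      have h2 : 0 ≤ (v : ℝ) * (L * y) := by positivity
      nlinarith
    have hexp2 : (3 : ℝ) ≤ Real.exp 2 := by
      have := Real.add_one_le_exp (2 : ℝ)
      linarith
    obtain ⟨E, hE⟩ : ∃ E, E = x * Real.exp (-D) := ⟨_, rfl⟩
    rw [← hE]
    have hE1 : E = Real.exp (L - D) := by rw [hE, hxL, ← Real.exp_add]; congr 1
    -- the half power
    have hhalf : 3 * Real.exp (L / 2) ≤ E := by
      calc 3 * Real.exp (L / 2) ≤ Real.exp 2 * Real.exp (L / 2) :=
            mul_le_mul_of_nonneg_right hexp2 (Real.exp_pos _).le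
        _ = Real.exp (2 + L / 2) := by rw [Real.exp_add]
        _ ≤ E := by
          rw [hE1]
          apply Real.exp_le_exp.2
          linarith
    have hsmall : (n : ℝ) + 2 ≤ Real.exp (L / 2) := by
      have h1 := Real.quadratic_le_exp_of_nonneg (x := L / 2) (by linarith)
      have hnmr : 4 * (n : ℝ) ≤ m := by exact_mod_cast hnm
      have h2 : (n : ℝ) + 2 ≤ L := by linarith
      nlinarith
    have hpow2 : (2 : ℝ) ^ (17 * m * n * R) ≤ Real.exp (L / 2) := by
      have h1 : (2 : ℝ) ^ (17 * m * n * R) =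
          Real.exp (((17 * m * n * R : ℕ) : ℝ) * Real.log 2) := by
        rw [Real.exp_nat_mul, Real.exp_log (by norm_num)]
      rw [h1]
      apply Real.exp_le_exp.2
      have h2 : (Λ : ℝ) * Real.log 2 ≤ L := by rw [hΛ, hL]; exact log_lower x hx
      have h3 : 2 * ((17 * m * n * R : ℕ) : ℝ) ≤ Λ := by
        have h4 : 2 * (17 * m * n * R) ≤ Λ := by
          have h5 : 2 * (17 * m * n * R) = 34 * m * n * R := by ring
          omega
        exact_mod_cast h4
      have h6 := mul_le_mul_of_nonneg_right h3 (by linarith : 0 ≤ Real.log 2)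
      linarith
    have hmain : 3 * ((x : ℝ) / 2 ^ (v * n / 8 * R)) ≤ E := by
      have h1 : (2 : ℝ) ^ (v * n / 8 * R) =
          Real.exp (((v * n / 8 * R : ℕ) : ℝ) * Real.log 2) := by
        rw [Real.exp_nat_mul, Real.exp_log (by norm_num)]
      have h2 : L ≤ ((Λ : ℝ) + 1) * Real.log 2 := by rw [hΛ, hL]; exact log_upper x hx
      have hΛr : (1 : ℝ) ≤ Λ := by exact_mod_cast hΛ1
      have h3 : (Λ : ℝ) ≤ 68 * m * n * R := by
        have h4 : Λ ≤ 68 * m * n * R := by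
          have h5 : 34 * m * n * (R + 1) ≤ 34 * m * n * (2 * R) :=
            Nat.mul_le_mul_left _ (by omega)
          have h6 : 34 * m * n * (2 * R) = 68 * m * n * R := by ring
          omega
        exact_mod_cast h4
      have h7 : (v : ℝ) * n / 16 ≤ ((v * n / 8 : ℕ) : ℝ) := by
        have h8 : v * n ≤ 16 * (v * n / 8) := by omega
        have h9 : ((v : ℝ) * n) ≤ 16 * ((v * n / 8 : ℕ) : ℝ) := by exact_mod_cast h8
        linarith
      have h10 : 2 * δ ≤ ((v * n / 8 * R : ℕ) : ℝ) * Real.log 2 := by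
        rw [Nat.cast_mul]
        have h11 : (v : ℝ) * n / 16 * R * Real.log 2 ≤ ((v * n / 8 : ℕ) : ℝ) * R * Real.log 2 := by
          apply mul_le_mul_of_nonneg_right _ (by linarith)
          exact mul_le_mul_of_nonneg_right h7 (by linarith)
        refine le_trans ?_ h11
        have h12 : L ≤ 2 * (68 * m * n * R) * Real.log 2 := by
          have h13 : (Λ : ℝ) + 1 ≤ 2 * (68 * m * n * R) := by linarith
          exact h2.trans (mul_le_mul_of_nonneg_right h13 (by linarith))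
        have hl20 : 0 ≤ Real.log 2 := by linarith
        obtain ⟨q, hq⟩ : ∃ q : ℝ, q = (n : ℝ) * R * Real.log 2 := ⟨_, rfl⟩
        have hq0 : 0 ≤ q := by rw [hq]; positivity
        have h14 : L ≤ 136 * q * y := by
          have h15 : 2 * (68 * (m : ℝ) * n * R) * Real.log 2 = 136 * q * m := by
            rw [hq]
            ring
          rw [h15] at h12
          exact h12.trans (mul_le_mul_of_nonneg_left hmy (by positivity))
        have h17 : 2 * δ = v * L / (2176 * y) := by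
          rw [hδ]
          field_simp
          ring
        have h18 : (v : ℝ) * n / 16 * R * Real.log 2 = v * q / 16 := by rw [hq]; ring
        rw [h17, h18, div_le_iff₀ (by positivity)]
        have h19 := mul_le_mul_of_nonneg_left h14 (by linarith : (0 : ℝ) ≤ v)
        linarith
      rw [h1, div_eq_mul_inv, ← Real.exp_neg, hxL, ← Real.exp_add, hE1]
      calc 3 * Real.exp (L + -(((v * n / 8 * R : ℕ) : ℝ) * Real.log 2))
          ≤ Real.exp 2 * Real.exp (L + -(((v * n / 8 * R : ℕ) : ℝ) * Real.log 2)) :=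
            mul_le_mul_of_nonneg_right hexp2 (Real.exp_pos _).le
        _ = Real.exp (2 + (L + -(((v * n / 8 * R : ℕ) : ℝ) * Real.log 2))) :=
            (Real.exp_add _ _).symm
        _ ≤ Real.exp (L - D) := by
          apply Real.exp_le_exp.2
          linarith
    linarith
  · -- part 3
    intro Q hQ hlogQ
    have hQr : (0 : ℝ) < Q := by exact_mod_cast hQ
    have hJr : (4400 : ℝ) ≤ J := by exact_mod_cast le_trans hm hmJ
    have h1 : y ^ 2 ≤ 2 * (m : ℝ) ^ 2 := by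
      have h2 := pow_le_pow_left₀ hy0.le hym.le 2
      nlinarith
    have h2 : (m : ℝ) ^ 2 ≤ 40000 * (ℓ : ℝ) ^ 3 * J := by exact_mod_cast hm2
    have h3 : (ℓ : ℝ) ^ 3 / 8 ≤ r ^ 3 := by
      have h5 := pow_le_pow_left₀ (by positivity) hlow 3
      have h6 : ((ℓ : ℝ) / 2) ^ 3 = (ℓ : ℝ) ^ 3 / 8 := by ring
      linarith
    have h4 : 1 / 10 ^ 7 * y ^ 2 / r ^ 3 ≤ 0.064 * J := by
      rw [div_le_iff₀ (by positivity)]
      have h5 : 0.064 * (J : ℝ) * ((ℓ : ℝ) ^ 3 / 8) ≤ 0.064 * J * r ^ 3 :=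
        mul_le_mul_of_nonneg_left h3 (by positivity)
      nlinarith
    have h5 : Real.log Q ≤ Real.exp (0.064 * J) := hlogQ.trans (Real.exp_le_exp.2 h4)
    have h6 : Real.exp (0.064 * J) < 2 ^ (J / 2) * Real.log 2 := by
      have h7 : (2 : ℝ) ^ (J / 2) = Real.exp (((J / 2 : ℕ) : ℝ) * Real.log 2) := by
        rw [Real.exp_nat_mul, Real.exp_log (by norm_num)]
      have h8 : ((J : ℝ) - 1) / 2 ≤ ((J / 2 : ℕ) : ℝ) := by
        have h9 : J ≤ 2 * (J / 2) + 1 := by omega
        have h10 : (J : ℝ) ≤ 2 * ((J / 2 : ℕ) : ℝ) + 1 := by exact_mod_cast h9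
        linarith
      have h9 : Real.exp (-1) < Real.log 2 := by
        have h10 : Real.exp (-1) < 1 / 2 := by
          rw [Real.exp_neg, ← one_div]
          apply one_div_lt_one_div_of_lt (by norm_num)
          have h11 := Real.add_one_lt_exp (x := (1 : ℝ)) (by norm_num)
          linarith
        linarith
      rw [h7]
      calc Real.exp (0.064 * J) ≤ Real.exp (((J / 2 : ℕ) : ℝ) * Real.log 2 + -1) := by
            apply Real.exp_le_exp.2
            have h10 : ((J : ℝ) - 1) / 2 * Real.log 2 ≤ ((J / 2 : ℕ) : ℝ) * Real.log 2 :=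
              mul_le_mul_of_nonneg_right h8 (by linarith)
            nlinarith
        _ = Real.exp (((J / 2 : ℕ) : ℝ) * Real.log 2) * Real.exp (-1) := Real.exp_add _ _
        _ < _ := mul_lt_mul_of_pos_left h9 (Real.exp_pos _)
    have h7 : Real.log Q < Real.log ((2 : ℝ) ^ 2 ^ (J / 2)) := by
      rw [Real.log_pow]
      push_cast
      exact lt_of_le_of_lt h5 h6
    have h8 : (Q : ℝ) < (2 : ℝ) ^ 2 ^ (J / 2) := (Real.log_lt_log_iff hQr (by positivity)).1 h7
    exact_mod_cast h8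

end Pool.Agent.Lib.MP_85a137_nt
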