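import Pool.Agent.Lib.MP_85a137_nt.Spec4

/-!
# MP_85a137_nt: the `k` with a solution with many large prime factors
-/

set_option autoImplicit false

namespace Pool.Agent.Lib.MP_85a137_nt

open Finset

private theorem prod_rpow (τ : ℝ) (Z : Multiset ℕ) :
    (Z.map fun y : ℕ => (y : ℝ) ^ (-τ)).prod = ((Z.prod : ℕ) : ℝ) ^ (-τ) := by
  induction Z using Multiset.induction with
  | empty => simp
  | cons y Z ih =>
    rw [Multiset.map_cons, Multiset.prod_cons, ih, Multiset.prod_cons, Nat.cast_mul,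
      Real.mul_rpow (Nat.cast_nonneg _) (Nat.cast_nonneg _)]

private theorem sum_sub_one (Z : Multiset ℕ) (h : ∀ y ∈ Z, 2 ≤ y) :
    Z.sum = (Z.map fun y => y - 1).sum + Z.card := by
  induction Z using Multiset.induction with
  | empty => simp
  | cons y Z ih =>
    have h1 := h y (Multiset.mem_cons_self y Z)
    have h2 := ih fun z hz => h z (Multiset.mem_cons_of_mem hz)
    rw [Multiset.sum_cons, Multiset.map_cons, Multiset.sum_cons, Multiset.card_cons, h2]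
    omega

private theorem two_pow_card_le (Z : Multiset ℕ) (h : ∀ y ∈ Z, 2 ≤ y) : 2 ^ Z.card ≤ Z.prod := by
  induction Z using Multiset.induction with
  | empty => simp
  | cons y Z ih =>
    have h1 := h y (Multiset.mem_cons_self y Z)
    have h2 := ih fun z hz => h z (Multiset.mem_cons_of_mem hz)
    rw [Multiset.card_cons, Multiset.prod_cons, pow_succ, mul_comm]
    exact Nat.mul_le_mul h1 h2

private theorem sum_sub_le (Z : Multiset ℕ) (B : ℕ) (h : ∀ y ∈ Z, y ≤ B) :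
    (Z.map fun y => y - 1).sum ≤ Z.card * B := by
  induction Z using Multiset.induction with
  | empty => simp
  | cons y Z ih =>
    have h1 := h y (Multiset.mem_cons_self y Z)
    have h2 := ih fun z hz => h z (Multiset.mem_cons_of_mem hz)
    rw [Multiset.map_cons, Multiset.sum_cons, Multiset.card_cons, add_mul, one_mul]
    omega

private theorem le_prod (Z : Multiset ℕ) (h : ∀ y ∈ Z, 2 ≤ y) (y : ℕ) (hy : y ∈ Z) : y ≤ Z.prod := by
  refine Nat.le_of_dvd ?_ (Multiset.dvd_prod hy)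
  exact Nat.lt_of_lt_of_le (by positivity) (two_pow_card_le Z h)

/-- the number of the pairs -/
private theorem pairs (h2 : StmtMS) (h3 : StmtZs) (h4 : StmtEu)
    (x M V W a : ℕ) (hx : 1 ≤ x) (hM : 1 ≤ M) (hV : 1 ≤ V) (ha : 2 ≤ a)
    (hlog : Real.log (2 * x) ≤ (M : ℝ) ^ 2) (T : Finset (ℕ × Multiset ℕ))
    (hT : ∀ t ∈ T, 1 ≤ t.1 ∧ t.1 * t.2.prod ≤ 2 * x ∧ (∀ y ∈ t.2, 2 ≤ y) ∧
      (∀ p : ℕ, p.Prime → p ∣ t.1 → p ≤ 2 ^ V) ∧ W ≤ Gw (2 ^ a) t.1) :
    (T.card : ℝ) ≤ (2 * x * Real.exp (3 * M)) * ((2 : ℝ) ^ ((a - 1) * W))⁻¹ *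
      Real.exp (2 ^ a * (5 + 4 * Real.log V)) := by
  classical
  have hM0 : (0 : ℝ) < M := by exact_mod_cast hM
  have hx0 : (0 : ℝ) < 2 * x := by
    have : (0 : ℝ) < x := by exact_mod_cast hx
    linarith
  set τ : ℝ := 1 + 1 / M with hτ
  have hτ1 : 1 ≤ τ := by
    rw [hτ]
    have : 0 ≤ 1 / (M : ℝ) := by positivity
    linarith
  set b : ℕ → ℝ := fun y => (y : ℝ) ^ (-τ) with hb
  set z : ℝ := 2 ^ (a - 1) with hz
  have hz1 : 1 ≤ z := one_le_pow₀ (by norm_num)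
  have hz2 : 2 * z = 2 ^ a := by
    rw [hz, ← pow_succ']
    congr 1
    omega
  -- the sum over the first components
  have hP : ∑ P ∈ T.image Prod.fst, 1 / (P : ℝ) ≤
      ((2 : ℝ) ^ ((a - 1) * W))⁻¹ * Real.exp (2 ^ a * (5 + 4 * Real.log V)) := by
    have e1 := h4 (2 ^ a) V z (T.image Prod.fst) hV hz1
      (by rw [hz2]; push_cast; linarith) (by
        intro P hP
        obtain ⟨t, ht, rfl⟩ := mem_image.1 hP
        exact ⟨(hT t ht).1, (hT t ht).2.2.2.1⟩)
    have e2 : ∑ P ∈ T.image Prod.fst, 1 / (P : ℝ) ≤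
        (z ^ W)⁻¹ * ∑ P ∈ T.image Prod.fst, z ^ (Gw (2 ^ a) P) / (P : ℝ) := by
      rw [mul_sum]
      refine sum_le_sum fun P hP => ?_
      obtain ⟨t, ht, rfl⟩ := mem_image.1 hP
      have hW := (hT t ht).2.2.2.2
      rw [← mul_div_assoc]
      refine div_le_div_of_nonneg_right ?_ (Nat.cast_nonneg _)
      rw [inv_mul_eq_div, one_le_div (by positivity)]
      exact pow_le_pow_right₀ hz1 hW
    refine e2.trans ?_
    rw [← hz2, pow_mul, ← hz]
    exact mul_le_mul_of_nonneg_left e1 (by positivity)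
  -- the sum over the second components
  have hY : ∑ Y ∈ T.image Prod.snd, (Y.map b).prod ≤ Real.exp (2 * M) := by
    have e1 := h2 (2 * x) b (T.image Prod.snd) (by
      intro y hy
      have hy2 : (2 : ℝ) ≤ y := by exact_mod_cast (mem_Icc.1 hy).1
      refine ⟨Real.rpow_nonneg (by linarith) _, ?_⟩
      show (y : ℝ) ^ (-τ) ≤ 1 / 2
      calc (y : ℝ) ^ (-τ) ≤ (y : ℝ) ^ (-1 : ℝ) :=
            Real.rpow_le_rpow_of_exponent_le (by linarith) (by linarith)
        _ = 1 / y := by rw [Real.rpow_neg_one, one_div]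
        _ ≤ 1 / 2 := one_div_le_one_div_of_le (by norm_num) hy2) (by
      intro Y hY y hy
      obtain ⟨t, ht, rfl⟩ := mem_image.1 hY
      obtain ⟨ht1, ht2, ht3, _⟩ := hT t ht
      refine ⟨ht3 y hy, ?_⟩
      calc y ≤ t.2.prod := le_prod _ ht3 y hy
        _ ≤ t.1 * t.2.prod := Nat.le_mul_of_pos_left _ ht1
        _ ≤ 2 * x := ht2)
    refine e1.trans (Real.exp_le_exp.2 ?_)
    have e2 := h3 (1 / M) 1 (2 * x) (by positivity) le_rfl
    rw [Nat.cast_one, Real.one_rpow, one_div_one_div] at e2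
    have e3 : Icc 2 (2 * x) = Ioc 1 (2 * x) := by
      ext j
      rw [mem_Icc, mem_Ioc]
      omega
    rw [e3]
    exact mul_le_mul_of_nonneg_left e2 (by norm_num)
  -- the size of `(2x)^τ`
  have hpow : (2 * x : ℝ) ^ τ ≤ 2 * x * Real.exp M := by
    rw [hτ, Real.rpow_add hx0, Real.rpow_one]
    refine mul_le_mul_of_nonneg_left ?_ hx0.le
    rw [Real.rpow_def_of_pos hx0]
    refine Real.exp_le_exp.2 ?_
    rw [mul_one_div, div_le_iff₀ hM0]
    calc Real.log (2 * x) ≤ (M : ℝ) ^ 2 := hlog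
      _ = M * M := by ring
  -- the count
  have hcount : (T.card : ℝ) ≤ ∑ t ∈ T, (2 * x : ℝ) ^ τ * ((1 / (t.1 : ℝ)) * (t.2.map b).prod) := by
    rw [card_eq_sum_ones, Nat.cast_sum]
    refine sum_le_sum fun t ht => ?_
    obtain ⟨ht1, ht2, ht3, _⟩ := hT t ht
    have hP0 : (0 : ℝ) < t.1 := by exact_mod_cast ht1
    have hP1 : (1 : ℝ) ≤ t.1 := by exact_mod_cast ht1
    have hZ0 : 0 < t.2.prod := Nat.lt_of_lt_of_le (by positivity) (two_pow_card_le _ ht3)
    have hZ : (0 : ℝ) < (t.2.prod : ℕ) := by exact_mod_cast hZ0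
    have hb' : (t.2.map b).prod = ((t.2.prod : ℕ) : ℝ) ^ (-τ) := prod_rpow τ t.2
    rw [hb', Real.rpow_neg hZ.le, Nat.cast_one, one_div, ← mul_inv, ← div_eq_mul_inv,
      one_le_div (by positivity)]
    calc (t.1 : ℝ) * ((t.2.prod : ℕ) : ℝ) ^ τ ≤ (t.1 : ℝ) ^ τ * ((t.2.prod : ℕ) : ℝ) ^ τ := by
          refine mul_le_mul_of_nonneg_right ?_ (by positivity)
          calc (t.1 : ℝ) = (t.1 : ℝ) ^ (1 : ℝ) := (Real.rpow_one _).symm
            _ ≤ (t.1 : ℝ) ^ τ := Real.rpow_le_rpow_of_exponent_le hP1 hτ1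
      _ = ((t.1 * t.2.prod : ℕ) : ℝ) ^ τ := by
          rw [Nat.cast_mul, Real.mul_rpow hP0.le hZ.le]
      _ ≤ (2 * x : ℝ) ^ τ := by
          refine Real.rpow_le_rpow (Nat.cast_nonneg _) ?_ (by linarith)
          exact_mod_cast ht2
  have hb0 : ∀ Y : Multiset ℕ, 0 ≤ (Y.map b).prod := by
    intro Y
    have hb' : (Y.map b).prod = ((Y.prod : ℕ) : ℝ) ^ (-τ) := prod_rpow τ Y
    rw [hb']
    exact Real.rpow_nonneg (Nat.cast_nonneg _) _
  have hsplit : ∑ t ∈ T, ((1 / (t.1 : ℝ)) * (t.2.map b).prod) ≤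
      (∑ P ∈ T.image Prod.fst, 1 / (P : ℝ)) * ∑ Y ∈ T.image Prod.snd, (Y.map b).prod := by
    rw [sum_mul_sum, ← sum_product']
    refine sum_le_sum_of_subset_of_nonneg ?_ fun t _ _ => ?_
    · intro t ht
      exact mem_product.2 ⟨mem_image_of_mem _ ht, mem_image_of_mem _ ht⟩
    · exact mul_nonneg (by positivity) (hb0 _)
  rw [← mul_sum] at hcount
  refine hcount.trans ?_
  have hE : Real.exp (3 * M) = Real.exp M * Real.exp (2 * M) := by
    rw [← Real.exp_add]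
    congr 1
    ring
  calc (2 * x : ℝ) ^ τ * ∑ t ∈ T, ((1 / (t.1 : ℝ)) * (t.2.map b).prod)
      ≤ (2 * x * Real.exp M) * ((((2 : ℝ) ^ ((a - 1) * W))⁻¹ *
          Real.exp (2 ^ a * (5 + 4 * Real.log V))) * Real.exp (2 * M)) := by
        refine mul_le_mul hpow (hsplit.trans ?_) ?_ (by positivity)
        · exact mul_le_mul hP hY (sum_nonneg fun Y _ => hb0 Y) (by positivity)
        · exact sum_nonneg fun t _ => mul_nonneg (by positivity) (hb0 _)
    _ = _ := by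
        rw [hE]
        ring

theorem tCntA (h1 : StmtGw) (h2 : StmtMS) (h3 : StmtZs) (h4 : StmtEu) : StmtCntA := by
  classical
  intro x M V W a hx hM hV ha hlog
  set S := (range x).filter fun k => ∃ Y : Multiset ℕ, (∀ y ∈ Y, 2 ≤ y) ∧ Y.prod ≤ 2 * x ∧
    Y.prod + Y.card = Y.sum + k ∧
    W ≤ ((Y.filter fun y => y ≤ 2 ^ V).map (Gw (2 ^ a))).sum with hS
  have hex : ∀ k ∈ S, ∃ Y : Multiset ℕ, (∀ y ∈ Y, 2 ≤ y) ∧ Y.prod ≤ 2 * x ∧
    Y.prod + Y.card = Y.sum + k ∧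
    W ≤ ((Y.filter fun y => y ≤ 2 ^ V).map (Gw (2 ^ a))).sum := fun k hk => (mem_filter.1 hk).2
  choose! Y hY1 hY2 hY3 hY4 using hex
  set Y1 : ℕ → Multiset ℕ := fun k => (Y k).filter fun y => y ≤ 2 ^ V with hY1d
  set Y2 : ℕ → Multiset ℕ := fun k => (Y k).filter fun y => ¬ y ≤ 2 ^ V with hY2d
  have hadd : ∀ k, Y1 k + Y2 k = Y k := fun k => Multiset.filter_add_not _ _
  have hm1 : ∀ k ∈ S, ∀ y ∈ Y1 k, 2 ≤ y ∧ y ≤ 2 ^ V := fun k hk y hy =>
    ⟨hY1 k hk y (Multiset.mem_filter.1 hy).1, (Multiset.mem_filter.1 hy).2⟩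
  have hm2 : ∀ k ∈ S, ∀ y ∈ Y2 k, 2 ≤ y := fun k hk y hy =>
    hY1 k hk y (Multiset.mem_filter.1 hy).1
  set σ : ℕ → ℕ := fun k => ((Y1 k).map fun y => y - 1).sum with hσ
  set f : ℕ → ℕ × ℕ × Multiset ℕ := fun k => (σ k, (Y1 k).prod, Y2 k) with hf
  have hinj : Set.InjOn f S := by
    intro k hk l hl hkl
    have e1 : σ k = σ l := congrArg Prod.fst hkl
    have e2 : (Y1 k).prod = (Y1 l).prod := congrArg (fun t => t.2.1) hkl
    have e3 : Y2 k = Y2 l := congrArg (fun t => t.2.2) hkl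
    have key : ∀ m ∈ S, (Y1 m).prod * (Y2 m).prod + (Y2 m).card = σ m + (Y2 m).sum + m := by
      intro m hm
      have g1 := hY3 m hm
      rw [← hadd m, Multiset.prod_add, Multiset.card_add, Multiset.sum_add] at g1
      have g2 := sum_sub_one (Y1 m) fun y hy => (hm1 m hm y hy).1
      have g3 : ((Y1 m).map fun y => y - 1).sum = σ m := rfl
      rw [g3] at g2
      omega
    have k1 := key k hk
    have k2 := key l hl
    rw [e1, e2, e3] at k1
    omega
  set T : Finset (ℕ × Multiset ℕ) := S.image fun k => ((Y1 k).prod, Y2 k) with hTd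
  have hσle : ∀ k ∈ S, σ k < 2 * M ^ 2 * 2 ^ V + 1 := by
    intro k hk
    have g1 : σ k ≤ (Y1 k).card * 2 ^ V := sum_sub_le _ _ fun y hy => (hm1 k hk y hy).2
    have g2 : (Y1 k).card ≤ 2 * M ^ 2 := by
      have g3 : 2 ^ (Y k).card ≤ 2 * x := (two_pow_card_le _ (hY1 k hk)).trans (hY2 k hk)
      have g4 : ((Y k).card : ℝ) * Real.log 2 ≤ (M : ℝ) ^ 2 := by
        refine le_trans ?_ hlog
        rw [← Real.log_pow]
        refine Real.log_le_log (by positivity) ?_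
        exact_mod_cast g3
      have g5 : (1 / 2 : ℝ) < Real.log 2 := by
        have := Real.log_two_gt_d9
        linarith
      have g6 : ((Y k).card : ℝ) ≤ 2 * (M : ℝ) ^ 2 := by
        have g7 : (0 : ℝ) ≤ (Y k).card := Nat.cast_nonneg _
        nlinarith
      have g7 : (Y k).card ≤ 2 * M ^ 2 := by exact_mod_cast g6
      exact (Multiset.card_le_card (Multiset.filter_le _ _)).trans g7
    exact Nat.lt_succ_of_le (g1.trans (Nat.mul_le_mul_right _ g2))
  have hcard : S.card ≤ (2 * M ^ 2 * 2 ^ V + 1) * T.card := by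
    rw [← card_image_of_injOn hinj]
    calc (S.image f).card ≤ ((range (2 * M ^ 2 * 2 ^ V + 1)) ×ˢ T).card := by
          refine card_le_card fun t ht => ?_
          obtain ⟨k, hk, rfl⟩ := mem_image.1 ht
          exact mem_product.2 ⟨mem_range.2 (hσle k hk), mem_image_of_mem _ hk⟩
      _ = _ := by rw [card_product, card_range]
  have hT := pairs h2 h3 h4 x M V W a hx hM hV ha hlog T (by
    intro t ht
    obtain ⟨k, hk, rfl⟩ := mem_image.1 ht
    have g0 : ∀ y ∈ Y1 k, y ≠ 0 := fun y hy => by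
      have := (hm1 k hk y hy).1
      omega
    refine ⟨?_, ?_, hm2 k hk, ?_, ?_⟩
    · exact Nat.one_le_iff_ne_zero.2 fun h => by
        have := two_pow_card_le (Y1 k) fun y hy => (hm1 k hk y hy).1
        have h5 : 0 < 2 ^ (Y1 k).card := by positivity
        simp only at h
        omega
    · show (Y1 k).prod * (Y2 k).prod ≤ 2 * x
      rw [← Multiset.prod_add, hadd k]
      exact hY2 k hk
    · intro p hp hpd
      obtain ⟨y, hy, hpy⟩ := Prime.exists_mem_multiset_dvd hp.prime hpd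
      exact (Nat.le_of_dvd (Nat.pos_of_ne_zero (g0 y hy)) hpy).trans (hm1 k hk y hy).2
    · show W ≤ Gw (2 ^ a) (Y1 k).prod
      rw [(h1 (2 ^ a)).2.2.2 (Y1 k) g0]
      exact hY4 k hk)
  calc (S.card : ℝ) ≤ (((2 * M ^ 2 * 2 ^ V + 1) * T.card : ℕ) : ℝ) := by exact_mod_cast hcard
    _ = (2 * (M : ℝ) ^ 2 * 2 ^ V + 1) * (T.card : ℝ) := by push_cast; ring
    _ ≤ (2 * (M : ℝ) ^ 2 * 2 ^ V + 1) * ((2 * x * Real.exp (3 * M)) *
        ((2 : ℝ) ^ ((a - 1) * W))⁻¹ * Real.exp (2 ^ a * (5 + 4 * Real.log V))) :=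
      mul_le_mul_of_nonneg_left hT (by positivity)
    _ = _ := by ring

end Pool.Agent.Lib.MP_85a137_nt
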