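import Pool.Agent.Lib.MP_85a137_nt.Spec4

/-!
# The number of multisets with few large prime factors (Rankin's method)
-/

set_option autoImplicit false

namespace Pool.Agent.Lib.MP_85a137_nt

open Finset

namespace CntBAux

/-- The weight: `y^(-(1+s))`, divided by `H` for the rich numbers `y ≤ 2^V`, `Gw y ≥ g`. -/
private noncomputable def bw (V a g : ℕ) (s H : ℝ) (y : ℕ) : ℝ :=
  (y : ℝ) ^ (-(1 + s)) / (if y ≤ 2 ^ V ∧ g ≤ Gw (2 ^ a) y then H else 1)

private lemma key (V a g : ℕ) (s H : ℝ) (hH : 1 ≤ H) (Y : Multiset ℕ) :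
    (Y.map (bw V a g s H)).prod * H ^ (Y.countP (fun y => y ≤ 2 ^ V ∧ g ≤ Gw (2 ^ a) y)) =
      ((Y.prod : ℕ) : ℝ) ^ (-(1 + s)) := by
  have hH0 : H ≠ 0 := by positivity
  induction Y using Multiset.induction with
  | empty => simp
  | cons y Y ih =>
    rw [Multiset.map_cons, Multiset.prod_cons, Multiset.prod_cons, Multiset.countP_cons,
      Nat.cast_mul, Real.mul_rpow (Nat.cast_nonneg _) (Nat.cast_nonneg _), ← ih]
    unfold bw
    split_ifs with hc
    · rw [pow_add, pow_one]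
      field_simp
    · rw [add_zero, div_one]
      ring

private lemma cnt (V a g : ℕ) (Y : Multiset ℕ) :
    g * Y.countP (fun y => y ≤ 2 ^ V ∧ g ≤ Gw (2 ^ a) y) ≤
      ((Y.filter fun y => y ≤ 2 ^ V).map (Gw (2 ^ a))).sum := by
  induction Y using Multiset.induction with
  | empty => simp
  | cons y Y ih =>
    rw [Multiset.countP_cons]
    by_cases h1 : y ≤ 2 ^ V
    · rw [Multiset.filter_cons_of_pos (p := fun y => y ≤ 2 ^ V) Y h1, Multiset.map_cons,
        Multiset.sum_cons]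
      split_ifs with hc
      · rw [mul_add, mul_one]
        have := hc.2
        omega
      · rw [add_zero]
        omega
    · rw [Multiset.filter_cons_of_neg (p := fun y => y ≤ 2 ^ V) Y h1, if_neg (fun hc => h1 hc.1),
        add_zero]
      exact ih

private lemma bw_nonneg (V a g : ℕ) (s H : ℝ) (hH : 1 ≤ H) (y : ℕ) : 0 ≤ bw V a g s H y := by
  unfold bw
  split_ifs <;> positivity

private lemma rp_le {s : ℝ} (hs : 0 < s) {y : ℕ} (hy : 1 ≤ y) :
    (y : ℝ) ^ (-(1 + s)) ≤ 1 / y := by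
  have h1 : (1 : ℝ) ≤ y := by exact_mod_cast hy
  calc (y : ℝ) ^ (-(1 + s)) ≤ (y : ℝ) ^ (-1 : ℝ) := Real.rpow_le_rpow_of_exponent_le h1 (by linarith)
    _ = 1 / y := by rw [Real.rpow_neg_one, one_div]

private lemma bw_le_half (V a g : ℕ) {s H : ℝ} (hs : 0 < s) (hH : 1 ≤ H) {y : ℕ} (hy : 2 ≤ y) :
    bw V a g s H y ≤ 1 / 2 := by
  have h1 : (2 : ℝ) ≤ y := by exact_mod_cast hy
  have h2 : (y : ℝ) ^ (-(1 + s)) ≤ 1 / 2 :=
    (rp_le hs (by omega)).trans (one_div_le_one_div_of_le (by norm_num) h1)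
  have h3 : (0 : ℝ) ≤ (y : ℝ) ^ (-(1 + s)) := by positivity
  unfold bw
  split_ifs
  · exact (div_le_self h3 hH).trans h2
  · rw [div_one]; exact h2

private lemma harm (n : ℕ) (hn : 1 ≤ n) : ∑ y ∈ Icc 2 n, (1 : ℝ) / y ≤ Real.log n := by
  induction n, hn using Nat.le_induction with
  | base => simp
  | succ n hn ih =>
    have h0 : (0 : ℝ) < n := by exact_mod_cast hn
    rw [Finset.sum_Icc_succ_top (by omega)]
    have h1 := Real.one_sub_inv_le_log_of_pos (x := ((n : ℝ) + 1) / n) (by positivity)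
    rw [Real.log_div (by positivity) (by positivity), inv_div] at h1
    have h2 : (1 : ℝ) / ((n : ℝ) + 1) = 1 - n / (n + 1) := by
      field_simp
      ring
    push_cast
    linarith

private lemma sum_bw (hZ : StmtZs) (hP : StmtPoo) (N V a g : ℕ) (s H : ℝ) (hV : 1 ≤ V)
    (ha : 1 ≤ a) (hs : 0 < s) (hH : 1 ≤ H) :
    ∑ y ∈ Icc 2 N, bw V a g s H y ≤ 2 ^ g * Real.exp (5 + 4 * Real.log a) * Real.sqrt (1 + 1 / s) +
      (2 : ℝ) ^ (-(V * s)) / s + V / H := by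
  have h1 := hP a g N s ha hs
  have h2 := hZ s (2 ^ V) N hs Nat.one_le_two_pow
  have h2' : ((2 ^ V : ℕ) : ℝ) ^ (-s) = (2 : ℝ) ^ (-(V * s)) := by
    push_cast
    rw [← Real.rpow_natCast, ← Real.rpow_mul (by norm_num)]
    congr 1
    ring
  rw [h2'] at h2
  have h3 : ∑ y ∈ Icc (2 : ℕ) (2 ^ V), (1 : ℝ) / (y : ℝ) / H ≤ V / H := by
    rw [← Finset.sum_div]
    refine div_le_div_of_nonneg_right ?_ (by linarith)
    refine (harm (2 ^ V) Nat.one_le_two_pow).trans ?_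
    push_cast
    rw [Real.log_pow]
    have : Real.log 2 ≤ 1 := by
      have := Real.log_two_lt_d9
      linarith
    have hV0 : (0 : ℝ) ≤ V := by positivity
    nlinarith
  have hA : ∑ y ∈ Icc 2 N, bw V a g s H y ≤
      ∑ y ∈ (Icc 2 N).filter (fun y => Gw (2 ^ a) y < g), (y : ℝ) ^ (-(1 + s)) +
      ∑ y ∈ Ioc (2 ^ V) N, (y : ℝ) ^ (-(1 + s)) + ∑ y ∈ Icc (2 : ℕ) (2 ^ V), (1 : ℝ) / (y : ℝ) / H := by
    have e2 : ∑ y ∈ (Icc 2 N).filter (fun y => 2 ^ V < y), (y : ℝ) ^ (-(1 + s)) ≤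
        ∑ y ∈ Ioc (2 ^ V) N, (y : ℝ) ^ (-(1 + s)) := by
      refine Finset.sum_le_sum_of_subset_of_nonneg ?_ (fun i _ _ => by positivity)
      intro y hy
      rw [Finset.mem_filter, Finset.mem_Icc] at hy
      exact Finset.mem_Ioc.2 ⟨hy.2, hy.1.2⟩
    have e3 : ∑ y ∈ (Icc 2 N).filter (fun y => y ≤ 2 ^ V), (1 : ℝ) / y / H ≤
        ∑ y ∈ Icc (2 : ℕ) (2 ^ V), (1 : ℝ) / (y : ℝ) / H := by
      refine Finset.sum_le_sum_of_subset_of_nonneg ?_ (fun i _ _ => by positivity)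
      intro y hy
      rw [Finset.mem_filter, Finset.mem_Icc] at hy
      exact Finset.mem_Icc.2 ⟨hy.1.1, hy.2⟩
    refine le_trans ?_ (add_le_add (add_le_add le_rfl e2) e3)
    rw [Finset.sum_filter, Finset.sum_filter, Finset.sum_filter, ← Finset.sum_add_distrib,
      ← Finset.sum_add_distrib]
    refine Finset.sum_le_sum fun y hy => ?_
    rw [Finset.mem_Icc] at hy
    have n0 : (0 : ℝ) ≤ (y : ℝ) ^ (-(1 + s)) := by positivity
    have n1 : (0 : ℝ) ≤ (1 : ℝ) / y / H := by positivity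
    have n2 := rp_le hs (y := y) (by omega)
    unfold bw
    by_cases c1 : Gw (2 ^ a) y < g
    · rw [if_pos c1, if_neg (fun hc => absurd hc.2 (not_le.2 c1)), div_one]
      have m1 : (0 : ℝ) ≤ if 2 ^ V < y then (y : ℝ) ^ (-(1 + s)) else 0 := by
        split_ifs <;> positivity
      have m2 : (0 : ℝ) ≤ if y ≤ 2 ^ V then (1 : ℝ) / y / H else 0 := by
        split_ifs <;> positivity
      linarith
    · rw [if_neg c1]
      by_cases c2 : 2 ^ V < y
      · rw [if_pos c2, if_neg (fun hc => absurd hc.1 (not_le.2 c2)), div_one,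
          if_neg (not_le.2 c2)]
        linarith
      · rw [if_neg c2, if_pos (not_lt.1 c2), if_pos ⟨not_lt.1 c2, not_lt.1 c1⟩, zero_add, zero_add]
        exact div_le_div_of_nonneg_right n2 (by linarith)
  linarith

private lemma one_le (V W a g r : ℕ) (s H : ℝ) (N : ℕ) (_hg : 1 ≤ g)
    (hW : W ≤ g * r) (hs : 0 < s) (hH : 1 ≤ H) (Y : Multiset ℕ) (h2 : ∀ y ∈ Y, 2 ≤ y)
    (hN : Y.prod ≤ N) (hY : ((Y.filter fun y => y ≤ 2 ^ V).map (Gw (2 ^ a))).sum < W) :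
    (1 : ℝ) ≤ (N : ℝ) ^ (1 + s) * H ^ r * (Y.map (bw V a g s H)).prod := by
  have hH0 : (0 : ℝ) < H := by linarith
  have hp : 0 < Y.prod := by
    refine Nat.pos_of_ne_zero fun h0 => ?_
    rw [Multiset.prod_eq_zero_iff] at h0
    have := h2 0 h0
    omega
  have hp' : (0 : ℝ) < ((Y.prod : ℕ) : ℝ) := by exact_mod_cast hp
  have h3 := cnt V a g Y
  have h4 : Y.countP (fun y => y ≤ 2 ^ V ∧ g ≤ Gw (2 ^ a) y) ≤ r := by
    by_contra hc
    push Not at hc
    have : g * r ≤ g * Y.countP (fun y => y ≤ 2 ^ V ∧ g ≤ Gw (2 ^ a) y) :=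
      Nat.mul_le_mul_left g hc.le
    omega
  have h5 : H ^ (Y.countP (fun y => y ≤ 2 ^ V ∧ g ≤ Gw (2 ^ a) y)) ≤ H ^ r :=
    pow_le_pow_right₀ hH h4
  have h6 := key V a g s H hH Y
  have h7 : (0 : ℝ) ≤ (Y.map (bw V a g s H)).prod := by
    refine Multiset.prod_nonneg ?_
    intro c hc
    rw [Multiset.mem_map] at hc
    obtain ⟨y, -, rfl⟩ := hc
    exact bw_nonneg V a g s H hH y
  have h8 : (1 : ℝ) ≤ (N : ℝ) ^ (1 + s) * ((Y.prod : ℕ) : ℝ) ^ (-(1 + s)) := by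
    have h9 : ((Y.prod : ℕ) : ℝ) ^ (1 + s) ≤ (N : ℝ) ^ (1 + s) :=
      Real.rpow_le_rpow hp'.le (by exact_mod_cast hN) (by linarith)
    have h10 : ((Y.prod : ℕ) : ℝ) ^ (1 + s) * ((Y.prod : ℕ) : ℝ) ^ (-(1 + s)) = 1 := by
      rw [← Real.rpow_add hp', add_neg_cancel, Real.rpow_zero]
    calc (1 : ℝ) = ((Y.prod : ℕ) : ℝ) ^ (1 + s) * ((Y.prod : ℕ) : ℝ) ^ (-(1 + s)) := h10.symm
      _ ≤ _ := mul_le_mul_of_nonneg_right h9 (Real.rpow_nonneg hp'.le _)
  refine h8.trans ?_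
  rw [← h6, mul_assoc]
  refine mul_le_mul_of_nonneg_left ?_ (by positivity)
  rw [mul_comm]
  exact mul_le_mul_of_nonneg_right h5 h7

end CntBAux

open CntBAux in
theorem tCntB (_hG : StmtGw) (hM : StmtMS) (hZ : StmtZs) (hP : StmtPoo) : StmtCntB := by
  intro N V W a g r s H F hN hV ha hg hW hs hH hF
  have h1 := hM N (bw V a g s H) F
    (fun y hy => ⟨bw_nonneg V a g s H hH y, bw_le_half V a g hs hH (Finset.mem_Icc.1 hy).1⟩)
    (fun Y hY y hy => ⟨(hF Y hY).1 y hy, by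
      have h2 := (hF Y hY).2.1
      have hp : 0 < Y.prod := by
        refine Nat.pos_of_ne_zero fun h0 => ?_
        rw [Multiset.prod_eq_zero_iff] at h0
        have := (hF Y hY).1 0 h0
        omega
      exact (Nat.le_of_dvd hp (Multiset.dvd_prod hy)).trans h2⟩)
  have h2 : (F.card : ℝ) ≤ (N : ℝ) ^ (1 + s) * H ^ r * ∑ Y ∈ F, (Y.map (bw V a g s H)).prod := by
    rw [Finset.mul_sum, Finset.card_eq_sum_ones]
    push_cast
    refine Finset.sum_le_sum fun Y hY => ?_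
    exact one_le V W a g r s H N hg hW hs hH Y (hF Y hY).1 (hF Y hY).2.1 (hF Y hY).2.2
  refine h2.trans ?_
  refine mul_le_mul_of_nonneg_left ?_ (by positivity)
  refine h1.trans ?_
  refine Real.exp_le_exp.2 ?_
  have := sum_bw hZ hP N V a g s H hV ha hs hH
  linarith

end Pool.Agent.Lib.MP_85a137_nt
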