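import Pool.Agent.Lib.MP_85a137_nt.Spec2

/-!
MP_85a137_nt: random colouring of the primes.
-/

set_option autoImplicit false

namespace Pool.Agent.Lib.MP_85a137_nt

open Finset

lemma color_card (S A : Finset ℕ) (hA : A ⊆ S) (R : ℕ) (c : Fin R) :
    ∑ χ : S → Fin R, (if ∀ p : S, (p : ℕ) ∈ A → χ p = c then (1 : ℝ) else 0) =
      (R : ℝ) ^ S.card * ((R : ℝ)⁻¹) ^ A.card := by
  have hR : (R : ℝ) ≠ 0 := by
    have := c.pos
    exact_mod_cast this.ne'
  have h1 : ∑ χ : S → Fin R, (if ∀ p : S, (p : ℕ) ∈ A → χ p = c then (1 : ℝ) else 0) =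
      ((Fintype.piFinset (fun p : S => if (p : ℕ) ∈ A then {c} else univ)).card : ℝ) := by
    rw [← sum_filter, sum_const, nsmul_eq_mul, mul_one]
    congr 2
    ext χ
    simp only [mem_filter, mem_univ, true_and, Fintype.mem_piFinset]
    refine forall_congr' fun p => ?_
    by_cases h : (p : ℕ) ∈ A
    · simp [h]
    · simp [h]
  rw [h1, Fintype.card_piFinset]
  push_cast
  have h2 : ∀ p : S, ((if (p : ℕ) ∈ A then ({c} : Finset (Fin R)) else univ).card : ℝ) =
      if (p : ℕ) ∈ A then 1 else (R : ℝ) := by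
    intro p
    split_ifs <;> simp
  rw [prod_congr rfl fun p _ => h2 p, prod_coe_sort S (fun p => if p ∈ A then 1 else (R : ℝ)),
    prod_ite, prod_const_one, one_mul, prod_const, filter_notMem_eq_sdiff]
  have h3 : S.card = (S \ A).card + A.card := by
    have := card_sdiff_add_card_eq_card hA
    omega
  rw [h3, pow_add, mul_assoc, ← mul_pow, mul_inv_cancel₀ hR, one_pow, mul_one]

open Classical in
theorem color : StmtColor := by
  intro ι I q R u η hR hq1 hu hη hM
  set M : ℝ := ∑ i ∈ I, (1 : ℝ) / q i with hMdef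
  have hq0 : ∀ i, (0 : ℝ) ≤ 1 / q i := fun i => by positivity
  have hM0 : 0 ≤ M := sum_nonneg fun i _ => hq0 i
  rcases hM0.eq_or_lt with hM0' | hMpos
  · refine ⟨fun _ => 0, fun _ => hR, fun c _ => ?_⟩
    rw [← hM0', zero_div]
    exact sum_nonneg fun i _ => hq0 i
  set η' := max η 0 with hη'
  have hη0 : 0 ≤ η' := le_max_right _ _
  have hRR : (0 : ℝ) < R := by exact_mod_cast hR
  have hM' : 4 * u * η' * (R : ℝ) ^ (2 * u + 1) < M := by
    rcases le_total 0 η with h | h
    · rw [hη', max_eq_left h]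
      exact hM
    · rw [hη', max_eq_right h]
      simpa using hMpos
  set S : Finset ℕ := I.biUnion fun i => (q i).primeFactors with hS
  have hAS : ∀ i ∈ I, (q i).primeFactors ⊆ S := fun i hi =>
    subset_biUnion_of_mem (fun i => (q i).primeFactors) hi
  set N : ℝ := (R : ℝ) ^ S.card with hN
  have hNpos : 0 < N := by positivity
  set ρ : ℝ := (R : ℝ)⁻¹ with hρ
  have hρ0 : 0 ≤ ρ := by positivity
  have hρ1 : ρ ≤ 1 := by
    rw [hρ]
    exact inv_le_one_of_one_le₀ (by exact_mod_cast hR)
  set Y : ι → Fin R → (S → Fin R) → ℝ := fun i c χ =>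
    if ∀ p : S, (p : ℕ) ∈ (q i).primeFactors → χ p = c then (1 : ℝ) else 0 with hY
  set X : Fin R → (S → Fin R) → ℝ := fun c χ => ∑ i ∈ I, 1 / (q i : ℝ) * Y i c χ with hX
  set μ : ℝ := ∑ i ∈ I, 1 / (q i : ℝ) * ρ ^ (q i).primeFactors.card with hμ
  have hYsum : ∀ i ∈ I, ∀ c, ∑ χ, Y i c χ = N * ρ ^ (q i).primeFactors.card := by
    intro i hi c
    exact color_card S _ (hAS i hi) R c
  have hYY : ∀ i ∈ I, ∀ j ∈ I, ∀ c, ∑ χ, Y i c χ * Y j c χ =
      N * ρ ^ ((q i).primeFactors ∪ (q j).primeFactors).card := by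
    intro i hi j hj c
    rw [← color_card S _ (union_subset (hAS i hi) (hAS j hj)) R c]
    apply sum_congr rfl
    intro χ _
    simp only [hY]
    by_cases h1 : ∀ p : S, (p : ℕ) ∈ (q i).primeFactors → χ p = c
    · by_cases h2 : ∀ p : S, (p : ℕ) ∈ (q j).primeFactors → χ p = c
      · have h3 : ∀ p : S, (p : ℕ) ∈ (q i).primeFactors ∪ (q j).primeFactors → χ p = c := by
          intro p hp
          rcases mem_union.1 hp with h3 | h3
          · exact h1 p h3
          · exact h2 p h3
        rw [if_pos h1, if_pos h2, if_pos h3, mul_one]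
      · have h3 : ¬ ∀ p : S, (p : ℕ) ∈ (q i).primeFactors ∪ (q j).primeFactors → χ p = c :=
          fun h => h2 fun p hp => h p (mem_union_right _ hp)
        rw [if_neg h2, if_neg h3, mul_zero]
    · have h3 : ¬ ∀ p : S, (p : ℕ) ∈ (q i).primeFactors ∪ (q j).primeFactors → χ p = c :=
        fun h => h1 fun p hp => h p (mem_union_left _ hp)
      rw [if_neg h1, if_neg h3, zero_mul]
  have hXsum : ∀ c, ∑ χ, X c χ = N * μ := by
    intro c
    simp only [hX]
    rw [sum_comm, hμ, mul_sum]
    apply sum_congr rfl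
    intro i hi
    rw [← mul_sum, hYsum i hi c]
    ring
  have hXX : ∀ c, ∑ χ, X c χ ^ 2 = ∑ i ∈ I, ∑ j ∈ I, 1 / (q i : ℝ) * (1 / (q j : ℝ)) *
      (N * ρ ^ ((q i).primeFactors ∪ (q j).primeFactors).card) := by
    intro c
    have e1 : ∀ χ, X c χ ^ 2 = ∑ i ∈ I, ∑ j ∈ I, 1 / (q i : ℝ) * (1 / (q j : ℝ)) *
        (Y i c χ * Y j c χ) := by
      intro χ
      simp only [hX]
      rw [sq, sum_mul_sum]
      apply sum_congr rfl
      intro i _
      apply sum_congr rfl
      intro j _
      ring
    rw [sum_congr rfl fun χ _ => e1 χ, sum_comm]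
    apply sum_congr rfl
    intro i hi
    rw [sum_comm]
    apply sum_congr rfl
    intro j hj
    rw [← mul_sum, hYY i hi j hj c]
  have hμμ : N * μ ^ 2 = ∑ i ∈ I, ∑ j ∈ I, 1 / (q i : ℝ) * (1 / (q j : ℝ)) *
      (N * (ρ ^ (q i).primeFactors.card * ρ ^ (q j).primeFactors.card)) := by
    rw [hμ, sq, sum_mul_sum, mul_sum]
    apply sum_congr rfl
    intro i _
    rw [mul_sum]
    apply sum_congr rfl
    intro j _
    ring
  have hterm : ∀ i ∈ I, ∀ j ∈ I, 1 / (q i : ℝ) * (1 / (q j : ℝ)) *
      (N * ρ ^ ((q i).primeFactors ∪ (q j).primeFactors).card) -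
      1 / (q i : ℝ) * (1 / (q j : ℝ)) *
      (N * (ρ ^ (q i).primeFactors.card * ρ ^ (q j).primeFactors.card)) ≤
      N * (1 / (q i : ℝ)) * ∑ p ∈ (q i).primeFactors, if p ∣ q j then 1 / (q j : ℝ) else 0 := by
    intro i hi j hj
    have hs0 : 0 ≤ ∑ p ∈ (q i).primeFactors, (if p ∣ q j then 1 / (q j : ℝ) else 0) := by
      apply sum_nonneg
      intro p _
      split_ifs
      · exact hq0 j
      · exact le_rfl
    by_cases hd : Disjoint (q i).primeFactors (q j).primeFactors
    · rw [card_union_of_disjoint hd, pow_add, sub_self]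
      have := hq0 i
      positivity
    · rw [Finset.not_disjoint_iff] at hd
      obtain ⟨p, hp, hp'⟩ := hd
      have h1 : 1 / (q j : ℝ) ≤ ∑ p ∈ (q i).primeFactors, if p ∣ q j then 1 / (q j : ℝ) else 0 := by
        have h2 := single_le_sum (f := fun p => if p ∣ q j then 1 / (q j : ℝ) else 0)
          (s := (q i).primeFactors) (fun p _ => by
            split_ifs
            · exact hq0 j
            · exact le_rfl) hp
        simp only [if_pos (Nat.dvd_of_mem_primeFactors hp')] at h2
        exact h2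
      have h3 : ρ ^ ((q i).primeFactors ∪ (q j).primeFactors).card ≤ 1 := pow_le_one₀ hρ0 hρ1
      have h4 : 0 ≤ ρ ^ (q i).primeFactors.card * ρ ^ (q j).primeFactors.card := by positivity
      calc _ = N * (1 / (q i : ℝ)) * (1 / (q j : ℝ)) *
            (ρ ^ ((q i).primeFactors ∪ (q j).primeFactors).card -
              ρ ^ (q i).primeFactors.card * ρ ^ (q j).primeFactors.card) := by ring
        _ ≤ N * (1 / (q i : ℝ)) * (1 / (q j : ℝ)) * 1 := by
            apply mul_le_mul_of_nonneg_left (by linarith)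
            have := hq0 i
            have := hq0 j
            positivity
        _ = N * (1 / (q i : ℝ)) * (1 / (q j : ℝ)) := by ring
        _ ≤ _ := by
            apply mul_le_mul_of_nonneg_left h1
            have := hq0 i
            positivity
  have hvar : ∀ c, ∑ χ, (X c χ - μ) ^ 2 ≤ N * (u * η') * M := by
    intro c
    have e1 : ∑ χ, (X c χ - μ) ^ 2 = ∑ χ, X c χ ^ 2 - N * μ ^ 2 := by
      have e2 : ∀ χ, (X c χ - μ) ^ 2 = X c χ ^ 2 - 2 * μ * X c χ + μ ^ 2 := fun χ => by ring
      rw [sum_congr rfl fun χ _ => e2 χ, sum_add_distrib, sum_sub_distrib, ← mul_sum, hXsum c,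
        sum_const, nsmul_eq_mul]
      have e3 : ((univ : Finset (S → Fin R)).card : ℝ) = N := by
        rw [card_univ, Fintype.card_fun, Fintype.card_fin, Fintype.card_coe]
        push_cast
        rfl
      rw [e3]
      ring
    rw [e1, hXX c, hμμ, ← sum_sub_distrib]
    calc _ ≤ ∑ i ∈ I, N * (1 / (q i : ℝ)) * (u * η') := by
          apply sum_le_sum
          intro i hi
          rw [← sum_sub_distrib]
          calc _ ≤ ∑ j ∈ I, N * (1 / (q i : ℝ)) *
                ∑ p ∈ (q i).primeFactors, (if p ∣ q j then 1 / (q j : ℝ) else 0) :=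
                sum_le_sum fun j hj => hterm i hi j hj
            _ = N * (1 / (q i : ℝ)) * ∑ p ∈ (q i).primeFactors,
                  ∑ j ∈ I.filter (fun j => p ∣ q j), 1 / (q j : ℝ) := by
                rw [← mul_sum, sum_comm]
                congr 1
                apply sum_congr rfl
                intro p _
                rw [sum_filter]
            _ ≤ N * (1 / (q i : ℝ)) * (u * η') := by
                apply mul_le_mul_of_nonneg_left
                · calc _ ≤ ∑ p ∈ (q i).primeFactors, η' :=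
                        sum_le_sum fun p hp => (hη i hi p hp).trans (le_max_left _ _)
                    _ = (q i).primeFactors.card * η' := by rw [sum_const, nsmul_eq_mul]
                    _ ≤ u * η' := by
                        apply mul_le_mul_of_nonneg_right _ hη0
                        exact_mod_cast hu i hi
                · have := hq0 i
                  positivity
      _ = N * (u * η') * M := by
          rw [hMdef, mul_sum]
          apply sum_congr rfl
          intro i _
          ring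
  have hμM : M / (R : ℝ) ^ u ≤ μ := by
    rw [hMdef, hμ, sum_div]
    apply sum_le_sum
    intro i hi
    rw [div_eq_mul_inv, ← inv_pow]
    apply mul_le_mul_of_nonneg_left _ (hq0 i)
    exact pow_le_pow_of_le_one hρ0 hρ1 (hu i hi)
  -- a good colouring
  obtain ⟨χ₀, hχ₀⟩ : ∃ χ₀ : S → Fin R, ∀ c, M / (2 * (R : ℝ) ^ u) ≤ X c χ₀ := by
    by_contra hcon
    push Not at hcon
    have h1 : ∀ χ, (M / (2 * (R : ℝ) ^ u)) ^ 2 ≤ ∑ c, (X c χ - μ) ^ 2 := by
      intro χ
      obtain ⟨c, hc⟩ := hcon χ
      have h2 : M / (2 * (R : ℝ) ^ u) ≤ μ - X c χ := by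
        have : M / (R : ℝ) ^ u = 2 * (M / (2 * (R : ℝ) ^ u)) := by
          field_simp
        linarith
      have h3 : 0 ≤ M / (2 * (R : ℝ) ^ u) := by positivity
      calc (M / (2 * (R : ℝ) ^ u)) ^ 2 ≤ (μ - X c χ) ^ 2 := pow_le_pow_left₀ h3 h2 2
        _ = (X c χ - μ) ^ 2 := by ring
        _ ≤ ∑ c, (X c χ - μ) ^ 2 :=
            single_le_sum (f := fun c => (X c χ - μ) ^ 2) (fun c _ => sq_nonneg _) (mem_univ c)
    have h2 : N * (M / (2 * (R : ℝ) ^ u)) ^ 2 ≤ R * (N * (u * η') * M) := by
      calc N * (M / (2 * (R : ℝ) ^ u)) ^ 2 = ∑ χ : S → Fin R, (M / (2 * (R : ℝ) ^ u)) ^ 2 := by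
            rw [sum_const, nsmul_eq_mul, card_univ, Fintype.card_fun, Fintype.card_fin,
              Fintype.card_coe]
            push_cast
            rfl
        _ ≤ ∑ χ : S → Fin R, ∑ c, (X c χ - μ) ^ 2 := sum_le_sum fun χ _ => h1 χ
        _ = ∑ c, ∑ χ : S → Fin R, (X c χ - μ) ^ 2 := sum_comm
        _ ≤ ∑ c : Fin R, N * (u * η') * M := sum_le_sum fun c _ => hvar c
        _ = R * (N * (u * η') * M) := by
            rw [sum_const, nsmul_eq_mul, card_univ, Fintype.card_fin]
    have h3 : M ≤ 4 * u * η' * (R : ℝ) ^ (2 * u + 1) := by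
      have h4 : N * M * M ≤ N * M * (4 * u * η' * (R : ℝ) ^ (2 * u + 1)) := by
        have h5 : N * M * M = (N * (M / (2 * (R : ℝ) ^ u)) ^ 2) * (4 * (R : ℝ) ^ (2 * u)) := by
          have : ((R : ℝ) ^ u) ≠ 0 := by positivity
          rw [mul_comm 2 u, pow_mul]
          field_simp
          ring
        rw [h5]
        calc _ ≤ (R * (N * (u * η') * M)) * (4 * (R : ℝ) ^ (2 * u)) :=
              mul_le_mul_of_nonneg_right h2 (by positivity)
          _ = N * M * (4 * u * η' * (R : ℝ) ^ (2 * u + 1)) := by ring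
      exact le_of_mul_le_mul_left h4 (by positivity)
    linarith
  refine ⟨fun p => if h : p ∈ S then (χ₀ ⟨p, h⟩ : ℕ) else 0, ?_, ?_⟩
  · intro p
    dsimp only
    split_ifs with h
    · exact (χ₀ ⟨p, h⟩).isLt
    · omega
  · intro c hc
    have h1 := hχ₀ ⟨c, hc⟩
    refine h1.trans (le_of_eq ?_)
    rw [sum_filter]
    simp only [hX, hY]
    apply sum_congr rfl
    intro i hi
    rw [mul_ite, mul_one, mul_zero]
    congr 1
    rw [eq_iff_iff]
    constructor
    · intro h p hp
      have hpS := hAS i hi hp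
      rw [dif_pos hpS]
      have := h ⟨p, hpS⟩ hp
      rw [this]
    · intro h p hp
      have h2 := h p hp
      rw [dif_pos p.2] at h2
      exact Fin.ext h2

end Pool.Agent.Lib.MP_85a137_nt
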