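import Pool.Agent.Lib.MP_85a137_nt.Spec3

/-!
# MP_85a137_nt: the upper bound for almost all `k`

`N(k) ≤ exp (5 (log x)^(1/2))` for all but at most `x exp (-(log x)^(1/2))` of the integers `k < x`,
from the bound for the number of unordered factorizations (`StmtFacCount`).
-/

set_option autoImplicit false

namespace Pool.Agent.Lib.MP_85a137_nt.UpperM

open Finset

/-- The multiset of the entries. -/
def Mu {k : ℕ} (a : Fin k → ℕ) : Multiset ℕ := (univ : Finset (Fin k)).val.map a

/-- The multiset of the entries different from `1`. -/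
def Yf {k : ℕ} (a : Fin k → ℕ) : Multiset ℕ := (Mu a).filter (fun y => y ≠ 1)

theorem card_Mu {k : ℕ} (a : Fin k → ℕ) : (Mu a).card = k := by
  unfold Mu
  rw [Multiset.card_map, Finset.card_val, Finset.card_univ, Fintype.card_fin]

theorem Mu_eq {k : ℕ} (a : Fin k → ℕ) :
    Mu a = Yf a + Multiset.replicate (k - (Yf a).card) 1 := by
  have h1 := Multiset.filter_add_not (fun y : ℕ => y ≠ 1) (Mu a)
  have h2 : (Mu a).filter (fun y => ¬ (y ≠ 1)) = Multiset.replicate ((Mu a).count 1) 1 := by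
    rw [← Multiset.filter_eq']
    apply Multiset.filter_congr
    intro y _
    simp
  rw [h2] at h1
  have h3 : (Yf a).card + (Mu a).count 1 = k := by
    have h4 := congrArg Multiset.card h1
    rw [Multiset.card_add, Multiset.card_replicate, card_Mu] at h4
    exact h4
  have h5 : k - (Yf a).card = (Mu a).count 1 := by omega
  rw [h5]
  exact h1.symm

theorem card_Yf_le {k : ℕ} (a : Fin k → ℕ) : (Yf a).card ≤ k := by
  have h := Multiset.card_le_card (Multiset.filter_le (fun y : ℕ => y ≠ 1) (Mu a))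
  rw [card_Mu] at h
  exact h

theorem two_le {k : ℕ} {a : Fin k → ℕ} (h : IsSol k a) : ∀ y ∈ Yf a, 2 ≤ y := by
  intro y hy
  unfold Yf at hy
  rw [Multiset.mem_filter] at hy
  obtain ⟨hy1, hy2⟩ := hy
  unfold Mu at hy1
  rw [Multiset.mem_map] at hy1
  obtain ⟨i, -, hi⟩ := hy1
  have := h.2.1 i
  omega

theorem prod_eq {k : ℕ} {a : Fin k → ℕ} (h : IsSol k a) :
    (Yf a).prod = (Yf a).sum + (k - (Yf a).card) := by
  have h1 : (Mu a).prod = (Mu a).sum := h.2.2
  rw [Mu_eq a, Multiset.prod_add, Multiset.sum_add, Multiset.prod_replicate,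
    Multiset.sum_replicate, one_pow, mul_one, smul_eq_mul, mul_one] at h1
  exact h1

/-- The inequality `∏ + 2 |Y| ≥ 2 ∑`. -/
theorem ineq (Y : Multiset ℕ) (x y : ℕ) (hx : 2 ≤ x) (hy : 2 ≤ y) (hY : ∀ z ∈ Y, 2 ≤ z) :
    2 ≤ x * (y * Y.prod) ∧ 2 * (x + (y + Y.sum)) ≤ x * (y * Y.prod) + 2 * (Y.card + 2) := by
  induction Y using Multiset.induction_on with
  | empty =>
    rw [Multiset.prod_zero, Multiset.sum_zero, Multiset.card_zero, mul_one]
    obtain ⟨u, rfl⟩ := Nat.exists_eq_add_of_le hx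
    obtain ⟨v, rfl⟩ := Nat.exists_eq_add_of_le hy
    constructor
    · nlinarith [Nat.zero_le (u * v)]
    · nlinarith [Nat.zero_le (u * v)]
  | cons z Y ih =>
    have hz : 2 ≤ z := hY z (Multiset.mem_cons_self z Y)
    obtain ⟨h1, h2⟩ := ih (fun w hw => hY w (Multiset.mem_cons_of_mem hw))
    rw [Multiset.prod_cons, Multiset.sum_cons, Multiset.card_cons]
    have h3 : x * (y * (z * Y.prod)) = z * (x * (y * Y.prod)) := by ring
    rw [h3]
    obtain ⟨v, rfl⟩ := Nat.exists_eq_add_of_le hz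
    set P := x * (y * Y.prod) with hP
    constructor
    · nlinarith [Nat.zero_le (v * P)]
    · have h4 : v * 2 ≤ v * P := Nat.mul_le_mul le_rfl h1
      nlinarith

theorem prod_le {k : ℕ} {a : Fin k → ℕ} (hk : 2 ≤ k) (h : IsSol k a) : (Yf a).prod ≤ 2 * k := by
  have hp := prod_eq h
  have hle := card_Yf_le a
  have h2 := two_le h
  have hc : 2 ≤ (Yf a).card := by
    by_contra hcon
    have hcases : (Yf a).card = 0 ∨ (Yf a).card = 1 := by omega
    rcases hcases with h0 | h1
    · rw [Multiset.card_eq_zero] at h0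
      rw [h0] at hp
      simp at hp
      omega
    · obtain ⟨x, hx⟩ := Multiset.card_eq_one.mp h1
      rw [hx] at hp
      simp at hp
      omega
  obtain ⟨x, hx⟩ := Multiset.card_pos_iff_exists_mem.mp (by omega : 0 < (Yf a).card)
  obtain ⟨Y1, hY1⟩ := Multiset.exists_cons_of_mem hx
  have hc1 : 1 ≤ Y1.card := by
    rw [hY1, Multiset.card_cons] at hc
    omega
  obtain ⟨y, hy⟩ := Multiset.card_pos_iff_exists_mem.mp (by omega : 0 < Y1.card)
  obtain ⟨Y2, hY2⟩ := Multiset.exists_cons_of_mem hy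
  have hYe : Yf a = x ::ₘ y ::ₘ Y2 := by rw [hY1, hY2]
  have hx2 : 2 ≤ x := h2 x hx
  have hy2 : 2 ≤ y := h2 y (by rw [hYe]; exact Multiset.mem_cons_of_mem (Multiset.mem_cons_self y Y2))
  have hz2 : ∀ z ∈ Y2, 2 ≤ z := fun z hz =>
    h2 z (by rw [hYe]; exact Multiset.mem_cons_of_mem (Multiset.mem_cons_of_mem hz))
  obtain ⟨-, hi⟩ := ineq Y2 x y hx2 hy2 hz2
  have hprod : (Yf a).prod = x * (y * Y2.prod) := by
    rw [hYe, Multiset.prod_cons, Multiset.prod_cons]
  have hsum : (Yf a).sum = x + (y + Y2.sum) := by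
    rw [hYe, Multiset.sum_cons, Multiset.sum_cons]
  have hcard : (Yf a).card = Y2.card + 2 := by
    rw [hYe, Multiset.card_cons, Multiset.card_cons]
  rw [← hprod, ← hsum, ← hcard] at hi
  omega

/-- The multiset determines a monotone sequence. -/
theorem eq_of_Mu {k : ℕ} {a b : Fin k → ℕ} (ha : Monotone a) (hb : Monotone b)
    (h : Mu a = Mu b) : a = b := by
  have hu : ∀ c : Fin k → ℕ, Mu c = (List.ofFn c : Multiset ℕ) := by
    intro c
    have h1 : (Finset.univ : Finset (Fin k)).val = (List.finRange k : Multiset _) := rfl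
    unfold Mu
    rw [h1, Multiset.map_coe, List.ofFn_eq_map]
  rw [hu a, hu b, Multiset.coe_eq_coe] at h
  exact List.ofFn_injective (List.Perm.eq_of_sortedLE ha.sortedLE_ofFn hb.sortedLE_ofFn h)

theorem key_inj {k l : ℕ} {a : Fin k → ℕ} {b : Fin l → ℕ} (ha : IsSol k a) (hb : IsSol l b)
    (h : Yf a = Yf b) : k = l := by
  have h1 := prod_eq ha
  have h2 := prod_eq hb
  have h3 := card_Yf_le a
  have h4 := card_Yf_le b
  rw [← h] at h2 h4
  omega

theorem inj_on {k : ℕ} {a b : Fin k → ℕ} (ha : IsSol k a) (hb : IsSol k b)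
    (h : Yf a = Yf b) : a = b := by
  apply eq_of_Mu ha.1 hb.1
  rw [Mu_eq a, Mu_eq b, h]

/-- Choice of `V + 1` solutions. -/
theorem exists_sols {V k : ℕ} (h : (V : ℕ∞) < NN k) :
    ∃ A : Finset (Fin k → ℕ), (∀ a ∈ A, IsSol k a) ∧ A.card = V + 1 := by
  have h1 : ((V + 1 : ℕ) : ℕ∞) ≤ {a : Fin k → ℕ | IsSol k a}.encard := by
    rw [Nat.cast_add, Nat.cast_one]
    exact Order.add_one_le_of_lt h
  obtain ⟨t, ht, hc⟩ := Set.exists_subset_encard_eq h1
  have hf := Set.finite_of_encard_eq_coe hc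
  refine ⟨hf.toFinset, ?_, ?_⟩
  · intro a ha
    rw [Set.Finite.mem_toFinset] at ha
    exact ht ha
  · rw [hf.encard_eq_coe_toFinset_card] at hc
    exact_mod_cast hc

open Classical in
theorem count (h : StmtFacCount) (x V : ℕ) (hx : 2 ≤ x) :
    (((((range x).filter fun k => (V : ℕ∞) < NN k).filter fun k => 2 ≤ k).card : ℕ) : ℝ) *
      ((V : ℝ) + 1) ≤ (2 * x : ℕ) * Real.exp (3 * Real.sqrt (Real.log (2 * x : ℕ))) := by
  set B := ((range x).filter fun k => (V : ℕ∞) < NN k).filter fun k => 2 ≤ k with hB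
  have hex : ∀ k : ℕ, ∃ A : Finset (Fin k → ℕ), k ∈ B → (∀ a ∈ A, IsSol k a) ∧ A.card = V + 1 := by
    intro k
    by_cases hk : k ∈ B
    · rw [hB, mem_filter, mem_filter] at hk
      obtain ⟨A, hA1, hA2⟩ := exists_sols hk.1.2
      exact ⟨A, fun _ => ⟨hA1, hA2⟩⟩
    · exact ⟨∅, fun h => absurd h hk⟩
  choose A hA using hex
  set F : Finset (Multiset ℕ) := B.biUnion fun k => (A k).image Yf with hF
  have hcard : F.card = B.card * (V + 1) := by
    rw [hF, Finset.card_biUnion]
    · rw [Finset.sum_congr rfl (g := fun _ => V + 1), Finset.sum_const, smul_eq_mul]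
      intro k hk
      rw [Finset.card_image_of_injOn, (hA k hk).2]
      intro a ha b hb hab
      exact inj_on ((hA k hk).1 a ha) ((hA k hk).1 b hb) hab
    · intro k hk l hl hkl
      rw [Function.onFun, Finset.disjoint_left]
      intro Y hY1 hY2
      rw [Finset.mem_image] at hY1 hY2
      obtain ⟨a, ha, rfl⟩ := hY1
      obtain ⟨b, hb, hab⟩ := hY2
      exact hkl (key_inj ((hA k hk).1 a ha) ((hA l hl).1 b hb) hab.symm)
  have hbound := h (2 * x) F (by omega) ?_
  · rw [hcard] at hbound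
    push_cast at hbound ⊢
    exact hbound
  · intro Y hY
    rw [hF, Finset.mem_biUnion] at hY
    obtain ⟨k, hk, hY⟩ := hY
    rw [Finset.mem_image] at hY
    obtain ⟨a, ha, rfl⟩ := hY
    have hs := (hA k hk).1 a ha
    refine ⟨two_le hs, ?_⟩
    rw [hB, mem_filter, mem_filter, mem_range] at hk
    have := prod_le hk.2 hs
    omega

end Pool.Agent.Lib.MP_85a137_nt.UpperM

namespace Pool.Agent.Lib.MP_85a137_nt

open Finset UpperM

open Classical in
theorem upper (h : StmtFacCount) : StmtUpper := by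
  refine ⟨⌈Real.exp 100⌉₊, ?_⟩
  intro x hx
  have hx1 : Real.exp 100 ≤ x := le_trans (Nat.le_ceil _) (by exact_mod_cast hx)
  have hx0 : (0 : ℝ) < x := lt_of_lt_of_le (Real.exp_pos _) hx1
  have hx2 : (2 : ℝ) ≤ x := by
    have := Real.add_one_le_exp (100 : ℝ)
    linarith
  have hx2' : 2 ≤ x := by exact_mod_cast hx2
  set L := Real.log x with hL
  have hL100 : 100 ≤ L := by
    rw [hL, Real.le_log_iff_exp_le hx0]
    exact hx1
  set r := Real.sqrt L with hr
  have hr0 : 0 ≤ r := Real.sqrt_nonneg _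
  have hrr : r * r = L := Real.mul_self_sqrt (by linarith)
  have hr10 : 10 ≤ r := by
    rw [hr]
    apply Real.le_sqrt_of_sq_le
    linarith
  set V := ⌊Real.exp (5 * r)⌋₊ with hV
  have hV1 : Real.exp (5 * r) ≤ (V : ℝ) + 1 := (Nat.lt_floor_add_one _).le
  set Bad := (range x).filter fun k => (V : ℕ∞) < NN k with hBad
  have hcount := count h x V hx2'
  rw [← hBad] at hcount
  have hsplit : Bad.card ≤ (Bad.filter fun k => 2 ≤ k).card + 2 := by
    have h1 := Finset.card_filter_add_card_filter_not (s := Bad) (fun k => 2 ≤ k)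
    have h2 : (Bad.filter fun k => ¬ 2 ≤ k).card ≤ (range 2).card := by
      apply Finset.card_le_card
      intro k hk
      rw [mem_filter] at hk
      rw [mem_range]
      omega
    rw [card_range] at h2
    omega
  have hsq : Real.sqrt (Real.log (2 * x : ℕ)) ≤ r + 1 := by
    rw [Real.sqrt_le_left (by linarith)]
    push_cast
    rw [Real.log_mul (by norm_num) hx0.ne', ← hL, ← hrr]
    have : Real.log 2 ≤ 1 := by
      have := Real.log_two_lt_d9
      linarith
    nlinarith
  have hB1 : ((Bad.filter fun k => 2 ≤ k).card : ℝ) ≤ 2 * x * Real.exp (3 - 2 * r) := by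
    have h1 : ((Bad.filter fun k => 2 ≤ k).card : ℝ) * Real.exp (5 * r) ≤
        (2 * x) * Real.exp (3 * (r + 1)) := by
      refine le_trans (mul_le_mul_of_nonneg_left hV1 (Nat.cast_nonneg _)) (le_trans hcount ?_)
      push_cast
      apply mul_le_mul_of_nonneg_left _ (by positivity)
      apply Real.exp_le_exp.mpr
      have := hsq
      push_cast at this
      linarith
    have h2 : Real.exp (3 * (r + 1)) = Real.exp (3 - 2 * r) * Real.exp (5 * r) := by
      rw [← Real.exp_add]
      congr 1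
      ring
    rw [h2, ← mul_assoc] at h1
    exact le_of_mul_le_mul_right h1 (Real.exp_pos _)
  have hBr : (Bad.card : ℝ) ≤ 2 * x * Real.exp (3 - 2 * r) + 2 := by
    have : (Bad.card : ℝ) ≤ ((Bad.filter fun k => 2 ≤ k).card : ℝ) + 2 := by exact_mod_cast hsplit
    linarith
  refine le_trans hBr ?_
  have hE7 : Real.exp (3 - r) ≤ 1 / 4 := by
    have h1 : Real.exp (3 - r) ≤ Real.exp (-7) := Real.exp_le_exp.mpr (by linarith)
    have h2 := Real.add_one_le_exp (7 : ℝ)
    have h3 : Real.exp (-7) * Real.exp 7 = 1 := by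
      rw [← Real.exp_add]
      norm_num
    nlinarith [Real.exp_pos (-7)]
  have h3 : Real.exp (3 - 2 * r) = Real.exp (3 - r) * Real.exp (-r) := by
    rw [← Real.exp_add]
    congr 1
    ring
  have hE := Real.exp_pos (-r)
  have h4 : 4 ≤ x * Real.exp (-r) := by
    have h5 : x = Real.exp (r * r) := by
      rw [hrr, hL, Real.exp_log hx0]
    have h6 : (x : ℝ) * Real.exp (-r) = Real.exp (r * r - r) := by
      rw [h5, ← Real.exp_add]
      congr 1
    rw [h6]
    have h7 := Real.add_one_le_exp (r * r - r)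
    nlinarith
  rw [h3]
  nlinarith [mul_nonneg hx0.le hE.le, mul_le_mul_of_nonneg_left hE7 (mul_nonneg hx0.le hE.le)]

end Pool.Agent.Lib.MP_85a137_nt
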