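import Pool.Agent.Lib.MP_85a137_nt.Spec4
import Pool.Agent.Lib.MP_85a137_nt.Upper

set_option autoImplicit false

/-!
# MP_85a137_nt: the counting lemma
-/

namespace Pool.Agent.Lib.MP_85a137_nt

open Finset UpperM

open Classical in
theorem tCou : StmtCou := by
  intro x T D Gd hx hD
  set B := (range x).filter fun k => 2 ≤ k ∧ (T : ℕ∞) < NN k ∧ ∀ Y : Multiset ℕ,
    (∀ y ∈ Y, 2 ≤ y) → Y.prod ≤ 2 * x → Y.prod + Y.card = Y.sum + k → Gd Y with hB
  have hex : ∀ k : ℕ, ∃ A : Finset (Fin k → ℕ), k ∈ B → (∀ a ∈ A, IsSol k a) ∧ A.card = T + 1 := by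
    intro k
    by_cases hk : k ∈ B
    · rw [hB, mem_filter] at hk
      obtain ⟨A, hA1, hA2⟩ := exists_sols hk.2.2.1
      exact ⟨A, fun _ => ⟨hA1, hA2⟩⟩
    · exact ⟨∅, fun h => absurd h hk⟩
  choose A hA using hex
  set F : Finset (Multiset ℕ) := B.biUnion fun k => (A k).image Yf with hF
  have hcard : F.card = B.card * (T + 1) := by
    rw [hF, Finset.card_biUnion]
    · rw [Finset.sum_congr rfl (g := fun _ => T + 1), Finset.sum_const, smul_eq_mul]
      intro k hk
      rw [Finset.card_image_of_injOn, (hA k hk).2]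
      intro a ha b hb hab
      exact inj_on ((hA k hk).1 a ha) ((hA k hk).1 b hb) hab
    · intro k hk l hl hkl
      rw [Function.onFun, Finset.disjoint_left]
      intro Y hY1 hY2
      rw [Finset.mem_image] at hY1 hY2
      obtain ⟨a, ha, rfl⟩ := hY1
      obtain ⟨b, hb, hab⟩ := hY2
      exact hkl (key_inj ((hA k hk).1 a ha) ((hA l hl).1 b hb) hab.symm)
  have hbound := hD F ?_
  · rw [hcard] at hbound
    push_cast at hbound ⊢
    exact hbound
  · intro Y hY
    rw [hF, Finset.mem_biUnion] at hY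
    obtain ⟨k, hk, hY⟩ := hY
    rw [Finset.mem_image] at hY
    obtain ⟨a, ha, rfl⟩ := hY
    have hs := (hA k hk).1 a ha
    rw [hB, mem_filter, mem_range] at hk
    have h1 := prod_le hk.2.1 hs
    have h2 : (Yf a).prod ≤ 2 * x := by omega
    refine ⟨two_le hs, h2, hk.2.2.2 _ (two_le hs) h2 ?_⟩
    have h3 := prod_eq hs
    have h4 := card_Yf_le a
    omega

end Pool.Agent.Lib.MP_85a137_nt
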