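import Pool.Agent.Lib.MP_85a137_nt.Spec

set_option autoImplicit false

namespace Pool.Agent.Lib.MP_85a137_nt

open Finset

/-- the number of `t` in `[T, 2T)` with `g ∣ P t - 1` -/
theorem diag_count (P T g : ℕ) (hP : 2 ≤ P) (hT : 1 ≤ T) (hg : 1 ≤ g) (hgT : g ≤ T) :
    ((((Ico T (2 * T)).filter fun t => g ∣ P * t - 1).card : ℕ) : ℝ) ≤ 2 * T / g := by
  have hg0 : (0 : ℝ) < g := by exact_mod_cast hg
  by_cases hne : ((Ico T (2 * T)).filter fun t => g ∣ P * t - 1).Nonempty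
  · obtain ⟨v, hv⟩ := hne
    rw [mem_filter, mem_Ico] at hv
    obtain ⟨⟨hv1, hv2⟩, hv3⟩ := hv
    have hsub : ((Ico T (2 * T)).filter fun t => g ∣ P * t - 1) ⊆
        (Ico T (2 * T)).filter fun t => t ≡ v [MOD g] := by
      intro t ht
      rw [mem_filter, mem_Ico] at ht
      obtain ⟨⟨ht1, ht2⟩, ht3⟩ := ht
      rw [mem_filter, mem_Ico]
      refine ⟨⟨ht1, ht2⟩, ?_⟩
      have hPv : 1 ≤ P * v := Nat.mul_pos (by omega) (by omega)
      have hPt : 1 ≤ P * t := Nat.mul_pos (by omega) (by omega)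
      have e1 : P * v ≡ 1 [MOD g] := ((Nat.modEq_iff_dvd' hPv).mpr hv3).symm
      have e2 : P * t ≡ 1 [MOD g] := ((Nat.modEq_iff_dvd' hPt).mpr ht3).symm
      have hcop : Nat.gcd g P = 1 := by
        have h1 : g.gcd P ∣ P * v - 1 := (Nat.gcd_dvd_left g P).trans hv3
        have h2 : g.gcd P ∣ P * v := (Nat.gcd_dvd_right g P).trans (dvd_mul_right P v)
        have h3 : g.gcd P ∣ P * v - (P * v - 1) := Nat.dvd_sub h2 h1
        have h4 : P * v - (P * v - 1) = 1 := by omega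
        rw [h4] at h3
        exact Nat.dvd_one.mp h3
      exact Nat.ModEq.cancel_left_of_coprime hcop (e2.trans e1.symm)
    have hcard := Nat.Ico_filter_modEq_card T (2 * T) (r := g) (by omega) v
    have h1 : ((((Ico T (2 * T)).filter fun t => g ∣ P * t - 1).card : ℕ) : ℤ) ≤
        max (⌈(((2 * T : ℕ) : ℚ) - v) / (g : ℚ)⌉ - ⌈((T : ℚ) - v) / (g : ℚ)⌉) 0 := by
      rw [← hcard]
      exact_mod_cast card_le_card hsub
    have h2 : (⌈(((2 * T : ℕ) : ℚ) - v) / (g : ℚ)⌉ - ⌈((T : ℚ) - v) / (g : ℚ)⌉ : ℤ) ≤ ⌊2 * (T : ℚ) / g⌋ := by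
      rw [Int.le_floor]
      push_cast
      have a1 := Int.ceil_lt_add_one ((((2 * T : ℕ) : ℚ) - v) / (g : ℚ))
      have a2 := Int.le_ceil (((T : ℚ) - v) / (g : ℚ))
      have hg0' : (0 : ℚ) < g := by exact_mod_cast hg
      have a3 : (((2 * T : ℕ) : ℚ) - v) / (g : ℚ) - ((T : ℚ) - v) / (g : ℚ) = T / g := by
        push_cast
        rw [← sub_div]
        congr 1
        ring
      have a4 : (1 : ℚ) ≤ T / g := by
        rw [le_div_iff₀ hg0']
        rw [one_mul]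
        exact_mod_cast hgT
      have a5 : 2 * (T : ℚ) / g = T / g + T / g := by ring
      rw [a5]
      push_cast at a1 a2 a3 ⊢
      linarith
    have h3 : (0 : ℤ) ≤ ⌊2 * (T : ℚ) / g⌋ := Int.floor_nonneg.mpr (by positivity)
    have h4 : ((((Ico T (2 * T)).filter fun t => g ∣ P * t - 1).card : ℕ) : ℤ) ≤ ⌊2 * (T : ℚ) / g⌋ :=
      h1.trans (max_le h2 h3)
    rw [Int.le_floor] at h4
    have h5 : ((((((Ico T (2 * T)).filter fun t => g ∣ P * t - 1).card : ℕ) : ℚ)) : ℝ) ≤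
        ((2 * (T : ℚ) / g : ℚ) : ℝ) := by exact_mod_cast h4
    push_cast at h5
    exact h5
  · rw [not_nonempty_iff_eq_empty] at hne
    rw [hne, card_empty]
    push_cast
    positivity

/-- lower bound for the modulus -/
theorem diag_low (P T t : ℕ) (hP : 2 ≤ P) (hT : 1 ≤ T) (ht : T ≤ t) :
    (P : ℝ) * T / 2 ≤ ((P * t - 1 : ℕ) : ℝ) := by
  have h1 : 1 ≤ P * t := Nat.one_le_iff_ne_zero.mpr (by
    have : 1 ≤ t := hT.trans ht
    positivity)
  rw [Nat.cast_sub h1]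
  push_cast
  have h2 : (2 : ℝ) ≤ P := by exact_mod_cast hP
  have h3 : (1 : ℝ) ≤ T := by exact_mod_cast hT
  have h4 : (T : ℝ) ≤ t := by exact_mod_cast ht
  have h5 : (P : ℝ) * T ≤ P * t := by nlinarith
  have h6 : (2 : ℝ) ≤ P * T := by nlinarith
  linarith

open Classical in
theorem diag : StmtDiag := by
  intro P T w hP hT
  have hP0 : (0 : ℝ) < P := by
    have : (2 : ℝ) ≤ P := by exact_mod_cast hP
    linarith
  have hT0 : (0 : ℝ) < T := by exact_mod_cast hT
  have key : ∀ t ∈ RR w T P, ∀ t' ∈ RR w T P,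
      (if 1 < (P * t - 1).gcd (P * t' - 1) ∧
      (((P * t - 1).gcd (P * t' - 1) : ℕ) : ℤ) ∣ ((t' : ℤ) - t) then
        (((P * t - 1).gcd (P * t' - 1) : ℕ) : ℝ) / (((P * t - 1 : ℕ) : ℝ) * ((P * t' - 1 : ℕ) : ℝ))
        else 0) ≤ (if t = t' then (1 : ℝ) / ((P * t - 1 : ℕ) : ℝ) else 0) +
        ∑ g ∈ Icc 1 T, (if g ∣ P * t - 1 then (1 : ℝ) else 0) * (if g ∣ P * t' - 1 then (1 : ℝ) else 0) *
          (4 * g / (P * T) ^ 2) := by
    intro t ht t' ht'
    rw [RR, mem_filter, mem_Ico] at ht ht'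
    obtain ⟨⟨ht1, ht2⟩, -⟩ := ht
    obtain ⟨⟨ht1', ht2'⟩, -⟩ := ht'
    have hl := diag_low P T t hP hT ht1
    have hl' := diag_low P T t' hP hT ht1'
    have hPT : (0 : ℝ) < P * T / 2 := by positivity
    have hsum0 : (0 : ℝ) ≤ ∑ g ∈ Icc 1 T, (if g ∣ P * t - 1 then (1 : ℝ) else 0) *
        (if g ∣ P * t' - 1 then (1 : ℝ) else 0) * (4 * g / (P * T) ^ 2) := by
      apply sum_nonneg
      intro g _
      have : (0 : ℝ) ≤ 4 * g / (P * T) ^ 2 := by positivity
      split_ifs <;> simp [this]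
    by_cases he : t = t'
    · subst he
      rw [if_pos rfl, Nat.gcd_self]
      have hb : (0 : ℝ) < ((P * t - 1 : ℕ) : ℝ) := lt_of_lt_of_le hPT hl
      have hc : ((P * t - 1 : ℕ) : ℝ) / (((P * t - 1 : ℕ) : ℝ) * ((P * t - 1 : ℕ) : ℝ)) =
          1 / ((P * t - 1 : ℕ) : ℝ) := by
        field_simp
      split_ifs with h
      · rw [hc]
        linarith
      · have : (0 : ℝ) ≤ 1 / ((P * t - 1 : ℕ) : ℝ) := by positivity
        linarith
    · rw [if_neg he, zero_add]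
      split_ifs with h
      · obtain ⟨h1, h2⟩ := h
        set g := (P * t - 1).gcd (P * t' - 1) with hg
        have hgd : g ∣ P * t - 1 := Nat.gcd_dvd_left _ _
        have hgd' : g ∣ P * t' - 1 := Nat.gcd_dvd_right _ _
        have hgT : g ≤ T := by
          have hne : ((t' : ℤ) - t) ≠ 0 := by
            intro h0
            apply he
            omega
          have h3 : (g : ℤ) ≤ |(t' : ℤ) - t| := by
            apply Int.le_of_dvd (abs_pos.mpr hne)
            rwa [dvd_abs]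
          have h4 : |(t' : ℤ) - t| ≤ T := by
            rw [abs_le]
            constructor <;> omega
          exact_mod_cast h3.trans h4
        have hmem : g ∈ Icc 1 T := by
          rw [mem_Icc]
          omega
        have hterm : ((g : ℕ) : ℝ) / (((P * t - 1 : ℕ) : ℝ) * ((P * t' - 1 : ℕ) : ℝ)) ≤
            (if g ∣ P * t - 1 then (1 : ℝ) else 0) * (if g ∣ P * t' - 1 then (1 : ℝ) else 0) *
          (4 * g / (P * T) ^ 2) := by
          rw [if_pos hgd, if_pos hgd', one_mul, one_mul]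
          have hden : (P : ℝ) * T / 2 * (P * T / 2) ≤ ((P * t - 1 : ℕ) : ℝ) * ((P * t' - 1 : ℕ) : ℝ) :=
            mul_le_mul hl hl' hPT.le (hPT.le.trans hl)
          calc ((g : ℕ) : ℝ) / (((P * t - 1 : ℕ) : ℝ) * ((P * t' - 1 : ℕ) : ℝ)) ≤
              g / ((P : ℝ) * T / 2 * (P * T / 2)) :=
                div_le_div_of_nonneg_left (by positivity) (by positivity) hden
            _ = 4 * g / (P * T) ^ 2 := by
                field_simp
                ring
        refine hterm.trans ?_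
        apply single_le_sum (f := fun g : ℕ => (if g ∣ P * t - 1 then (1 : ℝ) else 0) *
          (if g ∣ P * t' - 1 then (1 : ℝ) else 0) * (4 * g / (P * T) ^ 2)) _ hmem
        intro g _
        have : (0 : ℝ) ≤ 4 * g / (P * T) ^ 2 := by positivity
        split_ifs <;> simp [this]
      · exact hsum0
  refine (sum_le_sum fun t ht => sum_le_sum fun t' ht' => key t ht t' ht').trans ?_
  have hsplit : ∑ t ∈ RR w T P, ∑ t' ∈ RR w T P, ((if t = t' then (1 : ℝ) / ((P * t - 1 : ℕ) : ℝ) else 0) +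
        ∑ g ∈ Icc 1 T, (if g ∣ P * t - 1 then (1 : ℝ) else 0) * (if g ∣ P * t' - 1 then (1 : ℝ) else 0) *
          (4 * g / (P * T) ^ 2)) = ∑ t ∈ RR w T P, (1 : ℝ) / ((P * t - 1 : ℕ) : ℝ) +
        ∑ g ∈ Icc 1 T, (∑ t ∈ RR w T P, (if g ∣ P * t - 1 then (1 : ℝ) else 0)) ^ 2 *
          (4 * g / (P * T) ^ 2) := by
    simp_rw [sum_add_distrib]
    congr 1
    · apply sum_congr rfl
      intro t ht
      rw [sum_ite_eq]
      rw [if_pos ht]
    · have e1 : ∀ t ∈ RR w T P, ∑ t' ∈ RR w T P, ∑ g ∈ Icc 1 T, (if g ∣ P * t - 1 then (1 : ℝ) else 0) *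
          (if g ∣ P * t' - 1 then (1 : ℝ) else 0) * (4 * g / (P * T) ^ 2) =
          ∑ g ∈ Icc 1 T, ∑ t' ∈ RR w T P, (if g ∣ P * t - 1 then (1 : ℝ) else 0) *
          (if g ∣ P * t' - 1 then (1 : ℝ) else 0) * (4 * g / (P * T) ^ 2) := fun t _ => sum_comm
      rw [sum_congr rfl e1, sum_comm]
      apply sum_congr rfl
      intro g _
      rw [pow_two (∑ t ∈ RR w T P, (if g ∣ P * t - 1 then (1 : ℝ) else 0)), sum_mul_sum, sum_mul]
      apply sum_congr rfl
      intro t _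
      rw [sum_mul]
  rw [hsplit]
  gcongr
  have hcnt : ∀ g ∈ Icc 1 T, (∑ t ∈ RR w T P, (if g ∣ P * t - 1 then (1 : ℝ) else 0)) ^ 2 *
          (4 * g / (P * T) ^ 2) ≤ 16 / (P : ℝ) ^ 2 * (1 / g) := by
    intro g hg
    rw [mem_Icc] at hg
    have hg0 : (0 : ℝ) < g := by exact_mod_cast hg.1
    have h1 : (∑ t ∈ RR w T P, (if g ∣ P * t - 1 then (1 : ℝ) else 0)) ≤ 2 * T / g := by
      refine le_trans ?_ (diag_count P T g hP hT hg.1 hg.2)
      rw [sum_boole]
      have : ((RR w T P).filter fun t => g ∣ P * t - 1) ⊆ (Ico T (2 * T)).filter fun t => g ∣ P * t - 1 :=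
        filter_subset_filter _ (filter_subset _ _)
      exact_mod_cast card_le_card this
    have h0 : (0 : ℝ) ≤ ∑ t ∈ RR w T P, (if g ∣ P * t - 1 then (1 : ℝ) else 0) := by
      apply sum_nonneg
      intro t _
      split_ifs <;> norm_num
    calc (∑ t ∈ RR w T P, (if g ∣ P * t - 1 then (1 : ℝ) else 0)) ^ 2 * (4 * g / (P * T) ^ 2) ≤
        (2 * T / g) ^ 2 * (4 * g / (P * T) ^ 2) := by gcongr
      _ = 16 / (P : ℝ) ^ 2 * (1 / g) := by
        field_simp
        ring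
  refine (sum_le_sum hcnt).trans ?_
  rw [← mul_sum]
  have hh : ∑ g ∈ Icc 1 T, (1 : ℝ) / g ≤ 1 + Real.log T := by
    have := harmonic_le_one_add_log T
    rw [harmonic_eq_sum_Icc] at this
    push_cast at this
    simpa [one_div] using this
  calc 16 / (P : ℝ) ^ 2 * ∑ g ∈ Icc 1 T, (1 : ℝ) / g ≤ 16 / (P : ℝ) ^ 2 * (1 + Real.log T) := by gcongr
    _ = 16 * (1 + Real.log T) / (P : ℝ) ^ 2 := by ring

end Pool.Agent.Lib.MP_85a137_nt
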