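import Pool.Agent.Lib.MP_85a137_nt.Spec4

/-!
# MP_85a137_nt, fourth version: the Euler product bound
-/

set_option autoImplicit false

namespace Pool.Agent.Lib.MP_85a137_nt

open Finset

/-- the weight `z^(Gw w c) / c` -/
private noncomputable def euwt (h : StmtGw) (w : ℕ) (z : ℝ) : ℕ →*₀ ℝ where
  toFun c := if c = 0 then 0 else z ^ Gw w c / c
  map_zero' := by simp
  map_one' := by simp [(h w).1]
  map_mul' := by
    intro a b
    by_cases ha : a = 0
    · simp [ha]
    by_cases hb : b = 0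
    · simp [hb]
    rw [if_neg ha, if_neg hb, if_neg (mul_ne_zero ha hb), (h w).2.1 a b ha hb, pow_add]
    push_cast
    field_simp

private theorem euwt_apply (h : StmtGw) (w : ℕ) (z : ℝ) {c : ℕ} (hc : c ≠ 0) :
    euwt h w z c = z ^ Gw w c / c := if_neg hc

private theorem euwt_nonneg (h : StmtGw) (w : ℕ) {z : ℝ} (hz : 1 ≤ z) (c : ℕ) :
    0 ≤ euwt h w z c := by
  by_cases hc : c = 0
  · rw [hc, _root_.map_zero]
  · rw [euwt_apply h w z hc]
    positivity

private theorem euwt_prime (h : StmtGw) (w : ℕ) (z : ℝ) {p : ℕ} (hp : p.Prime) :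
    euwt h w z p = (if w < p then z else 1) * (1 / p) := by
  rw [euwt_apply h w z hp.ne_zero, (h w).2.2.1 p hp]
  split_ifs
  · rw [pow_one]; ring
  · rw [pow_zero]; ring

private theorem euwt_prime_le (h : StmtGw) (w : ℕ) {z : ℝ} (hz : 2 * z ≤ w + 1)
    {p : ℕ} (hp : p.Prime) : euwt h w z p ≤ 1 / 2 := by
  rw [euwt_prime h w z hp]
  have h2 : (2 : ℝ) ≤ p := by exact_mod_cast hp.two_le
  split_ifs with hwp
  · have h3 : (w : ℝ) + 1 ≤ p := by exact_mod_cast hwp
    rw [mul_one_div, div_le_iff₀ (by linarith)]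
    linarith
  · rw [one_mul]
    exact one_div_le_one_div_of_le (by norm_num) h2

private theorem euwt_prime_le' (h : StmtGw) (w : ℕ) {z : ℝ} (hz : 1 ≤ z)
    {p : ℕ} (hp : p.Prime) : euwt h w z p ≤ z * (1 / p) := by
  rw [euwt_prime h w z hp]
  refine mul_le_mul_of_nonneg_right ?_ (by positivity)
  split_ifs
  · exact le_rfl
  · exact hz

private theorem inv_le_exp_two {x : ℝ} (h0 : 0 ≤ x) (h1 : x ≤ 1 / 2) :
    (1 - x)⁻¹ ≤ Real.exp (2 * x) := by
  have h2 : 0 < 1 - x := by linarith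
  rw [inv_le_comm₀ h2 (Real.exp_pos _)]
  have h3 : 1 + 2 * x ≤ Real.exp (2 * x) := by
    have := Real.add_one_le_exp (2 * x)
    linarith
  calc (Real.exp (2 * x))⁻¹ ≤ (1 + 2 * x)⁻¹ := inv_anti₀ (by linarith) h3
    _ ≤ 1 - x := by
        rw [inv_le_iff_one_le_mul₀ (by linarith)]
        nlinarith

theorem tEu (h1 : StmtGw) (h2 : StmtUp) : StmtEu := by
  intro w V z F hV hz hzw hF
  obtain ⟨N, hN⟩ : ∃ N : ℕ, N = 2 ^ V + 1 := ⟨_, rfl⟩
  have hE := EulerProduct.summable_and_hasSum_smoothNumbers_prod_primesBelow_geometric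
    (f := (euwt h1 w z : ℕ →* ℝ))
    (fun {p} hp => by
      change ‖euwt h1 w z p‖ < 1
      rw [Real.norm_of_nonneg (euwt_nonneg h1 w hz p)]
      exact (euwt_prime_le h1 w hzw hp).trans_lt (by norm_num)) N
  have hmem : ∀ c ∈ F, c ∈ N.smoothNumbers := by
    intro c hc
    rw [Nat.mem_smoothNumbers']
    intro p hp hpc
    have := (hF c hc).2 p hp hpc
    omega
  have hb1 : ∑ c ∈ F, z ^ (Gw w c) / (c : ℝ) ≤ ∏ p ∈ N.primesBelow, (1 - euwt h1 w z p)⁻¹ := by
    have h3 : ∑ c ∈ F, z ^ (Gw w c) / (c : ℝ) =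
        ∑ c ∈ F.subtype (· ∈ N.smoothNumbers), euwt h1 w z c := by
      rw [Finset.sum_subtype_eq_sum_filter, Finset.filter_true_of_mem hmem]
      refine Finset.sum_congr rfl fun c hc => ?_
      rw [euwt_apply]
      have := (hF c hc).1
      omega
    rw [h3]
    exact sum_le_hasSum _ (fun c _ => euwt_nonneg h1 w hz c) hE.2
  refine hb1.trans ?_
  have hb2 : ∏ p ∈ N.primesBelow, (1 - euwt h1 w z p)⁻¹ ≤
      Real.exp (∑ p ∈ N.primesBelow, 2 * (z * (1 / (p : ℝ)))) := by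
    rw [Real.exp_sum]
    refine Finset.prod_le_prod (fun p hp => ?_) (fun p hp => ?_)
    · have := euwt_prime_le h1 w hzw (Nat.prime_of_mem_primesBelow hp)
      exact inv_nonneg.2 (by linarith)
    · have hp' := Nat.prime_of_mem_primesBelow hp
      refine (inv_le_exp_two (euwt_nonneg h1 w hz p) (euwt_prime_le h1 w hzw hp')).trans ?_
      refine Real.exp_le_exp.2 ?_
      have := euwt_prime_le' h1 w hz hp'
      linarith
  refine hb2.trans (Real.exp_le_exp.2 ?_)
  have hup := h2 V hV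
  have hb3 : ∑ p ∈ N.primesBelow, (1 : ℝ) / p ≤ 5 + 4 * Real.log V := by
    refine le_trans (Finset.sum_le_sum_of_subset_of_nonneg (fun p hp => ?_)
      fun p _ _ => by positivity) hup
    rw [mem_filter, mem_Icc]
    refine ⟨⟨(Nat.prime_of_mem_primesBelow hp).one_le, ?_⟩, Nat.prime_of_mem_primesBelow hp⟩
    have := Nat.lt_of_mem_primesBelow hp
    omega
  have hb4 : ∑ p ∈ N.primesBelow, 2 * (z * (1 / (p : ℝ))) =
      2 * z * ∑ p ∈ N.primesBelow, (1 : ℝ) / p := by
    rw [Finset.mul_sum]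
    refine Finset.sum_congr rfl fun p _ => ?_
    ring
  rw [hb4]
  exact mul_le_mul_of_nonneg_left hb3 (by linarith)

end Pool.Agent.Lib.MP_85a137_nt
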