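import Pool.Agent.Lib.MP_85a137_nt.Spec3

/-!
# MP_85a137_nt: the number of multisets of integers at least 2 with product at most N
-/

set_option autoImplicit false

namespace Pool.Agent.Lib.MP_85a137_nt.FacCountM

open Finset

/-- geometric sum and exponential -/
theorem geom_le (a : ℝ) (n : ℕ) (h0 : 0 ≤ a) (h1 : a ≤ 1 / 2) :
    ∑ e ∈ range n, a ^ e ≤ Real.exp (2 * a) := by
  have h2 : (∑ e ∈ range n, a ^ e) * (1 - a) ≤ 1 := by
    have h := geom_sum_mul_neg a n
    rw [h]
    have : 0 ≤ a ^ n := pow_nonneg h0 n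
    linarith
  have h3 : 0 ≤ ∑ e ∈ range n, a ^ e := Finset.sum_nonneg fun i _ => pow_nonneg h0 i
  have h4 : 1 + 2 * a ≤ Real.exp (2 * a) := by
    have := Real.add_one_le_exp (2 * a)
    linarith
  have h5 : (1 : ℝ) ≤ (1 - a) * (1 + 2 * a) := by nlinarith
  have h6 : ∑ e ∈ range n, a ^ e ≤ (∑ e ∈ range n, a ^ e) * ((1 - a) * (1 + 2 * a)) :=
    le_mul_of_one_le_right h3 h5
  calc ∑ e ∈ range n, a ^ e ≤ (∑ e ∈ range n, a ^ e) * ((1 - a) * (1 + 2 * a)) := h6
    _ = ((∑ e ∈ range n, a ^ e) * (1 - a)) * (1 + 2 * a) := by ring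
    _ ≤ 1 * (1 + 2 * a) := by
        apply mul_le_mul_of_nonneg_right h2
        linarith
    _ = 1 + 2 * a := by ring
    _ ≤ Real.exp (2 * a) := h4

/-- one telescoping step -/
theorem step_le (t : ℝ) (j : ℕ) (ht : 0 < t) (hj : 1 ≤ j) :
    t * (((j + 1 : ℕ) : ℝ)) ^ (-(1 + t)) ≤ (j : ℝ) ^ (-t) - ((j + 1 : ℕ) : ℝ) ^ (-t) := by
  have hj0 : (0 : ℝ) < j := by exact_mod_cast hj
  have hj1 : (0 : ℝ) < ((j + 1 : ℕ) : ℝ) := by positivity
  set q : ℝ := ((j + 1 : ℕ) : ℝ) with hq
  have hqj : q = j + 1 := by rw [hq]; push_cast; ring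
  have e1 : q ^ (-(1 + t)) = q⁻¹ * q ^ (-t) := by
    rw [show -(1 + t) = (-1) + (-t) by ring, Real.rpow_add hj1, Real.rpow_neg_one]
  have e2 : (j : ℝ) ^ (-t) = (q / j) ^ t * q ^ (-t) := by
    rw [Real.div_rpow hj1.le hj0.le, Real.rpow_neg hj0.le, Real.rpow_neg hj1.le]
    have : q ^ t ≠ 0 := (Real.rpow_pos_of_pos hj1 t).ne'
    field_simp
  have hlog : q⁻¹ ≤ Real.log (q / j) := by
    have h := Real.log_le_sub_one_of_pos (show (0 : ℝ) < j / q by positivity)
    have h' : Real.log (q / j) = - Real.log (j / q) := by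
      rw [← Real.log_inv, inv_div]
    rw [h']
    have : (j : ℝ) / q - 1 = - q⁻¹ := by
      field_simp
      rw [hqj]; ring
    linarith
  have e3 : 1 + t * q⁻¹ ≤ (q / j) ^ t := by
    rw [Real.rpow_def_of_pos (by positivity)]
    have h := Real.add_one_le_exp (Real.log (q / j) * t)
    have h2 : t * q⁻¹ ≤ Real.log (q / j) * t := by
      rw [mul_comm]
      exact mul_le_mul_of_nonneg_right hlog ht.le
    linarith
  rw [e1, e2]
  have hp : 0 < q ^ (-t) := Real.rpow_pos_of_pos hj1 _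
  nlinarith

/-- the zeta sum -/
theorem sum_le (t : ℝ) (N : ℕ) (ht : 0 < t) (hN : 1 ≤ N) :
    t * ∑ j ∈ Icc 2 N, (j : ℝ) ^ (-(1 + t)) ≤ 1 - (N : ℝ) ^ (-t) := by
  induction N, hN using Nat.le_induction with
  | base => simp
  | succ n hn ih =>
    rw [Finset.sum_Icc_succ_top (by omega), mul_add]
    have := step_le t n ht hn
    linarith

/-- the weights -/
theorem weight_eq (N : ℕ) (Y : Multiset ℕ) (a : ℕ → ℝ) (h : ∀ y ∈ Y, y ∈ Icc 2 N) :
    (Y.map a).prod = ∏ j : {j // j ∈ Icc 2 N}, a j.1 ^ (Y.count j.1) := by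
  classical
  rw [Finset.prod_multiset_map_count]
  rw [Finset.prod_coe_sort (Icc 2 N) (fun j => a j ^ (Y.count j))]
  apply Finset.prod_subset
  · intro y hy
    exact h y (Multiset.mem_toFinset.1 hy)
  · intro y _ hy
    rw [Multiset.mem_toFinset] at hy
    rw [Multiset.count_eq_zero_of_notMem hy, pow_zero]

theorem rpow_prod (Y : Multiset ℕ) (r : ℝ) :
    (Y.map (fun y : ℕ => (y : ℝ) ^ r)).prod = ((Y.prod : ℕ) : ℝ) ^ r := by
  induction Y using Multiset.induction_on with
  | empty => simp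
  | cons a s ih =>
    rw [Multiset.map_cons, Multiset.prod_cons, Multiset.prod_cons, ih]
    rw [Nat.cast_mul, Real.mul_rpow (Nat.cast_nonneg _) (Nat.cast_nonneg _)]

theorem main (N : ℕ) (F : Finset (Multiset ℕ)) (t : ℝ) (ht : 0 < t) (hN : 1 ≤ N)
    (hF : ∀ Y ∈ F, (∀ y ∈ Y, 2 ≤ y) ∧ Y.prod ≤ N) :
    (F.card : ℝ) ≤ (N : ℝ) ^ (1 + t) * Real.exp (2 / t) := by
  classical
  have hN0 : (0 : ℝ) < N := by exact_mod_cast hN
  set a : ℕ → ℝ := fun j => (j : ℝ) ^ (-(1 + t)) with ha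
  have ha0 : ∀ j, 0 ≤ a j := fun j => by
    rw [ha]; positivity
  -- entries
  have hmem : ∀ Y ∈ F, ∀ y ∈ Y, y ∈ Icc 2 N := by
    intro Y hY y hy
    rw [Finset.mem_Icc]
    refine ⟨(hF Y hY).1 y hy, ?_⟩
    have hpos : 0 < Y.prod := by
      apply Nat.pos_of_ne_zero
      intro h0
      rw [Multiset.prod_eq_zero_iff] at h0
      have := (hF Y hY).1 0 h0
      omega
    exact (Nat.le_of_dvd hpos (Multiset.dvd_prod hy)).trans (hF Y hY).2
  have hcount : ∀ Y ∈ F, ∀ j, Y.count j < N + 1 := by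
    intro Y hY j
    have h1 : Y.count j ≤ Multiset.card Y := Multiset.count_le_card j Y
    have h2 : 2 ^ Multiset.card Y ≤ Y.prod := by
      have : ∀ Z : Multiset ℕ, (∀ y ∈ Z, 2 ≤ y) → 2 ^ Multiset.card Z ≤ Z.prod := by
        intro Z
        induction Z using Multiset.induction_on with
        | empty => intro _; simp
        | cons b s ih =>
          intro h
          rw [Multiset.card_cons, Multiset.prod_cons, pow_succ, mul_comm]
          exact Nat.mul_le_mul (h b (Multiset.mem_cons_self b s))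
            (ih fun y hy => h y (Multiset.mem_cons_of_mem hy))
      exact this Y (hF Y hY).1
    have h3 : Multiset.card Y < 2 ^ Multiset.card Y := Nat.lt_two_pow_self
    have h4 := (hF Y hY).2
    omega
  have hone : ∀ Y ∈ F, (1 : ℝ) ≤ (N : ℝ) ^ (1 + t) *
      ∏ j : {j // j ∈ Icc 2 N}, a j.1 ^ (Y.count j.1) := by
    intro Y hY
    rw [← weight_eq N Y a (hmem Y hY), ha, rpow_prod]
    have hpos : 0 < Y.prod := by
      apply Nat.pos_of_ne_zero
      intro h0
      rw [Multiset.prod_eq_zero_iff] at h0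
      have := (hF Y hY).1 0 h0
      omega
    have hp : (0 : ℝ) < ((Y.prod : ℕ) : ℝ) := by exact_mod_cast hpos
    rw [Real.rpow_neg hp.le]
    have h1 : ((Y.prod : ℕ) : ℝ) ^ (1 + t) ≤ (N : ℝ) ^ (1 + t) := by
      apply Real.rpow_le_rpow hp.le
      · exact_mod_cast (hF Y hY).2
      · linarith
    have h2 : 0 < ((Y.prod : ℕ) : ℝ) ^ (1 + t) := Real.rpow_pos_of_pos hp _
    rw [← div_eq_mul_inv, le_div_iff₀ h2, one_mul]
    exact h1
  have hsum : ∑ Y ∈ F, ∏ j : {j // j ∈ Icc 2 N}, a j.1 ^ (Y.count j.1) ≤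
      ∏ j : {j // j ∈ Icc 2 N}, ∑ e ∈ range (N + 1), a j.1 ^ e := by
    rw [Finset.prod_univ_sum]
    have hinj : Set.InjOn (fun (Y : Multiset ℕ) (j : {j // j ∈ Icc 2 N}) => Y.count j.1)
        (F : Set (Multiset ℕ)) := by
      intro Y hY Z hZ h
      ext j
      by_cases hj : j ∈ Icc 2 N
      · exact congrFun h ⟨j, hj⟩
      · rw [Multiset.count_eq_zero_of_notMem (fun hy => hj (hmem Y hY j hy)),
          Multiset.count_eq_zero_of_notMem (fun hy => hj (hmem Z hZ j hy))]
    rw [← Finset.sum_image (f := fun (x : {j // j ∈ Icc 2 N} → ℕ) => ∏ j, a j.1 ^ (x j)) hinj]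
    apply Finset.sum_le_sum_of_subset_of_nonneg
    · intro x hx
      rw [Finset.mem_image] at hx
      obtain ⟨Y, hY, rfl⟩ := hx
      rw [Fintype.mem_piFinset]
      intro j
      exact Finset.mem_range.2 (hcount Y hY j.1)
    · intro x _ _
      exact Finset.prod_nonneg fun j _ => pow_nonneg (ha0 _) _
  have hprod : ∏ j : {j // j ∈ Icc 2 N}, ∑ e ∈ range (N + 1), a j.1 ^ e ≤ Real.exp (2 / t) := by
    rw [Finset.prod_coe_sort (Icc 2 N) (fun j => ∑ e ∈ range (N + 1), a j ^ e)]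
    calc ∏ j ∈ Icc 2 N, ∑ e ∈ range (N + 1), a j ^ e
        ≤ ∏ j ∈ Icc 2 N, Real.exp (2 * a j) := by
          apply Finset.prod_le_prod
          · intro j _
            exact Finset.sum_nonneg fun e _ => pow_nonneg (ha0 j) e
          · intro j hj
            apply geom_le _ _ (ha0 j)
            have hj2 : 2 ≤ j := (Finset.mem_Icc.1 hj).1
            have hj2' : (2 : ℝ) ≤ j := by exact_mod_cast hj2
            rw [ha]
            show (j : ℝ) ^ (-(1 + t)) ≤ 1 / 2
            calc (j : ℝ) ^ (-(1 + t)) ≤ (j : ℝ) ^ (-1 : ℝ) :=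
                  Real.rpow_le_rpow_of_exponent_le (by linarith) (by linarith)
              _ = (j : ℝ)⁻¹ := Real.rpow_neg_one _
              _ ≤ 1 / 2 := by
                  rw [one_div]
                  exact inv_anti₀ (by norm_num) hj2'
      _ = Real.exp (∑ j ∈ Icc 2 N, 2 * a j) := (Real.exp_sum _ _).symm
      _ ≤ Real.exp (2 / t) := by
          apply Real.exp_le_exp.2
          rw [← Finset.mul_sum, div_eq_mul_inv]
          apply mul_le_mul_of_nonneg_left _ (by norm_num)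
          have h := sum_le t N ht hN
          have h2 : 0 ≤ (N : ℝ) ^ (-t) := by positivity
          have h3 : t * ∑ j ∈ Icc 2 N, a j ≤ 1 := by
            rw [ha]; linarith
          rw [← one_div, le_div_iff₀ ht, mul_comm]
          exact h3
  calc (F.card : ℝ) = ∑ Y ∈ F, (1 : ℝ) := by simp
    _ ≤ ∑ Y ∈ F, (N : ℝ) ^ (1 + t) * ∏ j : {j // j ∈ Icc 2 N}, a j.1 ^ (Y.count j.1) :=
        Finset.sum_le_sum hone
    _ = (N : ℝ) ^ (1 + t) * ∑ Y ∈ F, ∏ j : {j // j ∈ Icc 2 N}, a j.1 ^ (Y.count j.1) := by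
        rw [Finset.mul_sum]
    _ ≤ (N : ℝ) ^ (1 + t) * Real.exp (2 / t) := by
        apply mul_le_mul_of_nonneg_left (hsum.trans hprod)
        positivity

end Pool.Agent.Lib.MP_85a137_nt.FacCountM

namespace Pool.Agent.Lib.MP_85a137_nt

open FacCountM in
/-- Rankin's bound for the number of multisets of integers at least 2 with product at most N -/
theorem facCount : StmtFacCount := by
  intro N F hN hF
  have hN0 : (0 : ℝ) < N := by
    have : 0 < N := by omega
    exact_mod_cast this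
  have hlog : 0 < Real.log N := by
    apply Real.log_pos
    have : 1 < N := by omega
    exact_mod_cast this
  set s : ℝ := Real.sqrt (Real.log N) with hs
  have hs0 : 0 < s := Real.sqrt_pos.2 hlog
  have hss : s * s = Real.log N := Real.mul_self_sqrt hlog.le
  have h := main N F (1 / s) (by positivity) (by omega) hF
  refine h.trans (le_of_eq ?_)
  have e1 : (N : ℝ) ^ (1 + 1 / s) = N * Real.exp s := by
    rw [Real.rpow_add hN0, Real.rpow_one, Real.rpow_def_of_pos hN0]
    congr 2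
    rw [← hss]
    field_simp
  rw [e1, mul_assoc, ← Real.exp_add]
  congr 2
  field_simp
  norm_num

end Pool.Agent.Lib.MP_85a137_nt
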