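import Pool.Agent.Lib.MP_85a137_nt.Spec3

/-!
# Number of ordered factorizations

`StmtFact`: at most `n ^ Ω(C)` functions `Fin n → ℕ` have product `C`.
-/

set_option autoImplicit false

namespace Pool.Agent.Lib.MP_85a137_nt.FactM

open Finset

theorem aux (n : ℕ) (C : ℕ) : 1 ≤ C → ∀ F : Finset (Fin n → ℕ),
    (∀ c ∈ F, ∏ j, c j = C) → F.card ≤ n ^ ArithmeticFunction.cardFactors C := by
  classical
  induction C using Nat.strong_induction_on with
  | _ C ih =>
    intro hC F hF
    rcases Nat.eq_or_lt_of_le hC with h1 | h1
    · -- `C = 1`
      have hsub : F ⊆ {fun _ => 1} := by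
        intro c hc
        rw [mem_singleton]
        funext j
        have h2 := hF c hc
        rw [← h1] at h2
        exact (Finset.prod_eq_one_iff.mp h2) j (mem_univ j)
      calc F.card ≤ ({fun _ => 1} : Finset (Fin n → ℕ)).card := card_le_card hsub
        _ = 1 := card_singleton _
        _ = n ^ ArithmeticFunction.cardFactors C := by
          rw [← h1, ArithmeticFunction.cardFactors_one, pow_zero]
    · have hp : (Nat.minFac C).Prime := Nat.minFac_prime (by omega)
      obtain ⟨C', hC'⟩ := Nat.minFac_dvd C
      set p := Nat.minFac C with hpdef
      have hC'pos : 1 ≤ C' := by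
        rcases Nat.eq_zero_or_pos C' with h0 | h0
        · rw [h0, mul_zero] at hC'; omega
        · exact h0
      have hlt : C' < C := by
        have h2 := hp.two_le
        nlinarith
      have hdiv : ∀ c ∈ F, ∃ j, p ∣ c j := by
        intro c hc
        have h2 : p ∣ ∏ j, c j := by
          rw [hF c hc]; exact ⟨C', hC'⟩
        obtain ⟨j, _, hj⟩ := (Prime.dvd_finset_prod_iff hp.prime _).mp h2
        exact ⟨j, hj⟩
      let red : (Fin n → ℕ) → (Fin n → ℕ) := fun c =>
        if h : ∃ j, p ∣ c j then Function.update c h.choose (c h.choose / p) else c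
      let F' : Finset (Fin n → ℕ) := F.image red
      have hF' : ∀ c ∈ F', ∏ j, c j = C' := by
        intro c' hc'
        obtain ⟨c, hc, rfl⟩ := mem_image.mp hc'
        have h := hdiv c hc
        have hred : red c = Function.update c h.choose (c h.choose / p) := dif_pos h
        rw [hred]
        have h3 : (p : ℕ) * ∏ j, Function.update c h.choose (c h.choose / p) j = p * C' := by
          rw [← hC', ← hF c hc, Finset.prod_update_of_mem (mem_univ _), ← mul_assoc,
            Nat.mul_div_cancel' h.choose_spec]
          rw [← Finset.prod_erase_mul (s := univ) (a := h.choose) c (mem_univ _), mul_comm,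
            Finset.sdiff_singleton_eq_erase]
        exact Nat.eq_of_mul_eq_mul_left hp.pos h3
      have hsub : F ⊆ (F' ×ˢ (univ : Finset (Fin n))).image
          (fun q => Function.update q.1 q.2 (p * q.1 q.2)) := by
        intro c hc
        have h := hdiv c hc
        have hred : red c = Function.update c h.choose (c h.choose / p) := dif_pos h
        refine mem_image.mpr ⟨(red c, h.choose), ?_, ?_⟩
        · exact mem_product.mpr ⟨mem_image_of_mem _ hc, mem_univ _⟩
        · rw [hred]
          simp only [Function.update_self, Function.update_idem]
          rw [Nat.mul_div_cancel' h.choose_spec, Function.update_eq_self]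
      have hO : ArithmeticFunction.cardFactors C = ArithmeticFunction.cardFactors C' + 1 := by
        rw [hC', ArithmeticFunction.cardFactors_mul hp.ne_zero (by omega),
          ArithmeticFunction.cardFactors_apply_prime hp, add_comm]
      calc F.card ≤ ((F' ×ˢ (univ : Finset (Fin n))).image
            (fun q => Function.update q.1 q.2 (p * q.1 q.2))).card := card_le_card hsub
        _ ≤ (F' ×ˢ (univ : Finset (Fin n))).card := card_image_le
        _ = F'.card * n := by rw [card_product, card_univ, Fintype.card_fin]
        _ ≤ n ^ ArithmeticFunction.cardFactors C' * n :=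
          Nat.mul_le_mul_right _ (ih C' hlt hC'pos F' hF')
        _ = n ^ ArithmeticFunction.cardFactors C := by rw [hO, pow_succ]

end Pool.Agent.Lib.MP_85a137_nt.FactM

namespace Pool.Agent.Lib.MP_85a137_nt

/-- Number of ordered factorizations into `n` factors. -/
theorem fact : StmtFact := fun n C F _ hC hF => FactM.aux n C hC F hF

end Pool.Agent.Lib.MP_85a137_nt
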