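import Pool.Agent.Lib.MP_85a137_nt.Spec4

/-!
# MP_85a137_nt: the normal order of `log N(k)`
-/

set_option autoImplicit false

namespace Pool.Agent.Lib.MP_85a137_nt

open Finset

theorem tFin4 (hM : StmtMain4) (hU : StmtUpp) (hF : StmtNumF) : StmtFin4 := by
  classical
  obtain ⟨xM, hM⟩ := hM
  obtain ⟨C, xU, hC, hU⟩ := hU
  obtain ⟨xF, hF⟩ := hF
  refine ⟨C, xM + xU + xF + 1, hC, fun x hx => ?_⟩
  obtain ⟨y, hy⟩ : ∃ y, y = Real.sqrt (Real.log x) * Real.log (Real.log x) := ⟨_, rfl⟩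
  obtain ⟨h1, h2, h3⟩ := hF x (by omega) y hy
  have h4 := hM x (by omega) y h1 (le_of_eq hy) 1 0 le_rfl (by
    rw [Nat.cast_one, Real.log_one]
    exact (Real.exp_pos _).le)
  have h5 := hU x (by omega)
  obtain ⟨E, hE⟩ : ∃ E, E = Real.exp (1 / 10 ^ 7 * y * Real.log (Real.log y) / Real.log y ^ 2) :=
    ⟨_, rfl⟩
  rw [← hE] at h4
  have hE1 : Real.exp (1 / 10 ^ 8 * BB x) ≤ E := by
    rw [hE]
    exact Real.exp_le_exp.2 h2
  have hceil : ⌈Real.exp (1 / 10 ^ 8 * BB x)⌉₊ ≤ ⌈E⌉₊ := Nat.ceil_le_ceil hE1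
  have hsub : ((range x).filter fun k => NN k < ((⌈Real.exp (1 / 10 ^ 8 * BB x)⌉₊ : ℕ) : ℕ∞) ∨
      ((⌊Real.exp (C * BB x)⌋₊ : ℕ) : ℕ∞) < NN k) ⊆
      ((range x).filter fun i => NN (0 + 1 * i) < ((⌈E⌉₊ : ℕ) : ℕ∞)) ∪
        ((range x).filter fun k => ((⌊Real.exp (C * BB x)⌋₊ : ℕ) : ℕ∞) < NN k) := by
    intro k hk
    rw [Finset.mem_filter] at hk
    rw [Finset.mem_union, Finset.mem_filter, Finset.mem_filter]
    rcases hk.2 with h6 | h6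
    · left
      refine ⟨hk.1, ?_⟩
      rw [one_mul, zero_add]
      exact lt_of_lt_of_le h6 (by exact_mod_cast hceil)
    · exact Or.inr ⟨hk.1, h6⟩
  have h6 := (Finset.card_le_card hsub).trans (Finset.card_union_le _ _)
  have h7 := (Nat.cast_le (α := ℝ)).2 h6
  rw [Nat.cast_add] at h7
  exact (h7.trans (add_le_add h4 h5)).trans h3

end Pool.Agent.Lib.MP_85a137_nt
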