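import Pool.Agent.Lib.MP_85a137_nt.Spec2

/-!
# MP_85a137_nt: independence of functions with coprime moduli
-/

set_option autoImplicit false

namespace Pool.Agent.Lib.MP_85a137_nt

open Finset

namespace Grp

/-- the indicator function of a residue class -/
noncomputable def ind (d : ℕ) (s : ℤ) : ℤ → ℝ := fun k => if (d : ℤ) ∣ k - s then 1 else 0

/-- linear combinations of indicator functions of residue classes with moduli dividing `Q`; the first number is
the mean value, the second one the sum of the absolute values of the coefficients -/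
inductive Nice (Q : ℕ) : ℝ → ℝ → (ℤ → ℝ) → Prop
  | ind (d : ℕ) (s : ℤ) : 1 ≤ d → d ∣ Q → Nice Q (1 / d) 1 (ind d s)
  | zero : Nice Q 0 0 (fun _ => 0)
  | add (E L E' L' : ℝ) (F F' : ℤ → ℝ) : Nice Q E L F → Nice Q E' L' F' →
      Nice Q (E + E') (L + L') (fun k => F k + F' k)
  | smul (c E L : ℝ) (F : ℤ → ℝ) : Nice Q E L F → Nice Q (c * E) (|c| * L) (fun k => c * F k)

theorem count_bound (d : ℕ) (hd : 1 ≤ d) (s : ℤ) (X : ℕ) :
    |∑ k ∈ range X, ind d s (k : ℤ) - X * (1 / d)| ≤ 1 := by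
  have hd0 : (0 : ℤ) < (d : ℤ) := by exact_mod_cast hd
  have h1 : ∑ k ∈ range X, ind d s (k : ℤ) =
      (((Ico (0 : ℤ) X).filter fun x => x ≡ s [ZMOD d]).card : ℝ) := by
    rw [Finset.card_filter]
    push_cast
    have h2 : Ico (0 : ℤ) X = (range X).map Nat.castEmbedding := by
      ext x
      simp only [mem_Ico, mem_map, mem_range, Nat.castEmbedding_apply]
      constructor
      · rintro ⟨ha, hb⟩
        refine ⟨x.toNat, ?_, ?_⟩
        · omega
        · omega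
      · rintro ⟨a, ha, rfl⟩
        constructor
        · omega
        · exact_mod_cast ha
    rw [h2, sum_map]
    refine sum_congr rfl fun k _ => ?_
    unfold ind
    simp only [Nat.castEmbedding_apply]
    congr 1
    rw [Int.modEq_comm, Int.modEq_iff_dvd]
  rw [h1]
  have h3 := Int.Ico_filter_modEq_card (0 : ℤ) (X : ℤ) hd0 s
  generalize (((Ico (0 : ℤ) X).filter fun x => x ≡ s [ZMOD d]).card) = n at h3 ⊢
  push_cast at h3
  have hdq : (0 : ℚ) < (d : ℚ) := by exact_mod_cast hd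
  have huv : ((X : ℚ) - s) / d - (0 - s) / d = X / d := by ring
  have hx : (0 : ℚ) ≤ (X : ℚ) / d := by positivity
  generalize ((X : ℚ) - s) / d = u at h3 huv
  generalize ((0 : ℚ) - s) / d = v at h3 huv
  have hle : ⌈v⌉ ≤ ⌈u⌉ := Int.ceil_le_ceil (by linarith)
  rw [max_eq_left (by linarith)] at h3
  have h4 : (n : ℚ) = (⌈u⌉ : ℚ) - ⌈v⌉ := by exact_mod_cast h3
  have a1 := Int.ceil_lt_add_one u
  have a2 := Int.le_ceil u
  have a3 := Int.ceil_lt_add_one v
  have a4 := Int.le_ceil v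
  have h5 : |(n : ℚ) - X / d| ≤ 1 := by
    rw [h4, abs_le]
    constructor <;> linarith
  have h6 : ((|(n : ℚ) - X / d| : ℚ) : ℝ) ≤ ((1 : ℚ) : ℝ) := by exact_mod_cast h5
  push_cast at h6
  rw [mul_one_div]
  exact h6

theorem Nice.bound {Q : ℕ} {E L : ℝ} {F : ℤ → ℝ} (h : Nice Q E L F) (X : ℕ) :
    |∑ k ∈ range X, F (k : ℤ) - X * E| ≤ L := by
  induction h with
  | ind d s h1 _ => exact count_bound d h1 s X
  | zero => simp
  | add E L E' L' F F' _ _ ih ih' =>
    rw [sum_add_distrib, mul_add]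
    calc |∑ k ∈ range X, F (k : ℤ) + ∑ k ∈ range X, F' (k : ℤ) - (X * E + X * E')|
        = |(∑ k ∈ range X, F (k : ℤ) - X * E) + (∑ k ∈ range X, F' (k : ℤ) - X * E')| := by
          congr 1; ring
      _ ≤ _ := (abs_add_le _ _).trans (add_le_add ih ih')
  | smul c E L F _ ih =>
    rw [← mul_sum]
    calc |c * ∑ k ∈ range X, F (k : ℤ) - X * (c * E)|
        = |c| * |∑ k ∈ range X, F (k : ℤ) - X * E| := by
          rw [← abs_mul]; congr 1; ring
      _ ≤ _ := mul_le_mul_of_nonneg_left ih (abs_nonneg c)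

theorem Nice.L_nonneg {Q : ℕ} {E L : ℝ} {F : ℤ → ℝ} (h : Nice Q E L F) : 0 ≤ L :=
  (abs_nonneg _).trans (h.bound 0)

theorem Nice.E_nonneg {Q : ℕ} {E L : ℝ} {F : ℤ → ℝ} (h : Nice Q E L F) (hF : ∀ k, 0 ≤ F k) :
    0 ≤ E := by
  by_contra hE
  rw [not_le] at hE
  obtain ⟨X, hX⟩ := exists_nat_gt (L / (-E))
  have h1 := h.bound X
  rw [abs_le] at h1
  have h2 : 0 ≤ ∑ k ∈ range X, F (k : ℤ) := sum_nonneg fun k _ => hF _
  rw [div_lt_iff₀ (by linarith)] at hX
  linarith [h1.2]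

theorem Nice.mono {Q Q' : ℕ} (hQ : Q ∣ Q') {E L : ℝ} {F : ℤ → ℝ} (h : Nice Q E L F) :
    Nice Q' E L F := by
  induction h with
  | ind d s h1 h2 => exact Nice.ind d s h1 (h2.trans hQ)
  | zero => exact Nice.zero
  | add E L E' L' F F' _ _ ih ih' => exact Nice.add _ _ _ _ _ _ ih ih'
  | smul c E L F _ ih => exact Nice.smul _ _ _ _ ih

theorem ind_mul_coprime {d e : ℕ} (h : Nat.Coprime d e) (s t : ℤ) :
    ∃ r : ℤ, ∀ k, ind d s k * ind e t k = ind (d * e) r k := by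
  obtain ⟨u, v, huv⟩ : ∃ u v : ℤ, u * d + v * e = 1 := by
    have := Int.isCoprime_iff_gcd_eq_one.mpr (by simpa using h : Int.gcd (d : ℤ) (e : ℤ) = 1)
    exact this
  refine ⟨s * (v * e) + t * (u * d), fun k => ?_⟩
  have e1 : ((d : ℤ) ∣ k - s ∧ (e : ℤ) ∣ k - t) ↔
      (((d * e : ℕ) : ℤ) ∣ k - (s * (v * e) + t * (u * d))) := by
    constructor
    · rintro ⟨h1, h2⟩
      have hc : IsCoprime (d : ℤ) (e : ℤ) := ⟨u, v, huv⟩
      push_cast
      refine hc.mul_dvd ?_ ?_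
      · have : k - (s * (v * e) + t * (u * d)) = (k - s) + (s - t) * u * d := by
          linear_combination (-s) * huv
        rw [this]
        exact dvd_add h1 (Dvd.intro_left _ rfl)
      · have : k - (s * (v * e) + t * (u * d)) = (k - t) + (t - s) * v * e := by
          linear_combination (-t) * huv
        rw [this]
        exact dvd_add h2 (Dvd.intro_left _ rfl)
    · intro h1
      push_cast at h1
      constructor
      · have h2 : (d : ℤ) ∣ k - (s * (v * e) + t * (u * d)) := dvd_trans (Dvd.intro _ rfl) h1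
        have : k - s = (k - (s * (v * e) + t * (u * d))) - (s - t) * u * d := by
          linear_combination s * huv
        rw [this]
        exact dvd_sub h2 (Dvd.intro_left _ rfl)
      · have h2 : (e : ℤ) ∣ k - (s * (v * e) + t * (u * d)) := dvd_trans (Dvd.intro_left _ rfl) h1
        have : k - t = (k - (s * (v * e) + t * (u * d))) - (t - s) * v * e := by
          linear_combination t * huv
        rw [this]
        exact dvd_sub h2 (Dvd.intro_left _ rfl)
  unfold ind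
  by_cases h1 : (d : ℤ) ∣ k - s
  · by_cases h2 : (e : ℤ) ∣ k - t
    · rw [if_pos h1, if_pos h2, if_pos (e1.mp ⟨h1, h2⟩), one_mul]
    · rw [if_pos h1, if_neg h2, if_neg (fun h => h2 (e1.mpr h).2), mul_zero]
  · rw [if_neg h1, if_neg (fun h => h1 (e1.mpr h).1), zero_mul]

theorem Nice.mul {Q Q' : ℕ} (hQ : Nat.Coprime Q Q') {E L E' L' : ℝ} {F F' : ℤ → ℝ}
    (h : Nice Q E L F) (h' : Nice Q' E' L' F') :
    Nice (Q * Q') (E * E') (L * L') (fun k => F k * F' k) := by
  induction h with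
  | ind d s h1 h2 =>
    induction h' with
    | ind e t g1 g2 =>
      obtain ⟨r, hr⟩ := ind_mul_coprime (Nat.Coprime.coprime_dvd_left h2
        (Nat.Coprime.coprime_dvd_right g2 hQ)) s t
      have := Nice.ind (Q := Q * Q') (d * e) r (Nat.mul_pos h1 g1) (Nat.mul_dvd_mul h2 g2)
      convert this using 1
      · push_cast; rw [one_div_mul_one_div]
      · rw [one_mul]
      · exact funext hr
    | zero =>
      simpa using Nice.zero (Q := Q * Q')
    | add E1 L1 E2 L2 F1 F2 _ _ ih ih' =>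
      have := Nice.add _ _ _ _ _ _ ih ih'
      convert this using 1
      · ring
      · ring
      · funext k; ring
    | smul c E1 L1 F1 _ ih =>
      have := Nice.smul c _ _ _ ih
      convert this using 1
      · ring
      · ring
      · funext k; ring
  | zero => simpa using Nice.zero (Q := Q * Q')
  | add E1 L1 E2 L2 F1 F2 _ _ ih ih' =>
    have := Nice.add _ _ _ _ _ _ ih ih'
    convert this using 1
    · ring
    · ring
    · funext k; ring
  | smul c E1 L1 F1 _ ih =>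
    have := Nice.smul c _ _ _ ih
    convert this using 1
    · ring
    · ring
    · funext k; ring

theorem Nice.one (Q : ℕ) : Nice Q 1 1 (fun _ => 1) := by
  have := Nice.ind (Q := Q) 1 0 le_rfl (one_dvd _)
  convert this using 1
  · simp
  · funext k; simp [Grp.ind]

theorem Nice.finsum {Q : ℕ} {ι : Type} (S : Finset ι) (E L : ι → ℝ) (F : ι → ℤ → ℝ)
    (h : ∀ i ∈ S, Nice Q (E i) (L i) (F i)) :
    Nice Q (∑ i ∈ S, E i) (∑ i ∈ S, L i) (fun k => ∑ i ∈ S, F i k) := by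
  classical
  induction S using Finset.induction_on with
  | empty => simpa using Nice.zero (Q := Q)
  | insert a S ha ih =>
    have := Nice.add _ _ _ _ _ _ (h a (mem_insert_self a S))
      (ih fun i hi => h i (mem_insert_of_mem hi))
    convert this using 1
    · rw [sum_insert ha]
    · rw [sum_insert ha]
    · funext k; rw [sum_insert ha]

theorem Nice.finprod {Q : ℕ → ℕ} {E L : ℕ → ℝ} {F : ℕ → ℤ → ℝ} (R : ℕ)
    (hQ : ∀ c < R, ∀ c' < R, c ≠ c' → Nat.Coprime (Q c) (Q c'))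
    (h : ∀ c < R, Nice (Q c) (E c) (L c) (F c)) :
    Nice (∏ c ∈ range R, Q c) (∏ c ∈ range R, E c) (∏ c ∈ range R, L c)
      (fun k => ∏ c ∈ range R, F c k) := by
  induction R with
  | zero => simpa using Nice.one 1
  | succ R ih =>
    have h1 := ih (fun c hc c' hc' => hQ c (by omega) c' (by omega)) (fun c hc => h c (by omega))
    have h2 : Nat.Coprime (∏ c ∈ range R, Q c) (Q R) := by
      refine Nat.Coprime.prod_left fun c hc => ?_
      rw [mem_range] at hc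
      exact hQ c (by omega) R (by omega) (by omega)
    have := Nice.mul h2 h1 (h R (by omega))
    simpa [prod_range_succ] using this

open Classical in
theorem pair {Q q q' : ℕ} (hq : 1 ≤ q) (hq' : 1 ≤ q') (h : q ∣ Q) (h' : q' ∣ Q) (r s : ℤ) :
    Nice Q (if ((q.gcd q' : ℕ) : ℤ) ∣ r - s then ((q.gcd q' : ℕ) : ℝ) / (q * q') else 0)
      (if ((q.gcd q' : ℕ) : ℤ) ∣ r - s then 1 else 0) (fun k => ind q r k * ind q' s k) := by
  by_cases hg : ((q.gcd q' : ℕ) : ℤ) ∣ r - s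
  · rw [if_pos hg, if_pos hg]
    obtain ⟨m, hm⟩ := hg
    have hb := Nat.gcd_eq_gcd_ab q q'
    obtain ⟨t, ht1, ht2⟩ : ∃ t : ℤ, (q : ℤ) ∣ t - r ∧ (q' : ℤ) ∣ t - s := by
      refine ⟨r - m * q.gcdA q' * q, ⟨-(m * q.gcdA q'), by ring⟩, ⟨m * q.gcdB q', ?_⟩⟩
      have : r = s + ((q.gcd q' : ℕ) : ℤ) * m := by linarith
      rw [this, hb]; ring
    have hl : 1 ≤ q.lcm q' := Nat.pos_of_ne_zero (Nat.lcm_ne_zero (by omega) (by omega))
    have := Nice.ind (Q := Q) (q.lcm q') t hl (Nat.lcm_dvd h h')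
    convert this using 1
    · have e1 : (q.gcd q' : ℝ) * (q.lcm q' : ℝ) = q * q' := by
        exact_mod_cast Nat.gcd_mul_lcm q q'
      have h2 : (0 : ℝ) < q.lcm q' := by exact_mod_cast hl
      have h3 : (0 : ℝ) < q := by exact_mod_cast hq
      have h4 : (0 : ℝ) < q' := by exact_mod_cast hq'
      rw [div_eq_div_iff (by positivity) h2.ne', one_mul, e1]
    · funext k
      have a1 : (q : ℤ) ∣ k - r ↔ (q : ℤ) ∣ k - t := by
        have : k - r = (k - t) + (t - r) := by ring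
        rw [this]; exact dvd_add_left ht1
      have a2 : (q' : ℤ) ∣ k - s ↔ (q' : ℤ) ∣ k - t := by
        have : k - s = (k - t) + (t - s) := by ring
        rw [this]; exact dvd_add_left ht2
      have a3 : ((q.lcm q' : ℕ) : ℤ) ∣ k - t ↔ (q : ℤ) ∣ k - t ∧ (q' : ℤ) ∣ k - t := by
        rw [Int.natCast_dvd, Int.natCast_dvd, Int.natCast_dvd]
        exact Nat.lcm_dvd_iff
      unfold Grp.ind
      simp only [a1, a2, a3]
      by_cases b1 : (q : ℤ) ∣ k - t
      · by_cases b2 : (q' : ℤ) ∣ k - t <;> simp [b1, b2]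
      · simp [b1]
  · rw [if_neg hg, if_neg hg]
    convert Nice.zero (Q := Q) using 1
    funext k
    unfold Grp.ind
    by_cases b1 : (q : ℤ) ∣ k - r
    · by_cases b2 : (q' : ℤ) ∣ k - s
      · exfalso
        apply hg
        have g1 : ((q.gcd q' : ℕ) : ℤ) ∣ k - r :=
          (Int.natCast_dvd_natCast.mpr (Nat.gcd_dvd_left q q')).trans b1
        have g2 : ((q.gcd q' : ℕ) : ℤ) ∣ k - s :=
          (Int.natCast_dvd_natCast.mpr (Nat.gcd_dvd_right q q')).trans b2
        have : r - s = (k - s) - (k - r) := by ring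
        rw [this]
        exact dvd_sub g2 g1
      · simp [b2]
    · simp [b1]

theorem alg1 (M W : ℝ) (hM : 0 < M) :
    (1 - W / M) ^ 2 = 1 + (-2 / M) * W + 1 / M ^ 2 * (W * W) := by
  field_simp
  ring

open Classical in
theorem color {ι : Type} (I : Finset ι) (q : ι → ℕ) (r : ι → ℤ) (ε L : ℝ)
    (hq : ∀ i ∈ I, 1 ≤ q i) (hM : 0 < ∑ i ∈ I, (1 : ℝ) / q i)
    (h1 : (∑ i ∈ I, ∑ j ∈ I, if 1 < (q i).gcd (q j) ∧
      (((q i).gcd (q j) : ℕ) : ℤ) ∣ r i - r j then
        (((q i).gcd (q j) : ℕ) : ℝ) / (q i * q j) else 0) ≤ ε * (∑ i ∈ I, (1 : ℝ) / q i) ^ 2)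
    (h2 : (1 + (I.card : ℝ) / ∑ i ∈ I, (1 : ℝ) / q i) ^ 2 ≤ L) :
    ∃ E' L' : ℝ, Nice (∏ i ∈ I, q i) E' L'
      (fun k => (1 - (∑ i ∈ I, ind (q i) (r i) k) / ∑ i ∈ I, (1 : ℝ) / q i) ^ 2) ∧
      E' ≤ ε ∧ L' ≤ L := by
  have hd : ∀ i ∈ I, q i ∣ ∏ i ∈ I, q i := fun i hi => dvd_prod_of_mem q hi
  generalize (∏ i ∈ I, q i) = Q at hd
  obtain ⟨M, hMe⟩ : ∃ M, M = ∑ i ∈ I, (1 : ℝ) / q i := ⟨_, rfl⟩
  rw [← hMe] at hM h1 h2 ⊢
  have N1 := Nice.one Q
  have N2 := Nice.smul (-2 / M) _ _ _ (Nice.finsum I (fun i => (1 : ℝ) / q i) (fun _ => 1)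
    (fun i => ind (q i) (r i)) fun i hi => Nice.ind (q i) (r i) (hq i hi) (hd i hi))
  have N3 := Nice.smul (1 / M ^ 2) _ _ _ (Nice.finsum I _ _
    (fun a k => ∑ b ∈ I, ind (q a) (r a) k * ind (q b) (r b) k)
    fun a ha => Nice.finsum I _ _ _ fun b hb =>
      pair (hq a ha) (hq b hb) (hd a ha) (hd b hb) (r a) (r b))
  have N := Nice.add _ _ _ _ _ _ (Nice.add _ _ _ _ _ _ N1 N2) N3
  have hF : (fun k : ℤ => 1 + -2 / M * ∑ i ∈ I, ind (q i) (r i) k +
      1 / M ^ 2 * ∑ i ∈ I, ∑ b ∈ I, ind (q i) (r i) k * ind (q b) (r b) k) =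
      (fun k => (1 - (∑ i ∈ I, ind (q i) (r i) k) / M) ^ 2) := by
    funext k
    rw [alg1 M _ hM, sum_mul_sum]
  rw [hF] at N
  refine ⟨_, _, N, ?_, ?_⟩
  · rw [← hMe]
    have hS : (∑ a ∈ I, ∑ b ∈ I, if (((q a).gcd (q b) : ℕ) : ℤ) ∣ r a - r b then
        (((q a).gcd (q b) : ℕ) : ℝ) / (q a * q b) else 0) ≤ M ^ 2 + ε * M ^ 2 := by
      refine le_trans ?_ (add_le_add_right h1 (M ^ 2))
      rw [hMe, sq, sum_mul_sum, ← sum_add_distrib]
      refine sum_le_sum fun a ha => ?_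
      rw [← sum_add_distrib]
      refine sum_le_sum fun b hb => ?_
      have p1 : (0 : ℝ) < q a := by exact_mod_cast hq a ha
      have p2 : (0 : ℝ) < q b := by exact_mod_cast hq b hb
      by_cases hg : 1 < (q a).gcd (q b)
      · by_cases hc : (((q a).gcd (q b) : ℕ) : ℤ) ∣ r a - r b
        · rw [if_pos hc, if_pos ⟨hg, hc⟩]
          have : (0 : ℝ) ≤ 1 / q a * (1 / q b) := by positivity
          linarith
        · rw [if_neg hc, if_neg (fun h => hc h.2)]
          positivity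
      · have hg1 : (q a).gcd (q b) = 1 := by
          have := Nat.gcd_pos_of_pos_left (q b) (hq a ha)
          omega
        rw [hg1]
        simp only [Nat.cast_one, one_dvd, if_true, lt_irrefl, false_and, if_false, add_zero]
        rw [one_div_mul_one_div]
    have hM2 : (0 : ℝ) < M ^ 2 := by positivity
    have : 1 / M ^ 2 * (∑ a ∈ I, ∑ b ∈ I, if (((q a).gcd (q b) : ℕ) : ℤ) ∣ r a - r b then
        (((q a).gcd (q b) : ℕ) : ℝ) / (q a * q b) else 0) ≤ 1 + ε := by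
      rw [one_div, inv_mul_le_iff₀ hM2]
      linarith
    have h3 : -2 / M * M = -2 := div_mul_cancel₀ _ hM.ne'
    linarith
  · refine le_trans ?_ h2
    rw [abs_of_neg (by apply div_neg_of_neg_of_pos <;> linarith : (-2 / M : ℝ) < 0),
      abs_of_pos (by positivity : (0 : ℝ) < 1 / M ^ 2)]
    have hS : (∑ a ∈ I, ∑ b ∈ I, if (((q a).gcd (q b) : ℕ) : ℤ) ∣ r a - r b then
        (1 : ℝ) else 0) ≤ (I.card : ℝ) * I.card := by
      calc _ ≤ ∑ a ∈ I, ∑ b ∈ I, (1 : ℝ) := by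
            refine sum_le_sum fun a _ => sum_le_sum fun b _ => ?_
            split_ifs <;> norm_num
        _ = _ := by simp
    have hM2 : (0 : ℝ) ≤ 1 / M ^ 2 := by positivity
    have h4 := mul_le_mul_of_nonneg_left hS hM2
    have h5 : (1 + (I.card : ℝ) / M) ^ 2 = 1 + -(-2 / M) * I.card +
        1 / M ^ 2 * ((I.card : ℝ) * I.card) := by
      field_simp
      ring
    rw [h5, sum_const, nsmul_eq_mul, mul_one]
    linarith

end Grp

theorem group : StmtGroup := by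
  classical
  intro ι R X I q r ε L hq hco hM hE hL
  have hc : ∀ c < R, ∃ E' L' : ℝ, Grp.Nice (∏ i ∈ I c, q i) E' L'
      (fun k => (1 - (∑ i ∈ I c, Grp.ind (q i) (r i) k) / ∑ i ∈ I c, (1 : ℝ) / q i) ^ 2) ∧
      E' ≤ ε ∧ L' ≤ L := fun c hc =>
    Grp.color (I c) q r ε L (hq c hc) (hM c hc) (hE c hc) (hL c hc)
  have hc2 : ∀ c, ∃ E' L' : ℝ, c < R → (Grp.Nice (∏ i ∈ I c, q i) E' L'
      (fun k => (1 - (∑ i ∈ I c, Grp.ind (q i) (r i) k) / ∑ i ∈ I c, (1 : ℝ) / q i) ^ 2) ∧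
      E' ≤ ε ∧ L' ≤ L) := by
    intro c
    by_cases h : c < R
    · obtain ⟨E', L', h'⟩ := hc c h
      exact ⟨E', L', fun _ => h'⟩
    · exact ⟨0, 0, fun h' => absurd h' h⟩
  choose E' L' h using hc2
  have hN := Grp.Nice.finprod (Q := fun c => ∏ i ∈ I c, q i) (E := E') (L := L')
    (F := fun c k => (1 - (∑ i ∈ I c, Grp.ind (q i) (r i) k) / ∑ i ∈ I c, (1 : ℝ) / q i) ^ 2) R
    (fun c hcR c' hcR' hne => Nat.Coprime.prod_left fun i hi => Nat.Coprime.prod_right fun j hj =>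
      hco c hcR c' hcR' hne i hi j hj) (fun c hcR => (h c hcR).1)
  have hb := hN.bound X
  rw [abs_le] at hb
  have hEE : ∏ c ∈ range R, E' c ≤ ε ^ R := by
    calc ∏ c ∈ range R, E' c ≤ ∏ _c ∈ range R, ε :=
          prod_le_prod (fun c hcR => (h c (mem_range.mp hcR)).1.E_nonneg fun k => sq_nonneg _)
            fun c hcR => (h c (mem_range.mp hcR)).2.1
      _ = ε ^ R := by simp
  have hLL : ∏ c ∈ range R, L' c ≤ L ^ R := by
    calc ∏ c ∈ range R, L' c ≤ ∏ _c ∈ range R, L :=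
          prod_le_prod (fun c hcR => (h c (mem_range.mp hcR)).1.L_nonneg)
            fun c hcR => (h c (mem_range.mp hcR)).2.2
      _ = L ^ R := by simp
  have hX : (X : ℝ) * ∏ c ∈ range R, E' c ≤ X * ε ^ R :=
    mul_le_mul_of_nonneg_left hEE (Nat.cast_nonneg X)
  have htot : ∑ k ∈ range X, ∏ c ∈ range R,
      (1 - (∑ i ∈ I c, Grp.ind (q i) (r i) (k : ℤ)) / ∑ i ∈ I c, (1 : ℝ) / q i) ^ 2 ≤
      X * ε ^ R + L ^ R := by linarith [hb.2]
  have h4 : (0 : ℝ) < 4 ^ R := by positivity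
  rw [← div_le_iff₀' h4]
  refine le_trans ?_ htot
  rw [div_eq_mul_inv, ← nsmul_eq_mul, ← sum_const]
  refine le_trans (sum_le_sum (g := fun k : ℕ => ∏ c ∈ range R,
      (1 - (∑ i ∈ I c, Grp.ind (q i) (r i) (k : ℤ)) / ∑ i ∈ I c, (1 : ℝ) / q i) ^ 2) ?_)
    (sum_le_sum_of_subset_of_nonneg (filter_subset _ _) fun k _ _ =>
      prod_nonneg fun c _ => sq_nonneg _)
  intro k hk
  rw [mem_filter] at hk
  have e4 : ((4 : ℝ) ^ R)⁻¹ = ∏ _c ∈ range R, (1 / 4 : ℝ) := by
    simp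
  rw [e4]
  refine prod_le_prod (fun _ _ => by norm_num) fun c hcR => ?_
  have hk2 := hk.2 c (mem_range.mp hcR)
  have hMc := hM c (mem_range.mp hcR)
  have hW : ∑ i ∈ I c, Grp.ind (q i) (r i) (k : ℤ) =
      (((I c).filter fun i => (q i : ℤ) ∣ (k : ℤ) - r i).card : ℝ) := by
    rw [card_filter]
    push_cast
    rfl
  rw [hW]
  generalize (∑ i ∈ I c, (1 : ℝ) / q i) = M at hk2 hMc ⊢
  generalize (((I c).filter fun i => (q i : ℤ) ∣ (k : ℤ) - r i).card : ℝ) = W at hk2 ⊢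
  have h5 : W / M ≤ 1 / 2 := by
    rw [div_le_div_iff₀ hMc (by norm_num)]
    linarith
  nlinarith

end Pool.Agent.Lib.MP_85a137_nt
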