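import Pool.Agent.Lib.MP_85a137_nt.Spec4

/-!
# MP_85a137_nt, Gw: the number of large prime factors
-/

set_option autoImplicit false

namespace Pool.Agent.Lib.MP_85a137_nt

open Finset

private theorem gw_mul (w a b : ℕ) (ha : a ≠ 0) (hb : b ≠ 0) :
    Gw w (a * b) = Gw w a + Gw w b := by
  unfold Gw
  rw [((Nat.perm_primeFactorsList_mul ha hb).filter _).length_eq, List.filter_append,
    List.length_append]

private theorem gw_one (w : ℕ) : Gw w 1 = 0 := by
  unfold Gw
  rw [Nat.primeFactorsList_one]
  rfl

theorem tGw : StmtGw := by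
  intro w
  refine ⟨gw_one w, fun a b ha hb => gw_mul w a b ha hb, ?_, ?_⟩
  · intro p hp
    unfold Gw
    rw [Nat.primeFactorsList_prime hp]
    by_cases h : w < p
    · rw [if_pos h, List.filter_cons_of_pos (by simpa using h)]
      rfl
    · rw [if_neg h, List.filter_cons_of_neg (by simpa using h)]
      rfl
  · intro Y
    induction Y using Multiset.induction_on with
    | empty =>
      intro _
      rw [Multiset.prod_zero, gw_one]
      rfl
    | cons a s ih =>
      intro h
      have hs : ∀ y ∈ s, y ≠ 0 := fun y hy => h y (Multiset.mem_cons_of_mem hy)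
      rw [Multiset.prod_cons, Multiset.map_cons, Multiset.sum_cons,
        gw_mul w a s.prod (h a (Multiset.mem_cons_self a s)) ?_, ih hs]
      intro h0
      rw [Multiset.prod_eq_zero_iff] at h0
      exact hs 0 h0 rfl

end Pool.Agent.Lib.MP_85a137_nt
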