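import Pool.Agent.Lib.MP_85a137_nt.Spec3
import Pool.Agent.Lib.MP_85a137_nt.Hits

/-!
# MP_85a137_nt, third version: from hits to sequences
-/

set_option autoImplicit false

namespace Pool.Agent.Lib.MP_85a137_nt

open Finset HitsAux

namespace Hits3M

theorem exists_sol {s m n T k : ℕ} (hT : 2 ≤ T) (hk : n + 2 ≤ k) (i : Cf n × ℕ)
    (hi : i ∈ hits3 s m n T k) :
    ∃ a : Fin k → ℕ, IsSol k a ∧ Multiset.map a (Finset.univ : Finset (Fin k)).val = Y k i := by
  obtain ⟨hi1, hdvd⟩ := Finset.mem_filter.mp hi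
  obtain ⟨hγ, ht⟩ := Finset.mem_product.mp hi1
  obtain ⟨hq, hc⟩ := Finset.mem_product.mp hγ
  rw [Fintype.mem_piFinset] at hq hc
  have ht2 : 2 ≤ i.2 := hT.trans (Finset.mem_Ico.mp ht).1
  have hpos : ∀ j, 0 < i.1.1 j * i.1.2 j := fun j =>
    Nat.mul_pos (Finset.mem_filter.mp (hq j)).2.pos (Finset.mem_Ico.mp (Finset.mem_filter.mp (hc j)).1).1
  have hP : 0 < PP i.1 := Finset.prod_pos fun j _ => hpos j
  have hPt : 2 ≤ PP i.1 * i.2 := ht2.trans (Nat.le_mul_of_pos_left _ hP)
  have hD : (PP i.1 * i.2 - 1) * dd k i = k + SS i.1 + i.2 - (n + 2) := Nat.mul_div_cancel' hdvd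
  have hd : 0 < dd k i := by
    rcases Nat.eq_zero_or_pos (dd k i) with h0 | h0
    · rw [h0, Nat.mul_zero] at hD
      omega
    · exact h0
  have hcard : (Y k i).card = k := by
    unfold Y
    rw [Multiset.card_add, card_Y0, Multiset.card_replicate]
    omega
  obtain ⟨a, ha, haY⟩ := exists_seq (Y k i) k hcard
  have hprod : ∏ j, a j = (Y k i).prod := by
    rw [← haY]
    rfl
  have hsum : ∑ j, a j = (Y k i).sum := by
    rw [← haY]
    rfl
  refine ⟨a, ⟨ha, ?_, ?_⟩, haY⟩
  · intro j
    have h1 : a j ∈ Y k i := by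
      rw [← haY]
      exact Multiset.mem_map_of_mem a (Finset.mem_univ j)
    unfold Y Y0 X at h1
    rw [Multiset.mem_add, Multiset.mem_add, Multiset.mem_map, Multiset.mem_replicate,
      Multiset.insert_eq_cons, Multiset.mem_cons, Multiset.mem_singleton] at h1
    rcases h1 with (⟨l, -, hl⟩ | h1 | h1) | h1
    · rw [← hl]
      exact hpos l
    · omega
    · omega
    · omega
  · rw [hprod, hsum]
    unfold Y Y0
    rw [Multiset.prod_add, Multiset.prod_add, Multiset.sum_add, Multiset.sum_add, prod_X, sum_X,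
      Multiset.prod_replicate, Multiset.sum_replicate, Multiset.insert_eq_cons,
      Multiset.prod_cons, Multiset.sum_cons, Multiset.prod_singleton, Multiset.sum_singleton,
      one_pow, mul_one, smul_eq_mul, mul_one]
    have h1 : PP i.1 * (i.2 * dd k i) = (PP i.1 * i.2 - 1) * dd k i + dd k i := by
      rw [← Nat.succ_mul, ← mul_assoc]
      congr 1
      omega
    rw [h1, hD]
    omega

end Hits3M

theorem hits3_le (hI : StmtInj3) : StmtHits3 := by
  intro s m n T k hm hT hk
  have hex := fun (i : Cf n × ℕ) (hi : i ∈ hits3 s m n T k) => Hits3M.exists_sol hT hk i hi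
  choose! f hf hfY using hex
  classical
  have h1 : (hits3 s m n T k).card ≤ (n + 3) ^ 2 * ((hits3 s m n T k).image f).card := by
    refine Finset.card_le_mul_card_image _ _ ?_
    intro a ha
    obtain ⟨i₀, hi₀, hia⟩ := Finset.mem_image.mp ha
    let E : Finset ℕ := insert 1 (Y0 k i₀).toFinset
    have hE : E.card ≤ n + 3 := by
      refine (Finset.card_insert_le _ _).trans ?_
      have h2 := Multiset.toFinset_card_le (Y0 k i₀)
      rw [card_Y0] at h2
      omega
    have hmem : ∀ x ∈ Y k i₀, x ∈ E := by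
      intro x hx
      unfold Y at hx
      rw [Multiset.mem_add, Multiset.mem_replicate] at hx
      rw [Finset.mem_insert, Multiset.mem_toFinset]
      rcases hx with hx | hx
      · exact Or.inr hx
      · exact Or.inl hx.2
    have hYY : ∀ i ∈ (hits3 s m n T k).filter (fun i => f i = a), Y k i = Y k i₀ := by
      intro i hi
      obtain ⟨hi1, hi2⟩ := Finset.mem_filter.mp hi
      rw [← hfY i hi1, ← hfY i₀ hi₀, hi2, hia]
    have h2 : ((hits3 s m n T k).filter fun i => f i = a).card ≤ (E ×ˢ E).card := by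
      refine Finset.card_le_card_of_injOn (fun i => (i.2, dd k i)) ?_ ?_
      · intro i hi
        have h3 := hYY i hi
        have h4 : i.2 ∈ Y k i := by
          unfold Y Y0
          rw [Multiset.mem_add, Multiset.mem_add, Multiset.insert_eq_cons, Multiset.mem_cons]
          exact Or.inl (Or.inr (Or.inl rfl))
        have h5 : dd k i ∈ Y k i := by
          unfold Y Y0
          rw [Multiset.mem_add, Multiset.mem_add, Multiset.insert_eq_cons, Multiset.mem_cons,
            Multiset.mem_singleton]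
          exact Or.inl (Or.inr (Or.inr rfl))
        rw [h3] at h4 h5
        exact Finset.mem_product.mpr ⟨hmem _ h4, hmem _ h5⟩
      · intro i hi i' hi' h3
        have h4 : i.2 = i'.2 := congrArg Prod.fst h3
        have h5 : dd k i = dd k i' := congrArg Prod.snd h3
        have h6 : Y k i = Y k i' := (hYY i hi).trans (hYY i' hi').symm
        unfold Y Y0 at h6
        rw [h4, h5] at h6
        have h7 : X i.1 = X i'.1 := add_right_cancel (add_right_cancel h6)
        have h10 : ∀ i ∈ (hits3 s m n T k).filter (fun i => f i = a), i.1 ∈ cf3 s m n := by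
          intro i hi
          exact (Finset.mem_product.mp (Finset.mem_filter.mp (Finset.mem_filter.mp hi).1).1).1
        exact Prod.ext (hI s m n hm i.1 (h10 i hi) i'.1 (h10 i' hi') h7) h4
    refine h2.trans ?_
    rw [Finset.card_product, sq]
    exact Nat.mul_le_mul hE hE
  have h2 : (((hits3 s m n T k).image f).card : ℕ∞) ≤ NN k := by
    rw [← Set.encard_coe_eq_coe_finsetCard]
    refine Set.encard_le_encard ?_
    intro a ha
    obtain ⟨i, hi, rfl⟩ := Finset.mem_image.mp (Finset.mem_coe.mp ha)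
    exact hf i hi
  calc ((hits3 s m n T k).card : ℕ∞) ≤ (((n + 3) ^ 2 * ((hits3 s m n T k).image f).card : ℕ) : ℕ∞) := by
        exact_mod_cast h1
    _ = (((n + 3) ^ 2 : ℕ) : ℕ∞) * (((hits3 s m n T k).image f).card : ℕ∞) := by
        rw [Nat.cast_mul]
    _ ≤ (((n + 3) ^ 2 : ℕ) : ℕ∞) * NN k := mul_le_mul_right h2 _

end Pool.Agent.Lib.MP_85a137_nt
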