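import Pool.Agent.Lib.MP_85a137_nt.Spec

/-!
# MP_85a137_nt: product and sum determine the configuration; trivial bounds
-/

set_option autoImplicit false

namespace Pool.Agent.Lib.MP_85a137_nt

open Finset

theorem inj_mem {m n : ℕ} {γ : Cf n} (h : γ ∈ cfg m n) (j : Fin n) :
    (2 ^ (3 * m * ((j : ℕ) + 1)) < γ.1 j ∧ γ.1 j ≤ 2 ^ (3 * m * ((j : ℕ) + 1) + m) ∧
      (γ.1 j).Prime) ∧ 1 ≤ γ.2 j ∧ γ.2 j < 2 ^ m := by
  unfold cfg at h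
  rw [mem_product, Fintype.mem_piFinset, Fintype.mem_piFinset] at h
  have h1 := h.1 j
  have h2 := h.2 j
  unfold JJ at h1
  rw [mem_filter, mem_Ioc] at h1
  rw [mem_Ico] at h2
  exact ⟨⟨h1.1.1, h1.1.2, h1.2⟩, h2⟩

theorem inj_geo (m : ℕ) (hm : 1 ≤ m) (j : ℕ) :
    ∑ i ∈ range j, 2 ^ (3 * m * (i + 1) + 2 * m) < 2 ^ (3 * m * (j + 1)) := by
  induction j with
  | zero => simp
  | succ j ih =>
    rw [sum_range_succ]
    have e1 : 2 ^ (3 * m * (j + 1 + 1)) = 2 ^ (3 * m * (j + 1)) * 2 ^ (3 * m) := by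
      rw [← pow_add, show 3 * m * (j + 1 + 1) = 3 * m * (j + 1) + 3 * m by ring]
    have e2 : 2 ^ (3 * m * (j + 1) + 2 * m) = 2 ^ (3 * m * (j + 1)) * 2 ^ (2 * m) := pow_add _ _ _
    have e3 : 2 ^ (3 * m) = 2 ^ (2 * m) * 2 ^ m := by
      rw [← pow_add, show 2 * m + m = 3 * m by ring]
    have h1 : 2 ≤ 2 ^ m := by
      calc 2 = 2 ^ 1 := by norm_num
        _ ≤ 2 ^ m := Nat.pow_le_pow_right (by norm_num) hm
    have h2 : 1 ≤ 2 ^ (2 * m) := Nat.one_le_two_pow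
    have h3 : 1 + 2 ^ (2 * m) ≤ 2 ^ (3 * m) := by rw [e3]; nlinarith
    rw [e1, e2]
    calc ∑ i ∈ range j, 2 ^ (3 * m * (i + 1) + 2 * m) + 2 ^ (3 * m * (j + 1)) * 2 ^ (2 * m)
        < 2 ^ (3 * m * (j + 1)) + 2 ^ (3 * m * (j + 1)) * 2 ^ (2 * m) := by omega
      _ = 2 ^ (3 * m * (j + 1)) * (1 + 2 ^ (2 * m)) := by ring
      _ ≤ 2 ^ (3 * m * (j + 1)) * 2 ^ (3 * m) := Nat.mul_le_mul_left _ h3

theorem inj_sum_Iio {n : ℕ} (j : Fin n) (f : ℕ → ℕ) :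
    ∑ i ∈ Iio j, f (i : ℕ) = ∑ i ∈ range (j : ℕ), f i := by
  rw [← Nat.Iio_eq_range, ← Fin.map_valEmbedding_Iio, sum_map]
  rfl

/-- the product determines the primes -/
theorem inj_fst {m n : ℕ} (hm : 1 ≤ m) {γ γ' : Cf n} (h : γ ∈ cfg m n) (h' : γ' ∈ cfg m n)
    (hP : PP γ = PP γ') (j : Fin n) : γ.1 j = γ'.1 j := by
  obtain ⟨⟨q1, q2, q3⟩, -, -⟩ := inj_mem h j
  have hd : γ.1 j ∣ PP γ' := by
    rw [← hP]
    unfold PP
    exact (Dvd.intro _ rfl).trans (dvd_prod_of_mem (fun i => γ.1 i * γ.2 i) (mem_univ j))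
  unfold PP at hd
  obtain ⟨i, -, hi⟩ := (Prime.dvd_finsetProd_iff (Nat.Prime.prime q3) _).mp hd
  obtain ⟨⟨r1, r2, r3⟩, c1, c2⟩ := inj_mem h' i
  rcases (Nat.Prime.dvd_mul q3).mp hi with hq | hc
  · have heq : γ.1 j = γ'.1 i := (Nat.prime_dvd_prime_iff_eq q3 r3).mp hq
    rcases lt_trichotomy i j with hij | hij | hij
    · exfalso
      have hle : 2 ^ (3 * m * ((i : ℕ) + 1) + m) ≤ 2 ^ (3 * m * ((j : ℕ) + 1)) := by
        apply Nat.pow_le_pow_right (by norm_num)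
        have : (i : ℕ) + 1 ≤ j := hij
        nlinarith
      omega
    · rw [heq, hij]
    · exfalso
      have hle : 2 ^ (3 * m * ((j : ℕ) + 1) + m) ≤ 2 ^ (3 * m * ((i : ℕ) + 1)) := by
        apply Nat.pow_le_pow_right (by norm_num)
        have : (j : ℕ) + 1 ≤ i := hij
        nlinarith
      omega
  · exfalso
    have h1 := Nat.le_of_dvd c1 hc
    have h2 : 2 ^ m ≤ 2 ^ (3 * m * ((j : ℕ) + 1)) := by
      apply Nat.pow_le_pow_right (by norm_num)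
      nlinarith
    omega

/-- then the sum determines the cofactors -/
theorem inj_snd {m n : ℕ} (hm : 1 ≤ m) {γ γ' : Cf n} (h : γ ∈ cfg m n) (h' : γ' ∈ cfg m n)
    (hq : ∀ j, γ.1 j = γ'.1 j) (hS : SS γ = SS γ') (j : Fin n) : γ.2 j = γ'.2 j := by
  by_contra hne
  set s : Finset (Fin n) := univ.filter fun i => γ.2 i ≠ γ'.2 i with hs
  have hsne : s.Nonempty := ⟨j, by rw [hs, mem_filter]; exact ⟨mem_univ _, hne⟩⟩
  obtain ⟨k, hk, hmax⟩ : ∃ k ∈ s, ∀ i ∈ s, i ≤ k := ⟨s.max' hsne, s.max'_mem hsne, fun i hi => s.le_max' i hi⟩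
  have hkne : γ.2 k ≠ γ'.2 k := (mem_filter.mp hk).2
  have hgt : ∀ i, k < i → γ.2 i = γ'.2 i := by
    intro i hi
    by_contra hc
    exact absurd (hmax i (by rw [hs, mem_filter]; exact ⟨mem_univ _, hc⟩)) (not_le.mpr hi)
  have hZ : ∑ i, (γ.1 i : ℤ) * ((γ.2 i : ℤ) - γ'.2 i) = 0 := by
    have h1 : ((SS γ : ℕ) : ℤ) = SS γ' := by rw [hS]
    unfold SS at h1
    push_cast at h1
    calc ∑ i, (γ.1 i : ℤ) * ((γ.2 i : ℤ) - γ'.2 i)
        = ∑ i, (γ.1 i : ℤ) * γ.2 i - ∑ i, (γ'.1 i : ℤ) * γ'.2 i := by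
          rw [← sum_sub_distrib]
          exact sum_congr rfl fun i _ => by rw [← hq i]; ring
      _ = 0 := by rw [h1]; ring
  have hsplit : ∑ i, (γ.1 i : ℤ) * ((γ.2 i : ℤ) - γ'.2 i) =
      ∑ i ∈ Iio k, (γ.1 i : ℤ) * ((γ.2 i : ℤ) - γ'.2 i) +
        (γ.1 k : ℤ) * ((γ.2 k : ℤ) - γ'.2 k) := by
    have h1 : ∑ i ∈ Iic k, (γ.1 i : ℤ) * ((γ.2 i : ℤ) - γ'.2 i) =
        ∑ i, (γ.1 i : ℤ) * ((γ.2 i : ℤ) - γ'.2 i) := by
      apply sum_subset (subset_univ _)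
      intro i _ hi
      rw [mem_Iic, not_le] at hi
      rw [hgt i hi]; ring
    rw [← h1, ← Iio_insert, sum_insert (by simp), add_comm]
  rw [hsplit] at hZ
  have hle : (γ.1 k : ℤ) ≤ ∑ i ∈ Iio k, ((2 ^ (3 * m * ((i : ℕ) + 1) + 2 * m) : ℕ) : ℤ) := by
    have h1 : (γ.1 k : ℤ) * ((γ.2 k : ℤ) - γ'.2 k) =
        -∑ i ∈ Iio k, (γ.1 i : ℤ) * ((γ.2 i : ℤ) - γ'.2 i) := by linarith
    have h2 : (1 : ℤ) ≤ |(γ.2 k : ℤ) - γ'.2 k| := by
      apply Int.one_le_abs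
      intro h0
      exact hkne (by exact_mod_cast sub_eq_zero.mp h0)
    calc (γ.1 k : ℤ) = (γ.1 k : ℤ) * 1 := by ring
      _ ≤ (γ.1 k : ℤ) * |(γ.2 k : ℤ) - γ'.2 k| := mul_le_mul_of_nonneg_left h2 (by positivity)
      _ = |(γ.1 k : ℤ) * ((γ.2 k : ℤ) - γ'.2 k)| := by
          rw [abs_mul, abs_of_nonneg (by positivity : (0 : ℤ) ≤ γ.1 k)]
      _ = |∑ i ∈ Iio k, (γ.1 i : ℤ) * ((γ.2 i : ℤ) - γ'.2 i)| := by rw [h1, abs_neg]
      _ ≤ ∑ i ∈ Iio k, |(γ.1 i : ℤ) * ((γ.2 i : ℤ) - γ'.2 i)| := abs_sum_le_sum_abs _ _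
      _ ≤ ∑ i ∈ Iio k, ((2 ^ (3 * m * ((i : ℕ) + 1) + 2 * m) : ℕ) : ℤ) := by
          apply sum_le_sum
          intro i _
          obtain ⟨⟨-, q2, -⟩, -, c2⟩ := inj_mem h i
          obtain ⟨-, -, d2⟩ := inj_mem h' i
          have h3 : |(γ.2 i : ℤ) - γ'.2 i| ≤ ((2 ^ m : ℕ) : ℤ) := by
            rw [abs_le]
            constructor <;> omega
          rw [abs_mul, abs_of_nonneg (by positivity : (0 : ℤ) ≤ γ.1 i)]
          calc (γ.1 i : ℤ) * |(γ.2 i : ℤ) - γ'.2 i|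
              ≤ ((2 ^ (3 * m * ((i : ℕ) + 1) + m) : ℕ) : ℤ) * ((2 ^ m : ℕ) : ℤ) :=
                mul_le_mul (by exact_mod_cast q2) h3 (abs_nonneg _) (by positivity)
            _ = ((2 ^ (3 * m * ((i : ℕ) + 1) + 2 * m) : ℕ) : ℤ) := by
                rw [← Nat.cast_mul, ← pow_add]; congr 2; ring
  have hlt : γ.1 k ≤ ∑ i ∈ Iio k, 2 ^ (3 * m * ((i : ℕ) + 1) + 2 * m) := by exact_mod_cast hle
  rw [inj_sum_Iio k (fun i => 2 ^ (3 * m * (i + 1) + 2 * m))] at hlt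
  have h4 := inj_geo m hm (k : ℕ)
  obtain ⟨⟨q1, -, -⟩, -, -⟩ := inj_mem h k
  omega

/-- **Inj** -/
theorem inj : StmtInj := by
  intro m n hm γ h γ' h' hP hS
  have h1 := inj_fst hm h h' hP
  have h2 := inj_snd hm h h' h1 hS
  exact Prod.ext (funext h1) (funext h2)

/-- **Size** -/
theorem size : StmtSize := by
  intro m n hm hn hnm γ h
  have hpos : ∀ j, 0 < γ.1 j * γ.2 j := by
    intro j
    obtain ⟨⟨q1, -, -⟩, c1, -⟩ := inj_mem h j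
    exact Nat.mul_pos (lt_of_le_of_lt (Nat.zero_le _) q1) c1
  have hub : ∀ j, γ.1 j * γ.2 j ≤ 2 ^ (3 * m * n + 2 * m) := by
    intro j
    obtain ⟨⟨-, q2, -⟩, -, c2⟩ := inj_mem h j
    calc γ.1 j * γ.2 j ≤ 2 ^ (3 * m * ((j : ℕ) + 1) + m) * 2 ^ m := Nat.mul_le_mul q2 c2.le
      _ = 2 ^ (3 * m * ((j : ℕ) + 1) + 2 * m) := by rw [← pow_add]; congr 1; ring
      _ ≤ 2 ^ (3 * m * n + 2 * m) := by
          apply Nat.pow_le_pow_right (by norm_num)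
          have : (j : ℕ) + 1 ≤ n := j.isLt
          nlinarith
  have hmm : m ^ 2 ≤ m ^ 3 := Nat.pow_le_pow_right hm (by norm_num)
  have hm1 : m ≤ m ^ 2 := by nlinarith
  refine ⟨?_, ?_, ?_⟩
  · have hdvd : γ.1 ⟨0, hn⟩ * γ.2 ⟨0, hn⟩ ∣ PP γ :=
      dvd_prod_of_mem (fun i => γ.1 i * γ.2 i) (mem_univ (⟨0, hn⟩ : Fin n))
    have hPpos : 0 < PP γ := prod_pos fun j _ => hpos j
    have h1 := Nat.le_of_dvd hPpos hdvd
    obtain ⟨⟨q1, -, -⟩, c1, -⟩ := inj_mem h ⟨0, hn⟩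
    simp only [zero_add, mul_one] at q1
    calc 2 ^ (3 * m) ≤ γ.1 ⟨0, hn⟩ := q1.le
      _ ≤ γ.1 ⟨0, hn⟩ * γ.2 ⟨0, hn⟩ := Nat.le_mul_of_pos_right _ c1
      _ ≤ PP γ := h1
  · calc PP γ ≤ ∏ _j : Fin n, 2 ^ (3 * m * n + 2 * m) := prod_le_prod' fun j _ => hub j
      _ = 2 ^ ((3 * m * n + 2 * m) * n) := by
          rw [prod_const, card_univ, Fintype.card_fin, ← pow_mul]
      _ ≤ 2 ^ (6 * m ^ 3) := by
          apply Nat.pow_le_pow_right (by norm_num)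
          calc (3 * m * n + 2 * m) * n ≤ (3 * m * m + 2 * m) * m := by gcongr
            _ = 3 * m ^ 3 + 2 * m ^ 2 := by ring
            _ ≤ 6 * m ^ 3 := by omega
  · calc SS γ ≤ ∑ _j : Fin n, 2 ^ (3 * m * n + 2 * m) := sum_le_sum fun j _ => hub j
      _ = n * 2 ^ (3 * m * n + 2 * m) := by
          rw [sum_const, card_univ, Fintype.card_fin, smul_eq_mul]
      _ ≤ 2 ^ m * 2 ^ (3 * m * n + 2 * m) := by
          apply Nat.mul_le_mul_right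
          exact (hnm.trans Nat.lt_two_pow_self.le)
      _ = 2 ^ (m + (3 * m * n + 2 * m)) := by rw [← pow_add]
      _ ≤ 2 ^ (6 * m ^ 3) := by
          apply Nat.pow_le_pow_right (by norm_num)
          have h1 : 3 * m * n ≤ 3 * m * m := by gcongr
          have h2 : 3 * m * m = 3 * m ^ 2 := by ring
          omega

end Pool.Agent.Lib.MP_85a137_nt
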