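import Pool.Agent.Lib.MP_85a137_nt.Spec

/-!
Lower bound for sums of `1/p` over the primes in `(2^a, 2^(a+m)]`.
-/

set_option autoImplicit false

namespace Pool.Agent.Lib.MP_85a137_nt

open Finset

/-- the sum over the primes in `(2^a, 2^b]` -/
private noncomputable def lowT (a b : ℕ) : ℝ :=
  ∑ p ∈ (Ioc (2 ^ a) (2 ^ b)).filter Nat.Prime, (1 : ℝ) / p

private lemma low_add {a b c : ℕ} (hab : a ≤ b) (hbc : b ≤ c) :
    lowT a c = lowT a b + lowT b c := by
  unfold lowT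
  have h1 : 2 ^ a ≤ 2 ^ b := Nat.pow_le_pow_right (by norm_num) hab
  have h2 : 2 ^ b ≤ 2 ^ c := Nat.pow_le_pow_right (by norm_num) hbc
  rw [← Ioc_union_Ioc_eq_Ioc h1 h2, filter_union, sum_union]
  apply disjoint_filter_filter
  rw [disjoint_left]
  intro x hx hx'
  rw [mem_Ioc] at hx hx'
  omega

private lemma low_nonneg (a b : ℕ) : 0 ≤ lowT a b :=
  sum_nonneg fun p _ => by positivity

private lemma low_pow {i : ℕ} (hi : 20 ≤ i) : 64 * ((i : ℝ) + 2) ^ 2 ≤ 2 ^ i := by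
  induction i, hi using Nat.le_induction with
  | base => norm_num
  | succ i hi ih =>
    have h : (20 : ℝ) ≤ i := by exact_mod_cast hi
    rw [pow_succ (2 : ℝ) i]
    push_cast
    nlinarith

private lemma low_theta {i : ℕ} (hi : 20 ≤ i) :
    2 ^ i * Real.log 2 ≤ Chebyshev.theta ((2 ^ (i + 2) : ℕ) : ℝ) - Chebyshev.theta ((2 ^ i : ℕ) : ℝ) := by
  have h1 := Chebyshev.theta_ge (2 ^ (i + 2))
  have h2 := Chebyshev.theta_le_log4_mul_x (x := ((2 ^ i : ℕ) : ℝ)) (by positivity)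
  have h4 : Real.log 4 = 2 * Real.log 2 := by
    rw [show (4 : ℝ) = 2 ^ 2 by norm_num, Real.log_pow]; push_cast; ring
  have hl := Real.log_pos (by norm_num : (1 : ℝ) < 2)
  set s := Real.sqrt (2 ^ i) with hs
  have hss : s * s = 2 ^ i := Real.mul_self_sqrt (by positivity)
  have hs0 : 0 ≤ s := Real.sqrt_nonneg _
  have hsq : Real.sqrt ((2 ^ (i + 2) : ℕ) : ℝ) = 2 * s := by
    rw [show ((2 ^ (i + 2) : ℕ) : ℝ) = (2 * s) ^ 2 by push_cast; rw [pow_add]; nlinarith,
      Real.sqrt_sq (by positivity)]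
  have hlog : Real.log ((2 ^ (i + 2) : ℕ) : ℝ) = (i + 2) * Real.log 2 := by
    push_cast
    rw [Real.log_pow]
    push_cast
    ring
  have hlog1 : Real.log (((2 ^ (i + 2) : ℕ) : ℝ) + 1) ≤ (i + 3) * Real.log 2 := by
    have e : (i + 3) * Real.log 2 = Real.log (2 ^ (i + 3)) := by
      rw [Real.log_pow]; push_cast; ring
    rw [e]
    apply Real.log_le_log (by positivity)
    push_cast
    have : (1 : ℝ) ≤ 2 ^ (i + 2) := one_le_pow₀ (by norm_num)
    rw [show i + 3 = i + 2 + 1 by ring, pow_succ (2 : ℝ) (i + 2)]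
    linarith
  rw [hsq, hlog] at h1
  rw [h4] at h2
  have hp := low_pow hi
  have hi' : (20 : ℝ) ≤ i := by exact_mod_cast hi
  have hsi : 8 * ((i : ℝ) + 2) ≤ s := by
    by_contra h
    push Not at h
    nlinarith
  have key : 2 * (2 * s) * ((i : ℝ) + 2) + (i + 3) ≤ 2 ^ i := by
    rw [← hss]
    nlinarith
  have e3 : ((2 ^ (i + 2) : ℕ) : ℝ) = 4 * 2 ^ i := by push_cast; rw [pow_add]; ring
  have e4 : ((2 ^ i : ℕ) : ℝ) = 2 ^ i := by push_cast; rfl
  rw [e3] at h1 hlog1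
  rw [e4] at h2
  rw [e3, e4]
  have key2 := mul_le_mul_of_nonneg_right key hl.le
  nlinarith

private lemma low_block {i : ℕ} (hi : 20 ≤ i) : 1 / (4 * ((i : ℝ) + 2)) ≤ lowT i (i + 2) := by
  have h1 := low_theta hi
  have hl := Real.log_pos (by norm_num : (1 : ℝ) < 2)
  have hle : 2 ^ i ≤ 2 ^ (i + 2) := Nat.pow_le_pow_right (by norm_num) (by omega)
  have e1 : Chebyshev.theta ((2 ^ (i + 2) : ℕ) : ℝ) - Chebyshev.theta ((2 ^ i : ℕ) : ℝ) =
      ∑ p ∈ (Ioc (2 ^ i) (2 ^ (i + 2))).filter Nat.Prime, Real.log p := by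
    unfold Chebyshev.theta
    rw [Nat.floor_natCast, Nat.floor_natCast, ← Ioc_union_Ioc_eq_Ioc (Nat.zero_le _) hle,
      filter_union, sum_union, add_sub_cancel_left]
    apply disjoint_filter_filter
    rw [disjoint_left]
    intro x hx hx'
    rw [mem_Ioc] at hx hx'
    omega
  rw [e1] at h1
  have h2 : ∑ p ∈ (Ioc (2 ^ i) (2 ^ (i + 2))).filter Nat.Prime, Real.log p ≤
      ((i + 2) * Real.log 2 * 2 ^ (i + 2)) * lowT i (i + 2) := by
    unfold lowT
    rw [mul_sum]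
    apply sum_le_sum
    intro p hp
    rw [mem_filter, mem_Ioc] at hp
    have hp0 : (0 : ℝ) < p := by exact_mod_cast hp.2.pos
    have hple : (p : ℝ) ≤ 2 ^ (i + 2) := by exact_mod_cast hp.1.2
    have hlp : Real.log p ≤ (i + 2) * Real.log 2 := by
      have e : (i + 2) * Real.log 2 = Real.log (2 ^ (i + 2)) := by
        rw [Real.log_pow]; push_cast; ring
      rw [e]
      exact Real.log_le_log hp0 hple
    rw [mul_one_div, le_div_iff₀ hp0]
    exact mul_le_mul hlp hple hp0.le (by positivity)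
  have h3 := h1.trans h2
  have hi0 : (0 : ℝ) < (i : ℝ) + 2 := by positivity
  have hp : (0 : ℝ) < 2 ^ i := by positivity
  rw [div_le_iff₀ (by positivity)]
  rw [pow_add] at h3
  have h4 : (2 ^ i * Real.log 2) * 1 ≤ (2 ^ i * Real.log 2) * (lowT i (i + 2) * (4 * ((i : ℝ) + 2))) := by
    calc (2 ^ i * Real.log 2) * 1 = 2 ^ i * Real.log 2 := mul_one _
      _ ≤ _ := h3
      _ = _ := by ring
  exact le_of_mul_le_mul_left h4 (by positivity)

private lemma low_sum {a : ℕ} (ha : 20 ≤ a) (N : ℕ) : ∀ k : ℕ, a + 2 * k ≤ N →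
    (k : ℝ) / (4 * N) ≤ lowT a (a + 2 * k) := by
  intro k
  induction k with
  | zero =>
    intro _
    simpa using low_nonneg a a
  | succ k ih =>
    intro h
    have h1 := ih (by omega)
    have h2 := low_block (i := a + 2 * k) (by omega)
    rw [low_add (a := a) (b := a + 2 * k) (c := a + 2 * (k + 1)) (by omega) (by omega)]
    have h3 : (1 : ℝ) / (4 * N) ≤ 1 / (4 * (((a + 2 * k : ℕ) : ℝ) + 2)) := by
      apply one_div_le_one_div_of_le (by positivity)
      have : ((a + 2 * k : ℕ) : ℝ) + 2 ≤ N := by exact_mod_cast h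
      linarith
    have h4 : ((k + 1 : ℕ) : ℝ) / (4 * N) = (k : ℝ) / (4 * N) + 1 / (4 * N) := by
      push_cast; ring
    rw [h4]
    exact add_le_add h1 (h3.trans h2)

theorem low : StmtLow := by
  refine ⟨1 / 12, 20, by norm_num, fun m a hm ha => ?_⟩
  have h1 := low_sum (a := a) (by omega) (a + m) (m / 2) (by omega)
  have h2 : lowT a (a + 2 * (m / 2)) ≤ lowT a (a + m) := by
    rw [low_add (a := a) (b := a + 2 * (m / 2)) (c := a + m) (by omega) (by omega)]
    linarith [low_nonneg (a + 2 * (m / 2)) (a + m)]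
  refine le_trans ?_ (h1.trans h2)
  have h3 : (m : ℝ) / 3 ≤ ((m / 2 : ℕ) : ℝ) := by
    have : m ≤ 3 * (m / 2) := by omega
    have h : (m : ℝ) ≤ 3 * ((m / 2 : ℕ) : ℝ) := by exact_mod_cast this
    linarith
  have h4 : (0 : ℝ) < (a : ℝ) + m := by
    have : (20 : ℝ) ≤ m := by exact_mod_cast hm
    positivity
  push_cast
  rw [div_le_div_iff₀ h4 (by positivity)]
  nlinarith

end Pool.Agent.Lib.MP_85a137_nt
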