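import Pool.Agent.Lib.MP_85a137_nt.Spec4
import Pool.Agent.Lib.MP_85a137_nt.FacCount

/-!
# MP_85a137_nt, MS: sums over multisets
-/

set_option autoImplicit false

namespace Pool.Agent.Lib.MP_85a137_nt

open Finset

theorem tMS : StmtMS := by
  classical
  intro N b F hb hF
  have hmem : ∀ Y ∈ F, ∀ y ∈ Y, y ∈ Icc 2 N := fun Y hY y hy =>
    Finset.mem_Icc.2 (hF Y hY y hy)
  set E : ℕ := F.sup Multiset.card + 1 with hE
  have hcount : ∀ Y ∈ F, ∀ j, Y.count j < E := by
    intro Y hY j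
    have h1 : Y.count j ≤ Multiset.card Y := Multiset.count_le_card j Y
    have h2 : Multiset.card Y ≤ F.sup Multiset.card := Finset.le_sup (f := Multiset.card) hY
    omega
  have hsum : ∑ Y ∈ F, ∏ j : {j // j ∈ Icc 2 N}, b j.1 ^ (Y.count j.1) ≤
      ∏ j : {j // j ∈ Icc 2 N}, ∑ e ∈ range E, b j.1 ^ e := by
    rw [Finset.prod_univ_sum]
    have hinj : Set.InjOn (fun (Y : Multiset ℕ) (j : {j // j ∈ Icc 2 N}) => Y.count j.1)
        (F : Set (Multiset ℕ)) := by
      intro Y hY Z hZ h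
      ext j
      by_cases hj : j ∈ Icc 2 N
      · exact congrFun h ⟨j, hj⟩
      · rw [Multiset.count_eq_zero_of_notMem (fun hy => hj (hmem Y hY j hy)),
          Multiset.count_eq_zero_of_notMem (fun hy => hj (hmem Z hZ j hy))]
    rw [← Finset.sum_image (f := fun (x : {j // j ∈ Icc 2 N} → ℕ) => ∏ j, b j.1 ^ (x j)) hinj]
    apply Finset.sum_le_sum_of_subset_of_nonneg
    · intro x hx
      rw [Finset.mem_image] at hx
      obtain ⟨Y, hY, rfl⟩ := hx
      rw [Fintype.mem_piFinset]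
      intro j
      exact Finset.mem_range.2 (hcount Y hY j.1)
    · intro x _ _
      exact Finset.prod_nonneg fun j _ => pow_nonneg (hb j.1 j.2).1 _
  have hprod : ∏ j : {j // j ∈ Icc 2 N}, ∑ e ∈ range E, b j.1 ^ e ≤
      Real.exp (2 * ∑ y ∈ Icc 2 N, b y) := by
    rw [Finset.prod_coe_sort (Icc 2 N) (fun j => ∑ e ∈ range E, b j ^ e)]
    calc ∏ j ∈ Icc 2 N, ∑ e ∈ range E, b j ^ e
        ≤ ∏ j ∈ Icc 2 N, Real.exp (2 * b j) := by
          apply Finset.prod_le_prod
          · intro j hj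
            exact Finset.sum_nonneg fun e _ => pow_nonneg (hb j hj).1 e
          · intro j hj
            exact FacCountM.geom_le _ _ (hb j hj).1 (hb j hj).2
      _ = Real.exp (∑ j ∈ Icc 2 N, 2 * b j) := (Real.exp_sum _ _).symm
      _ = Real.exp (2 * ∑ y ∈ Icc 2 N, b y) := by rw [← Finset.mul_sum]
  calc ∑ Y ∈ F, (Y.map b).prod = ∑ Y ∈ F, ∏ j : {j // j ∈ Icc 2 N}, b j.1 ^ (Y.count j.1) :=
        Finset.sum_congr rfl fun Y hY => FacCountM.weight_eq N Y b (hmem Y hY)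
    _ ≤ _ := hsum.trans hprod

end Pool.Agent.Lib.MP_85a137_nt
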