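import Pool.Agent.Lib.MP_85a137_nt.Spec

set_option autoImplicit false

namespace Pool.Agent.Lib.MP_85a137_nt

open Finset Filter Topology

/-- eventually `65 m^40 ≤ exp (b m)` -/
private theorem main_growth (b : ℝ) (hb : 0 < b) :
    ∃ M : ℕ, ∀ m : ℕ, M ≤ m → 65 * (m : ℝ) ^ 40 ≤ Real.exp (b * m) := by
  have hr : |Real.exp (-b)| < 1 := by
    rw [abs_of_pos (Real.exp_pos _)]
    exact Real.exp_lt_one_iff.2 (by linarith)
  have ht := tendsto_pow_const_mul_const_pow_of_abs_lt_one 40 hr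
  have hev : ∀ᶠ m : ℕ in atTop, (m : ℝ) ^ 40 * Real.exp (-b) ^ m < 1 / 65 :=
    ht.eventually_lt_const (by norm_num)
  obtain ⟨M, hM⟩ := eventually_atTop.1 hev
  refine ⟨M, fun m hm => ?_⟩
  have h := hM m hm
  have e1 : Real.exp (-b) ^ m = (Real.exp (b * m))⁻¹ := by
    rw [← Real.exp_nat_mul, ← Real.exp_neg]
    congr 1
    ring
  rw [e1] at h
  have hpos := Real.exp_pos (b * m)
  generalize (m : ℝ) ^ 40 = A at h ⊢
  generalize Real.exp (b * m) = B at h hpos ⊢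
  have h2 : A * B⁻¹ * B ≤ 1 / 65 * B := mul_le_mul_of_nonneg_right h.le hpos.le
  rw [mul_assoc, inv_mul_cancel₀ hpos.ne', mul_one] at h2
  linarith

private theorem main_exists (M₀ x : ℕ) (hx : 2 ^ (29 * M₀ ^ 3) ≤ x) :
    ∃ m : ℕ, M₀ ≤ m ∧ 2 ^ (29 * m ^ 3) ≤ x ∧ x < 2 ^ (29 * (m + 1) ^ 3) := by
  have key : ∀ j : ℕ, j < 2 ^ (29 * j ^ 3) := by
    intro j
    have h1 : j < 2 ^ j := Nat.lt_two_pow_self
    have h2 : j ≤ 29 * j ^ 3 := by
      have : j ≤ j ^ 3 := Nat.le_self_pow (by norm_num) _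
      omega
    exact lt_of_lt_of_le h1 (Nat.pow_le_pow_right (by norm_num) h2)
  have hM₀x : M₀ ≤ x := (key M₀).le.trans hx
  refine ⟨Nat.findGreatest (fun m => 2 ^ (29 * m ^ 3) ≤ x) x, Nat.le_findGreatest hM₀x hx,
    Nat.findGreatest_spec (P := fun m => 2 ^ (29 * m ^ 3) ≤ x) hM₀x hx, ?_⟩
  by_contra hcon
  have hcon' := not_lt.1 hcon
  have hle : Nat.findGreatest (fun m => 2 ^ (29 * m ^ 3) ≤ x) x + 1 ≤ x := (key _).le.trans hcon'
  have h := Nat.le_findGreatest (P := fun m => 2 ^ (29 * m ^ 3) ≤ x) hle hcon'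
  exact absurd h (by simp)

private theorem main_cbrt_real (y m : ℝ) (hm : 1 ≤ m) (hy : 0 ≤ y)
    (h : y ≤ 29 * (m + 1) ^ 3 * Real.log 2) : y ^ (1 / 3 : ℝ) ≤ 6 * m := by
  have h1 : y ≤ (6 * m) ^ 3 := by
    have hl2 : Real.log 2 < 0.6931471808 := Real.log_two_lt_d9
    have hl0 : 0 ≤ Real.log 2 := Real.log_nonneg (by norm_num)
    have h3 : (m + 1) ^ 3 ≤ (2 * m) ^ 3 := pow_le_pow_left₀ (by linarith) (by linarith) 3
    have h4 : 29 * (m + 1) ^ 3 * Real.log 2 ≤ 29 * (2 * m) ^ 3 * 0.7 := by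
      apply mul_le_mul
      · linarith
      · linarith
      · exact hl0
      · positivity
    have h5 : 29 * (2 * m) ^ 3 * 0.7 ≤ (6 * m) ^ 3 := by
      have h6 : 0 ≤ m ^ 3 := by positivity
      have e1 : 29 * (2 * m) ^ 3 * 0.7 = 162.4 * m ^ 3 := by ring
      have e2 : (6 * m) ^ 3 = 216 * m ^ 3 := by ring
      rw [e1, e2]
      linarith
    linarith
  have h6 : y ^ (1 / 3 : ℝ) ≤ ((6 * m) ^ 3) ^ (1 / 3 : ℝ) :=
    Real.rpow_le_rpow hy h1 (by norm_num)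
  have h7 : ((6 * m) ^ 3) ^ (1 / 3 : ℝ) = 6 * m := by
    rw [← Real.rpow_natCast, ← Real.rpow_mul (by linarith)]
    norm_num
  linarith

/-- the cube root of `log x` -/
private theorem main_cbrt (x m : ℕ) (hm : 1 ≤ m) (hx : 1 ≤ x) (h : x < 2 ^ (29 * (m + 1) ^ 3)) :
    Real.log x ^ (1 / 3 : ℝ) ≤ 6 * m := by
  have hxr : (1 : ℝ) ≤ x := Nat.one_le_cast.2 hx
  have hm' : (1 : ℝ) ≤ m := Nat.one_le_cast.2 hm
  have h2 : (x : ℝ) ≤ (2 : ℝ) ^ (29 * (m + 1) ^ 3) := by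
    have := (Nat.cast_le (α := ℝ)).2 h.le
    rwa [Nat.cast_pow, Nat.cast_ofNat] at this
  have h3 : Real.log x ≤ Real.log ((2 : ℝ) ^ (29 * (m + 1) ^ 3)) :=
    Real.log_le_log (lt_of_lt_of_le one_pos hxr) h2
  rw [Real.log_pow] at h3
  clear h h2
  push_cast at h3
  exact main_cbrt_real _ _ hm' (Real.log_nonneg hxr) h3

private theorem main_polyA (m n : ℝ) (hm : 3 ≤ m) (hn : 0 ≤ n) (hnm : n ≤ m) :
    (n + 3) ^ 2 * (4 * m ^ 20) ≤ 65 * m ^ 40 := by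
  have h1 : (n + 3) ^ 2 ≤ (2 * m) ^ 2 := pow_le_pow_left₀ (by linarith) (by linarith) 2
  have h2 : (n + 3) ^ 2 * (4 * m ^ 20) ≤ (2 * m) ^ 2 * (4 * m ^ 20) :=
    mul_le_mul_of_nonneg_right h1 (by positivity)
  have h3 : (2 * m) ^ 2 * (4 * m ^ 20) = 16 * m ^ 22 := by ring
  have h4 : m ^ 22 ≤ m ^ 40 := pow_le_pow_right₀ (by linarith) (by norm_num)
  have h5 : 0 ≤ m ^ 40 := by positivity
  generalize m ^ 40 = A at *
  generalize m ^ 22 = B at *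
  linarith

/-- the final inequality -/
private theorem main_final (x m n Q E F G : ℝ) (hx : 0 < x) (hm : 3 ≤ m) (hQ : 0 < Q) (hE : 0 < E)
    (hA : n + 2 ≤ x / Q) (hg : 65 * m ^ 40 ≤ F) (hEle : E ≤ G) (hF : 0 < F) (hFG : F * G ≤ Q) :
    n + 2 + x * (64 * m ^ 40 / Q) ≤ x * E⁻¹ := by
  have h1 : 1 ≤ m ^ 40 := one_le_pow₀ (by linarith)
  generalize m ^ 40 = A at *
  have h2 : x / Q ≤ x * (A / Q) := by
    rw [div_eq_mul_inv, div_eq_mul_inv]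
    apply mul_le_mul_of_nonneg_left _ hx.le
    have : 0 < Q⁻¹ := by positivity
    nlinarith
  have h3 : x * (65 * A / Q) = x * (A / Q) + x * (64 * A / Q) := by ring
  have h4 : x * (65 * A / Q) ≤ x * E⁻¹ := by
    apply mul_le_mul_of_nonneg_left _ hx.le
    rw [div_le_iff₀ hQ, ← div_eq_inv_mul, le_div_iff₀ hE]
    exact (mul_le_mul hg hEle hE.le hF.le).trans hFG
  linarith

/-- few hits -/
private theorem main_hits (c n m N E F G Q : ℝ) (hm : 3 ≤ m) (hn : 0 ≤ n) (hnm : n ≤ m)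
    (hc : c ≤ (n + 3) ^ 2 * N) (hN : 0 ≤ N) (hNE : N ≤ E) (hg : 65 * m ^ 40 ≤ F) (hEle : E ≤ G)
    (hF : 0 < F) (hFG : F * G ≤ Q) : c ≤ Q / (4 * m ^ 20) := by
  have hp := main_polyA m n hm hn hnm
  rw [le_div_iff₀ (by positivity)]
  calc c * (4 * m ^ 20)
      ≤ ((n + 3) ^ 2 * N) * (4 * m ^ 20) := mul_le_mul_of_nonneg_right hc (by positivity)
    _ = ((n + 3) ^ 2 * (4 * m ^ 20)) * N := by ring
    _ ≤ (65 * m ^ 40) * N := mul_le_mul_of_nonneg_right hp hN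
    _ ≤ F * G := mul_le_mul hg (hNE.trans hEle) hN hF.le
    _ ≤ Q := hFG

private theorem main_small (x m n : ℕ) (hm : 1 ≤ m) (hn : n ≤ m) (h : 2 ^ (29 * m ^ 3) ≤ x) :
    ((n : ℝ) + 2) ≤ x / 2 ^ n := by
  rw [le_div_iff₀ (by positivity)]
  have h1 : (n + 2) * 2 ^ n ≤ 2 ^ (29 * m ^ 3) := by
    have ha : n + 2 ≤ 2 ^ (n + 2) := Nat.lt_two_pow_self.le
    have hb : (n + 2) * 2 ^ n ≤ 2 ^ (n + 2) * 2 ^ n := Nat.mul_le_mul_right _ ha
    rw [← pow_add] at hb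
    have hc : 2 ^ (n + 2 + n) ≤ 2 ^ (29 * m ^ 3) := by
      apply Nat.pow_le_pow_right (by norm_num)
      have : m ≤ m ^ 3 := Nat.le_self_pow (by norm_num) _
      omega
    exact hb.trans hc
  have h2 := (Nat.cast_le (α := ℝ)).2 (h1.trans h)
  rw [Nat.cast_mul, Nat.cast_pow, Nat.cast_add, Nat.cast_ofNat] at h2
  exact h2

theorem main (hM : StmtMom) (hH : StmtHits) (hW : StmtWeight) : StmtMain := by
  classical
  obtain ⟨mM, hM⟩ := hM
  obtain ⟨c₁, mW, hc₁, hW⟩ := hW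
  have hL : 0 < c₁ * Real.log 2 := mul_pos hc₁ (Real.log_pos (by norm_num))
  obtain ⟨mG, hG⟩ := main_growth (3 / 4 * (c₁ * Real.log 2)) (by positivity)
  obtain ⟨L, hLdef⟩ : ∃ L : ℝ, L = c₁ * Real.log 2 := ⟨_, rfl⟩
  rw [← hLdef] at hL hG
  obtain ⟨M₀, hM₀1, hM₀2, hM₀3, hM₀4⟩ : ∃ M₀ : ℕ, mM ≤ M₀ ∧ mW ≤ M₀ ∧ mG ≤ M₀ ∧ 3 ≤ M₀ :=
    ⟨mM + mW + mG + 3, by omega, by omega, by omega, by omega⟩
  refine ⟨L / 24, 2 ^ (29 * M₀ ^ 3), by positivity, fun x hx => ?_⟩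
  have hx1 : 1 ≤ x := le_trans Nat.one_le_two_pow hx
  obtain ⟨m, hmM₀, hmspec, hmlt⟩ := main_exists M₀ x hx
  clear hx
  have hm1 : 1 ≤ m := by clear hmspec hmlt; omega
  have hm3 : 3 ≤ m := by clear hmspec hmlt; omega
  have hcb := main_cbrt x m hm1 hx1 hmlt
  clear hmlt
  obtain ⟨n, hn1, hn2, hn3, hn4⟩ := hW m (hM₀2.trans hmM₀)
  have hmom := hM m n x (hM₀1.trans hmM₀) hn2 hn3 hmspec hn4
  clear hn4
  have hg := hG m (hM₀3.trans hmM₀)
  have hA := main_small x m n hm1 hn3 hmspec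
  clear hmspec
  have hmr : (3 : ℝ) ≤ m := Nat.ofNat_le_cast.2 hm3
  have hnr : (n : ℝ) ≤ m := Nat.cast_le.2 hn3
  have hxr : (0 : ℝ) < x := Nat.cast_pos.2 hx1
  -- `2^n ≥ exp (L m)`
  have h2n : Real.exp (L * m) ≤ (2 : ℝ) ^ n := by
    have e1 : (2 : ℝ) ^ n = Real.exp (n * Real.log 2) := by
      rw [Real.exp_nat_mul, Real.exp_log (by norm_num)]
    rw [e1]
    apply Real.exp_le_exp.2
    have hl2 : 0 ≤ Real.log 2 := Real.log_nonneg (by norm_num)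
    have h1 := mul_le_mul_of_nonneg_right hn1 hl2
    have e2 : c₁ * Real.log 2 * m = c₁ * m * Real.log 2 := by ring
    rw [hLdef, e2]
    exact h1
  have hEle : Real.exp (L / 24 * Real.log x ^ (1 / 3 : ℝ)) ≤ Real.exp (L * m / 4) := by
    apply Real.exp_le_exp.2
    have h1 := mul_le_mul_of_nonneg_left hcb (by positivity : (0 : ℝ) ≤ L / 24)
    have e2 : L / 24 * (6 * m) = L * m / 4 := by ring
    rw [e2] at h1
    exact h1
  have hFG : Real.exp (3 / 4 * L * m) * Real.exp (L * m / 4) ≤ (2 : ℝ) ^ n := by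
    rw [← Real.exp_add]
    have e2 : 3 / 4 * L * m + L * m / 4 = L * m := by ring
    rw [e2]
    exact h2n
  have hexp : Real.exp (-(L / 24 * Real.log x ^ (1 / 3 : ℝ))) =
      (Real.exp (L / 24 * Real.log x ^ (1 / 3 : ℝ)))⁻¹ := Real.exp_neg _
  rw [hexp]
  have hEpos : 0 < Real.exp (L / 24 * Real.log x ^ (1 / 3 : ℝ)) := Real.exp_pos _
  have hF := Real.exp_pos (3 / 4 * L * m)
  generalize Real.exp (L / 24 * Real.log x ^ (1 / 3 : ℝ)) = E at hEle hEpos ⊢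
  generalize Real.exp (3 / 4 * L * m) = F at hFG hF hg
  generalize Real.exp (L * m / 4) = G at hFG hEle
  clear h2n hcb hG hexp
  -- bad `k` have few hits
  have hbad : ∀ k : ℕ, n + 2 ≤ k → NN k < ((⌈E⌉₊ : ℕ) : ℕ∞) →
      ((hits m n (2 ^ (8 * m ^ 3)) k).card : ℝ) ≤ 2 ^ n / (4 * (m : ℝ) ^ 20) := by
    intro k hk hNN
    have hT : 2 ≤ 2 ^ (8 * m ^ 3) := by
      have h1 : 1 ≤ 8 * m ^ 3 := by
        have : 1 ≤ m ^ 3 := Nat.one_le_pow _ _ hm1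
        omega
      have h2 : 2 ^ 1 ≤ 2 ^ (8 * m ^ 3) := Nat.pow_le_pow_right (by norm_num) h1
      rwa [pow_one] at h2
    have hh := hH m n (2 ^ (8 * m ^ 3)) k hm1 hT hk
    obtain ⟨N, hN⟩ : ∃ N : ℕ, NN k = N := ⟨(NN k).toNat, (ENat.natCast_toNat (ne_top_of_lt hNN)).symm⟩
    rw [hN] at hh hNN
    have hNlt : N < ⌈E⌉₊ := by exact_mod_cast hNN
    have hNE : (N : ℝ) < E := Nat.lt_ceil.1 hNlt
    generalize (hits m n (2 ^ (8 * m ^ 3)) k).card = C at hh ⊢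
    have hh' : C ≤ (n + 3) ^ 2 * N := by exact_mod_cast hh
    have hh'' : (C : ℝ) ≤ ((n : ℝ) + 3) ^ 2 * N := by exact_mod_cast hh'
    exact main_hits _ _ _ _ E F G _ hmr (Nat.cast_nonneg n) hnr hh'' (Nat.cast_nonneg N) hNE.le hg
      hEle hF hFG
  -- the count
  have hsub : ((range x).filter fun k => NN k < ((⌈E⌉₊ : ℕ) : ℕ∞)) ⊆
      range (n + 2) ∪ ((range x).filter fun k => n + 2 ≤ k ∧
        ((hits m n (2 ^ (8 * m ^ 3)) k).card : ℝ) ≤ 2 ^ n / (4 * (m : ℝ) ^ 20)) := by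
    intro k hk
    rw [Finset.mem_filter, Finset.mem_range] at hk
    rw [Finset.mem_union, Finset.mem_range, Finset.mem_filter, Finset.mem_range]
    by_cases h : k < n + 2
    · exact Or.inl h
    · exact Or.inr ⟨hk.1, not_lt.1 h, hbad k (not_lt.1 h) hk.2⟩
  have h1 := (Finset.card_le_card hsub).trans (Finset.card_union_le _ _)
  rw [Finset.card_range] at h1
  have h2 := (Nat.cast_le (α := ℝ)).2 h1
  rw [Nat.cast_add, Nat.cast_add, Nat.cast_ofNat] at h2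
  refine (h2.trans (add_le_add_right hmom _)).trans ?_
  exact main_final x m n _ E F G hxr hmr (by positivity) hEpos hA hg hEle hF hFG

end Pool.Agent.Lib.MP_85a137_nt
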