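import Pool.Agent.Lib.MP_85a137_nt.Spec4
import Pool.Agent.Lib.MP_85a137_nt.Main3

/-!
# MP_85a137_nt: the lower bound in arithmetic progressions, assembly
-/

set_option autoImplicit false

namespace Pool.Agent.Lib.MP_85a137_nt

open Finset

theorem tMain4 (hW : StmtWeight4) (hX : StmtMult3) (hM : StmtMom4) (hH : StmtHits3)
    (hP : StmtPar4) (hC : StmtCb4) : StmtMain4 := by
  classical
  obtain ⟨mW, hW⟩ := hW
  obtain ⟨mX, hX⟩ := hX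
  obtain ⟨mM, hM⟩ := hM
  obtain ⟨mC, hC⟩ := hC
  obtain ⟨x₀, hreg⟩ := Main3M.regime (200 * 1100) (mW + mX + mM + mC + 4)
  refine ⟨x₀, fun x hx y hy1 hy2 Q b hQ1 hQ2 => ?_⟩
  obtain ⟨hx1, hΛ1, hmM, hmy, hym, hyL, hB, hC'⟩ := hreg x hx y hy1 hy2
  clear hreg
  obtain ⟨m, hm⟩ : ∃ m, m = ⌊y⌋₊ := ⟨_, rfl⟩
  rw [← hm] at hmM hmy hym hB hC'
  obtain ⟨Λ, hΛ⟩ : ∃ Λ, Λ = Nat.log 2 x := ⟨_, rfl⟩
  rw [← hΛ] at hΛ1 hB hC'
  obtain ⟨ℓ, hℓ⟩ : ∃ ℓ, ℓ = Nat.log 2 m + 1 := ⟨_, rfl⟩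
  rw [← hℓ] at hB hC'
  obtain ⟨n, J, u, R, hn1100, hn1, hn2, hmJ, hnm, h100, h7, hu, hR, h64, h8, hR1, hR2, hmm⟩ :=
    hP m (Nat.log 2 Λ + 1) Λ ℓ (by omega) (by omega)
      (Nat.lt_pow_succ_log_self (by norm_num) Λ) hℓ
      (by refine le_trans (le_of_eq ?_) hB; ring) hC'
  have hsn : ℓ ^ 2 * n ≤ m := by
    refine le_trans ?_ hn1
    have h1 : 200 * ℓ ^ 2 * n = 200 * (ℓ ^ 2 * n) := by ring
    omega
  have h200 : 200 * n * ℓ ^ 2 ≤ m := by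
    refine le_trans (le_of_eq ?_) hn1
    ring
  obtain ⟨hv, hlarge, hcount, hQ⟩ := hC m n J R Λ x ℓ (Nat.log 2 ℓ) y (by omega) hℓ rfl hn1100 hnm
    hn2 hmJ hmm hR hx1 hΛ hΛ1 hR1 hR2 hmy hym hyL
  obtain ⟨hW1, hW2⟩ := hW m n (by omega) (by rw [← hℓ]; exact hsn)
  rw [← hℓ] at hW1 hW2
  have hX1 := hX (ℓ ^ 2) m n (by omega) (by omega) hsn (by rw [← hℓ]; exact h200) hW2
  have hmom := hM (ℓ ^ 2) m n (Nat.log 2 ℓ) J u R x Q b (by omega) (by omega) (by omega) hv hnm hsn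
    h100 h7 hu hR h64 h8 hQ1 (hQ Q hQ1 hQ2) hW1 hX1
  obtain ⟨v, hvdef⟩ : ∃ v, v = Nat.log 2 ℓ := ⟨_, rfl⟩
  rw [← hvdef] at hmom hv hlarge hcount
  obtain ⟨s, hsdef⟩ : ∃ s, s = ℓ ^ 2 := ⟨_, rfl⟩
  rw [← hsdef] at hmom
  clear hW2 hX1 hW1 h64 h8 h7 hu h100 hQ hmm
  obtain ⟨E, hE⟩ : ∃ E, E = Real.exp (1 / 10 ^ 7 * y * Real.log (Real.log y) / Real.log y ^ 2) :=
    ⟨_, rfl⟩
  rw [← hE] at hlarge ⊢
  -- bad `k` have few hits
  have hbad : ∀ k : ℕ, n + 2 ≤ k → NN k < ((⌈E⌉₊ : ℕ) : ℕ∞) →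
      ((hits3 s m n (2 ^ (4 * m * n)) k).card : ℝ) ≤ 2 ^ (v * n / 4) := by
    intro k hk hNN
    have hT : 2 ≤ 2 ^ (4 * m * n) := by
      have h1 : 1 ≤ 4 * m * n := Nat.mul_le_mul (by omega : 1 ≤ 4 * m) (by omega : 1 ≤ n)
      have h2 : 2 ^ 1 ≤ 2 ^ (4 * m * n) := Nat.pow_le_pow_right (by norm_num) h1
      rwa [pow_one] at h2
    have hh := hH s m n (2 ^ (4 * m * n)) k (by omega) hT hk
    obtain ⟨N, hN⟩ : ∃ N : ℕ, NN k = N := ⟨(NN k).toNat, (ENat.natCast_toNat (ne_top_of_lt hNN)).symm⟩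
    rw [hN] at hh hNN
    have hNlt : N < ⌈E⌉₊ := by exact_mod_cast hNN
    have hNE : (N : ℝ) < E := Nat.lt_ceil.1 hNlt
    generalize (hits3 s m n (2 ^ (4 * m * n)) k).card = C at hh ⊢
    have hh' : C ≤ (n + 3) ^ 2 * N := by exact_mod_cast hh
    have hh'' : (C : ℝ) ≤ ((n : ℝ) + 3) ^ 2 * N := by exact_mod_cast hh'
    refine hh''.trans (le_trans ?_ hlarge)
    exact mul_le_mul_of_nonneg_left hNE.le (by positivity)
  -- the count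
  have hsub : ((range x).filter fun i => NN (b + Q * i) < ((⌈E⌉₊ : ℕ) : ℕ∞)) ⊆
      range (n + 2) ∪ ((range x).filter fun i => n + 2 ≤ b + Q * i ∧
        ((hits3 s m n (2 ^ (4 * m * n)) (b + Q * i)).card : ℝ) ≤ 2 ^ (v * n / 4)) := by
    intro k hk
    rw [Finset.mem_filter, Finset.mem_range] at hk
    rw [Finset.mem_union, Finset.mem_range, Finset.mem_filter, Finset.mem_range]
    by_cases h : k < n + 2
    · exact Or.inl h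
    · have h1 : n + 2 ≤ b + Q * k := by
        have h2 : k ≤ Q * k := Nat.le_mul_of_pos_left _ hQ1
        omega
      exact Or.inr ⟨hk.1, h1, hbad _ h1 hk.2⟩
  have h1 := (Finset.card_le_card hsub).trans (Finset.card_union_le _ _)
  rw [Finset.card_range] at h1
  have h2 := (Nat.cast_le (α := ℝ)).2 h1
  rw [Nat.cast_add, Nat.cast_add, Nat.cast_ofNat] at h2
  exact (h2.trans (add_le_add_right hmom _)).trans hcount

end Pool.Agent.Lib.MP_85a137_nt
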