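import Pool.Agent.Lib.MP_85a137_nt.Spec

/-!
MP_85a137_nt: the moment computation.
-/

set_option autoImplicit false

namespace Pool.Agent.Lib.MP_85a137_nt

open Finset

open Classical in
/-- the index set -/
noncomputable def momI (m n T : ℕ) : Finset (Cf n × ℕ) :=
  (cfg m n ×ˢ Ico T (2 * T)).filter fun i => Rough (2 ^ (m ^ 2)) (PP i.1 * i.2 - 1)

lemma mom_sum (m n T : ℕ) (f : Cf n × ℕ → ℝ) :
    ∑ i ∈ momI m n T, f i = ∑ γ ∈ cfg m n, ∑ t ∈ RR (2 ^ (m ^ 2)) T (PP γ), f (γ, t) := by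
  classical
  unfold momI RR
  rw [Finset.sum_filter, Finset.sum_product]
  refine Finset.sum_congr rfl fun γ _ => ?_
  rw [Finset.sum_filter]

lemma mom_pow {m : ℕ} (hm : 5 ≤ m) : 16 + 128 * m ^ 3 ≤ 8 ^ m := by
  induction m, hm using Nat.le_induction with
  | base => norm_num
  | succ m hm ih =>
    have h1 : 16 + 128 * (m + 1) ^ 3 ≤ 8 * (16 + 128 * m ^ 3) := by
      have h2 : (m + 1) ^ 3 ≤ 8 * m ^ 3 := by
        calc (m + 1) ^ 3 ≤ (2 * m) ^ 3 := Nat.pow_le_pow_left (by omega) 3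
          _ = 8 * m ^ 3 := by ring
      omega
    calc 16 + 128 * (m + 1) ^ 3 ≤ 8 * (16 + 128 * m ^ 3) := h1
      _ ≤ 8 * 8 ^ m := Nat.mul_le_mul_left 8 ih
      _ = 8 ^ (m + 1) := by rw [pow_succ]; ring

lemma mom_e3 {m n X : ℕ} (hm20 : 20 ≤ m) (hnm : n ≤ m) (hX : 2 ^ (29 * m ^ 3) ≤ X) :
    6 * 2 ^ n * (2 ^ (8 * m ^ 3) * 2 ^ (6 * m ^ 3)) ^ 2 ≤ X := by
  refine le_trans ?_ hX
  rw [← pow_add, ← pow_mul]
  have h5 : n + 3 ≤ m ^ 3 := by
    have : m ^ 3 = m * m ^ 2 := by ring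
    nlinarith
  generalize m ^ 3 = N at h5 ⊢
  calc 6 * 2 ^ n * 2 ^ ((8 * N + 6 * N) * 2) ≤ 2 ^ 3 * 2 ^ n * 2 ^ ((8 * N + 6 * N) * 2) := by
        apply Nat.mul_le_mul_right
        apply Nat.mul_le_mul_right
        norm_num
    _ = 2 ^ (3 + n + (8 * N + 6 * N) * 2) := by rw [pow_add, pow_add]
    _ ≤ 2 ^ (29 * N) := by
        apply Nat.pow_le_pow_right (by norm_num)
        omega

lemma mom_e2 {m n : ℕ} (hm20 : 20 ≤ m) (hnm : n ≤ m) :
    32 * 2 ^ (18 * m + 1) * (2 * 2 ^ n) ≤ 2 ^ (m ^ 2) := by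
  have h3 : 32 * 2 ^ (18 * m + 1) * (2 * 2 ^ n) = 2 ^ (18 * m + n + 7) := by ring
  rw [h3]
  apply Nat.pow_le_pow_right (by norm_num)
  nlinarith

/-- final arithmetic -/
lemma mom_final {c₀ A X w T B mm G : ℝ} (hA : G ≤ A) (hG : 0 < G) (hX0 : 0 ≤ X) (hm : 0 < mm)
    {K : ℝ} (hw : 0 < w) (hK : K * (2 * G) ≤ w) (hB : 6 * G * (T * B) ^ 2 ≤ X)
    (hkey : c₀ * (A ^ 2 / (16 * mm)) ≤ X * (3 * A + K / w * A ^ 2) + 3 * (T * (B * A)) ^ 2) :
    c₀ ≤ X * (64 * mm / G) := by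
  have hApos : 0 < A := lt_of_lt_of_le hG hA
  have e1 : (3 : ℝ) * A ≤ 3 * A ^ 2 / G := by
    rw [le_div_iff₀ hG]
    nlinarith
  have e2 : K / w ≤ 1 / 2 / G := by
    rw [div_div, div_le_div_iff₀ hw (by positivity)]
    linarith
  have e3 : 3 * (T * (B * A)) ^ 2 ≤ X * (1 / 2 * A ^ 2 / G) := by
    have h5 : 3 * (T * (B * A)) ^ 2 = (6 * G * (T * B) ^ 2) * (1 / 2 * A ^ 2 / G) := by
      field_simp
      ring
    rw [h5]
    exact mul_le_mul_of_nonneg_right hB (by positivity)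
  have e4 : X * (3 * A + K / w * A ^ 2) ≤ X * (3 * A ^ 2 / G + 1 / 2 / G * A ^ 2) := by
    apply mul_le_mul_of_nonneg_left _ hX0
    apply add_le_add e1
    exact mul_le_mul_of_nonneg_right e2 (by positivity)
  have e5 : c₀ * (A ^ 2 / (16 * mm)) ≤ X * (64 * mm / G) * (A ^ 2 / (16 * mm)) := by
    refine hkey.trans ((add_le_add e4 e3).trans (le_of_eq ?_))
    field_simp
    ring
  exact le_of_mul_le_mul_right e5 (by positivity)

open Classical in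
theorem mom (hZ : StmtSize) (hB : StmtBrun) (h2 : StmtSecond) (hO : StmtOff) (hD : StmtDiag)
    (hI : StmtInj) : StmtMom := by
  obtain ⟨m₁, hB⟩ := hB
  refine ⟨max m₁ 20, fun m n X hm hn hnm hX hA => ?_⟩
  have hm1 : m₁ ≤ m := le_trans (le_max_left _ _) hm
  have hm20 : 20 ≤ m := le_trans (le_max_right _ _) hm
  have hm0 : 1 ≤ m := by omega
  set w : ℕ := 2 ^ (m ^ 2) with hw
  set T : ℕ := 2 ^ (8 * m ^ 3) with hT
  set B : ℕ := 2 ^ (6 * m ^ 3) with hBdef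
  set A : ℝ := ∑ γ ∈ cfg m n, (1 : ℝ) / PP γ with hAdef
  have hsz := hZ m n hm0 hn hnm
  have hT1 : 1 ≤ T := Nat.one_le_two_pow
  have hTr : (1 : ℝ) ≤ T := by exact_mod_cast hT1
  have hTpos : (0 : ℝ) < T := by linarith
  have hmr : (1 : ℝ) ≤ m := by exact_mod_cast hm0
  have hmpos : (0 : ℝ) < m := by linarith
  have hA1 : (1 : ℝ) ≤ A := le_trans (one_le_pow₀ (by norm_num)) hA
  have hApos : 0 < A := by linarith
  have hP8 : ∀ γ ∈ cfg m n, 8 ^ m ≤ PP γ := by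
    intro γ hγ
    have h := (hsz γ hγ).1
    rwa [pow_mul, show (2 : ℕ) ^ 3 = 8 by norm_num] at h
  have hP2 : ∀ γ ∈ cfg m n, 2 ≤ PP γ := by
    intro γ hγ
    refine le_trans ?_ (hP8 γ hγ)
    calc 2 ≤ 8 ^ 1 := by norm_num
      _ ≤ 8 ^ m := Nat.pow_le_pow_right (by norm_num) hm0
  have hPpos : ∀ γ ∈ cfg m n, (0 : ℝ) < PP γ := fun γ hγ => by
    have := hP2 γ hγ
    exact_mod_cast (by omega : 0 < PP γ)
  -- the moduli
  set q : Cf n × ℕ → ℕ := fun i => PP i.1 * i.2 - 1 with hq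
  set r : Cf n × ℕ → ℤ := fun i => ((n : ℤ) + 2) - SS i.1 - i.2 with hr
  set I := momI m n T with hIdef
  have hmemI : ∀ i ∈ I, i.1 ∈ cfg m n ∧ T ≤ i.2 ∧ i.2 < 2 * T := by
    intro i hi
    rw [hIdef, momI, mem_filter, mem_product, mem_Ico] at hi
    exact ⟨hi.1.1, hi.1.2⟩
  have hqge : ∀ γ ∈ cfg m n, ∀ t, T ≤ t → PP γ * T ≤ 2 * (PP γ * t - 1) := by
    intro γ hγ t ht
    have h1 : PP γ * T ≤ PP γ * t := Nat.mul_le_mul_left _ ht
    have h3 : 2 ≤ PP γ * T := by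
      calc 2 = 2 * 1 := by norm_num
        _ ≤ PP γ * T := Nat.mul_le_mul (hP2 γ hγ) hT1
    omega
  have hq1 : ∀ i ∈ I, 1 ≤ q i := by
    intro i hi
    obtain ⟨h1, h3, _⟩ := hmemI i hi
    have h4 := hqge i.1 h1 i.2 h3
    have h5 : 2 ≤ PP i.1 * T := by
      calc 2 = 2 * 1 := by norm_num
        _ ≤ PP i.1 * T := Nat.mul_le_mul (hP2 _ h1) hT1
    rw [hq]
    dsimp only
    omega
  -- bounds for `M`
  set M : ℝ := ∑ i ∈ I, (1 : ℝ) / q i with hM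
  have hMeq : M = ∑ γ ∈ cfg m n, ∑ t ∈ RR w T (PP γ), (1 : ℝ) / ((PP γ * t - 1 : ℕ) : ℝ) := by
    rw [hM, hIdef, mom_sum]
  have hRRmem : ∀ P, ∀ t ∈ RR w T P, T ≤ t ∧ t < 2 * T := by
    intro P t ht
    rw [RR, mem_filter, mem_Ico] at ht
    exact ht.1
  have hMlow : A / (2 * (m : ℝ) ^ 20) ≤ M := by
    rw [hMeq, hAdef, Finset.sum_div]
    apply Finset.sum_le_sum
    intro γ hγ
    have hP := hPpos γ hγ
    have h3 : ∀ t ∈ RR w T (PP γ), (1 : ℝ) / (PP γ * (2 * T)) ≤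
        (1 : ℝ) / ((PP γ * t - 1 : ℕ) : ℝ) := by
      intro t ht
      obtain ⟨h4, h5⟩ := hRRmem _ t ht
      have h6 := hqge γ hγ t h4
      have h7 : 0 < PP γ * t - 1 := by
        have h8 : 2 ≤ PP γ * T := by
          calc 2 = 2 * 1 := by norm_num
            _ ≤ PP γ * T := Nat.mul_le_mul (hP2 γ hγ) hT1
        omega
      apply one_div_le_one_div_of_le (by exact_mod_cast h7)
      have h8 : PP γ * t - 1 ≤ PP γ * (2 * T) :=
        le_trans (Nat.sub_le _ _) (Nat.mul_le_mul_left _ h5.le)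
      exact_mod_cast h8
    have h4 := Finset.card_nsmul_le_sum _ _ _ h3
    rw [nsmul_eq_mul] at h4
    refine le_trans ?_ h4
    have h5 := hB m (PP γ) T hm1 (le_trans (by norm_num) (hP2 γ hγ)) le_rfl
    calc 1 / (PP γ : ℝ) / (2 * (m : ℝ) ^ 20) = (T : ℝ) / (m : ℝ) ^ 20 * (1 / (PP γ * (2 * T))) := by
          field_simp
      _ ≤ _ := mul_le_mul_of_nonneg_right h5 (by positivity)
  have hinv : ∀ γ ∈ cfg m n, ∀ t, T ≤ t → (1 : ℝ) / ((PP γ * t - 1 : ℕ) : ℝ) ≤ 2 / (PP γ * T) := by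
    intro γ hγ t ht
    have hP := hPpos γ hγ
    have h6 := hqge γ hγ t ht
    have h7 : (0 : ℝ) < ((PP γ * t - 1 : ℕ) : ℝ) := by
      have h8 : 2 ≤ PP γ * T := by
        calc 2 = 2 * 1 := by norm_num
          _ ≤ PP γ * T := Nat.mul_le_mul (hP2 γ hγ) hT1
      exact_mod_cast (by omega : 0 < PP γ * t - 1)
    rw [div_le_div_iff₀ h7 (by positivity)]
    have h9 : ((PP γ * T : ℕ) : ℝ) ≤ ((2 * (PP γ * t - 1) : ℕ) : ℝ) := by exact_mod_cast h6
    push_cast at h9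
    linarith
  have hRRcard : ∀ P, ((RR w T P).card : ℝ) ≤ T := by
    intro P
    have h3 : (RR w T P).card ≤ (Ico T (2 * T)).card := Finset.card_filter_le _ _
    rw [Nat.card_Ico] at h3
    have h4 : (RR w T P).card ≤ T := by omega
    exact_mod_cast h4
  have hMup : M ≤ 2 * A := by
    rw [hMeq, hAdef, Finset.mul_sum]
    apply Finset.sum_le_sum
    intro γ hγ
    have hP := hPpos γ hγ
    have h3 : ∑ t ∈ RR w T (PP γ), (1 : ℝ) / ((PP γ * t - 1 : ℕ) : ℝ) ≤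
        (RR w T (PP γ)).card • (2 / ((PP γ : ℝ) * T)) :=
      Finset.sum_le_card_nsmul _ _ _ fun t ht => hinv γ hγ t (hRRmem _ t ht).1
    rw [nsmul_eq_mul] at h3
    refine h3.trans ?_
    calc ((RR w T (PP γ)).card : ℝ) * (2 / ((PP γ : ℝ) * T)) ≤ T * (2 / ((PP γ : ℝ) * T)) :=
          mul_le_mul_of_nonneg_right (hRRcard _) (by positivity)
      _ = 2 * (1 / (PP γ : ℝ)) := by field_simp
  have hM0 : 0 ≤ M := le_trans (by positivity) hMlow
  -- the double sum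
  set F : Cf n × ℕ → Cf n × ℕ → ℝ := fun i j => if 1 < (q i).gcd (q j) ∧
    (((q i).gcd (q j) : ℕ) : ℤ) ∣ r i - r j then
      (((q i).gcd (q j) : ℕ) : ℝ) / (q i * q j) else 0 with hF
  have hR1 : ∑ i ∈ I, ∑ j ∈ I, F i j = ∑ γ ∈ cfg m n, ∑ γ' ∈ cfg m n,
      ∑ t ∈ RR w T (PP γ), ∑ t' ∈ RR w T (PP γ'), F (γ, t) (γ', t') := by
    rw [hIdef, mom_sum]
    refine Finset.sum_congr rfl fun γ _ => ?_
    rw [Finset.sum_comm (s := cfg m n)]
    refine Finset.sum_congr rfl fun t _ => ?_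
    rw [mom_sum]
  have hwpos : (0 : ℝ) < w := by rw [hw]; positivity
  -- one pair of configurations
  have hpair : ∀ γ ∈ cfg m n, ∀ γ' ∈ cfg m n,
      ∑ t ∈ RR w T (PP γ), ∑ t' ∈ RR w T (PP γ'), F (γ, t) (γ', t') ≤
      (if γ' = γ then (∑ t ∈ RR w T (PP γ), (1 : ℝ) / ((PP γ * t - 1 : ℕ) : ℝ)) + 1 / PP γ else 0) +
        32 * 2 ^ (18 * m + 1) / w * (1 / PP γ * (1 / PP γ')) := by
    intro γ hγ γ' hγ'
    have hP := hPpos γ hγ
    have hP' := hPpos γ' hγ'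
    by_cases hg : γ' = γ
    · subst hg
      rw [if_pos rfl]
      have h3 := hD (PP γ') T w (hP2 _ hγ') hT1
      have h4 : ∀ t ∈ RR w T (PP γ'), ∀ t' ∈ RR w T (PP γ'), F (γ', t) (γ', t') =
          (if 1 < (PP γ' * t - 1).gcd (PP γ' * t' - 1) ∧
      (((PP γ' * t - 1).gcd (PP γ' * t' - 1) : ℕ) : ℤ) ∣ ((t' : ℤ) - t) then
        (((PP γ' * t - 1).gcd (PP γ' * t' - 1) : ℕ) : ℝ) /
          (((PP γ' * t - 1 : ℕ) : ℝ) * ((PP γ' * t' - 1 : ℕ) : ℝ)) else 0) := by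
        intro t _ t' _
        have h5 : r (γ', t) - r (γ', t') = (t' : ℤ) - t := by rw [hr]; ring
        rw [hF]
        dsimp only
        rw [h5]
      rw [Finset.sum_congr rfl fun t ht => Finset.sum_congr rfl fun t' ht' => h4 t ht t' ht']
      refine h3.trans ?_
      have h5 : 16 * (1 + Real.log T) / (PP γ' : ℝ) ^ 2 ≤ 1 / PP γ' := by
        rw [div_le_div_iff₀ (by positivity) hP]
        have h6 : Real.log T ≤ 8 * (m : ℝ) ^ 3 := by
          rw [hT]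
          push_cast
          rw [Real.log_pow]
          push_cast
          have h7 : Real.log 2 ≤ 1 := by
            have := Real.log_le_sub_one_of_pos (show (0 : ℝ) < 2 by norm_num)
            linarith
          have h8 : (0 : ℝ) ≤ 8 * (m : ℝ) ^ 3 := by positivity
          nlinarith
        have h9 : (16 : ℝ) + 128 * (m : ℝ) ^ 3 ≤ PP γ' := by
          have h10 := le_trans (mom_pow (by omega : 5 ≤ m)) (hP8 γ' hγ')
          exact_mod_cast h10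
        have h11 : 16 * (1 + Real.log T) ≤ PP γ' := by linarith
        calc 16 * (1 + Real.log T) * (PP γ' : ℝ) ≤ (PP γ' : ℝ) * PP γ' :=
              mul_le_mul_of_nonneg_right h11 hP.le
          _ = 1 * (PP γ' : ℝ) ^ 2 := by ring
      have h12 : (0 : ℝ) ≤ 32 * 2 ^ (18 * m + 1) / w * (1 / PP γ' * (1 / PP γ')) := by positivity
      linarith
    · rw [if_neg hg, zero_add]
      have hne : ¬ (PP γ = PP γ' ∧ SS γ = SS γ') := fun h =>
        hg (hI m n hm0 γ hγ γ' hγ' h.1 h.2).symm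
      have hBw : B * w ≤ T := by
        rw [hBdef, hw, hT, ← pow_add]
        apply Nat.pow_le_pow_right (by norm_num)
        have : m ^ 2 ≤ m ^ 3 := Nat.pow_le_pow_right hm0 (by norm_num)
        omega
      have hBh : 2 * B ^ 3 < w ^ ((18 * m + 1) + 1) := by
        rw [hBdef, hw, ← pow_mul, ← pow_mul, ← pow_succ']
        apply Nat.pow_lt_pow_right (by norm_num)
        have h5 : m ^ 2 * (18 * m + 1 + 1) = 18 * m ^ 3 + 2 * m ^ 2 := by ring
        have h6 : 1 ≤ m ^ 2 := Nat.one_le_pow _ _ hm0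
        rw [h5]
        omega
      have hw2 : 2 ≤ w := by
        rw [hw]
        calc 2 = 2 ^ 1 := by norm_num
          _ ≤ 2 ^ (m ^ 2) := Nat.pow_le_pow_right (by norm_num) (Nat.one_le_pow _ _ hm0)
      have h3 := hO (PP γ) (PP γ') (SS γ) (SS γ') T w (18 * m + 1) B (hP2 γ hγ) (hP2 γ' hγ')
        (hsz γ hγ).2.1 (hsz γ' hγ').2.1 (hsz γ hγ).2.2 (hsz γ' hγ').2.2 hw2 hBw hBh hne
      have h4 : ∀ t ∈ RR w T (PP γ), ∀ t' ∈ RR w T (PP γ'), F (γ, t) (γ', t') =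
          (if 1 < (PP γ * t - 1).gcd (PP γ' * t' - 1) ∧
      (((PP γ * t - 1).gcd (PP γ' * t' - 1) : ℕ) : ℤ) ∣ ((SS γ' : ℤ) - SS γ) + ((t' : ℤ) - t) then
        (((PP γ * t - 1).gcd (PP γ' * t' - 1) : ℕ) : ℝ) /
          (((PP γ * t - 1 : ℕ) : ℝ) * ((PP γ' * t' - 1 : ℕ) : ℝ)) else 0) := by
        intro t _ t' _
        have h5 : r (γ, t) - r (γ', t') = ((SS γ' : ℤ) - SS γ) + ((t' : ℤ) - t) := by
          rw [hr]; ring
        rw [hF]
        dsimp only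
        rw [h5]
      rw [Finset.sum_congr rfl fun t ht => Finset.sum_congr rfl fun t' ht' => h4 t ht t' ht']
      refine h3.trans (le_of_eq ?_)
      field_simp
  have hR2 : ∑ i ∈ I, ∑ j ∈ I, F i j ≤ 3 * A + 32 * 2 ^ (18 * m + 1) / w * A ^ 2 := by
    rw [hR1]
    have h3 : ∑ γ ∈ cfg m n, ∑ γ' ∈ cfg m n,
        ∑ t ∈ RR w T (PP γ), ∑ t' ∈ RR w T (PP γ'), F (γ, t) (γ', t') ≤
        ∑ γ ∈ cfg m n, ∑ γ' ∈ cfg m n,
        ((if γ' = γ then (∑ t ∈ RR w T (PP γ), (1 : ℝ) / ((PP γ * t - 1 : ℕ) : ℝ)) + 1 / PP γ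
          else 0) + 32 * 2 ^ (18 * m + 1) / w * (1 / PP γ * (1 / PP γ'))) :=
      Finset.sum_le_sum fun γ hγ => Finset.sum_le_sum fun γ' hγ' => hpair γ hγ γ' hγ'
    refine h3.trans ?_
    have h4 : ∑ γ ∈ cfg m n, ∑ γ' ∈ cfg m n,
        ((if γ' = γ then (∑ t ∈ RR w T (PP γ), (1 : ℝ) / ((PP γ * t - 1 : ℕ) : ℝ)) + 1 / PP γ
          else 0) + 32 * 2 ^ (18 * m + 1) / w * (1 / PP γ * (1 / PP γ'))) =
        (M + A) + 32 * 2 ^ (18 * m + 1) / w * A ^ 2 := by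
      have h5 : ∀ γ ∈ cfg m n, ∑ γ' ∈ cfg m n,
        ((if γ' = γ then (∑ t ∈ RR w T (PP γ), (1 : ℝ) / ((PP γ * t - 1 : ℕ) : ℝ)) + 1 / PP γ
          else 0) + 32 * 2 ^ (18 * m + 1) / w * (1 / PP γ * (1 / PP γ'))) =
          ((∑ t ∈ RR w T (PP γ), (1 : ℝ) / ((PP γ * t - 1 : ℕ) : ℝ)) + 1 / PP γ) +
          32 * 2 ^ (18 * m + 1) / w * (1 / PP γ * A) := by
        intro γ hγ
        rw [Finset.sum_add_distrib, Finset.sum_ite_eq', if_pos hγ, ← Finset.mul_sum,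
          ← Finset.mul_sum]
      rw [Finset.sum_congr rfl h5, Finset.sum_add_distrib, Finset.sum_add_distrib, ← hMeq,
        ← Finset.mul_sum, ← Finset.sum_mul, ← hAdef]
      ring
    rw [h4]
    linarith
  -- the number of indices
  have hcardI : (I.card : ℝ) ≤ T * (B * A) := by
    have h3 : (I.card : ℝ) = ∑ i ∈ I, (1 : ℝ) := by simp
    rw [h3, hIdef, mom_sum, hAdef, Finset.mul_sum, Finset.mul_sum]
    apply Finset.sum_le_sum
    intro γ hγ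
    have hP := hPpos γ hγ
    have h4 : ∑ t ∈ RR w T (PP γ), (1 : ℝ) = (RR w T (PP γ)).card := by simp
    rw [h4]
    refine (hRRcard _).trans ?_
    have h5 : (PP γ : ℝ) ≤ B := by exact_mod_cast (hsz γ hγ).2.1
    have h6 : (1 : ℝ) ≤ B * (1 / PP γ) := by
      rw [mul_one_div, le_div_iff₀ hP]
      linarith
    calc (T : ℝ) = T * 1 := (mul_one _).symm
      _ ≤ _ := mul_le_mul_of_nonneg_left h6 hTpos.le
  -- the sets
  have hmom := h2 (Cf n × ℕ) I q r X hq1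
  set W : ℕ → ℝ := fun k => ((I.filter fun i => (q i : ℤ) ∣ (k : ℤ) - r i).card : ℝ) with hW
  have hsub : ((range X).filter fun k => n + 2 ≤ k ∧
      ((hits m n T k).card : ℝ) ≤ 2 ^ n / (4 * (m : ℝ) ^ 20)) ⊆
      (range X).filter fun k : ℕ => W k ≤ M / 2 := by
    intro k hk
    rw [mem_filter] at hk ⊢
    obtain ⟨h3, h4, h5⟩ := hk
    refine ⟨h3, ?_⟩
    have h6 : (I.filter fun i => (q i : ℤ) ∣ (k : ℤ) - r i) ⊆ hits m n T k := by
      intro i hi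
      rw [mem_filter] at hi
      obtain ⟨h7, h8⟩ := hi
      rw [hits, mem_filter]
      rw [hIdef, momI, mem_filter] at h7
      refine ⟨h7.1, ?_⟩
      have h9 : (k : ℤ) - r i = ((k + SS i.1 + i.2 - (n + 2) : ℕ) : ℤ) := by
        rw [hr]
        dsimp only
        rw [Nat.cast_sub (by omega)]
        push_cast
        ring
      rw [h9] at h8
      exact_mod_cast h8
    have h7 : W k ≤ ((hits m n T k).card : ℝ) := by
      have h8 := Finset.card_le_card h6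
      change ((I.filter fun i => (q i : ℤ) ∣ (k : ℤ) - r i).card : ℝ) ≤ _
      exact_mod_cast h8
    calc W k ≤ ((hits m n T k).card : ℝ) := h7
      _ ≤ 2 ^ n / (4 * (m : ℝ) ^ 20) := h5
      _ ≤ A / (4 * (m : ℝ) ^ 20) := div_le_div_of_nonneg_right hA (by positivity)
      _ = A / (2 * (m : ℝ) ^ 20) / 2 := by field_simp; norm_num
      _ ≤ M / 2 := by linarith
  set c₀ : ℝ := (((range X).filter fun k => n + 2 ≤ k ∧
      ((hits m n T k).card : ℝ) ≤ 2 ^ n / (4 * (m : ℝ) ^ 20)).card : ℝ) with hc₀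
  set c₁ : ℝ := (((range X).filter fun k : ℕ => W k ≤ M / 2).card : ℝ) with hc₁
  have hc01 : c₀ ≤ c₁ := by
    rw [hc₀, hc₁]
    exact_mod_cast Finset.card_le_card hsub
  have hmom2 : c₁ * (M ^ 2 / 4) ≤ X * (3 * A + 32 * 2 ^ (18 * m + 1) / w * A ^ 2) +
      3 * (T * (B * A)) ^ 2 := by
    refine hmom.trans ?_
    apply add_le_add
    · exact mul_le_mul_of_nonneg_left hR2 (Nat.cast_nonneg _)
    · apply mul_le_mul_of_nonneg_left _ (by norm_num)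
      exact pow_le_pow_left₀ (Nat.cast_nonneg _) hcardI 2
  have hc₀0 : 0 ≤ c₀ := Nat.cast_nonneg _
  have hkey : c₀ * (A ^ 2 / (16 * (m : ℝ) ^ 40)) ≤
      X * (3 * A + 32 * 2 ^ (18 * m + 1) / w * A ^ 2) + 3 * (T * (B * A)) ^ 2 := by
    refine le_trans ?_ hmom2
    have h3 : A ^ 2 / (16 * (m : ℝ) ^ 40) ≤ M ^ 2 / 4 := by
      have h4 : (A / (2 * (m : ℝ) ^ 20)) ^ 2 ≤ M ^ 2 := pow_le_pow_left₀ (by positivity) hMlow 2
      calc A ^ 2 / (16 * (m : ℝ) ^ 40) = (A / (2 * (m : ℝ) ^ 20)) ^ 2 / 4 := by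
            field_simp; norm_num
        _ ≤ _ := by linarith
    exact mul_le_mul hc01 h3 (by positivity) (le_trans hc₀0 hc01)
  -- numbers
  have hK : (32 * 2 ^ (18 * m + 1) : ℝ) * (2 * 2 ^ n) ≤ w := by
    have h3 := mom_e2 hm20 hnm
    rw [hw]
    exact_mod_cast h3
  have hBX : (6 : ℝ) * 2 ^ n * (T * B) ^ 2 ≤ X := by
    have h3 := mom_e3 hm20 hnm hX
    rw [hT, hBdef]
    exact_mod_cast h3
  exact mom_final hA (by positivity) (Nat.cast_nonneg _) (by positivity) hwpos hK hBX hkey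

end Pool.Agent.Lib.MP_85a137_nt
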