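import Pool.Agent.Lib.MP_85a137_nt.Spec

/-!
# Off-diagonal pairs
-/

set_option autoImplicit false

namespace Pool.Agent.Lib.MP_85a137_nt

open Finset

open Classical in
theorem rdiv : StmtRDiv := by
  intro w N h hw
  induction h generalizing N with
  | zero =>
    intro hN hlt
    rw [zero_add, pow_one] at hlt
    have hsub : (N.divisors.filter fun g => Rough w g) ⊆ {1} := by
      intro g hg
      obtain ⟨h1, h2⟩ := Finset.mem_filter.1 hg
      have hgN := Nat.dvd_of_mem_divisors h1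
      rw [Finset.mem_singleton]
      by_contra hne
      obtain ⟨p, hp, hpg⟩ := Nat.exists_prime_and_dvd hne
      exact h2 p hp ((Nat.le_of_dvd hN (hpg.trans hgN)).trans hlt.le) hpg
    simpa using Finset.card_le_card hsub
  | succ h ih =>
    intro hN hlt
    by_cases hex : ∃ p : ℕ, p.Prime ∧ w < p ∧ p ∣ N
    · obtain ⟨p, hp, hwp, N', rfl⟩ := hex
      have hN' : 1 ≤ N' := Nat.pos_of_ne_zero fun h0 => by simp [h0] at hN
      have hlt' : N' < w ^ (h + 1) := by
        by_contra hge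
        push Not at hge
        have h1 : w * w ^ (h + 1) ≤ p * N' := Nat.mul_le_mul hwp.le hge
        rw [← pow_succ'] at h1
        omega
      have hsub : ((p * N').divisors.filter fun g => Rough w g) ⊆
          (N'.divisors.filter fun g => Rough w g) ∪
            ((N'.divisors.filter fun g => Rough w g).image fun g => p * g) := by
        intro g hg
        obtain ⟨h1, h2⟩ := Finset.mem_filter.1 hg
        have hgN := Nat.dvd_of_mem_divisors h1
        rw [Finset.mem_union]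
        by_cases hpg : p ∣ g
        · right
          obtain ⟨g', rfl⟩ := hpg
          rw [Finset.mem_image]
          refine ⟨g', ?_, rfl⟩
          rw [Finset.mem_filter, Nat.mem_divisors]
          refine ⟨⟨Nat.dvd_of_mul_dvd_mul_left hp.pos hgN, by omega⟩, ?_⟩
          intro q hq hqw hqg
          exact h2 q hq hqw (hqg.mul_left p)
        · left
          rw [Finset.mem_filter, Nat.mem_divisors]
          refine ⟨⟨?_, by omega⟩, h2⟩
          have hcop : Nat.Coprime g p := ((Nat.Prime.coprime_iff_not_dvd hp).2 hpg).symm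
          exact hcop.dvd_of_dvd_mul_left hgN
      have hih := ih N' hN' hlt'
      calc ((p * N').divisors.filter fun g => Rough w g).card
          ≤ _ := Finset.card_le_card hsub
        _ ≤ (N'.divisors.filter fun g => Rough w g).card +
            ((N'.divisors.filter fun g => Rough w g).image fun g => p * g).card :=
          Finset.card_union_le _ _
        _ ≤ 2 ^ h + 2 ^ h := add_le_add hih (Finset.card_image_le.trans hih)
        _ = 2 ^ (h + 1) := by ring
    · have hsub : (N.divisors.filter fun g => Rough w g) ⊆ {1} := by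
        intro g hg
        obtain ⟨h1, h2⟩ := Finset.mem_filter.1 hg
        have hgN := Nat.dvd_of_mem_divisors h1
        rw [Finset.mem_singleton]
        by_contra hne
        obtain ⟨p, hp, hpg⟩ := Nat.exists_prime_and_dvd hne
        refine hex ⟨p, hp, ?_, hpg.trans hgN⟩
        by_contra hle
        exact h2 p hp (not_lt.1 hle) hpg
      calc _ ≤ _ := Finset.card_le_card hsub
        _ = 1 := by simp
        _ ≤ 2 ^ (h + 1) := Nat.one_le_two_pow

namespace Off

/-- The number of elements of a residue class in an interval. -/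
theorem card_modEq_le (T r v : ℕ) (hr : 0 < r) :
    (((Ico T (2 * T)).filter fun t => t ≡ v [MOD r]).card : ℝ) ≤ (T : ℝ) / r + 1 := by
  have h := Nat.Ico_filter_modEq_card T (2 * T) hr v
  have hr' : (0 : ℚ) < r := by exact_mod_cast hr
  have h1 : ((⌈((2 * T : ℕ) - v : ℚ) / (r : ℚ)⌉ - ⌈((T : ℕ) - v : ℚ) / (r : ℚ)⌉ : ℤ) : ℚ) ≤
      (T : ℚ) / r + 1 := by
    have e1 : ((2 * T : ℕ) - v : ℚ) / (r : ℚ) = ((T : ℕ) - v : ℚ) / (r : ℚ) + (T : ℚ) / r := by
      push_cast
      field_simp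
      ring
    have h2 := Int.ceil_lt_add_one (((2 * T : ℕ) - v : ℚ) / (r : ℚ))
    have h3 := Int.le_ceil (((T : ℕ) - v : ℚ) / (r : ℚ))
    push_cast at *
    linarith
  have h4 : (((((Ico T (2 * T)).filter fun t => t ≡ v [MOD r]).card : ℕ) : ℤ) : ℚ) ≤
      (T : ℚ) / r + 1 := by
    rw [h]
    rcases le_total (⌈((2 * T : ℕ) - v : ℚ) / (r : ℚ)⌉ - ⌈((T : ℕ) - v : ℚ) / (r : ℚ)⌉) 0 with h5 | h5
    · rw [max_eq_right h5]
      push_cast
      positivity
    · rw [max_eq_left h5]
      exact h1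
  have h6 : ((((Ico T (2 * T)).filter fun t => t ≡ v [MOD r]).card : ℕ) : ℚ) ≤
      (T : ℚ) / r + 1 := by exact_mod_cast h4
  have h7 := (Rat.cast_le (K := ℝ)).2 h6
  push_cast at h7
  exact h7

/-- The number of `t` in `[T, 2T)` with `g ∣ P t - 1`. -/
theorem card_dvd_le (P T g : ℕ) (hg : 0 < g) (hP : 1 ≤ P) (hT : 1 ≤ T) :
    (((Ico T (2 * T)).filter fun t => g ∣ P * t - 1).card : ℝ) ≤ (T : ℝ) / g + 1 := by
  rcases ((Ico T (2 * T)).filter fun t => g ∣ P * t - 1).eq_empty_or_nonempty with he | ⟨t₀, ht₀⟩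
  · rw [he, Finset.card_empty]
    push_cast
    positivity
  · obtain ⟨h1, h2⟩ := Finset.mem_filter.1 ht₀
    have ht₀' := (Finset.mem_Ico.1 h1).1
    refine le_trans ?_ (card_modEq_le T g t₀ hg)
    have hsub : ((Ico T (2 * T)).filter fun t => g ∣ P * t - 1) ⊆
        ((Ico T (2 * T)).filter fun t => t ≡ t₀ [MOD g]) := by
      intro t ht
      obtain ⟨h3, h4⟩ := Finset.mem_filter.1 ht
      have ht' := (Finset.mem_Ico.1 h3).1
      refine Finset.mem_filter.2 ⟨h3, ?_⟩
      have e0 : 1 ≤ P * t₀ := Nat.mul_pos hP (by omega)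
      have e1 : 1 ≤ P * t := Nat.mul_pos hP (by omega)
      have m0 : 1 ≡ P * t₀ [MOD g] := (Nat.modEq_iff_dvd' e0).2 h2
      have m1 : 1 ≡ P * t [MOD g] := (Nat.modEq_iff_dvd' e1).2 h4
      have hc : Nat.gcd g P = 1 := by
        have hd : g.gcd P ∣ 1 := by
          have d1 : g.gcd P ∣ P * t₀ := (Nat.gcd_dvd_right g P).mul_right t₀
          have d2 : g.gcd P ∣ P * t₀ - 1 := (Nat.gcd_dvd_left g P).trans h2
          have := (Nat.dvd_sub d1 d2)
          rwa [Nat.sub_sub_self e0] at this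
        exact Nat.dvd_one.1 hd
      exact Nat.ModEq.cancel_left_of_coprime hc (m1.symm.trans m0)
    exact_mod_cast Finset.card_le_card hsub

theorem sum_dvd_le (P T g : ℕ) (hg : 0 < g) (hP : 2 ≤ P) (hT : 1 ≤ T) :
    ∑ t ∈ Ico T (2 * T), (if g ∣ P * t - 1 then (1 : ℝ) / ((P * t - 1 : ℕ) : ℝ) else 0) ≤
      ((T : ℝ) / g + 1) * (2 / (P * T)) := by
  rw [← Finset.sum_filter]
  have hPT : 2 ≤ P * T := by nlinarith
  have hPTr : (2 : ℝ) ≤ (P : ℝ) * T := by exact_mod_cast hPT
  calc ∑ t ∈ (Ico T (2 * T)).filter (fun t => g ∣ P * t - 1), (1 : ℝ) / ((P * t - 1 : ℕ) : ℝ)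
      ≤ ∑ t ∈ (Ico T (2 * T)).filter (fun t => g ∣ P * t - 1), (2 / (P * T) : ℝ) := by
        refine Finset.sum_le_sum fun t ht => ?_
        have htT := (Finset.mem_Ico.1 (Finset.mem_filter.1 ht).1).1
        have h1 : P * T ≤ P * t := Nat.mul_le_mul_left P htT
        have h1r : (P : ℝ) * T ≤ P * t := by exact_mod_cast h1
        have h2 : ((P * t - 1 : ℕ) : ℝ) = (P : ℝ) * t - 1 := by
          rw [Nat.cast_sub (by omega)]
          push_cast
          ring
        rw [h2, div_le_div_iff₀ (by linarith) (by linarith)]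
        linarith
    _ = (((Ico T (2 * T)).filter fun t => g ∣ P * t - 1).card : ℝ) * (2 / (P * T)) := by
        rw [Finset.sum_const, nsmul_eq_mul]
    _ ≤ _ := by
        refine mul_le_mul_of_nonneg_right (card_dvd_le P T g hg (by omega) hT) ?_
        positivity

/-- The contribution of one `g`. -/
theorem contrib_le (P P' T g w B : ℕ) (hP : 2 ≤ P) (hP' : 2 ≤ P') (hT : 1 ≤ T) (hw : 2 ≤ w)
    (hB : B * w ≤ T) (hgw : w < g) (hg : g ≤ 2 * B * T) :
    (g : ℝ) * (((T : ℝ) / g + 1) * (2 / (P * T))) * (((T : ℝ) / g + 1) * (2 / (P' * T))) ≤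
      32 / (w * (P * P')) := by
  have hg0 : (0 : ℝ) < g := by exact_mod_cast (by omega : 0 < g)
  have hT0 : (0 : ℝ) < T := by exact_mod_cast (by omega : 0 < T)
  have hw0 : (0 : ℝ) < w := by exact_mod_cast (by omega : 0 < w)
  have hP0 : (0 : ℝ) < P := by exact_mod_cast (by omega : 0 < P)
  have hP0' : (0 : ℝ) < P' := by exact_mod_cast (by omega : 0 < P')
  have hgw' : (w : ℝ) < g := by exact_mod_cast hgw
  have hg' : (g : ℝ) ≤ 2 * B * T := by exact_mod_cast hg
  have hB' : (B : ℝ) * w ≤ T := by exact_mod_cast hB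
  have key : ((T : ℝ) + g) ^ 2 * w ≤ 8 * (g * T ^ 2) := by
    rcases le_total (g : ℝ) T with h | h
    · have h1 : ((T : ℝ) + g) ^ 2 ≤ (2 * T) ^ 2 := by
        refine pow_le_pow_left₀ (by positivity) (by linarith) 2
      calc ((T : ℝ) + g) ^ 2 * w ≤ (2 * T) ^ 2 * w := mul_le_mul_of_nonneg_right h1 hw0.le
        _ ≤ (2 * T) ^ 2 * g := mul_le_mul_of_nonneg_left hgw'.le (by positivity)
        _ ≤ 8 * (g * T ^ 2) := by nlinarith [mul_pos hg0 (pow_pos hT0 2)]
    · have h1 : ((T : ℝ) + g) ^ 2 ≤ (2 * g) ^ 2 := by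
        refine pow_le_pow_left₀ (by positivity) (by linarith) 2
      calc ((T : ℝ) + g) ^ 2 * w ≤ (2 * g) ^ 2 * w := mul_le_mul_of_nonneg_right h1 hw0.le
        _ = 4 * g * (g * w) := by ring
        _ ≤ 4 * g * (2 * B * T * w) := by
            refine mul_le_mul_of_nonneg_left ?_ (by positivity)
            exact mul_le_mul_of_nonneg_right hg' hw0.le
        _ = 8 * g * T * (B * w) := by ring
        _ ≤ 8 * g * T * T := mul_le_mul_of_nonneg_left hB' (by positivity)
        _ = 8 * (g * T ^ 2) := by ring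
  have e : (g : ℝ) * (((T : ℝ) / g + 1) * (2 / (P * T))) * (((T : ℝ) / g + 1) * (2 / (P' * T))) =
      (((T : ℝ) + g) ^ 2 * w) * 4 / (g * T ^ 2 * (w * (P * P'))) := by
    field_simp
    ring
  rw [e, div_le_div_iff₀ (by positivity) (by positivity)]
  have hpos : (0 : ℝ) < w * (P * P') := by positivity
  nlinarith [mul_le_mul_of_nonneg_right key hpos.le]

end Off

open Classical in
theorem off : StmtOff := by
  intro P P' S S' T w h B hP hP' hPB hPB' hSB hSB' hw hBT hlt hne
  have hB2 : 2 ≤ B := hP.trans hPB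
  have hT1 : 1 ≤ T := by nlinarith
  -- the integer `Δ`
  set Δ : ℤ := (P : ℤ) * P' * ((S' : ℤ) - S) - ((P' : ℤ) - P) with hΔ
  have hPi : (2 : ℤ) ≤ P := by exact_mod_cast hP
  have hPi' : (2 : ℤ) ≤ P' := by exact_mod_cast hP'
  have hPBi : (P : ℤ) ≤ B := by exact_mod_cast hPB
  have hPBi' : (P' : ℤ) ≤ B := by exact_mod_cast hPB'
  have hSBi : (S : ℤ) ≤ B := by exact_mod_cast hSB
  have hSBi' : (S' : ℤ) ≤ B := by exact_mod_cast hSB'
  have hS0 : (0 : ℤ) ≤ S := by positivity
  have hS0' : (0 : ℤ) ≤ S' := by positivity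
  have hΔ0 : Δ ≠ 0 := by
    intro h0
    rcases lt_trichotomy (S : ℤ) S' with hs | hs | hs
    · have h1 : (P : ℤ) * P' * 1 ≤ P * P' * ((S' : ℤ) - S) :=
        mul_le_mul_of_nonneg_left (by omega) (by positivity)
      nlinarith
    · rw [hΔ, hs, sub_self, mul_zero, zero_sub, neg_eq_zero, sub_eq_zero] at h0
      exact hne ⟨(by exact_mod_cast h0.symm), by exact_mod_cast hs⟩
    · have h1 : (P : ℤ) * P' * 1 ≤ P * P' * ((S : ℤ) - S') :=
        mul_le_mul_of_nonneg_left (by omega) (by positivity)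
      nlinarith
  have hΔB : Δ.natAbs ≤ 2 * B ^ 3 := by
    have hB0 : (0 : ℤ) ≤ B := by positivity
    have hPP : (P : ℤ) * P' ≤ B * B := mul_le_mul hPBi hPBi' (by omega) hB0
    have h1 : |(P : ℤ) * P' * ((S' : ℤ) - S)| ≤ B * B * B := by
      rw [abs_mul, abs_of_nonneg (by positivity : (0 : ℤ) ≤ (P : ℤ) * P')]
      refine mul_le_mul hPP ?_ (abs_nonneg _) (by positivity)
      rw [abs_le]
      constructor <;> linarith
    have h2 : |(P' : ℤ) - P| ≤ B := by
      rw [abs_le]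
      constructor <;> linarith
    have h3 : |Δ| ≤ B * B * B + B := (abs_sub _ _).trans (add_le_add h1 h2)
    have h4 : (B : ℤ) ≤ B * B * B := by
      have hB1 : (1 : ℤ) ≤ B := by omega
      nlinarith [mul_le_mul hB1 hB1 (by omega) hB0]
    have h5 : |Δ| ≤ 2 * (B : ℤ) ^ 3 := by
      calc |Δ| ≤ B * B * B + B * B * B := h3.trans (by linarith)
        _ = 2 * (B : ℤ) ^ 3 := by ring
    rw [Int.abs_eq_natAbs] at h5
    exact_mod_cast h5
  set N := Δ.natAbs with hN
  have hN1 : 1 ≤ N := Nat.pos_of_ne_zero (Int.natAbs_ne_zero.2 hΔ0)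
  have hNlt : N < w ^ (h + 1) := lt_of_le_of_lt hΔB hlt
  set D := (N.divisors.filter fun g => Rough w g).filter fun g => 1 < g ∧ g ≤ 2 * B * T with hD
  have hDcard : D.card ≤ 2 ^ h :=
    (Finset.card_le_card (Finset.filter_subset _ _)).trans (rdiv w N h (by omega) hN1 hNlt)
  have hDw : ∀ g ∈ D, w < g := by
    intro g hg
    rw [hD, Finset.mem_filter, Finset.mem_filter] at hg
    obtain ⟨⟨-, hr⟩, hg1, -⟩ := hg
    by_contra hle
    push Not at hle
    obtain ⟨p, hp, hpg⟩ := Nat.exists_prime_and_dvd (by omega : g ≠ 1)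
    exact hr p hp ((Nat.le_of_dvd (by omega) hpg).trans hle) hpg
  -- the summand for one `g`
  let a : ℕ → ℕ → ℝ := fun g t => if g ∣ P * t - 1 then (1 : ℝ) / ((P * t - 1 : ℕ) : ℝ) else 0
  let a' : ℕ → ℕ → ℝ := fun g t => if g ∣ P' * t - 1 then (1 : ℝ) / ((P' * t - 1 : ℕ) : ℝ) else 0
  have ha0 : ∀ g t, 0 ≤ a g t := fun g t => by
    simp only [a]; split_ifs <;> positivity
  have ha0' : ∀ g t, 0 ≤ a' g t := fun g t => by
    simp only [a']; split_ifs <;> positivity
  have hterm : ∀ t ∈ RR w T P, ∀ t' ∈ RR w T P',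
      (if 1 < (P * t - 1).gcd (P' * t' - 1) ∧
      (((P * t - 1).gcd (P' * t' - 1) : ℕ) : ℤ) ∣ ((S' : ℤ) - S) + ((t' : ℤ) - t) then
        (((P * t - 1).gcd (P' * t' - 1) : ℕ) : ℝ) / (((P * t - 1 : ℕ) : ℝ) * ((P' * t' - 1 : ℕ) : ℝ))
        else 0) ≤ ∑ g ∈ D, (g : ℝ) * a g t * a' g t' := by
    intro t ht t' ht'
    have hnn : ∀ g ∈ D, 0 ≤ (g : ℝ) * a g t * a' g t' := fun g _ =>
      mul_nonneg (mul_nonneg (Nat.cast_nonneg g) (ha0 g t)) (ha0' g t')
    split_ifs with hc
    · set g := (P * t - 1).gcd (P' * t' - 1) with hg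
      obtain ⟨hc1, hc2⟩ := hc
      rw [RR, Finset.mem_filter, Finset.mem_Ico] at ht ht'
      obtain ⟨⟨ht1, ht2⟩, htr⟩ := ht
      obtain ⟨⟨ht1', ht2'⟩, -⟩ := ht'
      have hd : g ∣ P * t - 1 := Nat.gcd_dvd_left _ _
      have hd' : g ∣ P' * t' - 1 := Nat.gcd_dvd_right _ _
      have e1 : 1 ≤ P * t := Nat.mul_pos (by omega) (by omega)
      have e1' : 1 ≤ P' * t' := Nat.mul_pos (by omega) (by omega)
      have hdz : (g : ℤ) ∣ (P : ℤ) * t - 1 := by
        have := Int.natCast_dvd_natCast.2 hd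
        rwa [Nat.cast_sub e1, Nat.cast_mul, Nat.cast_one] at this
      have hdz' : (g : ℤ) ∣ (P' : ℤ) * t' - 1 := by
        have := Int.natCast_dvd_natCast.2 hd'
        rwa [Nat.cast_sub e1', Nat.cast_mul, Nat.cast_one] at this
      have hgΔ : (g : ℤ) ∣ Δ := by
        have e : Δ = (P : ℤ) * P' * (((S' : ℤ) - S) + ((t' : ℤ) - t)) -
            P * ((P' : ℤ) * t' - 1) + P' * ((P : ℤ) * t - 1) := by
          rw [hΔ]; ring
        rw [e]
        exact dvd_add (dvd_sub (hc2.mul_left _) (hdz'.mul_left _)) (hdz.mul_left _)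
      have hgN : g ∣ N := Int.natCast_dvd.1 hgΔ
      have hgD : g ∈ D := by
        rw [hD, Finset.mem_filter, Finset.mem_filter, Nat.mem_divisors]
        refine ⟨⟨⟨hgN, by omega⟩, ?_⟩, hc1, ?_⟩
        · intro p hp hpw hpg
          exact htr p hp hpw (hpg.trans hd)
        · have hpos : 0 < P * t - 1 := by
            have : 2 * 1 ≤ P * t := Nat.mul_le_mul hP (by omega)
            omega
          have h1 := Nat.le_of_dvd hpos hd
          have h2 : P * t ≤ B * (2 * T) := Nat.mul_le_mul hPB ht2.le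
          calc g ≤ P * t - 1 := h1
            _ ≤ B * (2 * T) := by omega
            _ = 2 * B * T := by ring
      refine le_trans (le_of_eq ?_) (Finset.single_le_sum hnn hgD)
      simp only [a, a', if_pos hd, if_pos hd']
      rw [div_eq_mul_inv, mul_inv, one_div, one_div]
      ring
    · exact Finset.sum_nonneg hnn
  have hsub : RR w T P ⊆ Ico T (2 * T) := Finset.filter_subset _ _
  have hsub' : RR w T P' ⊆ Ico T (2 * T) := Finset.filter_subset _ _
  have hper : ∀ g ∈ D, ∑ t ∈ RR w T P, ∑ t' ∈ RR w T P', (g : ℝ) * a g t * a' g t' ≤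
      32 / (w * (P * P')) := by
    intro g hg
    have hgw := hDw g hg
    have hg2 : g ≤ 2 * B * T := by
      rw [hD, Finset.mem_filter] at hg
      exact hg.2.2
    have hg0 : 0 < g := by omega
    have e : ∑ t ∈ RR w T P, ∑ t' ∈ RR w T P', (g : ℝ) * a g t * a' g t' =
        (g : ℝ) * (∑ t ∈ RR w T P, a g t) * (∑ t' ∈ RR w T P', a' g t') := by
      rw [mul_assoc, Finset.sum_mul, Finset.mul_sum]
      refine Finset.sum_congr rfl fun t _ => ?_
      rw [← mul_assoc, Finset.mul_sum]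
    rw [e]
    have s1 : ∑ t ∈ RR w T P, a g t ≤ ((T : ℝ) / g + 1) * (2 / (P * T)) :=
      (Finset.sum_le_sum_of_subset_of_nonneg hsub fun t _ _ => ha0 g t).trans
        (Off.sum_dvd_le P T g hg0 hP hT1)
    have s2 : ∑ t ∈ RR w T P', a' g t ≤ ((T : ℝ) / g + 1) * (2 / (P' * T)) :=
      (Finset.sum_le_sum_of_subset_of_nonneg hsub' fun t _ _ => ha0' g t).trans
        (Off.sum_dvd_le P' T g hg0 hP' hT1)
    refine le_trans ?_ (Off.contrib_le P P' T g w B hP hP' hT1 hw hBT hgw hg2)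
    have n1 : 0 ≤ ∑ t ∈ RR w T P, a g t := Finset.sum_nonneg fun t _ => ha0 g t
    have n2 : 0 ≤ ∑ t ∈ RR w T P', a' g t := Finset.sum_nonneg fun t _ => ha0' g t
    exact mul_le_mul (mul_le_mul_of_nonneg_left s1 (Nat.cast_nonneg g)) s2 n2 (by positivity)
  calc _ ≤ ∑ t ∈ RR w T P, ∑ t' ∈ RR w T P', ∑ g ∈ D, (g : ℝ) * a g t * a' g t' :=
        Finset.sum_le_sum fun t ht => Finset.sum_le_sum fun t' ht' => hterm t ht t' ht'
    _ = ∑ g ∈ D, ∑ t ∈ RR w T P, ∑ t' ∈ RR w T P', (g : ℝ) * a g t * a' g t' := by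
        rw [Finset.sum_comm' (s := D) (t := fun _ => RR w T P) (t' := RR w T P)
          (s' := fun _ => D) (by intros; tauto)]
        refine Finset.sum_congr rfl fun t _ => ?_
        rw [Finset.sum_comm]
    _ ≤ ∑ _g ∈ D, 32 / ((w : ℝ) * (P * P')) := Finset.sum_le_sum hper
    _ = D.card * (32 / ((w : ℝ) * (P * P'))) := by rw [Finset.sum_const, nsmul_eq_mul]
    _ ≤ 2 ^ h * (32 / ((w : ℝ) * (P * P'))) := by
        refine mul_le_mul_of_nonneg_right ?_ (by positivity)
        exact_mod_cast hDcard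
    _ = 32 * 2 ^ h / (w * (P * P')) := by ring

end Pool.Agent.Lib.MP_85a137_nt
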