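import Pool.Agent.Lib.MP_85a137_nt.Spec2
import Pool.Agent.Lib.MP_85a137_nt.Off

/-!
MP_85a137_nt: the moment computation for the stronger theorem.
-/

set_option autoImplicit false

namespace Pool.Agent.Lib.MP_85a137_nt

namespace Mom2M

open Finset

/-- the summand of the double sums -/
noncomputable def FF (P S t P' S' t' : ℕ) : ℝ := by
  classical
  exact if 1 < (P * t - 1).gcd (P' * t' - 1) ∧
      (((P * t - 1).gcd (P' * t' - 1) : ℕ) : ℤ) ∣ ((S' : ℤ) - S) + ((t' : ℤ) - t) then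
        (((P * t - 1).gcd (P' * t' - 1) : ℕ) : ℝ) /
          (((P * t - 1 : ℕ) : ℝ) * ((P' * t' - 1 : ℕ) : ℝ)) else 0

lemma FF_nonneg (P S t P' S' t' : ℕ) : 0 ≤ FF P S t P' S' t' := by
  unfold FF
  split_ifs
  · positivity
  · exact le_rfl

/-- diagonal sums over subsets -/
lemma diag_sub (hD : StmtDiag) {P T w S : ℕ} (hP : 2 ≤ P) (hT : 2 ≤ T) (U : Finset ℕ)
    (hU : U ⊆ RR w T P) :
    ∑ t ∈ U, ∑ t' ∈ U, FF P S t P S t' ≤ (∑ t ∈ U, (1 : ℝ) / ((P * t - 1 : ℕ) : ℝ)) +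
      16 * (1 + Real.log T) / (P : ℝ) ^ 2 := by
  classical
  have hfull : ∑ t ∈ RR w T P, ∑ t' ∈ RR w T P, FF P S t P S t' ≤
      (∑ t ∈ RR w T P, (1 : ℝ) / ((P * t - 1 : ℕ) : ℝ)) + 16 * (1 + Real.log T) / (P : ℝ) ^ 2 := by
    refine le_trans (le_of_eq ?_) (hD P T w hP (by omega))
    refine Finset.sum_congr rfl fun t _ => Finset.sum_congr rfl fun t' _ => ?_
    unfold FF
    simp only [sub_self, zero_add]
  have hd : ∀ t ∈ RR w T P, FF P S t P S t = (1 : ℝ) / ((P * t - 1 : ℕ) : ℝ) := by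
    intro t ht
    rw [RR, mem_filter, mem_Ico] at ht
    have h1 : 2 * 2 ≤ P * t := Nat.mul_le_mul hP (le_trans hT ht.1.1)
    have h2 : 1 < P * t - 1 := by omega
    unfold FF
    rw [Nat.gcd_self, if_pos ⟨h2, by simp⟩]
    have h3 : ((P * t - 1 : ℕ) : ℝ) ≠ 0 := by exact_mod_cast (by omega : P * t - 1 ≠ 0)
    rw [div_mul_eq_div_div, div_self h3]
  have hsplit : ∀ V ⊆ RR w T P, ∑ t ∈ V, ∑ t' ∈ V, FF P S t P S t' =
      (∑ t ∈ V, (1 : ℝ) / ((P * t - 1 : ℕ) : ℝ)) +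
        ∑ t ∈ V, ∑ t' ∈ V.erase t, FF P S t P S t' := by
    intro V hV
    rw [← Finset.sum_add_distrib]
    refine Finset.sum_congr rfl fun t ht => ?_
    rw [← Finset.add_sum_erase V _ ht, hd t (hV ht)]
  rw [hsplit U hU]
  rw [hsplit _ (Finset.Subset.refl _)] at hfull
  have hle : ∑ t ∈ U, ∑ t' ∈ U.erase t, FF P S t P S t' ≤
      ∑ t ∈ RR w T P, ∑ t' ∈ (RR w T P).erase t, FF P S t P S t' := by
    refine le_trans (Finset.sum_le_sum fun t _ => ?_)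
      (Finset.sum_le_sum_of_subset_of_nonneg hU fun t _ _ =>
        Finset.sum_nonneg fun t' _ => FF_nonneg _ _ _ _ _ _)
    exact Finset.sum_le_sum_of_subset_of_nonneg (Finset.erase_subset_erase _ hU)
      fun t' _ _ => FF_nonneg _ _ _ _ _ _
  linarith

/-- the double sum over subfamilies -/
lemma pairs (hO : StmtOff) (hD : StmtDiag) {n T w B h : ℕ} {δ : ℝ} (C : Finset (Cf n))
    (hw : 2 ≤ w) (hT : 2 ≤ T) (hBw : B * w ≤ T) (hBh : 2 * B ^ 3 < w ^ (h + 1))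
    (hC : ∀ γ ∈ C, 2 ≤ PP γ ∧ PP γ ≤ B ∧ SS γ ≤ B ∧ 16 * (1 + Real.log T) / PP γ ≤ δ)
    (hI : ∀ γ ∈ C, ∀ γ' ∈ C, PP γ = PP γ' → SS γ = SS γ' → γ = γ')
    (U : Cf n → Finset ℕ) (hU : ∀ γ ∈ C, U γ ⊆ RR w T (PP γ)) :
    ∑ γ ∈ C, ∑ γ' ∈ C, ∑ t ∈ U γ, ∑ t' ∈ U γ', FF (PP γ) (SS γ) t (PP γ') (SS γ') t' ≤
      (∑ γ ∈ C, ∑ t ∈ U γ, (1 : ℝ) / ((PP γ * t - 1 : ℕ) : ℝ)) +
        δ * (∑ γ ∈ C, (1 : ℝ) / PP γ) + 32 * 2 ^ h / w * (∑ γ ∈ C, (1 : ℝ) / PP γ) ^ 2 := by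
  classical
  have hwpos : (0 : ℝ) < w := by exact_mod_cast (by omega : 0 < w)
  have hPpos : ∀ γ ∈ C, (0 : ℝ) < PP γ := fun γ hγ => by
    have := (hC γ hγ).1
    exact_mod_cast (by omega : 0 < PP γ)
  set A : ℝ := ∑ γ ∈ C, (1 : ℝ) / PP γ with hA
  have hpair : ∀ γ ∈ C, ∀ γ' ∈ C,
      ∑ t ∈ U γ, ∑ t' ∈ U γ', FF (PP γ) (SS γ) t (PP γ') (SS γ') t' ≤
      (if γ' = γ then (∑ t ∈ U γ, (1 : ℝ) / ((PP γ * t - 1 : ℕ) : ℝ)) + δ * (1 / PP γ) else 0) +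
        32 * 2 ^ h / w * (1 / PP γ * (1 / PP γ')) := by
    intro γ hγ γ' hγ'
    have hP := hPpos γ hγ
    have hP' := hPpos γ' hγ'
    obtain ⟨h2, hB, hSB, hδ⟩ := hC γ hγ
    obtain ⟨h2', hB', hSB', hδ'⟩ := hC γ' hγ'
    by_cases hg : γ' = γ
    · subst hg
      rw [if_pos rfl]
      refine (diag_sub hD h2' hT (U γ') (hU γ' hγ')).trans ?_
      have h5 : 16 * (1 + Real.log T) / (PP γ' : ℝ) ^ 2 ≤ δ * (1 / PP γ') := by
        calc 16 * (1 + Real.log T) / (PP γ' : ℝ) ^ 2 =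
            16 * (1 + Real.log T) / PP γ' * (1 / PP γ') := by field_simp
          _ ≤ δ * (1 / PP γ') := mul_le_mul_of_nonneg_right hδ' (by positivity)
      have h12 : (0 : ℝ) ≤ 32 * 2 ^ h / w * (1 / PP γ' * (1 / PP γ')) := by positivity
      linarith
    · rw [if_neg hg, zero_add]
      have hne : ¬ (PP γ = PP γ' ∧ SS γ = SS γ') := fun h => hg (hI γ hγ γ' hγ' h.1 h.2).symm
      have h3 := hO (PP γ) (PP γ') (SS γ) (SS γ') T w h B h2 h2' hB hB' hSB hSB' hw hBw hBh hne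
      have h4 : ∑ t ∈ U γ, ∑ t' ∈ U γ', FF (PP γ) (SS γ) t (PP γ') (SS γ') t' ≤
          ∑ t ∈ RR w T (PP γ), ∑ t' ∈ RR w T (PP γ'), FF (PP γ) (SS γ) t (PP γ') (SS γ') t' := by
        refine le_trans (Finset.sum_le_sum fun t _ => ?_)
          (Finset.sum_le_sum_of_subset_of_nonneg (hU γ hγ) fun t _ _ =>
            Finset.sum_nonneg fun t' _ => FF_nonneg _ _ _ _ _ _)
        exact Finset.sum_le_sum_of_subset_of_nonneg (hU γ' hγ') fun t' _ _ => FF_nonneg _ _ _ _ _ _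
      refine h4.trans ((le_of_eq ?_).trans (h3.trans (le_of_eq ?_)))
      · rfl
      · field_simp
  have h3 : ∑ γ ∈ C, ∑ γ' ∈ C, ∑ t ∈ U γ, ∑ t' ∈ U γ', FF (PP γ) (SS γ) t (PP γ') (SS γ') t' ≤
      ∑ γ ∈ C, ∑ γ' ∈ C,
      ((if γ' = γ then (∑ t ∈ U γ, (1 : ℝ) / ((PP γ * t - 1 : ℕ) : ℝ)) + δ * (1 / PP γ) else 0) +
        32 * 2 ^ h / w * (1 / PP γ * (1 / PP γ'))) :=
    Finset.sum_le_sum fun γ hγ => Finset.sum_le_sum fun γ' hγ' => hpair γ hγ γ' hγ'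
  refine h3.trans (le_of_eq ?_)
  have h5 : ∀ γ ∈ C, ∑ γ' ∈ C,
      ((if γ' = γ then (∑ t ∈ U γ, (1 : ℝ) / ((PP γ * t - 1 : ℕ) : ℝ)) + δ * (1 / PP γ) else 0) +
        32 * 2 ^ h / w * (1 / PP γ * (1 / PP γ'))) =
      ((∑ t ∈ U γ, (1 : ℝ) / ((PP γ * t - 1 : ℕ) : ℝ)) + δ * (1 / PP γ)) +
        32 * 2 ^ h / w * (1 / PP γ * A) := by
    intro γ hγ
    rw [Finset.sum_add_distrib, Finset.sum_ite_eq', if_pos hγ, ← Finset.mul_sum, ← Finset.mul_sum]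
  rw [Finset.sum_congr rfl h5, Finset.sum_add_distrib, Finset.sum_add_distrib, ← Finset.mul_sum,
    ← Finset.mul_sum, ← Finset.sum_mul, ← hA]
  ring

/-! ### Numbers -/

/-- the constant with `M_c ≥ A / KK` -/
def KK (v : ℕ) : ℕ := 4 * (v ^ 17) ^ 10 * 2 ^ (15 * v ^ 5)

lemma KK_le (v : ℕ) : KK v ≤ 2 ^ (2 + 170 * v + 15 * v ^ 5) := by
  unfold KK
  have h1 : v ≤ 2 ^ v := Nat.lt_two_pow_self.le
  have h2 : (v ^ 17) ^ 10 ≤ 2 ^ (170 * v) := by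
    have h0 : 2 ^ (170 * v) = (2 ^ v) ^ (17 * 10) := by rw [← pow_mul, mul_comm]
    rw [h0, ← pow_mul]
    exact Nat.pow_le_pow_left h1 _
  calc 4 * (v ^ 17) ^ 10 * 2 ^ (15 * v ^ 5) ≤ 4 * 2 ^ (170 * v) * 2 ^ (15 * v ^ 5) :=
        Nat.mul_le_mul_right _ (Nat.mul_le_mul_left _ h2)
    _ = 2 ^ (2 + 170 * v + 15 * v ^ 5) := by ring

lemma KK_pos {v : ℕ} (hv : 1 ≤ v) : 0 < KK v := by
  unfold KK; positivity

lemma num_le {v : ℕ} (hv : 72 ≤ v) : v ≤ v ^ 5 ∧ v ^ 4 ≤ v ^ 5 ∧ 1 ≤ v ^ 5 ∧ 72 * v ^ 5 ≤ v ^ 6 ∧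
    v ^ 6 ≤ v ^ 17 ∧ 72 * v ^ 6 ≤ v ^ 7 ∧ 72 * v ^ 7 ≤ v ^ 8 ∧ v ^ 8 ≤ v ^ 17 ∧ v ^ 17 ≤ v ^ 18 := by
  have h1 : 1 ≤ v := by omega
  refine ⟨?_, ?_, ?_, ?_, ?_, ?_, ?_, ?_, ?_⟩
  · calc v = v ^ 1 := (pow_one v).symm
      _ ≤ v ^ 5 := Nat.pow_le_pow_right h1 (by norm_num)
  · exact Nat.pow_le_pow_right h1 (by norm_num)
  · exact Nat.one_le_pow _ _ h1
  · calc 72 * v ^ 5 ≤ v * v ^ 5 := Nat.mul_le_mul_right _ hv
      _ = v ^ 6 := by ring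
  · exact Nat.pow_le_pow_right h1 (by norm_num)
  · calc 72 * v ^ 6 ≤ v * v ^ 6 := Nat.mul_le_mul_right _ hv
      _ = v ^ 7 := by ring
  · calc 72 * v ^ 7 ≤ v * v ^ 7 := Nat.mul_le_mul_right _ hv
      _ = v ^ 8 := by ring
  · exact Nat.pow_le_pow_right h1 (by norm_num)
  · exact Nat.pow_le_pow_right h1 (by norm_num)

/-- colouring -/
lemma N2 {v R : ℕ} (hv : 72 ≤ v) (hR : R ≤ 2 ^ (v ^ 4)) :
    480 * v * (v ^ 17) ^ 10 * R ^ (2 * (15 * v) + 1) < 2 ^ (v ^ 17) := by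
  obtain ⟨h1, h2, h3, h4, h5, h6, h7, h8, h9⟩ := num_le hv
  have hv2 : v ≤ 2 ^ v := Nat.lt_two_pow_self.le
  have e1 : (v ^ 17) ^ 10 ≤ 2 ^ (170 * v) := by
    have h0 : 2 ^ (170 * v) = (2 ^ v) ^ (17 * 10) := by rw [← pow_mul, mul_comm]
    rw [h0, ← pow_mul]
    exact Nat.pow_le_pow_left hv2 _
  have e2 : R ^ (2 * (15 * v) + 1) ≤ 2 ^ (v ^ 4 * (2 * (15 * v) + 1)) := by
    rw [pow_mul]
    exact Nat.pow_le_pow_left hR _
  have e3 : v ^ 4 * (2 * (15 * v) + 1) = 30 * v ^ 5 + v ^ 4 := by ring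
  rw [e3] at e2
  calc 480 * v * (v ^ 17) ^ 10 * R ^ (2 * (15 * v) + 1) ≤
      2 ^ 9 * 2 ^ v * 2 ^ (170 * v) * 2 ^ (30 * v ^ 5 + v ^ 4) := by
        apply Nat.mul_le_mul _ e2
        apply Nat.mul_le_mul _ e1
        apply Nat.mul_le_mul _ hv2
        norm_num
    _ = 2 ^ (9 + v + 170 * v + (30 * v ^ 5 + v ^ 4)) := by ring
    _ < 2 ^ (v ^ 17) := by
        apply Nat.pow_lt_pow_right (by norm_num)
        omega

lemma N3 {v n : ℕ} (hn : 2 * (188 * v ^ 5) ≤ n) (hv : 72 ≤ v) :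
    2 * 2 ^ (n / 2) * KK v ≤ 2 ^ n := by
  obtain ⟨h1, h2, h3, h4, h5, h6, h7, h8, h9⟩ := num_le hv
  calc 2 * 2 ^ (n / 2) * KK v ≤ 2 ^ 1 * 2 ^ (n / 2) * 2 ^ (2 + 170 * v + 15 * v ^ 5) :=
        Nat.mul_le_mul (by norm_num) (KK_le v)
    _ = 2 ^ (1 + n / 2 + (2 + 170 * v + 15 * v ^ 5)) := by ring
    _ ≤ 2 ^ n := by
        apply Nat.pow_le_pow_right (by norm_num)
        omega

lemma N4 {v n : ℕ} (hn : n ≤ v ^ 6) (hv : 72 ≤ v) :
    32 * 2 ^ (18 * v) * (4 * 2 ^ (n / 2)) * KK v ^ 2 ≤ 2 ^ (v ^ 17) := by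
  obtain ⟨h1, h2, h3, h4, h5, h6, h7, h8, h9⟩ := num_le hv
  have e1 : KK v ^ 2 ≤ (2 ^ (2 + 170 * v + 15 * v ^ 5)) ^ 2 := Nat.pow_le_pow_left (KK_le v) 2
  rw [← pow_mul] at e1
  calc 32 * 2 ^ (18 * v) * (4 * 2 ^ (n / 2)) * KK v ^ 2 ≤
      2 ^ 5 * 2 ^ (18 * v) * (2 ^ 2 * 2 ^ (n / 2)) * 2 ^ ((2 + 170 * v + 15 * v ^ 5) * 2) :=
        Nat.mul_le_mul (by norm_num) e1
    _ = 2 ^ (5 + 18 * v + (2 + n / 2) + (2 + 170 * v + 15 * v ^ 5) * 2) := by ring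
    _ ≤ 2 ^ (v ^ 17) := by
        apply Nat.pow_le_pow_right (by norm_num)
        omega

lemma N5 {v : ℕ} (hv : 72 ≤ v) :
    32 * (1 + 8 * (v ^ 6) ^ 3) * KK v ≤ 2 ^ (3 * v ^ 6) := by
  obtain ⟨h1, h2, h3, h4, h5, h6, h7, h8, h9⟩ := num_le hv
  have hv2 : v ≤ 2 ^ v := Nat.lt_two_pow_self.le
  have e1 : (v ^ 6) ^ 3 ≤ 2 ^ (18 * v) := by
    have h0 : 2 ^ (18 * v) = (2 ^ v) ^ (6 * 3) := by rw [← pow_mul, mul_comm]
    rw [h0, ← pow_mul]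
    exact Nat.pow_le_pow_left hv2 _
  have e2 : 32 * (1 + 8 * (v ^ 6) ^ 3) ≤ 2 ^ 9 * 2 ^ (18 * v) := by
    have : 1 ≤ 2 ^ (18 * v) := Nat.one_le_two_pow
    omega
  calc 32 * (1 + 8 * (v ^ 6) ^ 3) * KK v ≤ 2 ^ 9 * 2 ^ (18 * v) * 2 ^ (2 + 170 * v + 15 * v ^ 5) :=
        Nat.mul_le_mul e2 (KK_le v)
    _ = 2 ^ (9 + 18 * v + (2 + 170 * v + 15 * v ^ 5)) := by ring
    _ ≤ 2 ^ (3 * v ^ 6) := by
        apply Nat.pow_le_pow_right (by norm_num)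
        omega

lemma N6 {v : ℕ} (hv : 72 ≤ v) :
    (2 * (2 ^ (8 * (v ^ 6) ^ 3) * 2 ^ (6 * (v ^ 6) ^ 3) * KK v)) ^ 2 ≤ 2 ^ (31 * (v ^ 6) ^ 3) := by
  obtain ⟨h1, h2, h3, h4, h5, h6, h7, h8, h9⟩ := num_le hv
  have e0 : (v ^ 6) ^ 3 = v ^ 18 := by ring
  rw [e0]
  calc (2 * (2 ^ (8 * v ^ 18) * 2 ^ (6 * v ^ 18) * KK v)) ^ 2 ≤
      (2 ^ 1 * (2 ^ (8 * v ^ 18) * 2 ^ (6 * v ^ 18) * 2 ^ (2 + 170 * v + 15 * v ^ 5))) ^ 2 := by
        apply Nat.pow_le_pow_left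
        apply Nat.mul_le_mul (by norm_num)
        exact Nat.mul_le_mul_left _ (KK_le v)
    _ = 2 ^ ((1 + (8 * v ^ 18 + 6 * v ^ 18 + (2 + 170 * v + 15 * v ^ 5))) * 2) := by
        rw [← pow_add, ← pow_add, ← pow_add, ← pow_mul]
    _ ≤ 2 ^ (31 * v ^ 18) := by
        apply Nat.pow_le_pow_right (by norm_num)
        omega

lemma N8a {v : ℕ} (hv : 72 ≤ v) :
    2 ^ (6 * (v ^ 6) ^ 3) * 2 ^ (v ^ 17) ≤ 2 ^ (8 * (v ^ 6) ^ 3) := by
  obtain ⟨h1, h2, h3, h4, h5, h6, h7, h8, h9⟩ := num_le hv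
  have e0 : (v ^ 6) ^ 3 = v ^ 18 := by ring
  rw [e0, ← pow_add]
  apply Nat.pow_le_pow_right (by norm_num)
  omega

lemma N8b {v : ℕ} (hv : 72 ≤ v) :
    2 * (2 ^ (6 * (v ^ 6) ^ 3)) ^ 3 < (2 ^ (v ^ 17)) ^ (18 * v + 1) := by
  have e0 : (v ^ 6) ^ 3 = v ^ 18 := by ring
  rw [e0, ← pow_mul, ← pow_mul, ← pow_succ']
  apply Nat.pow_lt_pow_right (by norm_num)
  have h5 : v ^ 17 * (18 * v + 1) = 18 * v ^ 18 + v ^ 17 := by ring
  have h6 : v ^ 1 < v ^ 17 := Nat.pow_lt_pow_right (by omega) (by norm_num)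
  rw [pow_one] at h6
  rw [h5]
  omega

/-- Brun's sieve is applicable -/
lemma N1 (J₀ : ℕ) : ∃ v₀ : ℕ, ∀ v : ℕ, v₀ ≤ v → J₀ ≤ v ^ 17 ∧
    2 ^ (100 * v ^ 17 * (Nat.log 2 (v ^ 17) + 1)) ≤ 2 ^ (8 * (v ^ 6) ^ 3) := by
  have h1 := Real.isLittleO_log_id_atTop.bound (show (0 : ℝ) < 1 / 1000 by norm_num)
  rw [Filter.eventually_atTop] at h1
  obtain ⟨a, ha⟩ := h1
  obtain ⟨N, hN⟩ := exists_nat_ge a
  refine ⟨max N (max J₀ 100), fun v hv => ?_⟩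
  have hvN : N ≤ v := le_trans (le_max_left _ _) hv
  have hvJ : J₀ ≤ v := le_trans (le_trans (le_max_left _ _) (le_max_right _ _)) hv
  have hv100 : 100 ≤ v := le_trans (le_trans (le_max_right _ _) (le_max_right _ _)) hv
  constructor
  · calc J₀ ≤ v := hvJ
      _ = v ^ 1 := (pow_one v).symm
      _ ≤ v ^ 17 := Nat.pow_le_pow_right (by omega) (by norm_num)
  · apply Nat.pow_le_pow_right (by norm_num)
    have h2 := ha v (le_trans hN (by exact_mod_cast hvN))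
    simp only [id_eq, Real.norm_eq_abs] at h2
    have hvr : (100 : ℝ) ≤ v := by exact_mod_cast hv100
    have hlog0 : 0 ≤ Real.log v := Real.log_nonneg (by linarith)
    rw [abs_of_nonneg hlog0, abs_of_nonneg (by linarith)] at h2
    have h3 : (Nat.log 2 (v ^ 17) : ℝ) ≤ Real.logb 2 ((v ^ 17 : ℕ) : ℝ) := by
      have h4 := Real.natLog_le_logb (v ^ 17) 2
      exact_mod_cast h4
    have h5 : Real.logb 2 ((v ^ 17 : ℕ) : ℝ) ≤ 34 * Real.log v := by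
      rw [Real.logb]
      push_cast
      rw [Real.log_pow, div_le_iff₀ (Real.log_pos (by norm_num))]
      have h6 : (1 : ℝ) / 2 ≤ Real.log 2 := by
        have := Real.log_two_gt_d9
        linarith
      push_cast
      nlinarith
    have h7 : (Nat.log 2 (v ^ 17) : ℝ) + 1 ≤ 2 / 25 * v := by linarith
    have h8 : 25 * (Nat.log 2 (v ^ 17) + 1) ≤ 2 * v := by
      have : (25 : ℝ) * ((Nat.log 2 (v ^ 17) : ℝ) + 1) ≤ 2 * v := by linarith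
      exact_mod_cast this
    calc 100 * v ^ 17 * (Nat.log 2 (v ^ 17) + 1) = 4 * v ^ 17 * (25 * (Nat.log 2 (v ^ 17) + 1)) := by
          ring
      _ ≤ 4 * v ^ 17 * (2 * v) := Nat.mul_le_mul_left _ h8
      _ = 8 * (v ^ 6) ^ 3 := by ring

/-! ### The index set -/

open Classical in
/-- the index set -/
noncomputable def mI (m n w T : ℕ) : Finset (Cf n × ℕ) :=
  (cfg m n ×ˢ Ico T (2 * T)).filter fun i => Rough w (PP i.1 * i.2 - 1)

open Classical in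
lemma mI_filter_sum (m n w T : ℕ) (p : Cf n × ℕ → Prop) [DecidablePred p] (f : Cf n × ℕ → ℝ) :
    ∑ i ∈ (mI m n w T).filter p, f i =
      ∑ γ ∈ cfg m n, ∑ t ∈ (RR w T (PP γ)).filter (fun t => p (γ, t)), f (γ, t) := by
  unfold mI RR
  rw [Finset.filter_filter, Finset.sum_filter, Finset.sum_product]
  refine Finset.sum_congr rfl fun γ _ => ?_
  rw [Finset.filter_filter, Finset.sum_filter]

open Classical in
lemma mI_sum (m n w T : ℕ) (f : Cf n × ℕ → ℝ) :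
    ∑ i ∈ mI m n w T, f i = ∑ γ ∈ cfg m n, ∑ t ∈ RR w T (PP γ), f (γ, t) := by
  unfold mI RR
  rw [Finset.sum_filter, Finset.sum_product]
  refine Finset.sum_congr rfl fun γ _ => ?_
  rw [Finset.sum_filter]

/-- the number of prime factors of a rough number -/
lemma card_primeFactors_le {w N a : ℕ} (hw : 2 ≤ w) (hN : 1 ≤ N) (h : Rough w N)
    (hlt : N < w ^ a) : N.primeFactors.card ≤ a := by
  have h1 : w ^ N.primeFactors.card ≤ ∏ p ∈ N.primeFactors, p := by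
    refine Finset.pow_card_le_prod _ _ _ fun p hp => ?_
    rw [Nat.mem_primeFactors] at hp
    by_contra hn
    exact h p hp.1 (by omega) hp.2.1
  have h2 : ∏ p ∈ N.primeFactors, p ≤ N := Nat.le_of_dvd hN (Nat.prod_primeFactors_dvd N)
  have h3 : w ^ N.primeFactors.card < w ^ a := lt_of_le_of_lt (h1.trans h2) hlt
  exact ((Nat.pow_lt_pow_iff_right (by omega)).mp h3).le

end Mom2M

open Finset Mom2M

open Classical in
theorem mom2 (hZ : StmtSize) (hB : StmtBrunG) (hO : StmtOff) (hD : StmtDiag) (hI : StmtInj)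
    (hC : StmtColor) (hG : StmtGroup) : StmtMom2 := by
  obtain ⟨J₀, hB⟩ := hB
  intro c hc
  obtain ⟨v₁, hv₁⟩ := N1 J₀
  obtain ⟨v₂, hv₂⟩ := exists_nat_ge (376 / c)
  refine ⟨max v₁ (max v₂ 72), fun v n R X hv hcn hnm hR1 hR hA => ?_⟩
  have hvv₁ : v₁ ≤ v := le_trans (le_max_left _ _) hv
  have hvv₂ : v₂ ≤ v := le_trans (le_trans (le_max_left _ _) (le_max_right _ _)) hv
  have hv72 : 72 ≤ v := le_trans (le_trans (le_max_right _ _) (le_max_right _ _)) hv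
  obtain ⟨hJ, hTJ⟩ := hv₁ v hvv₁
  have hv1 : 1 ≤ v := by omega
  have hvr : (1 : ℝ) ≤ v := by exact_mod_cast hv1
  -- `n` is large
  have hn376 : 2 * (188 * v ^ 5) ≤ n := by
    have h1 : 376 ≤ c * v := by
      have h2 : 376 / c ≤ v := hv₂.trans (by exact_mod_cast hvv₂)
      rw [div_le_iff₀ hc] at h2
      linarith
    have h3 : (2 : ℝ) * (188 * (v : ℝ) ^ 5) ≤ n := by
      refine le_trans ?_ hcn
      calc (2 : ℝ) * (188 * (v : ℝ) ^ 5) = 376 * (v : ℝ) ^ 5 := by ring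
        _ ≤ c * v * (v : ℝ) ^ 5 := mul_le_mul_of_nonneg_right h1 (by positivity)
        _ = c * (v : ℝ) ^ 6 := by ring
    exact_mod_cast h3
  have hv5 : 1 ≤ v ^ 5 := Nat.one_le_pow _ _ hv1
  have hn1 : 1 ≤ n := by omega
  have hm1 : 1 ≤ v ^ 6 := Nat.one_le_pow _ _ hv1
  have hsz := hZ (v ^ 6) n hm1 hn1 hnm
  have hinj := hI (v ^ 6) n hm1
  set w : ℕ := 2 ^ (v ^ 17) with hw
  set T : ℕ := 2 ^ (8 * (v ^ 6) ^ 3) with hT
  set B : ℕ := 2 ^ (6 * (v ^ 6) ^ 3) with hBdef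
  set A : ℝ := ∑ γ ∈ cfg (v ^ 6) n, (1 : ℝ) / PP γ with hAdef
  have hA1 : (1 : ℝ) ≤ A := le_trans (one_le_pow₀ (by norm_num)) hA
  have hApos : 0 < A := by linarith
  have hw2 : 2 ≤ w := by
    rw [hw]
    calc 2 = 2 ^ 1 := by norm_num
      _ ≤ 2 ^ (v ^ 17) := Nat.pow_le_pow_right (by norm_num) (Nat.one_le_pow _ _ hv1)
  have hwpos : (0 : ℝ) < w := by exact_mod_cast (by omega : 0 < w)
  have hBw : B * w ≤ T := N8a hv72
  have hB1 : 1 ≤ B := Nat.one_le_two_pow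
  have hwT : w ≤ T := le_trans (by nlinarith) hBw
  have hT2 : 2 ≤ T := le_trans hw2 hwT
  have hT1 : 1 ≤ T := by omega
  have hTpos : (0 : ℝ) < T := by exact_mod_cast (by omega : 0 < T)
  have hP2 : ∀ γ ∈ cfg (v ^ 6) n, 2 ≤ PP γ := by
    intro γ hγ
    refine le_trans ?_ (hsz γ hγ).1
    calc 2 = 2 ^ 1 := by norm_num
      _ ≤ 2 ^ (3 * v ^ 6) := Nat.pow_le_pow_right (by norm_num) (by omega)
  have hPpos : ∀ γ ∈ cfg (v ^ 6) n, (0 : ℝ) < PP γ := fun γ hγ => by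
    have := hP2 γ hγ
    exact_mod_cast (by omega : 0 < PP γ)
  -- the moduli
  set q : Cf n × ℕ → ℕ := fun i => PP i.1 * i.2 - 1 with hq
  set r : Cf n × ℕ → ℤ := fun i => ((n : ℤ) + 2) - SS i.1 - i.2 with hr
  set I := mI (v ^ 6) n w T with hIdef
  have hmemI : ∀ i ∈ I, i.1 ∈ cfg (v ^ 6) n ∧ T ≤ i.2 ∧ i.2 < 2 * T ∧ Rough w (q i) := by
    intro i hi
    rw [hIdef, mI, mem_filter, mem_product, mem_Ico] at hi
    exact ⟨hi.1.1, hi.1.2.1, hi.1.2.2, hi.2⟩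
  have hPt : ∀ γ ∈ cfg (v ^ 6) n, ∀ t, T ≤ t → 4 ≤ PP γ * t ∧ PP γ * T ≤ PP γ * t := by
    intro γ hγ t ht
    refine ⟨?_, Nat.mul_le_mul_left _ ht⟩
    calc 4 = 2 * 2 := by norm_num
      _ ≤ PP γ * t := Nat.mul_le_mul (hP2 γ hγ) (le_trans hT2 ht)
  have hq1 : ∀ i ∈ I, 1 ≤ q i := by
    intro i hi
    obtain ⟨h1, h3, _, _⟩ := hmemI i hi
    have h4 := hPt i.1 h1 i.2 h3
    rw [hq]
    dsimp only
    omega
  have hqpos : ∀ i ∈ I, (0 : ℝ) < q i := fun i hi => by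
    have := hq1 i hi
    exact_mod_cast (by omega : 0 < q i)
  have hRRmem : ∀ P, ∀ t ∈ RR w T P, T ≤ t ∧ t < 2 * T := by
    intro P t ht
    rw [RR, mem_filter, mem_Ico] at ht
    exact ht.1
  -- lower bound for `M`
  set M : ℝ := ∑ i ∈ I, (1 : ℝ) / q i with hM
  have hMlow : A / (2 * ((v ^ 17 : ℕ) : ℝ) ^ 10) ≤ M := by
    rw [hM, hIdef, mI_sum, hAdef, Finset.sum_div]
    apply Finset.sum_le_sum
    intro γ hγ
    have hP := hPpos γ hγ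
    have h3 : ∀ t ∈ RR w T (PP γ), (1 : ℝ) / (PP γ * (2 * T)) ≤ (1 : ℝ) / (q (γ, t)) := by
      intro t ht
      obtain ⟨h4, h5⟩ := hRRmem _ t ht
      have h6 := hPt γ hγ t h4
      have h7 : 0 < PP γ * t - 1 := by omega
      apply one_div_le_one_div_of_le (by exact_mod_cast h7)
      have h8 : PP γ * t - 1 ≤ PP γ * (2 * T) :=
        le_trans (Nat.sub_le _ _) (Nat.mul_le_mul_left _ h5.le)
      exact_mod_cast h8
    have h4 := Finset.card_nsmul_le_sum _ _ _ h3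
    rw [nsmul_eq_mul] at h4
    refine le_trans ?_ h4
    have h5 := hB (v ^ 17) (PP γ) T hJ (le_trans (by norm_num) (hP2 γ hγ)) hTJ
    have hv17 : (0 : ℝ) < ((v ^ 17 : ℕ) : ℝ) := by positivity
    calc 1 / (PP γ : ℝ) / (2 * ((v ^ 17 : ℕ) : ℝ) ^ 10) =
        (T : ℝ) / ((v ^ 17 : ℕ) : ℝ) ^ 10 * (1 / (PP γ * (2 * T))) := by
          field_simp
      _ ≤ _ := mul_le_mul_of_nonneg_right h5 (by positivity)
  have hMpos : 0 < M := lt_of_lt_of_le (by positivity) hMlow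
  -- the number of prime factors
  have hu : ∀ i ∈ I, (q i).primeFactors.card ≤ 15 * v := by
    intro i hi
    obtain ⟨h1, h2, h3, h4⟩ := hmemI i hi
    refine card_primeFactors_le hw2 (hq1 i hi) h4 ?_
    have h5 : PP i.1 ≤ B := (hsz i.1 h1).2.1
    have h6 : PP i.1 * i.2 ≤ B * (2 * T) := Nat.mul_le_mul h5 h3.le
    have h7 : B * (2 * T) ≤ w ^ (15 * v) := by
      have e0 : (v ^ 6) ^ 3 = v ^ 18 := by ring
      rw [hBdef, hT, hw, e0, ← pow_mul]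
      calc 2 ^ (6 * v ^ 18) * (2 * 2 ^ (8 * v ^ 18)) = 2 ^ (6 * v ^ 18 + 1 + 8 * v ^ 18) := by ring
        _ ≤ 2 ^ (v ^ 17 * (15 * v)) := by
          apply Nat.pow_le_pow_right (by norm_num)
          have h8 : v ^ 17 * (15 * v) = 15 * v ^ 18 := by ring
          have h9 : 1 ≤ v ^ 18 := Nat.one_le_pow _ _ hv1
          rw [h8]
          omega
    have h8 := hPt i.1 h1 i.2 h2
    have h9 : q i = PP i.1 * i.2 - 1 := rfl
    omega
  -- every prime divides few of the moduli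
  have hη : ∀ i ∈ I, ∀ p ∈ (q i).primeFactors,
      ∑ j ∈ I.filter (fun j => p ∣ q j), (1 : ℝ) / q j ≤ 4 * A / w := by
    intro i hi p hp
    rw [Nat.mem_primeFactors] at hp
    obtain ⟨_, _, _, h4⟩ := hmemI i hi
    have hpw : w < p := by
      by_contra hn
      exact h4 p hp.1 (by omega) hp.2.1
    have hp0 : 0 < p := hp.1.pos
    have hpr : (w : ℝ) ≤ p := by exact_mod_cast hpw.le
    have hTr : (w : ℝ) ≤ T := by exact_mod_cast hwT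
    rw [hIdef, mI_filter_sum, hAdef, Finset.mul_sum, Finset.sum_div]
    refine Finset.sum_le_sum fun γ hγ => ?_
    have hP := hPpos γ hγ
    have h5 := Off.sum_dvd_le (PP γ) T p hp0 (hP2 γ hγ) hT1
    rw [← Finset.sum_filter] at h5
    have h6 : (RR w T (PP γ)).filter (fun t => p ∣ q (γ, t)) ⊆
        (Ico T (2 * T)).filter (fun t => p ∣ PP γ * t - 1) := by
      intro t ht
      rw [mem_filter] at ht ⊢
      obtain ⟨h7, h8⟩ := ht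
      rw [RR, mem_filter] at h7
      exact ⟨h7.1, h8⟩
    refine (Finset.sum_le_sum_of_subset_of_nonneg h6 fun t _ _ => by positivity).trans ?_
    refine h5.trans ?_
    have h7 : (T : ℝ) / p ≤ T / w := div_le_div_of_nonneg_left hTpos.le hwpos hpr
    have h8 : (1 : ℝ) ≤ T / w := by rw [le_div_iff₀ hwpos]; linarith
    calc ((T : ℝ) / p + 1) * (2 / (PP γ * T)) ≤ (T / w + T / w) * (2 / (PP γ * T)) :=
          mul_le_mul_of_nonneg_right (by linarith) (by positivity)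
      _ = 4 * (1 / (PP γ : ℝ)) / w := by field_simp; norm_num
  -- the colouring
  have hcol : 4 * ((15 * v : ℕ) : ℝ) * (4 * A / w) * (R : ℝ) ^ (2 * (15 * v) + 1) < M := by
    refine lt_of_lt_of_le ?_ hMlow
    have h1 : ((480 * v * (v ^ 17) ^ 10 * R ^ (2 * (15 * v) + 1) : ℕ) : ℝ) < (w : ℝ) := by
      exact_mod_cast N2 hv72 hR
    push_cast at h1 ⊢
    have hv17 : (0 : ℝ) < ((v : ℝ) ^ 17) ^ 10 := by positivity
    rw [lt_div_iff₀ (by positivity)]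
    calc 4 * (15 * (v : ℝ)) * (4 * A / w) * (R : ℝ) ^ (2 * (15 * v) + 1) *
          (2 * ((v : ℝ) ^ 17) ^ 10) =
        (480 * (v : ℝ) * ((v : ℝ) ^ 17) ^ 10 * (R : ℝ) ^ (2 * (15 * v) + 1)) * (A / w) := by ring
      _ < (w : ℝ) * (A / w) := mul_lt_mul_of_pos_right h1 (by positivity)
      _ = A := by field_simp
  obtain ⟨χ, hχ, hχM⟩ := hC (Cf n × ℕ) I q R (15 * v) (4 * A / w) hR1 hq1 hu hη hcol
  set Ic : ℕ → Finset (Cf n × ℕ) := fun c => I.filter (fun i => ∀ p ∈ (q i).primeFactors, χ p = c)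
    with hIc
  have hKpos : (0 : ℝ) < (KK v : ℝ) := by exact_mod_cast KK_pos hv1
  set G : ℝ := 2 ^ (n / 2) with hGdef
  have hGpos : 0 < G := by positivity
  have hMc : ∀ c < R, A / KK v ≤ ∑ i ∈ Ic c, (1 : ℝ) / q i := by
    intro c hcR
    refine le_trans ?_ (hχM c hcR)
    have h1 : (R : ℝ) ^ (15 * v) ≤ 2 ^ (15 * v ^ 5) := by
      have h2 : R ^ (15 * v) ≤ 2 ^ (15 * v ^ 5) := by
        calc R ^ (15 * v) ≤ (2 ^ (v ^ 4)) ^ (15 * v) := Nat.pow_le_pow_left hR _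
          _ = 2 ^ (15 * v ^ 5) := by rw [← pow_mul]; ring_nf
      exact_mod_cast h2
    have hRpos : (0 : ℝ) < (R : ℝ) ^ (15 * v) := by
      have : (0 : ℝ) < R := by exact_mod_cast (by omega : 0 < R)
      positivity
    have hv17 : (0 : ℝ) < ((v : ℝ) ^ 17) ^ 10 := by positivity
    have h3 : (KK v : ℝ) = 2 * ((v ^ 17 : ℕ) : ℝ) ^ 10 * (2 * 2 ^ (15 * v ^ 5)) := by
      rw [KK]; push_cast; ring
    rw [h3, ← div_div]
    exact div_le_div₀ hMpos.le hMlow (by positivity) (by linarith)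
  have h2G : ∀ c < R, 2 * G ≤ ∑ i ∈ Ic c, (1 : ℝ) / q i := by
    intro c hcR
    refine le_trans ?_ (hMc c hcR)
    rw [le_div_iff₀ hKpos]
    refine le_trans ?_ hA
    have h1 := N3 hn376 hv72
    rw [hGdef]
    exact_mod_cast h1
  have hMcpos : ∀ c < R, 0 < ∑ i ∈ Ic c, (1 : ℝ) / q i := fun c hcR =>
    lt_of_lt_of_le (by positivity) (h2G c hcR)
  have hcop : ∀ c < R, ∀ c' < R, c ≠ c' → ∀ i ∈ Ic c, ∀ j ∈ Ic c', Nat.Coprime (q i) (q j) := by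
    intro c _ c' _ hcc i hi j hj
    rw [hIc, mem_filter] at hi hj
    have hqi := hq1 i hi.1
    have hqj := hq1 j hj.1
    refine Nat.Coprime.symm ?_
    refine Nat.Coprime.symm (Nat.coprime_of_dvd fun p hp h1 h2 => ?_)
    exact hcc ((hi.2 p (Nat.mem_primeFactors.mpr ⟨hp, h1, by omega⟩)).symm.trans
      (hj.2 p (Nat.mem_primeFactors.mpr ⟨hp, h2, by omega⟩)))
  -- the double sums
  have hdbl : ∀ c < R, (∑ i ∈ Ic c, ∑ j ∈ Ic c, if 1 < (q i).gcd (q j) ∧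
      (((q i).gcd (q j) : ℕ) : ℤ) ∣ r i - r j then
        (((q i).gcd (q j) : ℕ) : ℝ) / (q i * q j) else 0) ≤
        (1 / G) * (∑ i ∈ Ic c, (1 : ℝ) / q i) ^ 2 := by
    intro c hcR
    set U : Cf n → Finset ℕ := fun γ => (RR w T (PP γ)).filter
      (fun t => ∀ p ∈ (q (γ, t)).primeFactors, χ p = c) with hU
    have hd1 : (∑ i ∈ Ic c, ∑ j ∈ Ic c, if 1 < (q i).gcd (q j) ∧
      (((q i).gcd (q j) : ℕ) : ℤ) ∣ r i - r j then
        (((q i).gcd (q j) : ℕ) : ℝ) / (q i * q j) else 0) =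
        ∑ γ ∈ cfg (v ^ 6) n, ∑ γ' ∈ cfg (v ^ 6) n, ∑ t ∈ U γ, ∑ t' ∈ U γ',
          FF (PP γ) (SS γ) t (PP γ') (SS γ') t' := by
      rw [hIc, hIdef]
      dsimp only
      rw [mI_filter_sum]
      refine Finset.sum_congr rfl fun γ _ => ?_
      rw [Finset.sum_comm (s := cfg (v ^ 6) n)]
      refine Finset.sum_congr rfl fun t _ => ?_
      rw [mI_filter_sum]
      refine Finset.sum_congr rfl fun γ' _ => Finset.sum_congr rfl fun t' _ => ?_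
      have h5 : r (γ, t) - r (γ', t') = ((SS γ' : ℤ) - SS γ) + ((t' : ℤ) - t) := by
        rw [hr]; ring
      rw [h5]
      rfl
    have hd2 : ∑ i ∈ Ic c, (1 : ℝ) / q i =
        ∑ γ ∈ cfg (v ^ 6) n, ∑ t ∈ U γ, (1 : ℝ) / ((PP γ * t - 1 : ℕ) : ℝ) := by
      rw [hIc, hIdef]
      dsimp only
      rw [mI_filter_sum]
    set Mc : ℝ := ∑ i ∈ Ic c, (1 : ℝ) / q i with hMcdef
    have hMcK : A / KK v ≤ Mc := hMc c hcR
    have hMcG : 2 * G ≤ Mc := h2G c hcR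
    have hlogT : Real.log T ≤ 8 * ((v : ℝ) ^ 6) ^ 3 := by
      rw [hT]
      push_cast
      rw [Real.log_pow]
      push_cast
      have h7 : Real.log 2 ≤ 1 := by
        have := Real.log_le_sub_one_of_pos (show (0 : ℝ) < 2 by norm_num)
        linarith
      have h8 : (0 : ℝ) ≤ 8 * ((v : ℝ) ^ 6) ^ 3 := by positivity
      nlinarith
    have hlogT0 : 0 ≤ Real.log T := Real.log_nonneg (by exact_mod_cast hT1)
    have hp := pairs hO hD (δ := 16 * (1 + 8 * ((v : ℝ) ^ 6) ^ 3) / 2 ^ (3 * v ^ 6))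
      (h := 18 * v) (cfg (v ^ 6) n) hw2 hT2 hBw (N8b hv72)
      (fun γ hγ => ⟨hP2 γ hγ, (hsz γ hγ).2.1, (hsz γ hγ).2.2, by
        have hP := hPpos γ hγ
        have h8 : ((2 : ℝ) ^ (3 * v ^ 6)) ≤ PP γ := by exact_mod_cast (hsz γ hγ).1
        exact div_le_div₀ (by positivity) (by linarith) (by positivity) h8⟩)
      hinj U (fun γ _ => Finset.filter_subset _ _)
    rw [← hd1, ← hd2, ← hAdef] at hp
    refine hp.trans ?_
    have hMc0 : 0 < Mc := lt_of_lt_of_le (by positivity) hMcG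
    have t1 : Mc ≤ Mc ^ 2 / (2 * G) := by
      rw [le_div_iff₀ (by positivity)]
      nlinarith
    have hAK : A ≤ Mc * KK v := by rwa [div_le_iff₀ hKpos] at hMcK
    have t2 : 16 * (1 + 8 * ((v : ℝ) ^ 6) ^ 3) / 2 ^ (3 * v ^ 6) * A ≤ Mc ^ 2 / (4 * G) := by
      have h1 : (32 : ℝ) * (1 + 8 * ((v : ℝ) ^ 6) ^ 3) * KK v ≤ 2 ^ (3 * v ^ 6) := by
        exact_mod_cast N5 hv72
      have h2 : 16 * (1 + 8 * ((v : ℝ) ^ 6) ^ 3) / 2 ^ (3 * v ^ 6) * A ≤ Mc / 2 := by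
        rw [div_mul_eq_mul_div, div_le_iff₀ (by positivity)]
        calc 16 * (1 + 8 * ((v : ℝ) ^ 6) ^ 3) * A ≤
            16 * (1 + 8 * ((v : ℝ) ^ 6) ^ 3) * (Mc * KK v) :=
              mul_le_mul_of_nonneg_left hAK (by positivity)
          _ = Mc / 2 * (32 * (1 + 8 * ((v : ℝ) ^ 6) ^ 3) * KK v) := by ring
          _ ≤ Mc / 2 * 2 ^ (3 * v ^ 6) := mul_le_mul_of_nonneg_left h1 (by positivity)
      refine h2.trans ?_
      rw [le_div_iff₀ (by positivity)]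
      nlinarith
    have t3 : 32 * 2 ^ (18 * v) / w * A ^ 2 ≤ Mc ^ 2 / (4 * G) := by
      have h1 : (32 : ℝ) * 2 ^ (18 * v) * (4 * G) * (KK v : ℝ) ^ 2 ≤ w := by
        rw [hGdef, hw]
        exact_mod_cast N4 hnm hv72
      have h2 : A ^ 2 ≤ Mc ^ 2 * (KK v : ℝ) ^ 2 := by
        calc A ^ 2 ≤ (Mc * KK v) ^ 2 := pow_le_pow_left₀ hApos.le hAK 2
          _ = _ := by ring
      rw [le_div_iff₀ (by positivity), div_mul_eq_mul_div, div_mul_eq_mul_div,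
        div_le_iff₀ hwpos]
      calc 32 * 2 ^ (18 * v) * A ^ 2 * (4 * G) ≤
          32 * 2 ^ (18 * v) * (Mc ^ 2 * (KK v : ℝ) ^ 2) * (4 * G) := by gcongr
        _ = Mc ^ 2 * (32 * 2 ^ (18 * v) * (4 * G) * (KK v : ℝ) ^ 2) := by ring
        _ ≤ Mc ^ 2 * w := mul_le_mul_of_nonneg_left h1 (by positivity)
    have t4 : Mc ^ 2 / (2 * G) + Mc ^ 2 / (4 * G) + Mc ^ 2 / (4 * G) = 1 / G * Mc ^ 2 := by
      field_simp
      norm_num
    linarith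
  -- the number of indices
  have hcardI : (I.card : ℝ) ≤ T * (B * A) := by
    have h3 : (I.card : ℝ) = ∑ i ∈ I, (1 : ℝ) := by simp
    rw [h3, hIdef, mI_sum, hAdef, Finset.mul_sum, Finset.mul_sum]
    apply Finset.sum_le_sum
    intro γ hγ
    have hP := hPpos γ hγ
    have h4 : ∑ t ∈ RR w T (PP γ), (1 : ℝ) = (RR w T (PP γ)).card := by simp
    rw [h4]
    have h4' : ((RR w T (PP γ)).card : ℝ) ≤ T := by
      have h3 : (RR w T (PP γ)).card ≤ (Ico T (2 * T)).card := Finset.card_filter_le _ _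
      rw [Nat.card_Ico] at h3
      have h4 : (RR w T (PP γ)).card ≤ T := by omega
      exact_mod_cast h4
    refine h4'.trans ?_
    have h5 : (PP γ : ℝ) ≤ B := by exact_mod_cast (hsz γ hγ).2.1
    have h6 : (1 : ℝ) ≤ B * (1 / PP γ) := by
      rw [mul_one_div, le_div_iff₀ hP]
      linarith
    calc (T : ℝ) = T * 1 := (mul_one _).symm
      _ ≤ _ := mul_le_mul_of_nonneg_left h6 hTpos.le
  have hL : ∀ c < R, (1 + ((Ic c).card : ℝ) / ∑ i ∈ Ic c, (1 : ℝ) / q i) ^ 2 ≤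
      2 ^ (31 * (v ^ 6) ^ 3) := by
    intro c hcR
    have h1 : ((Ic c).card : ℝ) ≤ I.card := by
      exact_mod_cast Finset.card_filter_le _ _
    have h2 : ((Ic c).card : ℝ) / (∑ i ∈ Ic c, (1 : ℝ) / q i) ≤ T * B * KK v := by
      rw [div_le_iff₀ (hMcpos c hcR)]
      have h3 := hMc c hcR
      rw [div_le_iff₀ hKpos] at h3
      calc ((Ic c).card : ℝ) ≤ T * (B * A) := h1.trans hcardI
        _ ≤ T * (B * ((∑ i ∈ Ic c, (1 : ℝ) / q i) * KK v)) := by gcongr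
        _ = _ := by ring
    have h3 : (1 : ℝ) ≤ T * B * KK v := by
      have h4 : 1 ≤ T * B * KK v := Nat.mul_pos (Nat.mul_pos hT1 hB1) (KK_pos hv1)
      exact_mod_cast h4
    have h4 : 0 ≤ ((Ic c).card : ℝ) / (∑ i ∈ Ic c, (1 : ℝ) / q i) :=
      div_nonneg (Nat.cast_nonneg _) (hMcpos c hcR).le
    calc (1 + ((Ic c).card : ℝ) / ∑ i ∈ Ic c, (1 : ℝ) / q i) ^ 2 ≤
        (2 * (T * B * KK v)) ^ 2 := pow_le_pow_left₀ (by linarith) (by linarith) 2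
      _ ≤ 2 ^ (31 * (v ^ 6) ^ 3) := by
        have h5 := N6 hv72
        rw [hT, hBdef]
        exact_mod_cast h5
  have hgr := hG (Cf n × ℕ) R X Ic q r (1 / G) (2 ^ (31 * (v ^ 6) ^ 3))
    (fun c _ i hi => hq1 i (Finset.mem_filter.mp hi).1) hcop hMcpos hdbl hL
  -- the sets
  have hsub : ((range X).filter fun k => n + 2 ≤ k ∧
      ((hits (v ^ 6) n T k).card : ℝ) ≤ 2 ^ (n / 2)) ⊆
      (range X).filter fun k : ℕ => ∀ c < R,
        (((Ic c).filter fun i => (q i : ℤ) ∣ (k : ℤ) - r i).card : ℝ) ≤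
          (∑ i ∈ Ic c, (1 : ℝ) / q i) / 2 := by
    intro k hk
    rw [mem_filter] at hk ⊢
    obtain ⟨h3, h4, h5⟩ := hk
    refine ⟨h3, fun c hcR => ?_⟩
    have h6 : ((Ic c).filter fun i => (q i : ℤ) ∣ (k : ℤ) - r i) ⊆ hits (v ^ 6) n T k := by
      intro i hi
      rw [mem_filter] at hi
      obtain ⟨h7, h8⟩ := hi
      rw [hits, mem_filter]
      rw [hIc, mem_filter, hIdef, mI, mem_filter] at h7
      refine ⟨h7.1.1, ?_⟩
      have h9 : (k : ℤ) - r i = ((k + SS i.1 + i.2 - (n + 2) : ℕ) : ℤ) := by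
        rw [hr]
        dsimp only
        rw [Nat.cast_sub (by omega)]
        push_cast
        ring
      rw [h9] at h8
      exact_mod_cast h8
    have h7 : (((Ic c).filter fun i => (q i : ℤ) ∣ (k : ℤ) - r i).card : ℝ) ≤
        ((hits (v ^ 6) n T k).card : ℝ) := by
      exact_mod_cast Finset.card_le_card h6
    have h8 := h2G c hcR
    linarith
  have hfin : (((range X).filter fun k => n + 2 ≤ k ∧
      ((hits (v ^ 6) n T k).card : ℝ) ≤ 2 ^ (n / 2)).card : ℝ) ≤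
      4 ^ R * (X * (1 / G) ^ R + (2 ^ (31 * (v ^ 6) ^ 3)) ^ R) := by
    refine le_trans ?_ hgr
    exact_mod_cast Finset.card_le_card hsub
  refine hfin.trans ?_
  have hXr : (0 : ℝ) ≤ X := Nat.cast_nonneg X
  have f1 : (4 : ℝ) ^ R * (1 / G) ^ R ≤ 1 / 2 ^ (n / 4 * R) := by
    have hn8 : 2 + n / 4 ≤ n / 2 := by omega
    have g1 : (1 : ℝ) / 2 ^ (n / 4 * R) = (1 / 2 ^ (n / 4)) ^ R := by
      rw [one_div_pow, ← pow_mul]
    rw [← mul_pow, g1]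
    refine pow_le_pow_left₀ (by positivity) ?_ R
    rw [hGdef, mul_one_div, div_le_div_iff₀ (by positivity) (by positivity)]
    calc (4 : ℝ) * 2 ^ (n / 4) = 2 ^ (2 + n / 4) := by rw [pow_add]; norm_num
      _ ≤ 2 ^ (n / 2) := pow_le_pow_right₀ (by norm_num) hn8
      _ = 1 * 2 ^ (n / 2) := (one_mul _).symm
  have f2 : (4 : ℝ) ^ R * (2 ^ (31 * (v ^ 6) ^ 3)) ^ R ≤ 2 ^ (32 * (v ^ 6) ^ 3 * R) := by
    rw [← mul_pow, pow_mul _ (32 * (v ^ 6) ^ 3)]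
    apply pow_le_pow_left₀ (by positivity)
    have h2 : 2 ≤ (v ^ 6) ^ 3 := by
      have e0 : (v ^ 6) ^ 3 = v ^ 18 := by ring
      rw [e0]
      calc 2 ≤ v := by omega
        _ = v ^ 1 := (pow_one v).symm
        _ ≤ v ^ 18 := Nat.pow_le_pow_right hv1 (by norm_num)
    calc (4 : ℝ) * 2 ^ (31 * (v ^ 6) ^ 3) = 2 ^ (2 + 31 * (v ^ 6) ^ 3) := by
          rw [pow_add]; norm_num
      _ ≤ 2 ^ (32 * (v ^ 6) ^ 3) := pow_le_pow_right₀ (by norm_num) (by omega)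
  have g2 : (4 : ℝ) ^ R * ((X : ℝ) * (1 / G) ^ R + (2 ^ (31 * (v ^ 6) ^ 3)) ^ R) =
      (X : ℝ) * ((4 : ℝ) ^ R * (1 / G) ^ R) + (4 : ℝ) ^ R * (2 ^ (31 * (v ^ 6) ^ 3)) ^ R := by
    ring
  have g3 : (X : ℝ) / 2 ^ (n / 4 * R) = (X : ℝ) * (1 / 2 ^ (n / 4 * R)) := by rw [mul_one_div]
  rw [g2, g3]
  exact add_le_add (mul_le_mul_of_nonneg_left f1 hXr) f2

end Pool.Agent.Lib.MP_85a137_nt
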