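import Pool.Agent.Lib.MP_85a137_nt.Spec3
import Pool.Agent.Lib.MP_85a137_nt.Mom2

/-!
MP_85a137_nt: the moment computation for the third version.
-/

set_option autoImplicit false

namespace Pool.Agent.Lib.MP_85a137_nt

namespace Mom3M

open Finset Mom2M

lemma inv_le {P T t : ℕ} (hP : 2 ≤ P) (hT : 2 ≤ T) (ht : T ≤ t) :
    (1 : ℝ) / ((P * t - 1 : ℕ) : ℝ) ≤ 2 / (P * T) := by
  have h1 : P * T ≤ P * t := Nat.mul_le_mul_left _ ht
  have h2 : 4 ≤ P * T := Nat.mul_le_mul hP hT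
  have h3 : P * T ≤ 2 * (P * t - 1) := by omega
  have h4 : (0 : ℝ) < ((P * t - 1 : ℕ) : ℝ) := by exact_mod_cast (by omega : 0 < P * t - 1)
  have h5 : (0 : ℝ) < (P : ℝ) * T := by exact_mod_cast (by omega : 0 < P * T)
  rw [div_le_div_iff₀ h4 h5]
  have h6 : ((P * T : ℕ) : ℝ) ≤ ((2 * (P * t - 1) : ℕ) : ℝ) := by exact_mod_cast h3
  push_cast at h6
  linarith

lemma sum_RR_le {P T w : ℕ} (hP : 2 ≤ P) (hT : 2 ≤ T) :
    ∑ t ∈ RR w T P, (1 : ℝ) / ((P * t - 1 : ℕ) : ℝ) ≤ 2 * (1 / P) := by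
  classical
  have hPp : (0 : ℝ) < P := by exact_mod_cast (by omega : 0 < P)
  have hTp : (0 : ℝ) < T := by exact_mod_cast (by omega : 0 < T)
  have h3 : ∑ t ∈ RR w T P, (1 : ℝ) / ((P * t - 1 : ℕ) : ℝ) ≤
      (RR w T P).card • (2 / ((P : ℝ) * T)) :=
    Finset.sum_le_card_nsmul _ _ _ fun t ht => by
      rw [RR, mem_filter, mem_Ico] at ht
      exact inv_le hP hT ht.1.1
  rw [nsmul_eq_mul] at h3
  refine h3.trans ?_
  have h4 : ((RR w T P).card : ℝ) ≤ T := by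
    have h3 : (RR w T P).card ≤ (Ico T (2 * T)).card := Finset.card_filter_le _ _
    rw [Nat.card_Ico] at h3
    have h4 : (RR w T P).card ≤ T := by omega
    exact_mod_cast h4
  calc ((RR w T P).card : ℝ) * (2 / ((P : ℝ) * T)) ≤ T * (2 / ((P : ℝ) * T)) :=
        mul_le_mul_of_nonneg_right h4 (by positivity)
    _ = 2 * (1 / (P : ℝ)) := by field_simp

open Classical in
/-- the double sum over subfamilies -/
lemma pairs3 (hO : StmtOff) (hD : StmtDiag) {n T w B h : ℕ} {δ : ℝ} (C : Finset (Cf n))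
    (hδ1 : δ ≤ 1)
    (hw : 2 ≤ w) (hT : 2 ≤ T) (hBw : B * w ≤ T) (hBh : 2 * B ^ 3 < w ^ (h + 1))
    (hC : ∀ γ ∈ C, 2 ≤ PP γ ∧ PP γ ≤ B ∧ SS γ ≤ B ∧ 16 * (1 + Real.log T) / PP γ ≤ δ)
    (U : Cf n → Finset ℕ) (hU : ∀ γ ∈ C, U γ ⊆ RR w T (PP γ)) :
    ∑ γ ∈ C, ∑ γ' ∈ C, ∑ t ∈ U γ, ∑ t' ∈ U γ', FF (PP γ) (SS γ) t (PP γ') (SS γ') t' ≤
      (∑ γ ∈ C, ∑ t ∈ U γ, (1 : ℝ) / ((PP γ * t - 1 : ℕ) : ℝ)) +
        δ * (∑ γ ∈ C, (1 : ℝ) / PP γ) + 32 * 2 ^ h / w * (∑ γ ∈ C, (1 : ℝ) / PP γ) ^ 2 +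
        3 * ∑ γ ∈ C, ∑ γ' ∈ C,
          (if γ' ≠ γ ∧ PP γ' = PP γ ∧ SS γ' = SS γ then (1 : ℝ) / PP γ else 0) := by
  have hwpos : (0 : ℝ) < w := by exact_mod_cast (by omega : 0 < w)
  have hPpos : ∀ γ ∈ C, (0 : ℝ) < PP γ := fun γ hγ => by
    have := (hC γ hγ).1
    exact_mod_cast (by omega : 0 < PP γ)
  set A : ℝ := ∑ γ ∈ C, (1 : ℝ) / PP γ with hA
  set D : Cf n → Cf n → ℝ := fun γ γ' =>
    if γ' ≠ γ ∧ PP γ' = PP γ ∧ SS γ' = SS γ then (1 : ℝ) / PP γ else 0 with hDdef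
  have hD0 : ∀ γ γ', 0 ≤ D γ γ' := by
    intro γ γ'
    simp only [hDdef]
    split_ifs
    · positivity
    · exact le_rfl
  have hpair : ∀ γ ∈ C, ∀ γ' ∈ C,
      ∑ t ∈ U γ, ∑ t' ∈ U γ', FF (PP γ) (SS γ) t (PP γ') (SS γ') t' ≤
      (if γ' = γ then (∑ t ∈ U γ, (1 : ℝ) / ((PP γ * t - 1 : ℕ) : ℝ)) + δ * (1 / PP γ) else 0) +
        32 * 2 ^ h / w * (1 / PP γ * (1 / PP γ')) + 3 * D γ γ' := by
    intro γ hγ γ' hγ'
    have hP := hPpos γ hγ
    have hP' := hPpos γ' hγ'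
    obtain ⟨h2, hB, hSB, hδ⟩ := hC γ hγ
    obtain ⟨h2', hB', hSB', hδ'⟩ := hC γ' hγ'
    have h5 : 16 * (1 + Real.log T) / (PP γ : ℝ) ^ 2 ≤ δ * (1 / PP γ) := by
      calc 16 * (1 + Real.log T) / (PP γ : ℝ) ^ 2 =
          16 * (1 + Real.log T) / PP γ * (1 / PP γ) := by field_simp
        _ ≤ δ * (1 / PP γ) := mul_le_mul_of_nonneg_right hδ (by positivity)
    have h12 : (0 : ℝ) ≤ 32 * 2 ^ h / w * (1 / PP γ * (1 / PP γ')) := by positivity
    have h13 := hD0 γ γ'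
    have h4 : ∑ t ∈ U γ, ∑ t' ∈ U γ', FF (PP γ) (SS γ) t (PP γ') (SS γ') t' ≤
        ∑ t ∈ RR w T (PP γ), ∑ t' ∈ RR w T (PP γ'), FF (PP γ) (SS γ) t (PP γ') (SS γ') t' := by
      refine le_trans (Finset.sum_le_sum fun t _ => ?_)
        (Finset.sum_le_sum_of_subset_of_nonneg (hU γ hγ) fun t _ _ =>
          Finset.sum_nonneg fun t' _ => FF_nonneg _ _ _ _ _ _)
      exact Finset.sum_le_sum_of_subset_of_nonneg (hU γ' hγ') fun t' _ _ => FF_nonneg _ _ _ _ _ _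
    by_cases hg : γ' = γ
    · subst hg
      rw [if_pos rfl]
      have h6 := diag_sub (S := SS γ') hD h2' hT (U γ') (hU γ' hγ')
      linarith
    · rw [if_neg hg, zero_add]
      by_cases hs : PP γ' = PP γ ∧ SS γ' = SS γ
      · have hDe : D γ γ' = 1 / PP γ := by
          simp only [hDdef]
          rw [if_pos ⟨hg, hs.1, hs.2⟩]
        rw [hs.1, hs.2] at h4
        have h6 := diag_sub (S := SS γ) hD h2 hT _ (Finset.Subset.refl (RR w T (PP γ)))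
        have h7 := sum_RR_le (w := w) h2 hT
        have h8 : δ * (1 / (PP γ : ℝ)) ≤ 1 * (1 / (PP γ : ℝ)) :=
          mul_le_mul_of_nonneg_right hδ1 (by positivity)
        rw [hs.1, hs.2, hDe]
        rw [hs.1] at h12
        linarith
      · have hne : ¬ (PP γ = PP γ' ∧ SS γ = SS γ') := fun h => hs ⟨h.1.symm, h.2.symm⟩
        have h3 := hO (PP γ) (PP γ') (SS γ) (SS γ') T w h B h2 h2' hB hB' hSB hSB' hw hBw hBh hne
        have h6 : ∑ t ∈ U γ, ∑ t' ∈ U γ', FF (PP γ) (SS γ) t (PP γ') (SS γ') t' ≤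
            32 * 2 ^ h / w * (1 / PP γ * (1 / PP γ')) := by
          refine h4.trans ((le_of_eq ?_).trans (h3.trans (le_of_eq ?_)))
          · rfl
          · field_simp
        linarith
  have h3 : ∑ γ ∈ C, ∑ γ' ∈ C, ∑ t ∈ U γ, ∑ t' ∈ U γ', FF (PP γ) (SS γ) t (PP γ') (SS γ') t' ≤
      ∑ γ ∈ C, ∑ γ' ∈ C,
      ((if γ' = γ then (∑ t ∈ U γ, (1 : ℝ) / ((PP γ * t - 1 : ℕ) : ℝ)) + δ * (1 / PP γ) else 0) +
        32 * 2 ^ h / w * (1 / PP γ * (1 / PP γ')) + 3 * D γ γ') :=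
    Finset.sum_le_sum fun γ hγ => Finset.sum_le_sum fun γ' hγ' => hpair γ hγ γ' hγ'
  refine h3.trans (le_of_eq ?_)
  have h5 : ∀ γ ∈ C, ∑ γ' ∈ C,
      ((if γ' = γ then (∑ t ∈ U γ, (1 : ℝ) / ((PP γ * t - 1 : ℕ) : ℝ)) + δ * (1 / PP γ) else 0) +
        32 * 2 ^ h / w * (1 / PP γ * (1 / PP γ')) + 3 * D γ γ') =
      ((∑ t ∈ U γ, (1 : ℝ) / ((PP γ * t - 1 : ℕ) : ℝ)) + δ * (1 / PP γ)) +
        32 * 2 ^ h / w * (1 / PP γ * A) + 3 * ∑ γ' ∈ C, D γ γ' := by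
    intro γ hγ
    rw [Finset.sum_add_distrib, Finset.sum_add_distrib, Finset.sum_ite_eq', if_pos hγ,
      ← Finset.mul_sum, ← Finset.mul_sum, ← Finset.mul_sum]
  rw [Finset.sum_congr rfl h5, Finset.sum_add_distrib, Finset.sum_add_distrib,
    Finset.sum_add_distrib, ← Finset.mul_sum, ← Finset.mul_sum, ← Finset.sum_mul, ← Finset.mul_sum,
    ← hA]
  ring

/-! ### Index set -/

open Classical in
/-- the index set -/
noncomputable def gI {n : ℕ} (C : Finset (Cf n)) (w T : ℕ) : Finset (Cf n × ℕ) :=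
  (C ×ˢ Ico T (2 * T)).filter fun i => Rough w (PP i.1 * i.2 - 1)

open Classical in
lemma gI_filter_sum {n : ℕ} (C : Finset (Cf n)) (w T : ℕ) (p : Cf n × ℕ → Prop) [DecidablePred p]
    (f : Cf n × ℕ → ℝ) :
    ∑ i ∈ (gI C w T).filter p, f i =
      ∑ γ ∈ C, ∑ t ∈ (RR w T (PP γ)).filter (fun t => p (γ, t)), f (γ, t) := by
  unfold gI RR
  rw [Finset.filter_filter, Finset.sum_filter, Finset.sum_product]
  refine Finset.sum_congr rfl fun γ _ => ?_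
  rw [Finset.filter_filter, Finset.sum_filter]

open Classical in
lemma gI_sum {n : ℕ} (C : Finset (Cf n)) (w T : ℕ) (f : Cf n × ℕ → ℝ) :
    ∑ i ∈ gI C w T, f i = ∑ γ ∈ C, ∑ t ∈ RR w T (PP γ), f (γ, t) := by
  unfold gI RR
  rw [Finset.sum_filter, Finset.sum_product]
  refine Finset.sum_congr rfl fun γ _ => ?_
  rw [Finset.sum_filter]

/-! ### Numbers -/

lemma lt8 (m : ℕ) : m ≤ 8 * 2 ^ (m / 8) := by
  have h1 : m / 8 < 2 ^ (m / 8) := Nat.lt_two_pow_self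
  omega

lemma K3 {n K : ℕ} (hn : 16 ≤ n) (hK : K ≤ 2 ^ (n / 2)) : 2 * 2 ^ (n / 4) * K ≤ 2 ^ n := by
  calc 2 * 2 ^ (n / 4) * K ≤ 2 * 2 ^ (n / 4) * 2 ^ (n / 2) := Nat.mul_le_mul_left _ hK
    _ = 2 ^ (1 + n / 4 + n / 2) := by ring
    _ ≤ 2 ^ n := Nat.pow_le_pow_right (by norm_num) (by omega)

lemma K4 {n K u J : ℕ} (hn : 16 ≤ n) (hK : K ≤ 2 ^ (n / 2)) (hJ : 2 * u + 2 * n + 7 ≤ J) :
    32 * 2 ^ (2 * u) * (8 * 2 ^ (n / 4)) * K ^ 2 ≤ 2 ^ J := by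
  have e1 : K ^ 2 ≤ 2 ^ n := by
    calc K ^ 2 ≤ (2 ^ (n / 2)) ^ 2 := Nat.pow_le_pow_left hK 2
      _ = 2 ^ (n / 2 * 2) := by rw [← pow_mul]
      _ ≤ 2 ^ n := Nat.pow_le_pow_right (by norm_num) (by omega)
  calc 32 * 2 ^ (2 * u) * (8 * 2 ^ (n / 4)) * K ^ 2 ≤
      32 * 2 ^ (2 * u) * (8 * 2 ^ (n / 4)) * 2 ^ n := Nat.mul_le_mul_left _ e1
    _ = 2 ^ (8 + 2 * u + n / 4 + n) := by ring
    _ ≤ 2 ^ J := Nat.pow_le_pow_right (by norm_num) (by omega)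

lemma K5 {m n K : ℕ} (hm : 40 ≤ m) (hnm : 4 * n ≤ m) (hK : K ≤ 2 ^ (n / 2)) :
    64 * (1 + 4 * m * n) * K ≤ 2 ^ m := by
  have h1 := lt8 m
  have h2 : 1 + 4 * m * n ≤ 128 * 2 ^ (2 * (m / 8)) := by
    have h3 : 4 * m * n ≤ m * m := by
      calc 4 * m * n = m * (4 * n) := by ring
        _ ≤ m * m := Nat.mul_le_mul_left _ hnm
    have h4 : m * m ≤ 64 * 2 ^ (2 * (m / 8)) := by
      calc m * m ≤ (8 * 2 ^ (m / 8)) * (8 * 2 ^ (m / 8)) := Nat.mul_le_mul h1 h1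
        _ = 64 * 2 ^ (2 * (m / 8)) := by ring
    have h5 : 1 ≤ 2 ^ (2 * (m / 8)) := Nat.one_le_two_pow
    omega
  calc 64 * (1 + 4 * m * n) * K ≤ 64 * (128 * 2 ^ (2 * (m / 8))) * 2 ^ (n / 2) :=
        Nat.mul_le_mul (Nat.mul_le_mul_left _ h2) hK
    _ = 2 ^ (13 + 2 * (m / 8) + n / 2) := by ring
    _ ≤ 2 ^ m := Nat.pow_le_pow_right (by norm_num) (by omega)

lemma K5b {m n K : ℕ} (hm : 40 ≤ m) (hnm : 4 * n ≤ m) (hK : K ≤ 2 ^ (n / 2)) :
    6 * K ≤ 2 ^ (m / 4) := by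
  calc 6 * K ≤ 2 ^ 3 * 2 ^ (n / 2) := Nat.mul_le_mul (by norm_num) hK
    _ = 2 ^ (3 + n / 2) := by ring
    _ ≤ 2 ^ (m / 4) := Nat.pow_le_pow_right (by norm_num) (by omega)

lemma K6 {m n K : ℕ} (hm : 40 ≤ m) (hn : 16 ≤ n) (hK : K ≤ 2 ^ (n / 2)) :
    (2 * (2 ^ (4 * m * n) * 2 ^ (3 * m * n) * K)) ^ 2 ≤ 2 ^ (16 * m * n) := by
  have h0 : n ≤ m * n := Nat.le_mul_of_pos_left _ (by omega)
  calc (2 * (2 ^ (4 * m * n) * 2 ^ (3 * m * n) * K)) ^ 2 ≤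
      (2 ^ 1 * (2 ^ (4 * m * n) * 2 ^ (3 * m * n) * 2 ^ (n / 2))) ^ 2 := by
        apply Nat.pow_le_pow_left
        apply Nat.mul_le_mul (by norm_num)
        exact Nat.mul_le_mul_left _ hK
    _ = 2 ^ ((1 + (4 * m * n + 3 * m * n + n / 2)) * 2) := by
        rw [← pow_add, ← pow_add, ← pow_add, ← pow_mul]
    _ ≤ 2 ^ (16 * m * n) := by
        apply Nat.pow_le_pow_right (by norm_num)
        have e1 : 4 * m * n = 4 * (m * n) := by ring
        have e2 : 3 * m * n = 3 * (m * n) := by ring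
        have e3 : 16 * m * n = 16 * (m * n) := by ring
        omega

end Mom3M

open Finset Mom2M Mom3M

open Classical in
theorem mom3 (hZ : StmtSize3) (hB : StmtBrunG) (hO : StmtOff) (hD : StmtDiag)
    (hC : StmtColor) (hG : StmtGroup) : StmtMom3 := by
  obtain ⟨J₀, hB⟩ := hB
  refine ⟨max J₀ 40, fun s m n J u R X hm hJ0 hn16 hnm hsn hJ1 hJu hJ2 hR1 hcolN hKN hA hE => ?_⟩
  have hm40 : 40 ≤ m := le_trans (le_max_right _ _) hm
  have hJ : J₀ ≤ J := le_trans (le_max_left _ _) hJ0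
  have hJ40 : 40 ≤ J := le_trans (le_max_right _ _) hJ0
  have hn1 : 1 ≤ n := by omega
  have hm1 : 1 ≤ m := by omega
  have hmn : n ≤ m * n := Nat.le_mul_of_pos_left _ (by omega)
  have e4 : 4 * m * n = 4 * (m * n) := by ring
  have e3 : 3 * m * n = 3 * (m * n) := by ring
  have e7 : 7 * m * n = 7 * (m * n) := by ring
  have e16 : 16 * m * n = 16 * (m * n) := by ring
  have e17 : 17 * m * n = 17 * (m * n) := by ring
  have hJmn : J ≤ m * n := by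
    have h1 : 100 * J * 1 ≤ 100 * J * (Nat.log 2 J + 1) := Nat.mul_le_mul_left _ (by omega)
    omega
  have hsz := hZ s m n hm1 hn1 hsn
  set w : ℕ := 2 ^ J with hw
  set T : ℕ := 2 ^ (4 * m * n) with hT
  set B : ℕ := 2 ^ (3 * m * n) with hBdef
  set A : ℝ := ∑ γ ∈ cf3 s m n, (1 : ℝ) / PP γ with hAdef
  set E : ℝ := ∑ γ ∈ cf3 s m n, ∑ γ' ∈ cf3 s m n,
    (if γ' ≠ γ ∧ PP γ' = PP γ ∧ SS γ' = SS γ then (1 : ℝ) / PP γ else 0) with hEdef
  have hTJ : 2 ^ (100 * J * (Nat.log 2 J + 1)) ≤ T := Nat.pow_le_pow_right (by norm_num) hJ1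
  have hA1 : (1 : ℝ) ≤ A := le_trans (one_le_pow₀ (by norm_num)) hA
  have hApos : 0 < A := by linarith
  have hw2 : 2 ≤ w := by
    rw [hw]
    calc 2 = 2 ^ 1 := by norm_num
      _ ≤ 2 ^ J := Nat.pow_le_pow_right (by norm_num) (by omega)
  have hwpos : (0 : ℝ) < w := by exact_mod_cast (by omega : 0 < w)
  have hBw : B * w ≤ T := by
    rw [hBdef, hw, hT, ← pow_add]
    exact Nat.pow_le_pow_right (by norm_num) (by omega)
  have hB1 : 1 ≤ B := Nat.one_le_two_pow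
  have hwT : w ≤ T := le_trans (by nlinarith) hBw
  have hT2 : 2 ≤ T := le_trans hw2 hwT
  have hT1 : 1 ≤ T := by omega
  have hTpos : (0 : ℝ) < T := by exact_mod_cast (by omega : 0 < T)
  have hBh : 2 * B ^ 3 < w ^ (2 * u + 1) := by
    rw [hBdef, hw, ← pow_mul, ← pow_mul, ← pow_succ']
    apply Nat.pow_lt_pow_right (by norm_num)
    have h5 : J * (2 * u + 1) = 2 * (J * u) + J := by ring
    rw [h5]
    omega
  have hP2 : ∀ γ ∈ cf3 s m n, 2 ≤ PP γ := by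
    intro γ hγ
    refine le_trans ?_ (hsz γ hγ).1
    calc 2 = 2 ^ 1 := by norm_num
      _ ≤ 2 ^ m := Nat.pow_le_pow_right (by norm_num) (by omega)
  have hPpos : ∀ γ ∈ cf3 s m n, (0 : ℝ) < PP γ := fun γ hγ => by
    have := hP2 γ hγ
    exact_mod_cast (by omega : 0 < PP γ)
  -- the moduli
  set q : Cf n × ℕ → ℕ := fun i => PP i.1 * i.2 - 1 with hq
  set r : Cf n × ℕ → ℤ := fun i => ((n : ℤ) + 2) - SS i.1 - i.2 with hr
  set I := gI (cf3 s m n) w T with hIdef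
  have hmemI : ∀ i ∈ I, i.1 ∈ cf3 s m n ∧ T ≤ i.2 ∧ i.2 < 2 * T ∧ Rough w (q i) := by
    intro i hi
    rw [hIdef, gI, mem_filter, mem_product, mem_Ico] at hi
    exact ⟨hi.1.1, hi.1.2.1, hi.1.2.2, hi.2⟩
  have hPt : ∀ γ ∈ cf3 s m n, ∀ t, T ≤ t → 4 ≤ PP γ * t ∧ PP γ * T ≤ PP γ * t := by
    intro γ hγ t ht
    refine ⟨?_, Nat.mul_le_mul_left _ ht⟩
    calc 4 = 2 * 2 := by norm_num
      _ ≤ PP γ * t := Nat.mul_le_mul (hP2 γ hγ) (le_trans hT2 ht)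
  have hq1 : ∀ i ∈ I, 1 ≤ q i := by
    intro i hi
    obtain ⟨h1, h3, _, _⟩ := hmemI i hi
    have h4 := hPt i.1 h1 i.2 h3
    rw [hq]
    dsimp only
    omega
  have hqpos : ∀ i ∈ I, (0 : ℝ) < q i := fun i hi => by
    have := hq1 i hi
    exact_mod_cast (by omega : 0 < q i)
  have hRRmem : ∀ P, ∀ t ∈ RR w T P, T ≤ t ∧ t < 2 * T := by
    intro P t ht
    rw [RR, mem_filter, mem_Ico] at ht
    exact ht.1
  have hJr : (0 : ℝ) < J := by exact_mod_cast (by omega : 0 < J)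
  -- lower bound for `M`
  set M : ℝ := ∑ i ∈ I, (1 : ℝ) / q i with hM
  have hMlow : A / (2 * (J : ℝ) ^ 10) ≤ M := by
    rw [hM, hIdef, gI_sum, hAdef, Finset.sum_div]
    apply Finset.sum_le_sum
    intro γ hγ
    have hP := hPpos γ hγ
    have h3 : ∀ t ∈ RR w T (PP γ), (1 : ℝ) / (PP γ * (2 * T)) ≤ (1 : ℝ) / (q (γ, t)) := by
      intro t ht
      obtain ⟨h4, h5⟩ := hRRmem _ t ht
      have h6 := hPt γ hγ t h4
      have h7 : 0 < PP γ * t - 1 := by omega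
      apply one_div_le_one_div_of_le (by exact_mod_cast h7)
      have h8 : PP γ * t - 1 ≤ PP γ * (2 * T) :=
        le_trans (Nat.sub_le _ _) (Nat.mul_le_mul_left _ h5.le)
      exact_mod_cast h8
    have h4 := Finset.card_nsmul_le_sum _ _ _ h3
    rw [nsmul_eq_mul] at h4
    refine le_trans ?_ h4
    have h5 := hB J (PP γ) T hJ (le_trans (by norm_num) (hP2 γ hγ)) hTJ
    calc 1 / (PP γ : ℝ) / (2 * (J : ℝ) ^ 10) =
        (T : ℝ) / (J : ℝ) ^ 10 * (1 / (PP γ * (2 * T))) := by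
          field_simp
      _ ≤ _ := mul_le_mul_of_nonneg_right h5 (by positivity)
  have hMpos : 0 < M := lt_of_lt_of_le (by positivity) hMlow
  -- the number of prime factors
  have hu : ∀ i ∈ I, (q i).primeFactors.card ≤ u := by
    intro i hi
    obtain ⟨h1, h2, h3, h4⟩ := hmemI i hi
    refine card_primeFactors_le hw2 (hq1 i hi) h4 ?_
    have h5 : PP i.1 ≤ B := (hsz i.1 h1).2.1
    have h6 : PP i.1 * i.2 ≤ B * (2 * T) := Nat.mul_le_mul h5 h3.le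
    have h7 : B * (2 * T) ≤ w ^ u := by
      rw [hBdef, hT, hw, ← pow_mul]
      calc 2 ^ (3 * m * n) * (2 * 2 ^ (4 * m * n)) = 2 ^ (3 * m * n + 1 + 4 * m * n) := by ring
        _ ≤ 2 ^ (J * u) := by
          apply Nat.pow_le_pow_right (by norm_num)
          omega
    have h8 := hPt i.1 h1 i.2 h2
    have h9 : q i = PP i.1 * i.2 - 1 := rfl
    omega
  -- every prime divides few of the moduli
  have hη : ∀ i ∈ I, ∀ p ∈ (q i).primeFactors,
      ∑ j ∈ I.filter (fun j => p ∣ q j), (1 : ℝ) / q j ≤ 4 * A / w := by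
    intro i hi p hp
    rw [Nat.mem_primeFactors] at hp
    obtain ⟨_, _, _, h4⟩ := hmemI i hi
    have hpw : w < p := by
      by_contra hn
      exact h4 p hp.1 (by omega) hp.2.1
    have hp0 : 0 < p := hp.1.pos
    have hpr : (w : ℝ) ≤ p := by exact_mod_cast hpw.le
    have hTr : (w : ℝ) ≤ T := by exact_mod_cast hwT
    rw [hIdef, gI_filter_sum, hAdef, Finset.mul_sum, Finset.sum_div]
    refine Finset.sum_le_sum fun γ hγ => ?_
    have hP := hPpos γ hγ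
    have h5 := Off.sum_dvd_le (PP γ) T p hp0 (hP2 γ hγ) hT1
    rw [← Finset.sum_filter] at h5
    have h6 : (RR w T (PP γ)).filter (fun t => p ∣ q (γ, t)) ⊆
        (Ico T (2 * T)).filter (fun t => p ∣ PP γ * t - 1) := by
      intro t ht
      rw [mem_filter] at ht ⊢
      obtain ⟨h7, h8⟩ := ht
      rw [RR, mem_filter] at h7
      exact ⟨h7.1, h8⟩
    refine (Finset.sum_le_sum_of_subset_of_nonneg h6 fun t _ _ => by positivity).trans ?_
    refine h5.trans ?_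
    have h7 : (T : ℝ) / p ≤ T / w := div_le_div_of_nonneg_left hTpos.le hwpos hpr
    have h8 : (1 : ℝ) ≤ T / w := by rw [le_div_iff₀ hwpos]; linarith
    calc ((T : ℝ) / p + 1) * (2 / (PP γ * T)) ≤ (T / w + T / w) * (2 / (PP γ * T)) :=
          mul_le_mul_of_nonneg_right (by linarith) (by positivity)
      _ = 4 * (1 / (PP γ : ℝ)) / w := by field_simp; norm_num
  -- the colouring
  have hcol : 4 * (u : ℝ) * (4 * A / w) * (R : ℝ) ^ (2 * u + 1) < M := by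
    refine lt_of_lt_of_le ?_ hMlow
    have h1 : ((32 * u * J ^ 10 * R ^ (2 * u + 1) : ℕ) : ℝ) < (w : ℝ) := by
      exact_mod_cast hcolN
    push_cast at h1
    rw [lt_div_iff₀ (by positivity)]
    calc 4 * (u : ℝ) * (4 * A / w) * (R : ℝ) ^ (2 * u + 1) * (2 * (J : ℝ) ^ 10) =
        (32 * (u : ℝ) * (J : ℝ) ^ 10 * (R : ℝ) ^ (2 * u + 1)) * (A / w) := by ring
      _ < (w : ℝ) * (A / w) := mul_lt_mul_of_pos_right h1 (by positivity)
      _ = A := by field_simp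
  obtain ⟨χ, hχ, hχM⟩ := hC (Cf n × ℕ) I q R u (4 * A / w) hR1 hq1 hu hη hcol
  set Ic : ℕ → Finset (Cf n × ℕ) := fun c => I.filter (fun i => ∀ p ∈ (q i).primeFactors, χ p = c)
    with hIc
  set K : ℕ := 4 * J ^ 10 * R ^ u with hKdef
  have hRpos : (0 : ℝ) < R := by exact_mod_cast (by omega : 0 < R)
  have hKpos : (0 : ℝ) < (K : ℝ) := by
    rw [hKdef]
    push_cast
    positivity
  set G : ℝ := 2 ^ (n / 4) with hGdef
  have hGpos : 0 < G := by positivity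
  have hMc : ∀ c < R, A / K ≤ ∑ i ∈ Ic c, (1 : ℝ) / q i := by
    intro c hcR
    refine le_trans ?_ (hχM c hcR)
    have h3 : (K : ℝ) = 2 * (J : ℝ) ^ 10 * (2 * (R : ℝ) ^ u) := by
      rw [hKdef]; push_cast; ring
    rw [h3, ← div_div]
    exact div_le_div_of_nonneg_right hMlow (by positivity)
  have h2G : ∀ c < R, 2 * G ≤ ∑ i ∈ Ic c, (1 : ℝ) / q i := by
    intro c hcR
    refine le_trans ?_ (hMc c hcR)
    rw [le_div_iff₀ hKpos]
    refine le_trans ?_ hA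
    have h1 := K3 hn16 hKN
    rw [hGdef]
    exact_mod_cast h1
  have hMcpos : ∀ c < R, 0 < ∑ i ∈ Ic c, (1 : ℝ) / q i := fun c hcR =>
    lt_of_lt_of_le (by positivity) (h2G c hcR)
  have hcop : ∀ c < R, ∀ c' < R, c ≠ c' → ∀ i ∈ Ic c, ∀ j ∈ Ic c', Nat.Coprime (q i) (q j) := by
    intro c _ c' _ hcc i hi j hj
    rw [hIc, mem_filter] at hi hj
    have hqi := hq1 i hi.1
    have hqj := hq1 j hj.1
    refine Nat.Coprime.symm ?_
    refine Nat.Coprime.symm (Nat.coprime_of_dvd fun p hp h1 h2 => ?_)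
    exact hcc ((hi.2 p (Nat.mem_primeFactors.mpr ⟨hp, h1, by omega⟩)).symm.trans
      (hj.2 p (Nat.mem_primeFactors.mpr ⟨hp, h2, by omega⟩)))
  -- the double sums
  have hdbl : ∀ c < R, (∑ i ∈ Ic c, ∑ j ∈ Ic c, if 1 < (q i).gcd (q j) ∧
      (((q i).gcd (q j) : ℕ) : ℤ) ∣ r i - r j then
        (((q i).gcd (q j) : ℕ) : ℝ) / (q i * q j) else 0) ≤
        (1 / G) * (∑ i ∈ Ic c, (1 : ℝ) / q i) ^ 2 := by
    intro c hcR
    set U : Cf n → Finset ℕ := fun γ => (RR w T (PP γ)).filter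
      (fun t => ∀ p ∈ (q (γ, t)).primeFactors, χ p = c) with hU
    have hd1 : (∑ i ∈ Ic c, ∑ j ∈ Ic c, if 1 < (q i).gcd (q j) ∧
      (((q i).gcd (q j) : ℕ) : ℤ) ∣ r i - r j then
        (((q i).gcd (q j) : ℕ) : ℝ) / (q i * q j) else 0) =
        ∑ γ ∈ cf3 s m n, ∑ γ' ∈ cf3 s m n, ∑ t ∈ U γ, ∑ t' ∈ U γ',
          FF (PP γ) (SS γ) t (PP γ') (SS γ') t' := by
      rw [hIc, hIdef]
      dsimp only
      rw [gI_filter_sum]
      refine Finset.sum_congr rfl fun γ _ => ?_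
      rw [Finset.sum_comm (s := cf3 s m n)]
      refine Finset.sum_congr rfl fun t _ => ?_
      rw [gI_filter_sum]
      refine Finset.sum_congr rfl fun γ' _ => Finset.sum_congr rfl fun t' _ => ?_
      have h5 : r (γ, t) - r (γ', t') = ((SS γ' : ℤ) - SS γ) + ((t' : ℤ) - t) := by
        rw [hr]; ring
      rw [h5]
      rfl
    have hd2 : ∑ i ∈ Ic c, (1 : ℝ) / q i =
        ∑ γ ∈ cf3 s m n, ∑ t ∈ U γ, (1 : ℝ) / ((PP γ * t - 1 : ℕ) : ℝ) := by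
      rw [hIc, hIdef]
      dsimp only
      rw [gI_filter_sum]
    set Mc : ℝ := ∑ i ∈ Ic c, (1 : ℝ) / q i with hMcdef
    have hMcK : A / K ≤ Mc := hMc c hcR
    have hMcG : 2 * G ≤ Mc := h2G c hcR
    have hmnr : (0 : ℝ) ≤ 4 * m * n := by positivity
    have hlogT : Real.log T ≤ 4 * m * n := by
      rw [hT]
      push_cast
      rw [Real.log_pow]
      push_cast
      have h7 : Real.log 2 ≤ 1 := by
        have := Real.log_le_sub_one_of_pos (show (0 : ℝ) < 2 by norm_num)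
        linarith
      nlinarith
    have hlogT0 : 0 ≤ Real.log T := Real.log_nonneg (by exact_mod_cast hT1)
    have hK5 : (64 : ℝ) * (1 + 4 * m * n) * K ≤ 2 ^ m := by
      exact_mod_cast K5 hm40 hnm hKN
    have hK1 : (1 : ℝ) ≤ K := by
      have h4 : 0 < K := by exact_mod_cast hKpos
      exact_mod_cast h4
    have hδ1 : 16 * (1 + 4 * (m : ℝ) * n) / 2 ^ m ≤ 1 := by
      rw [div_le_one (by positivity)]
      nlinarith
    have hp := pairs3 hO hD (δ := 16 * (1 + 4 * (m : ℝ) * n) / 2 ^ m)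
      (h := 2 * u) (cf3 s m n) hδ1 hw2 hT2 hBw hBh
      (fun γ hγ => ⟨hP2 γ hγ, (hsz γ hγ).2.1, (hsz γ hγ).2.2, by
        have hP := hPpos γ hγ
        have h8 : ((2 : ℝ) ^ m) ≤ PP γ := by exact_mod_cast (hsz γ hγ).1
        exact div_le_div₀ (by positivity) (by linarith) (by positivity) h8⟩)
      U (fun γ _ => Finset.filter_subset _ _)
    rw [← hd1, ← hd2, ← hAdef, ← hEdef] at hp
    refine hp.trans ?_
    have hMc0 : 0 < Mc := lt_of_lt_of_le (by positivity) hMcG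
    have t1 : Mc ≤ Mc ^ 2 / (2 * G) := by
      rw [le_div_iff₀ (by positivity)]
      nlinarith
    have hAK : A ≤ Mc * K := by rwa [div_le_iff₀ hKpos] at hMcK
    have t2 : 16 * (1 + 4 * (m : ℝ) * n) / 2 ^ m * A ≤ Mc ^ 2 / (8 * G) := by
      have h2 : 16 * (1 + 4 * (m : ℝ) * n) / 2 ^ m * A ≤ Mc / 4 := by
        rw [div_mul_eq_mul_div, div_le_iff₀ (by positivity)]
        calc 16 * (1 + 4 * (m : ℝ) * n) * A ≤
            16 * (1 + 4 * (m : ℝ) * n) * (Mc * K) :=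
              mul_le_mul_of_nonneg_left hAK (by positivity)
          _ = Mc / 4 * (64 * (1 + 4 * m * n) * K) := by ring
          _ ≤ Mc / 4 * 2 ^ m := mul_le_mul_of_nonneg_left hK5 (by positivity)
      refine h2.trans ?_
      rw [le_div_iff₀ (by positivity)]
      nlinarith
    have t3 : 32 * 2 ^ (2 * u) / w * A ^ 2 ≤ Mc ^ 2 / (8 * G) := by
      have h1 : (32 : ℝ) * 2 ^ (2 * u) * (8 * G) * (K : ℝ) ^ 2 ≤ w := by
        rw [hGdef, hw]
        exact_mod_cast K4 hn16 hKN hJ2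
      have h2 : A ^ 2 ≤ Mc ^ 2 * (K : ℝ) ^ 2 := by
        calc A ^ 2 ≤ (Mc * K) ^ 2 := pow_le_pow_left₀ hApos.le hAK 2
          _ = _ := by ring
      rw [le_div_iff₀ (by positivity), div_mul_eq_mul_div, div_mul_eq_mul_div,
        div_le_iff₀ hwpos]
      calc 32 * 2 ^ (2 * u) * A ^ 2 * (8 * G) ≤
          32 * 2 ^ (2 * u) * (Mc ^ 2 * (K : ℝ) ^ 2) * (8 * G) := by gcongr
        _ = Mc ^ 2 * (32 * 2 ^ (2 * u) * (8 * G) * (K : ℝ) ^ 2) := by ring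
        _ ≤ Mc ^ 2 * w := mul_le_mul_of_nonneg_left h1 (by positivity)
    have t5 : 3 * E ≤ Mc ^ 2 / (4 * G) := by
      have h1 : (6 : ℝ) * K ≤ 2 ^ (m / 4) := by exact_mod_cast K5b hm40 hnm hKN
      have h2 : 3 * E ≤ Mc / 2 := by
        have h3 : 3 * E ≤ 3 * (A / 2 ^ (m / 4)) := by linarith
        refine h3.trans ?_
        rw [← mul_div_assoc, div_le_iff₀ (by positivity)]
        calc 3 * A ≤ 3 * (Mc * K) := by linarith
          _ = Mc / 2 * (6 * K) := by ring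
          _ ≤ Mc / 2 * 2 ^ (m / 4) := mul_le_mul_of_nonneg_left h1 (by positivity)
      refine h2.trans ?_
      rw [le_div_iff₀ (by positivity)]
      nlinarith
    have t4 : Mc ^ 2 / (2 * G) + Mc ^ 2 / (8 * G) + Mc ^ 2 / (8 * G) + Mc ^ 2 / (4 * G) =
        1 / G * Mc ^ 2 := by
      field_simp
      norm_num
    linarith
  -- the number of indices
  have hcardI : (I.card : ℝ) ≤ T * (B * A) := by
    have h3 : (I.card : ℝ) = ∑ i ∈ I, (1 : ℝ) := by simp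
    rw [h3, hIdef, gI_sum, hAdef, Finset.mul_sum, Finset.mul_sum]
    apply Finset.sum_le_sum
    intro γ hγ
    have hP := hPpos γ hγ
    have h4 : ∑ t ∈ RR w T (PP γ), (1 : ℝ) = (RR w T (PP γ)).card := by simp
    rw [h4]
    have h4' : ((RR w T (PP γ)).card : ℝ) ≤ T := by
      have h3 : (RR w T (PP γ)).card ≤ (Ico T (2 * T)).card := Finset.card_filter_le _ _
      rw [Nat.card_Ico] at h3
      have h4 : (RR w T (PP γ)).card ≤ T := by omega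
      exact_mod_cast h4
    refine h4'.trans ?_
    have h5 : (PP γ : ℝ) ≤ B := by exact_mod_cast (hsz γ hγ).2.1
    have h6 : (1 : ℝ) ≤ B * (1 / PP γ) := by
      rw [mul_one_div, le_div_iff₀ hP]
      linarith
    calc (T : ℝ) = T * 1 := (mul_one _).symm
      _ ≤ _ := mul_le_mul_of_nonneg_left h6 hTpos.le
  have hL : ∀ c < R, (1 + ((Ic c).card : ℝ) / ∑ i ∈ Ic c, (1 : ℝ) / q i) ^ 2 ≤
      2 ^ (16 * m * n) := by
    intro c hcR
    have h1 : ((Ic c).card : ℝ) ≤ I.card := by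
      exact_mod_cast Finset.card_filter_le _ _
    have h2 : ((Ic c).card : ℝ) / (∑ i ∈ Ic c, (1 : ℝ) / q i) ≤ T * B * K := by
      rw [div_le_iff₀ (hMcpos c hcR)]
      have h3 := hMc c hcR
      rw [div_le_iff₀ hKpos] at h3
      calc ((Ic c).card : ℝ) ≤ T * (B * A) := h1.trans hcardI
        _ ≤ T * (B * ((∑ i ∈ Ic c, (1 : ℝ) / q i) * K)) := by gcongr
        _ = _ := by ring
    have h3 : (1 : ℝ) ≤ T * B * K := by
      have h4 : 1 ≤ T * B * K := Nat.mul_pos (Nat.mul_pos hT1 hB1) (by exact_mod_cast hKpos)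
      exact_mod_cast h4
    have h4 : 0 ≤ ((Ic c).card : ℝ) / ∑ i ∈ Ic c, (1 : ℝ) / q i :=
      div_nonneg (Nat.cast_nonneg _) (hMcpos c hcR).le
    calc (1 + ((Ic c).card : ℝ) / ∑ i ∈ Ic c, (1 : ℝ) / q i) ^ 2 ≤
        (2 * (T * B * K)) ^ 2 := pow_le_pow_left₀ (by linarith) (by linarith) 2
      _ ≤ 2 ^ (16 * m * n) := by
        have h5 := K6 hm40 hn16 hKN
        rw [hT, hBdef]
        exact_mod_cast h5
  have hgr := hG (Cf n × ℕ) R X Ic q r (1 / G) (2 ^ (16 * m * n))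
    (fun c _ i hi => hq1 i (Finset.mem_filter.mp hi).1) hcop hMcpos hdbl hL
  -- the sets
  have hsub : ((range X).filter fun k => n + 2 ≤ k ∧
      ((hits3 s m n T k).card : ℝ) ≤ 2 ^ (n / 4)) ⊆
      (range X).filter fun k : ℕ => ∀ c < R,
        (((Ic c).filter fun i => (q i : ℤ) ∣ (k : ℤ) - r i).card : ℝ) ≤
          (∑ i ∈ Ic c, (1 : ℝ) / q i) / 2 := by
    intro k hk
    rw [mem_filter] at hk ⊢
    obtain ⟨h3, h4, h5⟩ := hk
    refine ⟨h3, fun c hcR => ?_⟩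
    have h6 : ((Ic c).filter fun i => (q i : ℤ) ∣ (k : ℤ) - r i) ⊆ hits3 s m n T k := by
      intro i hi
      rw [mem_filter] at hi
      obtain ⟨h7, h8⟩ := hi
      rw [hits3, mem_filter]
      rw [hIc, mem_filter, hIdef, gI, mem_filter] at h7
      refine ⟨h7.1.1, ?_⟩
      have h9 : (k : ℤ) - r i = ((k + SS i.1 + i.2 - (n + 2) : ℕ) : ℤ) := by
        rw [hr]
        dsimp only
        rw [Nat.cast_sub (by omega)]
        push_cast
        ring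
      rw [h9] at h8
      exact_mod_cast h8
    have h7 : (((Ic c).filter fun i => (q i : ℤ) ∣ (k : ℤ) - r i).card : ℝ) ≤
        ((hits3 s m n T k).card : ℝ) := by
      exact_mod_cast Finset.card_le_card h6
    have h8 := h2G c hcR
    linarith
  have hfin : (((range X).filter fun k => n + 2 ≤ k ∧
      ((hits3 s m n T k).card : ℝ) ≤ 2 ^ (n / 4)).card : ℝ) ≤
      4 ^ R * (X * (1 / G) ^ R + (2 ^ (16 * m * n)) ^ R) := by
    refine le_trans ?_ hgr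
    exact_mod_cast Finset.card_le_card hsub
  refine hfin.trans ?_
  have hXr : (0 : ℝ) ≤ X := Nat.cast_nonneg X
  have f1 : (4 : ℝ) ^ R * (1 / G) ^ R ≤ 1 / 2 ^ (n / 8 * R) := by
    have hn8 : 2 + n / 8 ≤ n / 4 := by omega
    have g1 : (1 : ℝ) / 2 ^ (n / 8 * R) = (1 / 2 ^ (n / 8)) ^ R := by
      rw [one_div_pow, ← pow_mul]
    rw [← mul_pow, g1]
    refine pow_le_pow_left₀ (by positivity) ?_ R
    rw [hGdef, mul_one_div, div_le_div_iff₀ (by positivity) (by positivity)]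
    calc (4 : ℝ) * 2 ^ (n / 8) = 2 ^ (2 + n / 8) := by rw [pow_add]; norm_num
      _ ≤ 2 ^ (n / 4) := pow_le_pow_right₀ (by norm_num) hn8
      _ = 1 * 2 ^ (n / 4) := (one_mul _).symm
  have f2 : (4 : ℝ) ^ R * (2 ^ (16 * m * n)) ^ R ≤ 2 ^ (17 * m * n * R) := by
    rw [← mul_pow, pow_mul _ (17 * m * n)]
    apply pow_le_pow_left₀ (by positivity)
    calc (4 : ℝ) * 2 ^ (16 * m * n) = 2 ^ (2 + 16 * m * n) := by
          rw [pow_add]; norm_num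
      _ ≤ 2 ^ (17 * m * n) := pow_le_pow_right₀ (by norm_num) (by omega)
  have g2 : (4 : ℝ) ^ R * ((X : ℝ) * (1 / G) ^ R + (2 ^ (16 * m * n)) ^ R) =
      (X : ℝ) * ((4 : ℝ) ^ R * (1 / G) ^ R) + (4 : ℝ) ^ R * (2 ^ (16 * m * n)) ^ R := by
    ring
  have g3 : (X : ℝ) / 2 ^ (n / 8 * R) = (X : ℝ) * (1 / 2 ^ (n / 8 * R)) := by rw [mul_one_div]
  rw [g2, g3]
  exact add_le_add (mul_le_mul_of_nonneg_left f1 hXr) f2

end Pool.Agent.Lib.MP_85a137_nt
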