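import Pool.Agent.Lib.MP_85a137_nt.Spec4
import Pool.Agent.Lib.MP_85a137_nt.Mom3

/-!
MP_85a137_nt: the moment computation for the fourth version, in arithmetic progressions.
-/

set_option autoImplicit false

namespace Pool.Agent.Lib.MP_85a137_nt

open Finset Mom2M Mom3M

private lemma m4K3 {n v K : ℕ} (hn : 16 ≤ n) (hv : 1 ≤ v) (hK : K ≤ 2 ^ (n / 2)) :
    2 * 2 ^ (v * n / 4) * K ≤ 2 ^ (v * n) := by
  have h1 : n ≤ v * n := Nat.le_mul_of_pos_left _ hv
  calc 2 * 2 ^ (v * n / 4) * K ≤ 2 * 2 ^ (v * n / 4) * 2 ^ (n / 2) := Nat.mul_le_mul_left _ hK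
    _ = 2 ^ (1 + v * n / 4 + n / 2) := by ring
    _ ≤ 2 ^ (v * n) := Nat.pow_le_pow_right (by norm_num) (by omega)

private lemma m4K4 {n v K u J : ℕ} (hn : 16 ≤ n) (hv : 1 ≤ v) (hK : K ≤ 2 ^ (n / 2))
    (hJ : 2 * u + 2 * v * n + 7 ≤ J) :
    32 * 2 ^ (2 * u) * (8 * 2 ^ (v * n / 4)) * K ^ 2 ≤ 2 ^ J := by
  have h1 : n ≤ v * n := Nat.le_mul_of_pos_left _ hv
  have h2 : 2 * v * n = 2 * (v * n) := by ring
  have e1 : K ^ 2 ≤ 2 ^ n := by
    calc K ^ 2 ≤ (2 ^ (n / 2)) ^ 2 := Nat.pow_le_pow_left hK 2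
      _ = 2 ^ (n / 2 * 2) := by rw [← pow_mul]
      _ ≤ 2 ^ n := Nat.pow_le_pow_right (by norm_num) (by omega)
  calc 32 * 2 ^ (2 * u) * (8 * 2 ^ (v * n / 4)) * K ^ 2 ≤
      32 * 2 ^ (2 * u) * (8 * 2 ^ (v * n / 4)) * 2 ^ n := Nat.mul_le_mul_left _ e1
    _ = 2 ^ (8 + 2 * u + v * n / 4 + n) := by ring
    _ ≤ 2 ^ J := Nat.pow_le_pow_right (by norm_num) (by omega)

/-- a power of `J` against `2^(J/2)` -/
private lemma m4J : ∃ J₁ : ℕ, ∀ J : ℕ, J₁ ≤ J → 16 * J ^ 10 ≤ 2 ^ (J / 2) := by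
  have h := (tendsto_pow_const_mul_const_pow_of_abs_lt_one 10 (r := (1 / Real.sqrt 2 : ℝ))
    (by
      have h2 : 1 < Real.sqrt 2 := by
        rw [Real.lt_sqrt (by norm_num)]
        norm_num
      rw [abs_of_pos (by positivity), div_lt_one (by positivity)]
      exact h2)).eventually_lt_const (show (0 : ℝ) < 1 / 32 by norm_num)
  obtain ⟨J₁, hJ₁⟩ := Filter.eventually_atTop.1 h
  refine ⟨J₁, fun J hJ => ?_⟩
  have h1 := hJ₁ J hJ
  have hs : (0 : ℝ) < Real.sqrt 2 := by positivity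
  rw [one_div, inv_pow, ← div_eq_mul_inv, div_lt_div_iff₀ (by positivity) (by norm_num), one_mul] at h1
  have h2 : Real.sqrt 2 ^ J ≤ 2 * 2 ^ (J / 2) := by
    have h3 : J ≤ 2 * (J / 2) + 1 := by omega
    have h4 : (1 : ℝ) ≤ Real.sqrt 2 := by
      rw [Real.one_le_sqrt]
      norm_num
    calc Real.sqrt 2 ^ J ≤ Real.sqrt 2 ^ (2 * (J / 2) + 1) := pow_le_pow_right₀ h4 h3
      _ = Real.sqrt 2 * 2 ^ (J / 2) := by
        rw [pow_succ, pow_mul, Real.sq_sqrt (by norm_num)]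
        ring
      _ ≤ 2 * 2 ^ (J / 2) := by
        apply mul_le_mul_of_nonneg_right _ (by positivity)
        rw [Real.sqrt_le_left (by norm_num)]
        norm_num
  have h5 : (16 : ℝ) * (J : ℝ) ^ 10 ≤ 2 ^ (J / 2) := by linarith
  exact_mod_cast h5

/-- the number of the prime factors -/
private lemma m4P {Q E : ℕ} (hQ : 1 ≤ Q) (h : Q < 2 ^ E) : Q.primeFactors.card ≤ E := by
  have h1 : 2 ^ Q.primeFactors.card ≤ ∏ p ∈ Q.primeFactors, p := by
    rw [← Finset.prod_const]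
    exact Finset.prod_le_prod' fun p hp => (Nat.prime_of_mem_primeFactors hp).two_le
  have h2 : ∏ p ∈ Q.primeFactors, p ≤ Q := Nat.le_of_dvd hQ (Nat.prod_primeFactors_dvd Q)
  have h3 : 2 ^ Q.primeFactors.card < 2 ^ E := by omega
  exact ((Nat.pow_lt_pow_iff_right (by norm_num)).1 h3).le

open Classical in
/-- the part of the family which is not prime to `Q` -/
private lemma m4rem {ι : Type} (I : Finset ι) (q : ι → ℕ) (Q E : ℕ) (η : ℝ) (hη0 : 0 ≤ η)
    (hQ : 1 ≤ Q) (hQE : Q < 2 ^ E)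
    (hη : ∀ p : ℕ, p.Prime → ∑ j ∈ I.filter (fun j => p ∣ q j), (1 : ℝ) / q j ≤ η) :
    ∑ i ∈ I.filter (fun i => ¬ Nat.Coprime (q i) Q), (1 : ℝ) / q i ≤ E * η := by
  calc ∑ i ∈ I.filter (fun i => ¬ Nat.Coprime (q i) Q), (1 : ℝ) / q i
      ≤ ∑ i ∈ I.filter (fun i => ¬ Nat.Coprime (q i) Q), ∑ p ∈ Q.primeFactors,
          (if p ∣ q i then (1 : ℝ) / q i else 0) := by
        refine Finset.sum_le_sum fun i hi => ?_
        rw [mem_filter] at hi
        obtain ⟨p, hp, h2, h3⟩ := Nat.Prime.not_coprime_iff_dvd.1 hi.2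
        have h4 : p ∈ Q.primeFactors := Nat.mem_primeFactors.2 ⟨hp, h3, by omega⟩
        refine le_trans (le_of_eq ?_) (Finset.single_le_sum (f := fun p : ℕ =>
          if p ∣ q i then (1 : ℝ) / q i else 0) (fun p _ => ?_) h4)
        · rw [if_pos h2]
        · split_ifs
          · positivity
          · exact le_rfl
    _ ≤ ∑ i ∈ I, ∑ p ∈ Q.primeFactors, (if p ∣ q i then (1 : ℝ) / q i else 0) := by
        refine Finset.sum_le_sum_of_subset_of_nonneg (Finset.filter_subset _ _) fun i _ _ =>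
          Finset.sum_nonneg fun p _ => ?_
        split_ifs
        · positivity
        · exact le_rfl
    _ = ∑ p ∈ Q.primeFactors, ∑ i ∈ I.filter (fun j => p ∣ q j), (1 : ℝ) / q i := by
        rw [Finset.sum_comm]
        refine Finset.sum_congr rfl fun p _ => ?_
        rw [Finset.sum_filter]
    _ ≤ ∑ p ∈ Q.primeFactors, η := Finset.sum_le_sum fun p hp =>
        hη p (Nat.prime_of_mem_primeFactors hp)
    _ = Q.primeFactors.card * η := by rw [Finset.sum_const, nsmul_eq_mul]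
    _ ≤ E * η := by
        apply mul_le_mul_of_nonneg_right _ hη0
        exact_mod_cast m4P hQ hQE

open Classical in
theorem tMom4 (hZ : StmtSize3) (hB : StmtBrunG) (hO : StmtOff) (hD : StmtDiag)
    (hC : StmtColor) (hG : StmtGroup) : StmtMom4 := by
  obtain ⟨J₀, hB⟩ := hB
  obtain ⟨J₁, hJ₁⟩ := m4J
  refine ⟨max (max J₀ J₁) 40, fun s m n v J u R X Q b hm hJ0 hn16 hv1 hnm hsn hJ1 hJu hJ2 hR1 hcolN hKN
    hQ1 hQJ hA hE => ?_⟩
  have hm40 : 40 ≤ m := le_trans (le_max_right _ _) hm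
  have hJ : J₀ ≤ J := le_trans (le_trans (le_max_left _ _) (le_max_left _ _)) hJ0
  have hJJ : 16 * J ^ 10 ≤ 2 ^ (J / 2) :=
    hJ₁ J (le_trans (le_trans (le_max_right _ _) (le_max_left _ _)) hJ0)
  have hvn : n ≤ v * n := Nat.le_mul_of_pos_left _ hv1
  have e2v : 2 * v * n = 2 * (v * n) := by ring
  have hJ40 : 40 ≤ J := le_trans (le_max_right _ _) hJ0
  have hn1 : 1 ≤ n := by omega
  have hm1 : 1 ≤ m := by omega
  have hmn : n ≤ m * n := Nat.le_mul_of_pos_left _ (by omega)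
  have e4 : 4 * m * n = 4 * (m * n) := by ring
  have e3 : 3 * m * n = 3 * (m * n) := by ring
  have e7 : 7 * m * n = 7 * (m * n) := by ring
  have e16 : 16 * m * n = 16 * (m * n) := by ring
  have e17 : 17 * m * n = 17 * (m * n) := by ring
  have hJmn : J ≤ m * n := by
    have h1 : 100 * J * 1 ≤ 100 * J * (Nat.log 2 J + 1) := Nat.mul_le_mul_left _ (by omega)
    omega
  have hsz := hZ s m n hm1 hn1 hsn
  set w : ℕ := 2 ^ J with hw
  set T : ℕ := 2 ^ (4 * m * n) with hT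
  set B : ℕ := 2 ^ (3 * m * n) with hBdef
  set A : ℝ := ∑ γ ∈ cf3 s m n, (1 : ℝ) / PP γ with hAdef
  set E : ℝ := ∑ γ ∈ cf3 s m n, ∑ γ' ∈ cf3 s m n,
    (if γ' ≠ γ ∧ PP γ' = PP γ ∧ SS γ' = SS γ then (1 : ℝ) / PP γ else 0) with hEdef
  have hTJ : 2 ^ (100 * J * (Nat.log 2 J + 1)) ≤ T := Nat.pow_le_pow_right (by norm_num) hJ1
  have hA1 : (1 : ℝ) ≤ A := le_trans (one_le_pow₀ (by norm_num)) hA
  have hApos : 0 < A := by linarith
  have hw2 : 2 ≤ w := by
    rw [hw]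
    calc 2 = 2 ^ 1 := by norm_num
      _ ≤ 2 ^ J := Nat.pow_le_pow_right (by norm_num) (by omega)
  have hwpos : (0 : ℝ) < w := by exact_mod_cast (by omega : 0 < w)
  have hBw : B * w ≤ T := by
    rw [hBdef, hw, hT, ← pow_add]
    exact Nat.pow_le_pow_right (by norm_num) (by omega)
  have hB1 : 1 ≤ B := Nat.one_le_two_pow
  have hwT : w ≤ T := le_trans (by nlinarith) hBw
  have hT2 : 2 ≤ T := le_trans hw2 hwT
  have hT1 : 1 ≤ T := by omega
  have hTpos : (0 : ℝ) < T := by exact_mod_cast (by omega : 0 < T)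
  have hBh : 2 * B ^ 3 < w ^ (2 * u + 1) := by
    rw [hBdef, hw, ← pow_mul, ← pow_mul, ← pow_succ']
    apply Nat.pow_lt_pow_right (by norm_num)
    have h5 : J * (2 * u + 1) = 2 * (J * u) + J := by ring
    rw [h5]
    omega
  have hP2 : ∀ γ ∈ cf3 s m n, 2 ≤ PP γ := by
    intro γ hγ
    refine le_trans ?_ (hsz γ hγ).1
    calc 2 = 2 ^ 1 := by norm_num
      _ ≤ 2 ^ m := Nat.pow_le_pow_right (by norm_num) (by omega)
  have hPpos : ∀ γ ∈ cf3 s m n, (0 : ℝ) < PP γ := fun γ hγ => by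
    have := hP2 γ hγ
    exact_mod_cast (by omega : 0 < PP γ)
  -- the moduli
  set q : Cf n × ℕ → ℕ := fun i => PP i.1 * i.2 - 1 with hq
  set r : Cf n × ℕ → ℤ := fun i => ((n : ℤ) + 2) - SS i.1 - i.2 with hr
  have hex : ∀ i : Cf n × ℕ, ∃ r' : ℤ, Nat.Coprime (q i) Q →
      (q i : ℤ) ∣ (Q : ℤ) * r' - (r i - b) := by
    intro i
    by_cases hi : Nat.Coprime (q i) Q
    · obtain ⟨c, e, hce⟩ := (Nat.isCoprime_iff_coprime.2 hi : IsCoprime (q i : ℤ) (Q : ℤ))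
      refine ⟨e * (r i - b), fun _ => ⟨-(c * (r i - b)), ?_⟩⟩
      have h1 : (Q : ℤ) * (e * (r i - b)) - (r i - b) = (e * Q - 1) * (r i - b) := by ring
      rw [h1, show e * (Q : ℤ) - 1 = -(c * q i) by linarith]
      ring
    · exact ⟨0, fun h => absurd h hi⟩
  choose r' hr' using hex
  set I₀ := gI (cf3 s m n) w T with hI₀def
  have hmemI₀ : ∀ i ∈ I₀, i.1 ∈ cf3 s m n ∧ T ≤ i.2 ∧ i.2 < 2 * T ∧ Rough w (q i) := by
    intro i hi
    rw [hI₀def, gI, mem_filter, mem_product, mem_Ico] at hi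
    exact ⟨hi.1.1, hi.1.2.1, hi.1.2.2, hi.2⟩
  set I := I₀.filter (fun i => Nat.Coprime (q i) Q) with hIdef
  have hII : I ⊆ I₀ := Finset.filter_subset _ _
  have hmemI : ∀ i ∈ I, i.1 ∈ cf3 s m n ∧ T ≤ i.2 ∧ i.2 < 2 * T ∧ Rough w (q i) :=
    fun i hi => hmemI₀ i (hII hi)
  have hcopI : ∀ i ∈ I, Nat.Coprime (q i) Q := fun i hi => (mem_filter.1 hi).2
  have hPt : ∀ γ ∈ cf3 s m n, ∀ t, T ≤ t → 4 ≤ PP γ * t ∧ PP γ * T ≤ PP γ * t := by
    intro γ hγ t ht
    refine ⟨?_, Nat.mul_le_mul_left _ ht⟩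
    calc 4 = 2 * 2 := by norm_num
      _ ≤ PP γ * t := Nat.mul_le_mul (hP2 γ hγ) (le_trans hT2 ht)
  have hq1 : ∀ i ∈ I, 1 ≤ q i := by
    intro i hi
    obtain ⟨h1, h3, _, _⟩ := hmemI i hi
    have h4 := hPt i.1 h1 i.2 h3
    rw [hq]
    dsimp only
    omega
  have hqpos : ∀ i ∈ I, (0 : ℝ) < q i := fun i hi => by
    have := hq1 i hi
    exact_mod_cast (by omega : 0 < q i)
  have hRRmem : ∀ P, ∀ t ∈ RR w T P, T ≤ t ∧ t < 2 * T := by
    intro P t ht
    rw [RR, mem_filter, mem_Ico] at ht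
    exact ht.1
  have hJr : (0 : ℝ) < J := by exact_mod_cast (by omega : 0 < J)
  -- lower bound for `M`
  set M₀ : ℝ := ∑ i ∈ I₀, (1 : ℝ) / q i with hM₀
  have hM₀low : A / (2 * (J : ℝ) ^ 10) ≤ M₀ := by
    rw [hM₀, hI₀def, gI_sum, hAdef, Finset.sum_div]
    apply Finset.sum_le_sum
    intro γ hγ
    have hP := hPpos γ hγ
    have h3 : ∀ t ∈ RR w T (PP γ), (1 : ℝ) / (PP γ * (2 * T)) ≤ (1 : ℝ) / (q (γ, t)) := by
      intro t ht
      obtain ⟨h4, h5⟩ := hRRmem _ t ht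
      have h6 := hPt γ hγ t h4
      have h7 : 0 < PP γ * t - 1 := by omega
      apply one_div_le_one_div_of_le (by exact_mod_cast h7)
      have h8 : PP γ * t - 1 ≤ PP γ * (2 * T) :=
        le_trans (Nat.sub_le _ _) (Nat.mul_le_mul_left _ h5.le)
      exact_mod_cast h8
    have h4 := Finset.card_nsmul_le_sum _ _ _ h3
    rw [nsmul_eq_mul] at h4
    refine le_trans ?_ h4
    have h5 := hB J (PP γ) T hJ (le_trans (by norm_num) (hP2 γ hγ)) hTJ
    calc 1 / (PP γ : ℝ) / (2 * (J : ℝ) ^ 10) =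
        (T : ℝ) / (J : ℝ) ^ 10 * (1 / (PP γ * (2 * T))) := by
          field_simp
      _ ≤ _ := mul_le_mul_of_nonneg_right h5 (by positivity)
  -- every prime divides few of the moduli
  have hη₀ : ∀ p : ℕ, p.Prime → ∑ j ∈ I₀.filter (fun j => p ∣ q j), (1 : ℝ) / q j ≤ 4 * A / w := by
    intro p hp
    by_cases hpw : p ≤ w
    · rw [Finset.filter_false_of_mem, Finset.sum_empty]
      · positivity
      · intro i hi hpi
        exact (hmemI₀ i hi).2.2.2 p hp hpw hpi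
    rw [not_le] at hpw
    have hp0 : 0 < p := hp.pos
    have hpr : (w : ℝ) ≤ p := by exact_mod_cast hpw.le
    have hTr : (w : ℝ) ≤ T := by exact_mod_cast hwT
    rw [hI₀def, gI_filter_sum, hAdef, Finset.mul_sum, Finset.sum_div]
    refine Finset.sum_le_sum fun γ hγ => ?_
    have hP := hPpos γ hγ
    have h5 := Off.sum_dvd_le (PP γ) T p hp0 (hP2 γ hγ) hT1
    rw [← Finset.sum_filter] at h5
    have h6 : (RR w T (PP γ)).filter (fun t => p ∣ q (γ, t)) ⊆
        (Ico T (2 * T)).filter (fun t => p ∣ PP γ * t - 1) := by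
      intro t ht
      rw [mem_filter] at ht ⊢
      obtain ⟨h7, h8⟩ := ht
      rw [RR, mem_filter] at h7
      exact ⟨h7.1, h8⟩
    refine (Finset.sum_le_sum_of_subset_of_nonneg h6 fun t _ _ => by positivity).trans ?_
    refine h5.trans ?_
    have h7 : (T : ℝ) / p ≤ T / w := div_le_div_of_nonneg_left hTpos.le hwpos hpr
    have h8 : (1 : ℝ) ≤ T / w := by rw [le_div_iff₀ hwpos]; linarith
    calc ((T : ℝ) / p + 1) * (2 / (PP γ * T)) ≤ (T / w + T / w) * (2 / (PP γ * T)) :=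
          mul_le_mul_of_nonneg_right (by linarith) (by positivity)
      _ = 4 * (1 / (PP γ : ℝ)) / w := by field_simp; norm_num
  -- lower bound for the sum over `I`
  set M : ℝ := ∑ i ∈ I, (1 : ℝ) / q i with hM
  have hMlow : A / (4 * (J : ℝ) ^ 10) ≤ M := by
    have h1 := m4rem I₀ q Q (2 ^ (J / 2)) (4 * A / w) (by positivity) hQ1 hQJ hη₀
    have h2 := Finset.sum_filter_add_sum_filter_not I₀ (fun i => Nat.Coprime (q i) Q)
      (fun i => (1 : ℝ) / q i)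
    have h3 : (((2 ^ (J / 2) : ℕ)) : ℝ) * (4 * A / w) ≤ A / (4 * (J : ℝ) ^ 10) := by
      have h4 : (16 : ℝ) * (J : ℝ) ^ 10 ≤ 2 ^ (J / 2) := by exact_mod_cast hJJ
      have h5 : (2 : ℝ) ^ (J / 2) * 2 ^ (J / 2) ≤ w := by
        rw [hw]
        push_cast
        rw [← pow_add]
        exact pow_le_pow_right₀ (by norm_num) (by omega)
      have h6 : (0 : ℝ) < 2 ^ (J / 2) := by positivity
      push_cast
      rw [mul_div_assoc', div_le_div_iff₀ hwpos (by positivity)]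
      calc (2 : ℝ) ^ (J / 2) * (4 * A) * (4 * (J : ℝ) ^ 10) =
          A * (2 ^ (J / 2) * (16 * (J : ℝ) ^ 10)) := by ring
        _ ≤ A * (2 ^ (J / 2) * 2 ^ (J / 2)) := by
          apply mul_le_mul_of_nonneg_left _ hApos.le
          exact mul_le_mul_of_nonneg_left h4 h6.le
        _ ≤ A * w := mul_le_mul_of_nonneg_left h5 hApos.le
    have h7 : A / (2 * (J : ℝ) ^ 10) = A / (4 * (J : ℝ) ^ 10) + A / (4 * (J : ℝ) ^ 10) := by
      field_simp
      norm_num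
    have h8 : M + ∑ i ∈ I₀.filter (fun i => ¬ Nat.Coprime (q i) Q), (1 : ℝ) / q i = M₀ := h2
    linarith
  have hMpos : 0 < M := lt_of_lt_of_le (by positivity) hMlow
  -- the number of prime factors
  have hu : ∀ i ∈ I, (q i).primeFactors.card ≤ u := by
    intro i hi
    obtain ⟨h1, h2, h3, h4⟩ := hmemI i hi
    refine card_primeFactors_le hw2 (hq1 i hi) h4 ?_
    have h5 : PP i.1 ≤ B := (hsz i.1 h1).2.1
    have h6 : PP i.1 * i.2 ≤ B * (2 * T) := Nat.mul_le_mul h5 h3.le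
    have h7 : B * (2 * T) ≤ w ^ u := by
      rw [hBdef, hT, hw, ← pow_mul]
      calc 2 ^ (3 * m * n) * (2 * 2 ^ (4 * m * n)) = 2 ^ (3 * m * n + 1 + 4 * m * n) := by ring
        _ ≤ 2 ^ (J * u) := by
          apply Nat.pow_le_pow_right (by norm_num)
          omega
    have h8 := hPt i.1 h1 i.2 h2
    have h9 : q i = PP i.1 * i.2 - 1 := rfl
    omega
  have hη : ∀ i ∈ I, ∀ p ∈ (q i).primeFactors,
      ∑ j ∈ I.filter (fun j => p ∣ q j), (1 : ℝ) / q j ≤ 4 * A / w := by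
    intro i hi p hp
    refine le_trans (Finset.sum_le_sum_of_subset_of_nonneg (Finset.filter_subset_filter _ hII)
      fun j _ _ => by positivity) (hη₀ p (Nat.prime_of_mem_primeFactors hp))
  -- the colouring
  have hcol : 4 * (u : ℝ) * (4 * A / w) * (R : ℝ) ^ (2 * u + 1) < M := by
    refine lt_of_lt_of_le ?_ hMlow
    have h1 : ((64 * u * J ^ 10 * R ^ (2 * u + 1) : ℕ) : ℝ) < (w : ℝ) := by
      exact_mod_cast hcolN
    push_cast at h1
    rw [lt_div_iff₀ (by positivity)]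
    calc 4 * (u : ℝ) * (4 * A / w) * (R : ℝ) ^ (2 * u + 1) * (4 * (J : ℝ) ^ 10) =
        (64 * (u : ℝ) * (J : ℝ) ^ 10 * (R : ℝ) ^ (2 * u + 1)) * (A / w) := by ring
      _ < (w : ℝ) * (A / w) := mul_lt_mul_of_pos_right h1 (by positivity)
      _ = A := by field_simp
  obtain ⟨χ, hχ, hχM⟩ := hC (Cf n × ℕ) I q R u (4 * A / w) hR1 hq1 hu hη hcol
  set Ic : ℕ → Finset (Cf n × ℕ) := fun c => I.filter (fun i => ∀ p ∈ (q i).primeFactors, χ p = c)
    with hIc
  set K : ℕ := 8 * J ^ 10 * R ^ u with hKdef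
  have hRpos : (0 : ℝ) < R := by exact_mod_cast (by omega : 0 < R)
  have hKpos : (0 : ℝ) < (K : ℝ) := by
    rw [hKdef]
    push_cast
    positivity
  set G : ℝ := 2 ^ (v * n / 4) with hGdef
  have hGpos : 0 < G := by positivity
  have hMc : ∀ c < R, A / K ≤ ∑ i ∈ Ic c, (1 : ℝ) / q i := by
    intro c hcR
    refine le_trans ?_ (hχM c hcR)
    have h3 : (K : ℝ) = 4 * (J : ℝ) ^ 10 * (2 * (R : ℝ) ^ u) := by
      rw [hKdef]; push_cast; ring
    rw [h3, ← div_div]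
    exact div_le_div_of_nonneg_right hMlow (by positivity)
  have h2G : ∀ c < R, 2 * G ≤ ∑ i ∈ Ic c, (1 : ℝ) / q i := by
    intro c hcR
    refine le_trans ?_ (hMc c hcR)
    rw [le_div_iff₀ hKpos]
    refine le_trans ?_ hA
    have h1 := m4K3 hn16 hv1 hKN
    rw [hGdef]
    exact_mod_cast h1
  have hMcpos : ∀ c < R, 0 < ∑ i ∈ Ic c, (1 : ℝ) / q i := fun c hcR =>
    lt_of_lt_of_le (by positivity) (h2G c hcR)
  have hcop : ∀ c < R, ∀ c' < R, c ≠ c' → ∀ i ∈ Ic c, ∀ j ∈ Ic c', Nat.Coprime (q i) (q j) := by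
    intro c _ c' _ hcc i hi j hj
    rw [hIc, mem_filter] at hi hj
    have hqi := hq1 i hi.1
    have hqj := hq1 j hj.1
    refine Nat.Coprime.symm ?_
    refine Nat.Coprime.symm (Nat.coprime_of_dvd fun p hp h1 h2 => ?_)
    exact hcc ((hi.2 p (Nat.mem_primeFactors.mpr ⟨hp, h1, by omega⟩)).symm.trans
      (hj.2 p (Nat.mem_primeFactors.mpr ⟨hp, h2, by omega⟩)))
  -- the double sums
  have hdbl : ∀ c < R, (∑ i ∈ Ic c, ∑ j ∈ Ic c, if 1 < (q i).gcd (q j) ∧
      (((q i).gcd (q j) : ℕ) : ℤ) ∣ r' i - r' j then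
        (((q i).gcd (q j) : ℕ) : ℝ) / (q i * q j) else 0) ≤
        (1 / G) * (∑ i ∈ Ic c, (1 : ℝ) / q i) ^ 2 := by
    intro c hcR
    have hd0 : (∑ i ∈ Ic c, ∑ j ∈ Ic c, if 1 < (q i).gcd (q j) ∧
      (((q i).gcd (q j) : ℕ) : ℤ) ∣ r' i - r' j then
        (((q i).gcd (q j) : ℕ) : ℝ) / (q i * q j) else 0) ≤
        (∑ i ∈ Ic c, ∑ j ∈ Ic c, if 1 < (q i).gcd (q j) ∧
      (((q i).gcd (q j) : ℕ) : ℤ) ∣ r i - r j then
        (((q i).gcd (q j) : ℕ) : ℝ) / (q i * q j) else 0) := by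
      refine Finset.sum_le_sum fun i hi => Finset.sum_le_sum fun j hj => ?_
      have hi' := hr' i (hcopI i (mem_filter.1 hi).1)
      have hj' := hr' j (hcopI j (mem_filter.1 hj).1)
      by_cases h1 : 1 < (q i).gcd (q j) ∧ (((q i).gcd (q j) : ℕ) : ℤ) ∣ r' i - r' j
      · rw [if_pos h1, if_pos]
        refine ⟨h1.1, ?_⟩
        have h2 : (((q i).gcd (q j) : ℕ) : ℤ) ∣ (q i : ℤ) :=
          Int.natCast_dvd_natCast.2 (Nat.gcd_dvd_left _ _)
        have h3 : (((q i).gcd (q j) : ℕ) : ℤ) ∣ (q j : ℤ) :=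
          Int.natCast_dvd_natCast.2 (Nat.gcd_dvd_right _ _)
        have h4 := ((h1.2.mul_left (Q : ℤ)).sub (h2.trans hi')).add (h3.trans hj')
        have h5 : (Q : ℤ) * (r' i - r' j) - ((Q : ℤ) * r' i - (r i - b)) +
            ((Q : ℤ) * r' j - (r j - b)) = r i - r j := by ring
        rwa [h5] at h4
      · rw [if_neg h1]
        split_ifs
        · positivity
        · exact le_rfl
    refine hd0.trans ?_
    set U : Cf n → Finset ℕ := fun γ => (RR w T (PP γ)).filter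
      (fun t => Nat.Coprime (q (γ, t)) Q ∧ ∀ p ∈ (q (γ, t)).primeFactors, χ p = c) with hU
    have hd1 : (∑ i ∈ Ic c, ∑ j ∈ Ic c, if 1 < (q i).gcd (q j) ∧
      (((q i).gcd (q j) : ℕ) : ℤ) ∣ r i - r j then
        (((q i).gcd (q j) : ℕ) : ℝ) / (q i * q j) else 0) =
        ∑ γ ∈ cf3 s m n, ∑ γ' ∈ cf3 s m n, ∑ t ∈ U γ, ∑ t' ∈ U γ',
          FF (PP γ) (SS γ) t (PP γ') (SS γ') t' := by
      rw [hIc, hIdef, hI₀def]
      dsimp only
      rw [Finset.filter_filter, gI_filter_sum]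
      refine Finset.sum_congr rfl fun γ _ => ?_
      rw [Finset.sum_comm (s := cf3 s m n)]
      refine Finset.sum_congr rfl fun t _ => ?_
      rw [gI_filter_sum]
      refine Finset.sum_congr rfl fun γ' _ => Finset.sum_congr rfl fun t' _ => ?_
      have h5 : r (γ, t) - r (γ', t') = ((SS γ' : ℤ) - SS γ) + ((t' : ℤ) - t) := by
        rw [hr]; ring
      rw [h5]
      rfl
    have hd2 : ∑ i ∈ Ic c, (1 : ℝ) / q i =
        ∑ γ ∈ cf3 s m n, ∑ t ∈ U γ, (1 : ℝ) / ((PP γ * t - 1 : ℕ) : ℝ) := by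
      rw [hIc, hIdef, hI₀def]
      dsimp only
      rw [Finset.filter_filter, gI_filter_sum]
    set Mc : ℝ := ∑ i ∈ Ic c, (1 : ℝ) / q i with hMcdef
    have hMcK : A / K ≤ Mc := hMc c hcR
    have hMcG : 2 * G ≤ Mc := h2G c hcR
    have hmnr : (0 : ℝ) ≤ 4 * m * n := by positivity
    have hlogT : Real.log T ≤ 4 * m * n := by
      rw [hT]
      push_cast
      rw [Real.log_pow]
      push_cast
      have h7 : Real.log 2 ≤ 1 := by
        have := Real.log_le_sub_one_of_pos (show (0 : ℝ) < 2 by norm_num)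
        linarith
      nlinarith
    have hlogT0 : 0 ≤ Real.log T := Real.log_nonneg (by exact_mod_cast hT1)
    have hK5 : (64 : ℝ) * (1 + 4 * m * n) * K ≤ 2 ^ m := by
      exact_mod_cast K5 hm40 hnm hKN
    have hK1 : (1 : ℝ) ≤ K := by
      have h4 : 0 < K := by exact_mod_cast hKpos
      exact_mod_cast h4
    have hδ1 : 16 * (1 + 4 * (m : ℝ) * n) / 2 ^ m ≤ 1 := by
      rw [div_le_one (by positivity)]
      nlinarith
    have hp := pairs3 hO hD (δ := 16 * (1 + 4 * (m : ℝ) * n) / 2 ^ m)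
      (h := 2 * u) (cf3 s m n) hδ1 hw2 hT2 hBw hBh
      (fun γ hγ => ⟨hP2 γ hγ, (hsz γ hγ).2.1, (hsz γ hγ).2.2, by
        have hP := hPpos γ hγ
        have h8 : ((2 : ℝ) ^ m) ≤ PP γ := by exact_mod_cast (hsz γ hγ).1
        exact div_le_div₀ (by positivity) (by linarith) (by positivity) h8⟩)
      U (fun γ _ => Finset.filter_subset _ _)
    rw [← hd1, ← hd2, ← hAdef, ← hEdef] at hp
    refine hp.trans ?_
    have hMc0 : 0 < Mc := lt_of_lt_of_le (by positivity) hMcG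
    have t1 : Mc ≤ Mc ^ 2 / (2 * G) := by
      rw [le_div_iff₀ (by positivity)]
      nlinarith
    have hAK : A ≤ Mc * K := by rwa [div_le_iff₀ hKpos] at hMcK
    have t2 : 16 * (1 + 4 * (m : ℝ) * n) / 2 ^ m * A ≤ Mc ^ 2 / (8 * G) := by
      have h2 : 16 * (1 + 4 * (m : ℝ) * n) / 2 ^ m * A ≤ Mc / 4 := by
        rw [div_mul_eq_mul_div, div_le_iff₀ (by positivity)]
        calc 16 * (1 + 4 * (m : ℝ) * n) * A ≤
            16 * (1 + 4 * (m : ℝ) * n) * (Mc * K) :=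
              mul_le_mul_of_nonneg_left hAK (by positivity)
          _ = Mc / 4 * (64 * (1 + 4 * m * n) * K) := by ring
          _ ≤ Mc / 4 * 2 ^ m := mul_le_mul_of_nonneg_left hK5 (by positivity)
      refine h2.trans ?_
      rw [le_div_iff₀ (by positivity)]
      nlinarith
    have t3 : 32 * 2 ^ (2 * u) / w * A ^ 2 ≤ Mc ^ 2 / (8 * G) := by
      have h1 : (32 : ℝ) * 2 ^ (2 * u) * (8 * G) * (K : ℝ) ^ 2 ≤ w := by
        rw [hGdef, hw]
        exact_mod_cast m4K4 hn16 hv1 hKN hJ2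
      have h2 : A ^ 2 ≤ Mc ^ 2 * (K : ℝ) ^ 2 := by
        calc A ^ 2 ≤ (Mc * K) ^ 2 := pow_le_pow_left₀ hApos.le hAK 2
          _ = _ := by ring
      rw [le_div_iff₀ (by positivity), div_mul_eq_mul_div, div_mul_eq_mul_div,
        div_le_iff₀ hwpos]
      calc 32 * 2 ^ (2 * u) * A ^ 2 * (8 * G) ≤
          32 * 2 ^ (2 * u) * (Mc ^ 2 * (K : ℝ) ^ 2) * (8 * G) := by gcongr
        _ = Mc ^ 2 * (32 * 2 ^ (2 * u) * (8 * G) * (K : ℝ) ^ 2) := by ring
        _ ≤ Mc ^ 2 * w := mul_le_mul_of_nonneg_left h1 (by positivity)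
    have t5 : 3 * E ≤ Mc ^ 2 / (4 * G) := by
      have h1 : (6 : ℝ) * K ≤ 2 ^ (m / 4) := by exact_mod_cast K5b hm40 hnm hKN
      have h2 : 3 * E ≤ Mc / 2 := by
        have h3 : 3 * E ≤ 3 * (A / 2 ^ (m / 4)) := by linarith
        refine h3.trans ?_
        rw [← mul_div_assoc, div_le_iff₀ (by positivity)]
        calc 3 * A ≤ 3 * (Mc * K) := by linarith
          _ = Mc / 2 * (6 * K) := by ring
          _ ≤ Mc / 2 * 2 ^ (m / 4) := mul_le_mul_of_nonneg_left h1 (by positivity)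
      refine h2.trans ?_
      rw [le_div_iff₀ (by positivity)]
      nlinarith
    have t4 : Mc ^ 2 / (2 * G) + Mc ^ 2 / (8 * G) + Mc ^ 2 / (8 * G) + Mc ^ 2 / (4 * G) =
        1 / G * Mc ^ 2 := by
      field_simp
      norm_num
    linarith
  -- the number of indices
  have hcardI : (I.card : ℝ) ≤ T * (B * A) := by
    have h0 : (I.card : ℝ) ≤ I₀.card := by exact_mod_cast Finset.card_le_card hII
    refine h0.trans ?_
    have h3 : (I₀.card : ℝ) = ∑ i ∈ I₀, (1 : ℝ) := by simp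
    rw [h3, hI₀def, gI_sum, hAdef, Finset.mul_sum, Finset.mul_sum]
    apply Finset.sum_le_sum
    intro γ hγ
    have hP := hPpos γ hγ
    have h4 : ∑ t ∈ RR w T (PP γ), (1 : ℝ) = (RR w T (PP γ)).card := by simp
    rw [h4]
    have h4' : ((RR w T (PP γ)).card : ℝ) ≤ T := by
      have h3 : (RR w T (PP γ)).card ≤ (Ico T (2 * T)).card := Finset.card_filter_le _ _
      rw [Nat.card_Ico] at h3
      have h4 : (RR w T (PP γ)).card ≤ T := by omega
      exact_mod_cast h4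
    refine h4'.trans ?_
    have h5 : (PP γ : ℝ) ≤ B := by exact_mod_cast (hsz γ hγ).2.1
    have h6 : (1 : ℝ) ≤ B * (1 / PP γ) := by
      rw [mul_one_div, le_div_iff₀ hP]
      linarith
    calc (T : ℝ) = T * 1 := (mul_one _).symm
      _ ≤ _ := mul_le_mul_of_nonneg_left h6 hTpos.le
  have hL : ∀ c < R, (1 + ((Ic c).card : ℝ) / ∑ i ∈ Ic c, (1 : ℝ) / q i) ^ 2 ≤
      2 ^ (16 * m * n) := by
    intro c hcR
    have h1 : ((Ic c).card : ℝ) ≤ I.card := by
      exact_mod_cast Finset.card_filter_le _ _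
    have h2 : ((Ic c).card : ℝ) / (∑ i ∈ Ic c, (1 : ℝ) / q i) ≤ T * B * K := by
      rw [div_le_iff₀ (hMcpos c hcR)]
      have h3 := hMc c hcR
      rw [div_le_iff₀ hKpos] at h3
      calc ((Ic c).card : ℝ) ≤ T * (B * A) := h1.trans hcardI
        _ ≤ T * (B * ((∑ i ∈ Ic c, (1 : ℝ) / q i) * K)) := by gcongr
        _ = _ := by ring
    have h3 : (1 : ℝ) ≤ T * B * K := by
      have h4 : 1 ≤ T * B * K := Nat.mul_pos (Nat.mul_pos hT1 hB1) (by exact_mod_cast hKpos)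
      exact_mod_cast h4
    have h4 : 0 ≤ ((Ic c).card : ℝ) / ∑ i ∈ Ic c, (1 : ℝ) / q i :=
      div_nonneg (Nat.cast_nonneg _) (hMcpos c hcR).le
    calc (1 + ((Ic c).card : ℝ) / ∑ i ∈ Ic c, (1 : ℝ) / q i) ^ 2 ≤
        (2 * (T * B * K)) ^ 2 := pow_le_pow_left₀ (by linarith) (by linarith) 2
      _ ≤ 2 ^ (16 * m * n) := by
        have h5 := K6 hm40 hn16 hKN
        rw [hT, hBdef]
        exact_mod_cast h5
  have hgr := hG (Cf n × ℕ) R X Ic q r' (1 / G) (2 ^ (16 * m * n))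
    (fun c _ i hi => hq1 i (Finset.mem_filter.mp hi).1) hcop hMcpos hdbl hL
  -- the sets
  have hsub : ((range X).filter fun i => n + 2 ≤ b + Q * i ∧
      ((hits3 s m n T (b + Q * i)).card : ℝ) ≤ 2 ^ (v * n / 4)) ⊆
      (range X).filter fun k : ℕ => ∀ c < R,
        (((Ic c).filter fun i => (q i : ℤ) ∣ (k : ℤ) - r' i).card : ℝ) ≤
          (∑ i ∈ Ic c, (1 : ℝ) / q i) / 2 := by
    intro k hk
    rw [mem_filter] at hk ⊢
    obtain ⟨h3, h4, h5⟩ := hk
    refine ⟨h3, fun c hcR => ?_⟩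
    have h6 : ((Ic c).filter fun i => (q i : ℤ) ∣ (k : ℤ) - r' i) ⊆
        hits3 s m n T (b + Q * k) := by
      intro i hi
      rw [mem_filter] at hi
      obtain ⟨h7, h8⟩ := hi
      have h10 := hr' i (hcopI i (mem_filter.1 h7).1)
      rw [hits3, mem_filter]
      rw [hIc, mem_filter, hIdef, mem_filter, hI₀def, gI, mem_filter] at h7
      refine ⟨h7.1.1.1, ?_⟩
      have h11 : (q i : ℤ) ∣ ((b + Q * k : ℕ) : ℤ) - r i := by
        have h12 := (h8.mul_left (Q : ℤ)).add h10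
        have h13 : (Q : ℤ) * ((k : ℤ) - r' i) + ((Q : ℤ) * r' i - (r i - b)) =
            ((b + Q * k : ℕ) : ℤ) - r i := by
          push_cast
          ring
        rwa [h13] at h12
      have h9 : ((b + Q * k : ℕ) : ℤ) - r i = ((b + Q * k + SS i.1 + i.2 - (n + 2) : ℕ) : ℤ) := by
        rw [hr]
        dsimp only
        rw [Nat.cast_sub (by omega)]
        push_cast
        ring
      rw [h9] at h11
      exact_mod_cast h11
    have h7 : (((Ic c).filter fun i => (q i : ℤ) ∣ (k : ℤ) - r' i).card : ℝ) ≤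
        ((hits3 s m n T (b + Q * k)).card : ℝ) := by
      exact_mod_cast Finset.card_le_card h6
    have h8 := h2G c hcR
    linarith
  have hfin : (((range X).filter fun i => n + 2 ≤ b + Q * i ∧
      ((hits3 s m n T (b + Q * i)).card : ℝ) ≤ 2 ^ (v * n / 4)).card : ℝ) ≤
      4 ^ R * (X * (1 / G) ^ R + (2 ^ (16 * m * n)) ^ R) := by
    refine le_trans ?_ hgr
    exact_mod_cast Finset.card_le_card hsub
  refine hfin.trans ?_
  have hXr : (0 : ℝ) ≤ X := Nat.cast_nonneg X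
  have f1 : (4 : ℝ) ^ R * (1 / G) ^ R ≤ 1 / 2 ^ (v * n / 8 * R) := by
    have hn8 : 2 + v * n / 8 ≤ v * n / 4 := by omega
    have g1 : (1 : ℝ) / 2 ^ (v * n / 8 * R) = (1 / 2 ^ (v * n / 8)) ^ R := by
      rw [one_div_pow, ← pow_mul]
    rw [← mul_pow, g1]
    refine pow_le_pow_left₀ (by positivity) ?_ R
    rw [hGdef, mul_one_div, div_le_div_iff₀ (by positivity) (by positivity)]
    calc (4 : ℝ) * 2 ^ (v * n / 8) = 2 ^ (2 + v * n / 8) := by rw [pow_add]; norm_num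
      _ ≤ 2 ^ (v * n / 4) := pow_le_pow_right₀ (by norm_num) hn8
      _ = 1 * 2 ^ (v * n / 4) := (one_mul _).symm
  have f2 : (4 : ℝ) ^ R * (2 ^ (16 * m * n)) ^ R ≤ 2 ^ (17 * m * n * R) := by
    rw [← mul_pow, pow_mul _ (17 * m * n)]
    apply pow_le_pow_left₀ (by positivity)
    calc (4 : ℝ) * 2 ^ (16 * m * n) = 2 ^ (2 + 16 * m * n) := by
          rw [pow_add]; norm_num
      _ ≤ 2 ^ (17 * m * n) := pow_le_pow_right₀ (by norm_num) (by omega)
  have g2 : (4 : ℝ) ^ R * ((X : ℝ) * (1 / G) ^ R + (2 ^ (16 * m * n)) ^ R) =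
      (X : ℝ) * ((4 : ℝ) ^ R * (1 / G) ^ R) + (4 : ℝ) ^ R * (2 ^ (16 * m * n)) ^ R := by
    ring
  have g3 : (X : ℝ) / 2 ^ (v * n / 8 * R) = (X : ℝ) * (1 / 2 ^ (v * n / 8 * R)) := by
    rw [mul_one_div]
  rw [g2, g3]
  exact add_le_add (mul_le_mul_of_nonneg_left f1 hXr) f2

end Pool.Agent.Lib.MP_85a137_nt
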