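import Pool.Agent.Lib.MP_85a137_nt.Spec3

/-!
MP_85a137_nt: configurations with the same product and the same sum (third version).
-/

set_option autoImplicit false

namespace Pool.Agent.Lib.MP_85a137_nt

open Finset

namespace Mult3M

section restrict

variable {ι : Type*} [Fintype ι] [DecidableEq ι]

/-- A sum over those functions for which one coordinate is determined by the others. -/
lemma restrict_sum (J : ι → Finset ℕ) (j₀ : ι) (Q : (ι → ℕ) → Prop) [DecidablePred Q]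
    (hQ : ∀ q ∈ Fintype.piFinset J, ∀ q' ∈ Fintype.piFinset J, Q q → Q q' →
      (∀ j, j ≠ j₀ → q j = q' j) → q = q')
    (w : ι → ℕ → ℝ) (hw : ∀ j x, 0 ≤ w j x) (B : ℝ) (hB0 : 0 ≤ B)
    (hB : ∀ x ∈ J j₀, w j₀ x ≤ B) :
    ∑ q ∈ Fintype.piFinset J, (if Q q then ∏ j, w j (q j) else 0) ≤
      B * ∏ j ∈ univ.erase j₀, ∑ x ∈ J j, w j x := by
  set J' : ι → Finset ℕ := Function.update J j₀ {0} with hJ'
  set w' : ι → ℕ → ℝ := Function.update w j₀ (fun _ => 1) with hw'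
  have h1 : ∏ j ∈ univ.erase j₀, ∑ x ∈ J j, w j x =
      ∑ q ∈ Fintype.piFinset J', ∏ j, w' j (q j) := by
    rw [← prod_univ_sum, ← mul_prod_erase univ _ (mem_univ j₀)]
    have h2 : ∑ x ∈ J' j₀, w' j₀ x = 1 := by simp [hJ', hw']
    rw [h2, one_mul]
    apply prod_congr rfl
    intro j hj
    have hne := ne_of_mem_erase hj
    rw [hJ', hw', Function.update_of_ne hne, Function.update_of_ne hne]
  have hw'0 : ∀ j x, 0 ≤ w' j x := by
    intro j x
    by_cases hj : j = j₀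
    · subst hj
      simp [hw']
    · rw [hw', Function.update_of_ne hj]
      exact hw j x
  rw [h1, ← sum_filter]
  have hinj : Set.InjOn (fun q : ι → ℕ => Function.update q j₀ 0)
      ((Fintype.piFinset J).filter Q : Finset (ι → ℕ)) := by
    intro q hq q' hq' heq
    rw [mem_coe, mem_filter] at hq hq'
    apply hQ q hq.1 q' hq'.1 hq.2 hq'.2
    intro j hj
    have h3 := congrFun heq j
    simpa [Function.update_of_ne hj] using h3
  calc ∑ q ∈ (Fintype.piFinset J).filter Q, ∏ j, w j (q j)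
      ≤ ∑ q ∈ (Fintype.piFinset J).filter Q, B * ∏ j, w' j (Function.update q j₀ 0 j) := by
        apply sum_le_sum
        intro q hq
        rw [mem_filter, Fintype.mem_piFinset] at hq
        rw [← mul_prod_erase univ _ (mem_univ j₀), ← mul_prod_erase univ _ (mem_univ j₀)]
        have h4 : w' j₀ (Function.update q j₀ 0 j₀) = 1 := by simp [hw']
        have h5 : ∏ j ∈ univ.erase j₀, w' j (Function.update q j₀ 0 j) =
            ∏ j ∈ univ.erase j₀, w j (q j) := by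
          apply prod_congr rfl
          intro j hj
          have hne := ne_of_mem_erase hj
          rw [hw', Function.update_of_ne hne, Function.update_of_ne hne]
        rw [h4, h5, one_mul]
        exact mul_le_mul_of_nonneg_right (hB _ (hq.1 j₀)) (prod_nonneg fun j _ => hw _ _)
    _ = B * ∑ q ∈ (Fintype.piFinset J).filter Q, ∏ j, w' j (Function.update q j₀ 0 j) := by
        rw [mul_sum]
    _ = B * ∑ q ∈ ((Fintype.piFinset J).filter Q).image (fun q => Function.update q j₀ 0),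
          ∏ j, w' j (q j) := by
        rw [sum_image hinj]
    _ ≤ B * ∑ q ∈ Fintype.piFinset J', ∏ j, w' j (q j) := by
        apply mul_le_mul_of_nonneg_left _ hB0
        apply sum_le_sum_of_subset_of_nonneg
        · intro q hq
          rw [mem_image] at hq
          obtain ⟨r, hr, rfl⟩ := hq
          rw [mem_filter, Fintype.mem_piFinset] at hr
          rw [Fintype.mem_piFinset]
          intro j
          by_cases hj : j = j₀
          · subst hj
            simp [hJ']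
          · rw [hJ', Function.update_of_ne hj, Function.update_of_ne hj]
            exact hr.1 j
        · intro q _ _
          exact prod_nonneg fun j _ => hw'0 _ _

end restrict

lemma mem_cf3 {s m n : ℕ} {γ : Cf n} : γ ∈ cf3 s m n ↔
    (∀ j : Fin n, γ.1 j ∈ J3 s m j) ∧ ∀ j : Fin n, γ.2 j ∈ CC m := by
  rw [cf3, mem_product, Fintype.mem_piFinset, Fintype.mem_piFinset]

lemma mem_J3 {s m j q : ℕ} : q ∈ J3 s m j ↔
    (2 ^ (m + s * j) < q ∧ q ≤ 2 ^ (m + s * (j + 1))) ∧ q.Prime := by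
  rw [J3, mem_filter, mem_Ioc]

lemma mem_CC {m c : ℕ} : c ∈ CC m ↔
    (1 ≤ c ∧ c < 2 ^ m) ∧ ArithmeticFunction.cardFactors c ≤ 100 * (Nat.log 2 m + 1) := by
  rw [CC, mem_filter, mem_Ico]

lemma J3_inj {s m i j q : ℕ} (hi : q ∈ J3 s m i) (hj : q ∈ J3 s m j) : i = j := by
  rw [mem_J3] at hi hj
  by_contra hne
  rcases lt_or_gt_of_ne hne with h | h
  · have h1 : 2 ^ (m + s * (i + 1)) ≤ 2 ^ (m + s * j) :=
      Nat.pow_le_pow_right (by norm_num) (Nat.add_le_add_left (Nat.mul_le_mul_left _ h) _)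
    omega
  · have h1 : 2 ^ (m + s * (j + 1)) ≤ 2 ^ (m + s * i) :=
      Nat.pow_le_pow_right (by norm_num) (Nat.add_le_add_left (Nat.mul_le_mul_left _ h) _)
    omega

lemma J3_lt {s m j q : ℕ} (h : q ∈ J3 s m j) : 2 ^ m < q :=
  lt_of_le_of_lt (Nat.pow_le_pow_right (by norm_num) (Nat.le_add_right _ _)) (mem_J3.1 h).1.1

/-- The product determines the primes. -/
lemma fst_eq {s m n : ℕ} {γ γ' : Cf n} (h : γ ∈ cf3 s m n) (h' : γ' ∈ cf3 s m n)
    (hP : PP γ' = PP γ) : γ'.1 = γ.1 := by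
  rw [mem_cf3] at h h'
  funext j
  have hq := h.1 j
  have hqp := (mem_J3.1 hq).2
  have h1 : γ.1 j ∣ PP γ' := by
    rw [hP, PP]
    exact Dvd.dvd.trans (Dvd.intro _ rfl) (dvd_prod_of_mem _ (mem_univ j))
  rw [PP, hqp.prime.dvd_finsetProd_iff] at h1
  obtain ⟨i, -, hi⟩ := h1
  rcases (hqp.dvd_mul).1 hi with h2 | h2
  · have h3 := (Nat.prime_dvd_prime_iff_eq hqp (mem_J3.1 (h'.1 i)).2).1 h2
    have h4 : (i : ℕ) = j := J3_inj (h3 ▸ h'.1 i : γ.1 j ∈ J3 s m i) hq
    have h5 : i = j := Fin.ext h4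
    rw [← h5, ← h3, h5]
  · exfalso
    have h3 := Nat.le_of_dvd (by have := (mem_CC.1 (h'.2 i)).1.1; omega) h2
    have h4 := (mem_CC.1 (h'.2 i)).1.2
    have h5 := J3_lt hq
    omega

lemma PP_eq {n : ℕ} (γ : Cf n) : PP γ = (∏ j, γ.1 j) * ∏ j, γ.2 j := by
  rw [PP, prod_mul_distrib]

lemma prod_snd_eq {s m n : ℕ} {γ γ' : Cf n} (h : γ ∈ cf3 s m n) (h' : γ' ∈ cf3 s m n)
    (hP : PP γ' = PP γ) : ∏ j, γ'.2 j = ∏ j, γ.2 j := by
  have h1 := fst_eq h h' hP
  rw [PP_eq, PP_eq, h1] at hP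
  have h2 : 0 < ∏ j, γ.1 j := prod_pos fun j _ => (mem_J3.1 ((mem_cf3.1 h).1 j)).2.pos
  exact Nat.eq_of_mul_eq_mul_left h2 hP

open Classical in
/-- the other `c'` with the same product -/
noncomputable def GG (m : ℕ) {n : ℕ} (c : Fin n → ℕ) : Finset (Fin n → ℕ) :=
  (Fintype.piFinset (fun _ : Fin n => CC m)).filter fun c' => c' ≠ c ∧ ∏ j, c' j = ∏ j, c j

/-- the number of the `c'` -/
lemma card_GG (hF : StmtFact) {m n : ℕ} (hn : 1 ≤ n)
    (hmn : 200 * n * (Nat.log 2 m + 1) ^ 2 ≤ m)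
    {c : Fin n → ℕ} (hc : c ∈ Fintype.piFinset (fun _ : Fin n => CC m)) :
    (GG m c).card ≤ 2 ^ (m / 2) := by
  rw [Fintype.mem_piFinset] at hc
  have hpos : ∀ j, 1 ≤ c j := fun j => (mem_CC.1 (hc j)).1.1
  have h1 : (GG m c).card ≤ n ^ ArithmeticFunction.cardFactors (∏ j, c j) := by
    apply hF n _ _ hn (Nat.succ_le_of_lt (prod_pos fun j _ => hpos j))
    intro c' hc'
    rw [GG, mem_filter] at hc'
    exact hc'.2.2
  have h2 : ArithmeticFunction.cardFactors (∏ j, c j) =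
      ∑ j, ArithmeticFunction.cardFactors (c j) := by
    have key : ∀ t : Finset (Fin n), ArithmeticFunction.cardFactors (∏ j ∈ t, c j) =
        ∑ j ∈ t, ArithmeticFunction.cardFactors (c j) := by
      intro t
      induction t using Finset.induction_on with
      | empty => simp
      | insert a t ha ih =>
        rw [prod_insert ha, sum_insert ha, ArithmeticFunction.cardFactors_mul, ih]
        · have := hpos a
          omega
        · exact (prod_pos fun j _ => hpos j).ne'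
    exact key univ
  set ℓ := Nat.log 2 m + 1 with hℓ
  have h3 : ∑ j, ArithmeticFunction.cardFactors (c j) ≤ n * (100 * ℓ) := by
    calc ∑ j, ArithmeticFunction.cardFactors (c j) ≤ ∑ _j : Fin n, 100 * ℓ :=
          sum_le_sum fun j _ => (mem_CC.1 (hc j)).2
      _ = n * (100 * ℓ) := by rw [sum_const, card_univ, Fintype.card_fin, smul_eq_mul]
  have h4 : n ≤ m := by
    calc n = 1 * n * 1 := by ring
      _ ≤ 200 * n * ℓ ^ 2 := by
        apply Nat.mul_le_mul
        · exact Nat.mul_le_mul_right _ (by norm_num)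
        · exact Nat.one_le_pow _ _ (by omega)
      _ ≤ m := hmn
  have h5 : n ≤ 2 ^ ℓ := by
    have h6 : m < 2 ^ ℓ := Nat.lt_pow_succ_log_self (by norm_num) m
    omega
  calc (GG m c).card ≤ n ^ ArithmeticFunction.cardFactors (∏ j, c j) := h1
    _ ≤ n ^ (n * (100 * ℓ)) := Nat.pow_le_pow_right hn (h2 ▸ h3)
    _ ≤ (2 ^ ℓ) ^ (n * (100 * ℓ)) := Nat.pow_le_pow_left h5 _
    _ = 2 ^ (ℓ * (n * (100 * ℓ))) := (pow_mul 2 ℓ _).symm
    _ ≤ 2 ^ (m / 2) := by
      apply Nat.pow_le_pow_right (by norm_num)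
      rw [Nat.le_div_iff_mul_le (by norm_num)]
      calc ℓ * (n * (100 * ℓ)) * 2 = 200 * n * ℓ ^ 2 := by ring
        _ ≤ m := hmn

open Classical in
/-- For given `c ≠ c'` few `q` give the same sum. -/
lemma few_q {s m n : ℕ} (hm : 1 ≤ m)
    (hσ : ∀ j < n, (1 : ℝ) / m ≤ ∑ q ∈ J3 s m j, (1 : ℝ) / q) {c c' : Fin n → ℕ} (hne : c' ≠ c) :
    ∑ q ∈ Fintype.piFinset (fun j : Fin n => J3 s m j),
      (if ∑ j, q j * c' j = ∑ j, q j * c j then ∏ j, (1 : ℝ) / q j else 0) ≤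
    m / 2 ^ m * ∏ j : Fin n, ∑ q ∈ J3 s m j, (1 : ℝ) / q := by
  obtain ⟨j₀, hj₀⟩ := Function.ne_iff.1 hne
  have h1 := restrict_sum (fun j : Fin n => J3 s m j) j₀
    (fun q => ∑ j, q j * c' j = ∑ j, q j * c j) (by
      intro q _ q' _ h h' heq
      have h2 : q j₀ = q' j₀ := by
        rw [← add_sum_erase univ _ (mem_univ j₀), ← add_sum_erase univ _ (mem_univ j₀)] at h h'
        have h3 : ∀ d : Fin n → ℕ, ∑ j ∈ univ.erase j₀, q j * d j =
            ∑ j ∈ univ.erase j₀, q' j * d j := fun d =>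
          sum_congr rfl fun j hj => by rw [heq j (ne_of_mem_erase hj)]
        rw [h3, h3] at h
        have h4 : ((q j₀ : ℤ) - q' j₀) * ((c' j₀ : ℤ) - c j₀) = 0 := by
          have h5 : (q j₀ : ℤ) * c' j₀ + (∑ j ∈ univ.erase j₀, q' j * c' j : ℕ) =
            q j₀ * c j₀ + (∑ j ∈ univ.erase j₀, q' j * c j : ℕ) := by exact_mod_cast h
          have h6 : (q' j₀ : ℤ) * c' j₀ + (∑ j ∈ univ.erase j₀, q' j * c' j : ℕ) =
            q' j₀ * c j₀ + (∑ j ∈ univ.erase j₀, q' j * c j : ℕ) := by exact_mod_cast h'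
          linear_combination h5 - h6
        rcases mul_eq_zero.1 h4 with h5 | h5
        · omega
        · exfalso
          apply hj₀
          omega
      funext j
      by_cases hj : j = j₀
      · rw [hj, h2]
      · exact heq j hj)
    (fun _ x => (1 : ℝ) / x) (fun _ x => by positivity) (1 / 2 ^ m) (by positivity) (by
      intro x hx
      apply one_div_le_one_div_of_le (by positivity)
      exact_mod_cast (J3_lt hx).le)
  refine h1.trans ?_
  have hσ0 : 0 ≤ ∏ j ∈ univ.erase j₀, ∑ q ∈ J3 s m (j : ℕ), (1 : ℝ) / q :=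
    prod_nonneg fun j _ => sum_nonneg fun q _ => by positivity
  rw [← mul_prod_erase univ (fun j : Fin n => ∑ q ∈ J3 s m j, (1 : ℝ) / q) (mem_univ j₀)]
  have h2 := hσ j₀ j₀.2
  have hm' : (0 : ℝ) < m := by exact_mod_cast hm
  have h3 : (1 : ℝ) ≤ m * ∑ q ∈ J3 s m (j₀ : ℕ), (1 : ℝ) / q := by
    rw [div_le_iff₀ hm'] at h2
    linarith
  calc 1 / 2 ^ m * ∏ j ∈ univ.erase j₀, ∑ q ∈ J3 s m (j : ℕ), (1 : ℝ) / q
      = 1 / 2 ^ m * (1 * ∏ j ∈ univ.erase j₀, ∑ q ∈ J3 s m (j : ℕ), (1 : ℝ) / q) := by rw [one_mul]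
    _ ≤ 1 / 2 ^ m * ((m * ∑ q ∈ J3 s m (j₀ : ℕ), (1 : ℝ) / q) *
        ∏ j ∈ univ.erase j₀, ∑ q ∈ J3 s m (j : ℕ), (1 : ℝ) / q) := by
        apply mul_le_mul_of_nonneg_left _ (by positivity)
        exact mul_le_mul_of_nonneg_right h3 hσ0
    _ = _ := by ring

lemma inv_PP {n : ℕ} (q c : Fin n → ℕ) :
    (1 : ℝ) / PP (q, c) = (∏ j, (1 : ℝ) / c j) * ∏ j, (1 : ℝ) / q j := by
  rw [PP_eq]
  push_cast
  rw [prod_div_distrib, prod_div_distrib, prod_const_one, mul_comm]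
  rw [one_div, mul_inv, one_div, one_div]

lemma pow_bound {m : ℕ} (hm : 20 ≤ m) : (2 : ℝ) ^ (m / 2) * (m / 2 ^ m) ≤ 1 / 2 ^ (m / 4) := by
  have h1 : m ≤ 2 ^ (m / 4) := by
    have key : ∀ k : ℕ, 5 ≤ k → 4 * k + 4 ≤ 2 ^ k := by
      intro k hk
      induction k, hk using Nat.le_induction with
      | base => norm_num
      | succ k hk ih => rw [pow_succ]; omega
    have := key (m / 4) (by omega)
    omega
  have h2 : m * 2 ^ (m / 2) * 2 ^ (m / 4) ≤ 2 ^ m := by
    calc m * 2 ^ (m / 2) * 2 ^ (m / 4) ≤ 2 ^ (m / 4) * 2 ^ (m / 2) * 2 ^ (m / 4) := by gcongr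
      _ = 2 ^ (m / 4 + m / 2 + m / 4) := by rw [pow_add, pow_add]
      _ ≤ 2 ^ m := Nat.pow_le_pow_right (by norm_num) (by omega)
  rw [le_div_iff₀ (by positivity)]
  rw [mul_div_assoc', div_mul_eq_mul_div, div_le_one (by positivity)]
  calc (2 : ℝ) ^ (m / 2) * m * 2 ^ (m / 4) = m * 2 ^ (m / 2) * 2 ^ (m / 4) := by ring
    _ ≤ 2 ^ m := by exact_mod_cast h2

end Mult3M

open Mult3M

open Classical in
theorem mult3 (hF : StmtFact) : StmtMult3 := by
  refine ⟨20, ?_⟩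
  intro s m n hm hn hsn hmn hσ
  have hm1 : 1 ≤ m := by omega
  set A : Finset (Fin n → ℕ) := Fintype.piFinset (fun j : Fin n => J3 s m j) with hA
  set B : Finset (Fin n → ℕ) := Fintype.piFinset (fun _ : Fin n => CC m) with hB
  set W : ℝ := ∏ j : Fin n, ∑ q ∈ J3 s m j, (1 : ℝ) / q with hW
  have hW0 : 0 ≤ W := prod_nonneg fun j _ => sum_nonneg fun q _ => by positivity
  have hcf : cf3 s m n = A ×ˢ B := rfl
  have step1 : ∀ γ ∈ cf3 s m n, ∑ γ' ∈ cf3 s m n,
      (if γ' ≠ γ ∧ PP γ' = PP γ ∧ SS γ' = SS γ then (1 : ℝ) / PP γ else 0) ≤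
      ∑ c' ∈ GG m γ.2, (if ∑ j, γ.1 j * c' j = ∑ j, γ.1 j * γ.2 j then (1 : ℝ) / PP γ else 0) := by
    intro γ hγ
    rw [← sum_filter, ← sum_filter, sum_const, sum_const, nsmul_eq_mul, nsmul_eq_mul]
    apply mul_le_mul_of_nonneg_right _ (by positivity)
    rw [Nat.cast_le]
    apply card_le_card_of_injOn (fun γ' : Cf n => γ'.2)
    · intro γ' hγ'
      rw [mem_coe, mem_filter] at hγ'
      obtain ⟨h1, h2, h3, h4⟩ := hγ'
      have h5 := fst_eq hγ h1 h3
      have h6 := prod_snd_eq hγ h1 h3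
      rw [mem_coe, mem_filter, GG, mem_filter, Fintype.mem_piFinset]
      refine ⟨⟨(mem_cf3.1 h1).2, ?_, h6⟩, ?_⟩
      · intro h7
        exact h2 (Prod.ext h5 h7)
      · rw [SS, SS, h5] at h4
        exact h4
    · intro γ' hγ' γ'' hγ'' heq
      rw [mem_coe, mem_filter] at hγ' hγ''
      apply Prod.ext _ heq
      rw [fst_eq hγ hγ'.1 hγ'.2.2.1, fst_eq hγ hγ''.1 hγ''.2.2.1]
  calc ∑ γ ∈ cf3 s m n, ∑ γ' ∈ cf3 s m n,
        (if γ' ≠ γ ∧ PP γ' = PP γ ∧ SS γ' = SS γ then (1 : ℝ) / PP γ else 0)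
      ≤ ∑ γ ∈ cf3 s m n, ∑ c' ∈ GG m γ.2,
        (if ∑ j, γ.1 j * c' j = ∑ j, γ.1 j * γ.2 j then (1 : ℝ) / PP γ else 0) :=
        sum_le_sum step1
    _ = ∑ c ∈ B, ∑ q ∈ A, ∑ c' ∈ GG m c,
        (if ∑ j, q j * c' j = ∑ j, q j * c j then (1 : ℝ) / PP (q, c) else 0) := by
        rw [hcf, sum_product_right]
    _ = ∑ c ∈ B, (∏ j, (1 : ℝ) / c j) * ∑ c' ∈ GG m c, ∑ q ∈ A,
        (if ∑ j, q j * c' j = ∑ j, q j * c j then ∏ j, (1 : ℝ) / q j else 0) := by
        apply sum_congr rfl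
        intro c _
        rw [sum_comm, mul_sum]
        apply sum_congr rfl
        intro c' _
        rw [mul_sum]
        apply sum_congr rfl
        intro q _
        rw [inv_PP, mul_ite, mul_zero]
    _ ≤ ∑ c ∈ B, (∏ j, (1 : ℝ) / c j) * (2 ^ (m / 2) * (m / 2 ^ m * W)) := by
        apply sum_le_sum
        intro c hc
        apply mul_le_mul_of_nonneg_left _ (prod_nonneg fun j _ => by positivity)
        calc ∑ c' ∈ GG m c, ∑ q ∈ A,
              (if ∑ j, q j * c' j = ∑ j, q j * c j then ∏ j, (1 : ℝ) / q j else 0)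
            ≤ ∑ _c' ∈ GG m c, m / 2 ^ m * W := by
              apply sum_le_sum
              intro c' hc'
              rw [GG, mem_filter] at hc'
              exact few_q hm1 hσ hc'.2.1
          _ = (GG m c).card * (m / 2 ^ m * W) := by rw [sum_const, nsmul_eq_mul]
          _ ≤ 2 ^ (m / 2) * (m / 2 ^ m * W) := by
              apply mul_le_mul_of_nonneg_right _ (by positivity)
              exact_mod_cast card_GG hF hn hmn hc
    _ = (2 ^ (m / 2) * (m / 2 ^ m)) * (W * ∑ c ∈ B, ∏ j, (1 : ℝ) / c j) := by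
        rw [← sum_mul]
        ring
    _ ≤ (1 / 2 ^ (m / 4)) * (W * ∑ c ∈ B, ∏ j, (1 : ℝ) / c j) := by
        apply mul_le_mul_of_nonneg_right (pow_bound hm)
        exact mul_nonneg hW0 (sum_nonneg fun c _ => prod_nonneg fun j _ => by positivity)
    _ = (∑ γ ∈ cf3 s m n, (1 : ℝ) / PP γ) / 2 ^ (m / 4) := by
        have h1 : ∑ γ ∈ cf3 s m n, (1 : ℝ) / PP γ = W * ∑ c ∈ B, ∏ j, (1 : ℝ) / c j := by
          rw [hcf, sum_product, hW, prod_univ_sum, sum_mul_sum]
          apply sum_congr rfl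
          intro q _
          apply sum_congr rfl
          intro c _
          rw [inv_PP, mul_comm]
        rw [h1]
        ring

end Pool.Agent.Lib.MP_85a137_nt
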