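import Pool.Agent.Lib.MP_85a137_nt.Spec4

/-!
# MP_85a137_nt: the numerical estimate for the first part of the upper bound
-/

set_option autoImplicit false

namespace Pool.Agent.Lib.MP_85a137_nt

open Finset

private theorem naExp (M ℓ : ℕ) (hM : 32 ≤ M) (hℓ : ℓ = Nat.log 2 M + 1) :
    (2 : ℝ) ^ (ℓ / 2) * (5 + 4 * Real.log ((4 * M * ℓ : ℕ) : ℝ)) ≤ ((4 * M * ℓ : ℕ) : ℝ) := by
  have h1 : 2 ^ (ℓ - 1) ≤ M := by
    rw [hℓ]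
    exact Nat.pow_log_le_self 2 (by omega)
  have h2 : M < 2 ^ ℓ := by
    rw [hℓ]
    exact Nat.lt_pow_succ_log_self (by norm_num) M
  have h6 : 6 ≤ ℓ := by
    have : 5 ≤ Nat.log 2 M := Nat.le_log_of_pow_le (by norm_num) (by norm_num; omega)
    omega
  have hV0 : 0 < 4 * M * ℓ := by positivity
  have hV : 4 * M * ℓ ≤ 2 ^ (2 * ℓ + 2) := by
    have h3 : ℓ < 2 ^ ℓ := Nat.lt_two_pow_self
    calc 4 * M * ℓ ≤ 4 * 2 ^ ℓ * 2 ^ ℓ :=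
          Nat.mul_le_mul (Nat.mul_le_mul_left 4 h2.le) h3.le
      _ = 2 ^ (2 * ℓ + 2) := by rw [pow_add, two_mul, pow_add]; ring
  have hlog : Real.log ((4 * M * ℓ : ℕ) : ℝ) ≤ 2 * ℓ + 2 := by
    have h3 : ((4 * M * ℓ : ℕ) : ℝ) ≤ (2 : ℝ) ^ (2 * ℓ + 2) := by exact_mod_cast hV
    have h4 : Real.log ((4 * M * ℓ : ℕ) : ℝ) ≤ Real.log ((2 : ℝ) ^ (2 * ℓ + 2)) :=
      Real.log_le_log (by exact_mod_cast hV0) h3
    rw [Real.log_pow] at h4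
    have h5 : Real.log 2 ≤ 1 := by
      have := Real.log_two_lt_d9
      linarith
    have h7 : ((2 * ℓ + 2 : ℕ) : ℝ) * Real.log 2 ≤ ((2 * ℓ + 2 : ℕ) : ℝ) * 1 :=
      mul_le_mul_of_nonneg_left h5 (Nat.cast_nonneg _)
    refine h4.trans (h7.trans (le_of_eq ?_))
    push_cast
    ring
  have hpow : 11 * 2 ^ (ℓ / 2) ≤ 4 * M := by
    have h3 : 2 ^ (ℓ / 2) * 2 ^ 4 ≤ 2 ^ 2 * 2 ^ (ℓ - 1) := by
      rw [← pow_add, ← pow_add]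
      exact Nat.pow_le_pow_right (by norm_num) (by omega)
    omega
  have hpow' : (11 : ℝ) * 2 ^ (ℓ / 2) ≤ 4 * M := by exact_mod_cast hpow
  have hℓ' : (6 : ℝ) ≤ ℓ := by exact_mod_cast h6
  have hp0 : (0 : ℝ) < 2 ^ (ℓ / 2) := by positivity
  calc (2 : ℝ) ^ (ℓ / 2) * (5 + 4 * Real.log ((4 * M * ℓ : ℕ) : ℝ))
      ≤ (2 : ℝ) ^ (ℓ / 2) * (11 * ℓ) := mul_le_mul_of_nonneg_left (by linarith) hp0.le
    _ = (11 * 2 ^ (ℓ / 2)) * ℓ := by ring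
    _ ≤ (4 * M) * ℓ := mul_le_mul_of_nonneg_right hpow' (by linarith)
    _ = ((4 * M * ℓ : ℕ) : ℝ) := by push_cast; ring

private theorem naFirst (M ℓ : ℕ) (hM : 32 ≤ M) (hℓ : ℓ = Nat.log 2 M + 1) :
    (2 * (M : ℝ) ^ 2 * 2 ^ (4 * M * ℓ) + 1) * 2 ≤ 2 ^ (2 * (4 * M * ℓ)) := by
  have h2 : M < 2 ^ ℓ := by
    rw [hℓ]
    exact Nat.lt_pow_succ_log_self (by norm_num) M
  have h6 : 1 ≤ ℓ := by omega
  have h8 : 8 * M ^ 2 ≤ 2 ^ (4 * M * ℓ) := by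
    have h3 : M ^ 2 ≤ (2 ^ ℓ) ^ 2 := Nat.pow_le_pow_left h2.le 2
    calc 8 * M ^ 2 ≤ 2 ^ 3 * (2 ^ ℓ) ^ 2 := by omega
      _ = 2 ^ (3 + ℓ * 2) := by rw [← pow_mul, ← pow_add]
      _ ≤ 2 ^ (4 * M * ℓ) := Nat.pow_le_pow_right (by norm_num) (by nlinarith)
  have h9 : (2 * M ^ 2 * 2 ^ (4 * M * ℓ) + 1) * 2 ≤ 2 ^ (2 * (4 * M * ℓ)) := by
    have h3 : 1 ≤ 2 * M ^ 2 * 2 ^ (4 * M * ℓ) := Nat.one_le_iff_ne_zero.2 (by positivity)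
    calc (2 * M ^ 2 * 2 ^ (4 * M * ℓ) + 1) * 2
        ≤ (2 * M ^ 2 * 2 ^ (4 * M * ℓ) + 2 * M ^ 2 * 2 ^ (4 * M * ℓ)) * 2 :=
          Nat.mul_le_mul_right 2 (Nat.add_le_add_left h3 _)
      _ = 8 * M ^ 2 * 2 ^ (4 * M * ℓ) := by ring
      _ ≤ 2 ^ (4 * M * ℓ) * 2 ^ (4 * M * ℓ) := Nat.mul_le_mul_right _ h8
      _ = 2 ^ (2 * (4 * M * ℓ)) := by rw [← pow_add, two_mul]
  exact_mod_cast h9

theorem tNumA : StmtNumA := by
  refine ⟨32, fun M ℓ hM hℓ => ?_⟩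
  have h6 : 6 ≤ ℓ := by
    have : 5 ≤ Nat.log 2 M := Nat.le_log_of_pow_le (by norm_num) (by norm_num; omega)
    omega
  obtain ⟨V, hV⟩ : ∃ V, V = 4 * M * ℓ := ⟨_, rfl⟩
  have hE := naExp M ℓ hM hℓ
  have hF := naFirst M ℓ hM hℓ
  rw [← hV] at hE hF ⊢
  have hVM : 24 * M ≤ V := by rw [hV]; nlinarith
  have hW : 8 * V ≤ (ℓ / 2 - 1) * (128 * M) := by
    have h1 : ℓ ≤ 4 * (ℓ / 2 - 1) := by omega
    have h2 : 8 * V = 32 * M * ℓ := by rw [hV]; ring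
    rw [h2]
    calc 32 * M * ℓ ≤ 32 * M * (4 * (ℓ / 2 - 1)) := Nat.mul_le_mul_left _ h1
      _ = (ℓ / 2 - 1) * (128 * M) := by ring
  have hI : ((2 : ℝ) ^ ((ℓ / 2 - 1) * (128 * M)))⁻¹ ≤ ((2 : ℝ) ^ (8 * V))⁻¹ := by
    apply inv_anti₀ (by positivity)
    exact pow_le_pow_right₀ (by norm_num) hW
  have h64 : Real.exp (4 * V) ≤ (2 : ℝ) ^ (6 * V) := by
    have h1 : Real.exp 4 ≤ 64 := by
      have h2 : Real.exp 4 = Real.exp 1 ^ 4 := by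
        rw [← Real.exp_nat_mul]
        norm_num
      have h3 := Real.exp_one_lt_d9
      have h4 : Real.exp 1 ^ 4 ≤ (2.7182818286 : ℝ) ^ 4 :=
        pow_le_pow_left₀ (Real.exp_pos 1).le h3.le 4
      rw [h2]
      refine h4.trans ?_
      norm_num
    have h5 : Real.exp (4 * V) = Real.exp 4 ^ V := by
      rw [← Real.exp_nat_mul, mul_comm]
    rw [h5, pow_mul]
    refine (pow_le_pow_left₀ (Real.exp_pos 4).le h1 V).trans (le_of_eq ?_)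
    norm_num
  have hV' : (24 : ℝ) * M ≤ V := by exact_mod_cast hVM
  have hM0 : (0 : ℝ) ≤ M := Nat.cast_nonneg M
  calc (2 * (M : ℝ) ^ 2 * 2 ^ V + 1) * (2 * Real.exp (3 * M)) *
        ((2 : ℝ) ^ ((ℓ / 2 - 1) * (128 * M)))⁻¹ *
          Real.exp (2 ^ (ℓ / 2) * (5 + 4 * Real.log (V : ℝ)))
      = ((2 * (M : ℝ) ^ 2 * 2 ^ V + 1) * 2) * Real.exp (3 * M) *
        ((2 : ℝ) ^ ((ℓ / 2 - 1) * (128 * M)))⁻¹ *
          Real.exp (2 ^ (ℓ / 2) * (5 + 4 * Real.log (V : ℝ))) := by ring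
    _ ≤ 2 ^ (2 * V) * Real.exp (3 * M) * ((2 : ℝ) ^ (8 * V))⁻¹ * Real.exp V := by
        gcongr
    _ = Real.exp (3 * M + V) * ((2 : ℝ) ^ (6 * V))⁻¹ := by
        have h1 : (2 : ℝ) ^ (8 * V) = 2 ^ (2 * V) * 2 ^ (6 * V) := by
          rw [← pow_add]
          congr 1
          ring
        rw [h1, mul_inv, Real.exp_add]
        have h2 : (2 : ℝ) ^ (2 * V) ≠ 0 := by positivity
        field_simp
    _ ≤ Real.exp (3 * M + V) * (Real.exp (4 * V))⁻¹ := by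
        apply mul_le_mul_of_nonneg_left _ (Real.exp_pos _).le
        exact inv_anti₀ (Real.exp_pos _) h64
    _ = Real.exp (3 * M + V - 4 * V) := by rw [Real.exp_sub]; rfl
    _ ≤ Real.exp (-M) := by
        apply Real.exp_le_exp.2
        linarith

end Pool.Agent.Lib.MP_85a137_nt
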