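import Pool.Agent.Lib.MP_85a137_nt.Spec4

/-! Task 17452: the numerical estimate `StmtNumB`. -/

set_option autoImplicit false

namespace Pool.Agent.Lib.MP_85a137_nt

open Filter

private theorem nb_l0 : ∃ ℓ₀ : ℕ, ∀ ℓ : ℕ, ℓ₀ ≤ ℓ →
    64 * Real.exp 30 * (ℓ : ℝ) ^ 33 ≤ 2 ^ ℓ := by
  have h := tendsto_pow_const_div_const_pow_of_one_lt 33 (r := (2 : ℝ)) (by norm_num)
  have h1 : (0 : ℝ) < 1 / (64 * Real.exp 30) := by positivity
  have h2 := h.eventually (gt_mem_nhds h1)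
  obtain ⟨n, hn⟩ := eventually_atTop.1 h2
  refine ⟨n, fun ℓ hℓ => ?_⟩
  have h3 := hn ℓ hℓ
  have h4 : (0 : ℝ) < 2 ^ ℓ := by positivity
  have h5 : (0 : ℝ) < 64 * Real.exp 30 := by positivity
  rw [div_lt_div_iff₀ h4 h5] at h3
  linarith

private theorem nb_T1 (M ℓ g h : ℕ) (s E S : ℝ) (hM : 1 ≤ M) (hℓ : 1 ≤ ℓ)
    (hg : 3 * g ≤ ℓ) (h2 : (2 : ℝ) ^ ℓ ≤ 2 * M) (hbig : 64 * Real.exp 30 * (ℓ : ℝ) ^ 33 ≤ 2 ^ ℓ)
    (h1 : 1 ≤ h) (hh : h ≤ ℓ) (hE : E = Real.exp (5 + 4 * Real.log (h : ℝ)))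
    (hs : 1 + 1 / s ≤ 2 * (M * ℓ)) (hs0 : 0 ≤ 1 + 1 / s) (hS : S = Real.sqrt (1 + 1 / s)) :
    2 ^ g * E * S ≤ M / ℓ := by
  have hM0 : (0 : ℝ) < M := by exact_mod_cast hM
  have hℓ0 : (0 : ℝ) < ℓ := by exact_mod_cast hℓ
  have hh0 : (0 : ℝ) < h := by exact_mod_cast h1
  have hhl : (h : ℝ) ≤ ℓ := by exact_mod_cast hh
  have hP : ((2 : ℝ) ^ g) ^ 3 ≤ 2 * M := by
    refine le_trans ?_ h2
    rw [← pow_mul]
    exact pow_le_pow_right₀ (by norm_num) (by omega)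
  have hE1 : E ≤ Real.exp 5 * (ℓ : ℝ) ^ 4 := by
    rw [hE, Real.exp_add]
    have : Real.exp (4 * Real.log (h : ℝ)) = (h : ℝ) ^ 4 := by
      rw [mul_comm, Real.exp_mul, Real.exp_log hh0]
      norm_cast
    rw [this]
    exact mul_le_mul_of_nonneg_left (pow_le_pow_left₀ hh0.le hhl 4) (Real.exp_pos 5).le
  have hE0 : 0 < E := by rw [hE]; exact Real.exp_pos _
  have hS2 : S ^ 2 ≤ 2 * (M * ℓ) := by
    rw [hS, Real.sq_sqrt hs0]
    exact hs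
  have hS0 : 0 ≤ S := by rw [hS]; exact Real.sqrt_nonneg _
  refine le_of_pow_le_pow_left₀ (n := 6) (by norm_num) (by positivity) ?_
  have e1 : (2 ^ g * E * S) ^ 6 = (((2 : ℝ) ^ g) ^ 3) ^ 2 * E ^ 6 * (S ^ 2) ^ 3 := by ring
  have e2 : (Real.exp 5 * (ℓ : ℝ) ^ 4) ^ 6 = Real.exp 30 * (ℓ : ℝ) ^ 24 := by
    rw [mul_pow, ← Real.exp_nat_mul, ← pow_mul]
    norm_num
  have hM32 : 32 * Real.exp 30 * (ℓ : ℝ) ^ 33 ≤ M := by linarith
  rw [e1, div_pow, le_div_iff₀ (by positivity)]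
  calc (((2 : ℝ) ^ g) ^ 3) ^ 2 * E ^ 6 * (S ^ 2) ^ 3 * (ℓ : ℝ) ^ 6 ≤
      (2 * M) ^ 2 * (Real.exp 5 * (ℓ : ℝ) ^ 4) ^ 6 * (2 * (M * ℓ)) ^ 3 * (ℓ : ℝ) ^ 6 := by
        gcongr
    _ = (32 * Real.exp 30 * (ℓ : ℝ) ^ 33) * (M : ℝ) ^ 5 := by
        rw [e2]; ring
    _ ≤ M * (M : ℝ) ^ 5 := by
        apply mul_le_mul_of_nonneg_right hM32 (by positivity)
    _ = (M : ℝ) ^ 6 := by ring

private theorem nb_T2 (L s M ℓ v : ℝ) (hL : 1 ≤ L) (hM : 0 < M) (hℓ : 0 < ℓ)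
    (hLℓ : L = Real.log ℓ) (hs : s = L / (M * ℓ)) (hv : v = 4 * M * ℓ) :
    (2 : ℝ) ^ (-(v * s)) / s ≤ M / ℓ := by
  have h1 : v * s = 4 * L := by
    rw [hv, hs]
    field_simp
  have h2 : (2 : ℝ) ^ (-(v * s)) ≤ 1 / ℓ ^ 2 := by
    rw [h1, Real.rpow_def_of_pos (by norm_num)]
    have h3 : (1 : ℝ) / ℓ ^ 2 = Real.exp (-(2 * L)) := by
      rw [Real.exp_neg, hLℓ, mul_comm, Real.exp_mul, Real.exp_log hℓ, one_div]
      norm_cast
    rw [h3]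
    apply Real.exp_le_exp.2
    have h4 : (1 : ℝ) / 2 ≤ Real.log 2 := by
      have := Real.log_two_gt_d9
      linarith
    nlinarith
  have hs0 : 0 < s := by rw [hs]; positivity
  have h5 : 1 / s ≤ M * ℓ := by
    rw [hs, one_div_div, div_le_iff₀ (by linarith)]
    have : 0 < M * ℓ := by positivity
    nlinarith
  calc (2 : ℝ) ^ (-(v * s)) / s = (2 : ℝ) ^ (-(v * s)) * (1 / s) := by ring
    _ ≤ 1 / ℓ ^ 2 * (M * ℓ) := by
        apply mul_le_mul h2 h5 (by positivity) (by positivity)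
    _ = M / ℓ := by
        field_simp

private theorem nb_r (M ℓ g r : ℕ) (hℓ : 8 ≤ ℓ) (hM : ℓ ≤ M) (hg : g = ℓ / 3)
    (hr : r = 128 * M / g + 1) : (r : ℝ) * ℓ ≤ 513 * M := by
  have h1 : ℓ ≤ 4 * g := by omega
  have h2 : 128 * M / g * g ≤ 128 * M := Nat.div_mul_le_self _ _
  have h3 : r * ℓ ≤ 513 * M := by
    rw [hr, add_mul, one_mul]
    have h4 : 128 * M / g * ℓ ≤ 128 * M / g * (4 * g) := Nat.mul_le_mul_left _ h1
    have h5 : 128 * M / g * (4 * g) = 4 * (128 * M / g * g) := by ring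
    omega
  exact_mod_cast h3

theorem tNumB : StmtNumB := by
  obtain ⟨ℓ₀, hℓ₀⟩ := nb_l0
  refine ⟨2 ^ (ℓ₀ + 8), ?_⟩
  intro M N ℓ g r hM hN hNM hℓ hg hr s hs
  have hM0 : M ≠ 0 := by
    rintro rfl
    have : 0 < 2 ^ (ℓ₀ + 8) := by positivity
    omega
  have hlog : ℓ₀ + 8 ≤ Nat.log 2 M := (Nat.le_log_iff_pow_le (by norm_num) hM0).2 hM
  have hℓ8 : 8 ≤ ℓ := by omega
  have h2l : 2 ^ ℓ ≤ 2 * M := by
    rw [hℓ, pow_succ]
    have := Nat.pow_log_le_self 2 hM0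
    omega
  have hlM : ℓ ≤ M := by
    have h1 : ℓ ≤ 2 ^ (ℓ - 1) := by
      have := Nat.lt_two_pow_self (n := ℓ - 1)
      omega
    have h2 : 2 ^ (ℓ - 1) ≤ M := by
      rw [hℓ, Nat.add_sub_cancel]
      exact Nat.pow_log_le_self 2 hM0
    omega
  have hg1 : 1 ≤ g := by omega
  have hMp : (0 : ℝ) < M := by exact_mod_cast Nat.pos_of_ne_zero hM0
  have hℓp : (0 : ℝ) < ℓ := by exact_mod_cast (by omega : 0 < ℓ)
  have hNp : (0 : ℝ) < N := by exact_mod_cast hN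
  set L := Real.log (ℓ : ℝ) with hL
  have hL1 : 1 ≤ L := by
    have h1 : Real.log 8 ≤ L := Real.log_le_log (by norm_num) (by exact_mod_cast hℓ8)
    have h2 : Real.log 8 = 3 * Real.log 2 := by
      rw [show (8 : ℝ) = 2 ^ 3 by norm_num, Real.log_pow]
      norm_num
    have := Real.log_two_gt_d9
    linarith
  have hs0 : 0 < s := by rw [hs]; positivity
  refine ⟨hg1, hs0, ?_⟩
  have h2lR : (2 : ℝ) ^ ℓ ≤ 2 * M := by exact_mod_cast h2l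
  have hMl1 : (1 : ℝ) ≤ M * ℓ := by
    have h1 : (1 : ℝ) ≤ M := by exact_mod_cast Nat.pos_of_ne_zero hM0
    have h2 : (1 : ℝ) ≤ ℓ := by exact_mod_cast (by omega : 1 ≤ ℓ)
    nlinarith
  have hsM : 1 + 1 / s ≤ 2 * ((M : ℝ) * ℓ) := by
    have h5 : 1 / s ≤ M * ℓ := by
      rw [hs, one_div_div, div_le_iff₀ (by linarith)]
      nlinarith
    linarith
  have hs00 : 0 ≤ 1 + 1 / s := by positivity
  have t1 := nb_T1 M ℓ g (ℓ / 2) s _ _ (Nat.pos_of_ne_zero hM0) (by omega) (by omega) h2lR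
    (hℓ₀ ℓ (by omega)) (by omega) (by omega) rfl hsM hs00 rfl
  have t2 := nb_T2 L s M ℓ ((4 * M * ℓ : ℕ) : ℝ) hL1 hMp hℓp rfl hs (by push_cast; ring)
  have t3 : ((4 * M * ℓ : ℕ) : ℝ) / (ℓ : ℝ) ^ 2 = 4 * (M / ℓ) := by
    push_cast
    field_simp
  rw [t3]
  have hNs : (N : ℝ) ^ (1 + s) ≤ N * Real.exp (M * L / ℓ) := by
    rw [Real.rpow_add hNp, Real.rpow_one]
    apply mul_le_mul_of_nonneg_left _ hNp.le
    rw [Real.rpow_def_of_pos hNp]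
    apply Real.exp_le_exp.2
    have h1 : Real.log N * s ≤ (M : ℝ) ^ 2 * s := mul_le_mul_of_nonneg_right hNM hs0.le
    refine h1.trans (le_of_eq ?_)
    rw [hs]
    field_simp
  have hr1 := nb_r M ℓ g r hℓ8 hlM hg hr
  have hrX : ((ℓ : ℝ) ^ 2) ^ r ≤ Real.exp (1026 * (M * L / ℓ)) := by
    rw [← pow_mul]
    have h1 : (ℓ : ℝ) ^ (2 * r) = Real.exp (((2 * r : ℕ) : ℝ) * L) := by
      rw [Real.exp_nat_mul, hL, Real.exp_log hℓp]
    rw [h1]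
    apply Real.exp_le_exp.2
    push_cast
    have h2 : (r : ℝ) ≤ 513 * M / ℓ := by
      rw [le_div_iff₀ hℓp]
      exact hr1
    calc 2 * (r : ℝ) * L ≤ 2 * (513 * M / ℓ) * L := by
          apply mul_le_mul_of_nonneg_right _ (by linarith)
          linarith
      _ = 1026 * (M * L / ℓ) := by ring
  have hMX : (M : ℝ) / ℓ ≤ M * L / ℓ := by
    apply div_le_div_of_nonneg_right _ hℓp.le
    nlinarith
  have hX0 : 0 ≤ (M : ℝ) * L / ℓ := by positivity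
  set X := (M : ℝ) * L / ℓ with hX
  have hexp : Real.exp (2 * (2 ^ g * Real.exp (5 + 4 * Real.log ((ℓ / 2 : ℕ) : ℝ)) *
      Real.sqrt (1 + 1 / s) + (2 : ℝ) ^ (-(((4 * M * ℓ : ℕ) : ℝ) * s)) / s + 4 * (M / ℓ))) ≤
      Real.exp (12 * X) := by
    apply Real.exp_le_exp.2
    linarith
  calc (N : ℝ) ^ (1 + s) * ((ℓ : ℝ) ^ 2) ^ r *
      Real.exp (2 * (2 ^ g * Real.exp (5 + 4 * Real.log ((ℓ / 2 : ℕ) : ℝ)) *
      Real.sqrt (1 + 1 / s) + (2 : ℝ) ^ (-(((4 * M * ℓ : ℕ) : ℝ) * s)) / s + 4 * (M / ℓ))) ≤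
      (N * Real.exp X) * Real.exp (1026 * X) * Real.exp (12 * X) := by
        gcongr
    _ = N * Real.exp (1039 * X) := by
        rw [mul_assoc, mul_assoc, ← Real.exp_add, ← Real.exp_add]
        congr 2
        ring
    _ ≤ N * Real.exp (1100 * X) := by
        apply mul_le_mul_of_nonneg_left _ hNp.le
        apply Real.exp_le_exp.2
        linarith

end Pool.Agent.Lib.MP_85a137_nt
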