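import Pool.Agent.Lib.MP_85a137_nt.Spec4

/-!
# MP_85a137_nt, fourth version: the numerical estimate
-/

set_option autoImplicit false

namespace Pool.Agent.Lib.MP_85a137_nt

/-- The estimates in terms of `w = loglog x`. -/
private theorem numF_aux (x w u s v e B : ℝ) (hx : 0 < x) (hw : 4000 ≤ w) (hu : 1 ≤ u)
    (huw : u ≤ w) (hs : w ^ 4 ≤ s) (hv : u ≤ 2 * v) (he0 : 0 < e) (he : e ≤ w)
    (hB : B = s * u / w) :
    w * u ^ 4 ≤ s * w ∧
    1 / 10 ^ 8 * B ≤ 1 / 10 ^ 7 * (s * w) * v / e ^ 2 ∧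
    x * Real.exp (-(1 / 10 ^ 7 * s ^ 2 * v / (s * w))) + x * Real.exp (-B) ≤
      x * Real.exp (-(1 / 10 ^ 8 * B)) := by
  have hw0 : 0 < w := by linarith
  have hw1 : 1 ≤ w := by linarith
  have hs0 : 0 < s := lt_of_lt_of_le (by positivity) hs
  have hv0 : 0 < v := by linarith
  have hBw : w ^ 3 ≤ B := by
    rw [hB, le_div_iff₀ hw0]
    have h1 : w ^ 3 * w = w ^ 4 := by ring
    rw [h1]
    nlinarith
  have hB0 : (10 : ℝ) ^ 8 ≤ B := by
    refine le_trans ?_ hBw
    have h1 : (4000 : ℝ) ^ 3 ≤ w ^ 3 := pow_le_pow_left₀ (by norm_num) hw 3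
    refine le_trans ?_ h1
    norm_num
  refine ⟨?_, ?_, ?_⟩
  · have h1 : u ^ 4 ≤ w ^ 4 := pow_le_pow_left₀ (by linarith) huw 4
    nlinarith [h1.trans hs]
  · have h1 : B / 2 ≤ s * w * v / e ^ 2 := by
      rw [hB, div_div, div_le_div_iff₀ (by positivity) (by positivity)]
      have h2 : e ^ 2 ≤ w ^ 2 := pow_le_pow_left₀ he0.le he 2
      have h3 : s * u * e ^ 2 ≤ s * (2 * v) * w ^ 2 :=
        mul_le_mul (mul_le_mul_of_nonneg_left hv hs0.le) h2 (by positivity) (by positivity)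
      refine h3.trans (le_of_eq ?_)
      ring
    have h2 : 1 / 10 ^ 7 * (s * w) * v / e ^ 2 = 1 / 10 ^ 7 * (s * w * v / e ^ 2) := by ring
    rw [h2]
    have h3 : (0 : ℝ) < B := lt_of_lt_of_le (by norm_num) hB0
    nlinarith
  · have h1 : B / 2 ≤ s ^ 2 * v / (s * w) := by
      have h2 : s ^ 2 * v / (s * w) = s * v / w := by
        field_simp
      rw [h2, hB, div_div, div_le_div_iff₀ (by positivity) hw0]
      have h3 : s * u * w ≤ s * (2 * v) * w := by
        have := mul_le_mul_of_nonneg_left hv hs0.le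
        exact mul_le_mul_of_nonneg_right this hw0.le
      refine h3.trans (le_of_eq ?_)
      ring
    have h2 : 5 * (B / 10 ^ 8) ≤ 1 / 10 ^ 7 * s ^ 2 * v / (s * w) := by
      have h3 : 1 / 10 ^ 7 * s ^ 2 * v / (s * w) = 1 / 10 ^ 7 * (s ^ 2 * v / (s * w)) := by ring
      rw [h3]
      linarith
    have hb : 1 ≤ B / 10 ^ 8 := by
      rw [le_div_iff₀ (by norm_num)]
      linarith
    have e1 : Real.exp (-(1 / 10 ^ 7 * s ^ 2 * v / (s * w))) ≤ Real.exp (-(5 * (B / 10 ^ 8))) :=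
      Real.exp_le_exp.2 (by linarith)
    have e2 : Real.exp (-B) ≤ Real.exp (-(5 * (B / 10 ^ 8))) := Real.exp_le_exp.2 (by linarith)
    have e3 : 2 * Real.exp (-(5 * (B / 10 ^ 8))) ≤ Real.exp (-(1 / 10 ^ 8 * B)) := by
      have h3 : Real.exp (-(1 / 10 ^ 8 * B)) =
          Real.exp (4 * (B / 10 ^ 8)) * Real.exp (-(5 * (B / 10 ^ 8))) := by
        rw [← Real.exp_add]
        congr 1
        ring
      rw [h3]
      have h4 : 2 ≤ Real.exp (4 * (B / 10 ^ 8)) := by
        have := Real.add_one_le_exp (4 * (B / 10 ^ 8))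
        linarith
      exact mul_le_mul_of_nonneg_right h4 (Real.exp_pos _).le
    rw [← mul_add]
    refine mul_le_mul_of_nonneg_left ?_ hx.le
    linarith

theorem tNumF : StmtNumF := by
  refine ⟨⌈Real.exp (Real.exp 4000)⌉₊, fun x hx y hy => ?_⟩
  have hx1 : Real.exp (Real.exp 4000) ≤ (x : ℝ) := (Nat.le_ceil _).trans (by exact_mod_cast hx)
  have hx0 : (0 : ℝ) < x := (Real.exp_pos _).trans_le hx1
  have hL : Real.exp 4000 ≤ Real.log x := (Real.le_log_iff_exp_le hx0).2 hx1
  have hL0 : 0 < Real.log x := (Real.exp_pos _).trans_le hL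
  have hw : 4000 ≤ Real.log (Real.log x) := (Real.le_log_iff_exp_le hL0).2 hL
  obtain ⟨w, hwd⟩ : ∃ w, w = Real.log (Real.log x) := ⟨_, rfl⟩
  have hLw : Real.log x = Real.exp w := by rw [hwd, Real.exp_log hL0]
  rw [← hwd] at hw
  have hw0 : 0 < w := by linarith
  have hsq : Real.sqrt (Real.log x) = Real.exp (w / 2) := by rw [hLw, Real.exp_half]
  have hs : w ^ 4 ≤ Real.exp (w / 2) := by
    have h1 := Real.pow_div_factorial_le_exp (w / 2) (by linarith) 5
    refine le_trans ?_ h1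
    rw [le_div_iff₀ (by positivity)]
    have h2 : ((Nat.factorial 5 : ℕ) : ℝ) = 120 := by norm_num [Nat.factorial]
    rw [h2]
    have h3 : (w / 2) ^ 5 = w ^ 4 * (w / 32) := by ring
    rw [h3]
    exact mul_le_mul_of_nonneg_left (by linarith) (by positivity)
  have hww : w ≤ w ^ 4 := le_self_pow₀ (by linarith) (by norm_num)
  have hu1 : 1 ≤ Real.log w := by
    rw [Real.le_log_iff_exp_le hw0]
    have := Real.exp_one_lt_d9
    linarith
  have hu2 : Real.log w ≤ w / 2 := by
    rw [Real.log_le_iff_le_exp hw0]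
    exact hww.trans hs
  have hlogy : Real.log y = w / 2 + Real.log w := by
    rw [hy, hsq, ← hwd, Real.log_mul (Real.exp_pos _).ne' hw0.ne', Real.log_exp]
  have hv : Real.log w ≤ 2 * Real.log (Real.log y) := by
    have h1 : Real.log (w / 2) ≤ Real.log (Real.log y) := by
      refine Real.log_le_log (by linarith) ?_
      rw [hlogy]
      linarith
    have h2 : Real.log w ≤ Real.log ((w / 2) ^ 2) := by
      refine Real.log_le_log hw0 ?_
      nlinarith
    rw [Real.log_pow] at h2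
    push_cast at h2
    linarith
  have key := numF_aux x w (Real.log w) (Real.exp (w / 2)) (Real.log (Real.log y)) (Real.log y)
    (BB x) hx0 hw hu1 (by linarith) hs hv (by rw [hlogy]; linarith) (by rw [hlogy]; linarith)
    (by rw [BB, hsq, ← hwd])
  have hss : Real.exp (w / 2) ^ 2 = Real.log x := by
    rw [hLw, ← Real.exp_nat_mul]
    congr 1
    push_cast
    ring
  rw [hss] at key
  have hy' : Real.exp (w / 2) * w = y := by rw [hy, hsq, ← hwd]
  rw [hy'] at key
  rw [← hwd]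
  exact key

end Pool.Agent.Lib.MP_85a137_nt
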