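import Pool.Agent.Lib.MP_85a137_nt.Spec4

/-!
MP_85a137_nt: numerical estimates for the upper bound.
-/

set_option autoImplicit false

namespace Pool.Agent.Lib.MP_85a137_nt

open Filter Topology

theorem tNumU : StmtNumU := by
  intro M₀
  have htend : Tendsto (fun x : ℕ => Real.log (Real.log x)) atTop atTop :=
    Real.tendsto_log_atTop.comp (Real.tendsto_log_atTop.comp tendsto_natCast_atTop_atTop)
  obtain ⟨x₀, hx₀⟩ := eventually_atTop.1 (htend.eventually_ge_atTop (1000 + M₀ : ℝ))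
  refine ⟨max x₀ 2, fun x M ℓ hx hM hℓ => ?_⟩
  have hw1 := hx₀ x ((le_max_left _ _).trans hx)
  have hx2 : 2 ≤ x := (le_max_right _ _).trans hx
  have hM₀0 : (0 : ℝ) ≤ M₀ := Nat.cast_nonneg _
  have hxr : (2 : ℝ) ≤ x := by exact_mod_cast hx2
  have hl2 : 0.6931471803 < Real.log 2 := Real.log_two_gt_d9
  have hl2' : Real.log 2 < 0.6931471808 := Real.log_two_lt_d9
  have hBB : BB x = Real.sqrt (Real.log x) * Real.log (Real.log (Real.log x)) /
      Real.log (Real.log x) := rfl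
  have hlog2x : Real.log (2 * x) = Real.log 2 + Real.log x :=
    Real.log_mul (by norm_num) (by positivity)
  have hxexp : (x : ℝ) = Real.exp (Real.log x) := (Real.exp_log (by linarith)).symm
  have hLpos : 0 < Real.log x := Real.log_pos (by linarith)
  obtain ⟨L, hL⟩ : ∃ L, L = Real.log x := ⟨_, rfl⟩
  rw [← hL] at hw1 hBB hlog2x hxexp hLpos
  obtain ⟨w, hw⟩ : ∃ w, w = Real.log L := ⟨_, rfl⟩
  rw [← hw] at hw1 hBB
  have hw0 : 1000 ≤ w := by linarith
  have hLw : L = Real.exp w := by rw [hw, Real.exp_log hLpos]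
  obtain ⟨S, hS⟩ : ∃ S, S = Real.sqrt L := ⟨_, rfl⟩
  rw [← hS] at hBB
  have hS0 : 0 ≤ S := by rw [hS]; exact Real.sqrt_nonneg _
  have hSS : S * S = L := by rw [hS]; exact Real.mul_self_sqrt hLpos.le
  have hSe : S = Real.exp (w / 2) := by
    have h1 : S * S = Real.exp (w / 2) * Real.exp (w / 2) := by
      rw [hSS, hLw, ← Real.exp_add]
      congr 1
      ring
    exact (mul_self_inj hS0 (Real.exp_pos _).le).1 h1
  have hSw : w * w / 8 ≤ S := by
    have h1 := Real.quadratic_le_exp_of_nonneg (x := w / 2) (by linarith)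
    rw [← hSe] at h1
    nlinarith
  have hSw2 : 125 * w ≤ S := by nlinarith
  have hS1 : 1 ≤ S := by linarith
  have hLS : S ≤ L := by nlinarith
  -- `M`
  have hMl : S ≤ M := by
    rw [hM]
    refine le_trans ?_ (Nat.le_ceil _)
    rw [hS, hlog2x]
    exact Real.sqrt_le_sqrt (by linarith)
  have hMu : (M : ℝ) ≤ 2 * S := by
    have h1 : (M : ℝ) < Real.sqrt (Real.log (2 * x)) + 1 := by
      rw [hM]
      exact Nat.ceil_lt_add_one (Real.sqrt_nonneg _)
    have h2 : Real.sqrt (Real.log (2 * x)) ≤ S + 1 := by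
      rw [Real.sqrt_le_left (by linarith), hlog2x, ← hSS]
      nlinarith
    linarith
  have hM2 : Real.log (2 * x) ≤ (M : ℝ) ^ 2 := by
    have h1 : Real.sqrt (Real.log (2 * x)) ≤ M := by rw [hM]; exact Nat.le_ceil _
    have h0 : 0 ≤ Real.log (2 * x) := by rw [hlog2x]; linarith
    calc Real.log (2 * x) = Real.sqrt (Real.log (2 * x)) ^ 2 := (Real.sq_sqrt h0).symm
      _ ≤ (M : ℝ) ^ 2 := pow_le_pow_left₀ (Real.sqrt_nonneg _) h1 2
  have hMr : (0 : ℝ) < M := by linarith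
  have hM1 : M ≠ 0 := by
    intro h
    rw [h] at hMr
    simp at hMr
  -- `ℓ`
  have hlogM1 : w / 2 ≤ Real.log M := by
    rw [Real.le_log_iff_exp_le hMr, ← hSe]
    exact hMl
  have hlogM2 : Real.log M ≤ Real.log 2 + w / 2 := by
    have h1 := Real.log_le_log hMr hMu
    rwa [Real.log_mul (by norm_num) (by linarith), hSe, Real.log_exp] at h1
  have hℓ1 : Real.log M ≤ ℓ * Real.log 2 := by
    have h1 := Nat.lt_pow_succ_log_self (b := 2) (by norm_num) M
    have h2 : (M : ℝ) ≤ (2 : ℝ) ^ ℓ := by rw [hℓ]; exact_mod_cast h1.le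
    have h3 := Real.log_le_log hMr h2
    rwa [Real.log_pow] at h3
  have hℓ2 : ((ℓ : ℝ) - 1) * Real.log 2 ≤ Real.log M := by
    have h1 := Nat.pow_log_le_self 2 hM1
    have h2 : ((2 : ℝ)) ^ (Nat.log 2 M) ≤ M := by exact_mod_cast h1
    have h3 := Real.log_le_log (by positivity) h2
    rw [Real.log_pow] at h3
    rw [hℓ]
    push_cast
    rw [add_sub_cancel_right]
    exact h3
  have hℓl : w / 2 ≤ ℓ := by nlinarith
  have hℓu : (ℓ : ℝ) ≤ 0.73 * w := by nlinarith
  have hℓ0 : (0 : ℝ) < ℓ := by linarith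
  have hℓ4 : 4 ≤ ℓ := by
    have h1 : (4 : ℝ) ≤ ℓ := by linarith
    exact_mod_cast h1
  -- logarithms
  have hlw : 6 ≤ Real.log w := by
    rw [Real.le_log_iff_exp_le (by linarith)]
    have h1 : Real.exp 6 = Real.exp 1 ^ 6 := by rw [← Real.exp_nat_mul]; norm_num
    have h2 := Real.exp_one_lt_d9
    have h3 : Real.exp 1 ^ 6 ≤ 2.8 ^ 6 :=
      pow_le_pow_left₀ (Real.exp_pos _).le (by linarith) 6
    rw [h1]
    refine h3.trans (le_trans ?_ hw0)
    norm_num
  have hlℓ1 : Real.log w - Real.log 2 ≤ Real.log ℓ := by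
    have h1 := Real.log_le_log (by linarith) hℓl
    rwa [Real.log_div (by linarith) (by norm_num)] at h1
  have hlℓ2 : Real.log ℓ ≤ Real.log w := Real.log_le_log hℓ0 (by linarith)
  have hlww : Real.log w ≤ w / 2 := by
    have h1 := Real.log_le_sub_one_of_pos (x := w / 2) (by linarith)
    rw [Real.log_div (by linarith) (by norm_num)] at h1
    linarith
  obtain ⟨a, ha⟩ : ∃ a, a = Real.log w := ⟨_, rfl⟩
  rw [← ha] at hlw hlℓ1 hlℓ2 hlww hBB
  obtain ⟨e, he⟩ : ∃ e, e = Real.log ℓ := ⟨_, rfl⟩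
  rw [← he] at hlℓ1 hlℓ2
  have hX1 : BB x ≤ M * e / ℓ := by
    rw [hBB, div_le_div_iff₀ (by linarith) hℓ0]
    have h1 : S * (a * ℓ) ≤ S * (e * w) := by
      apply mul_le_mul_of_nonneg_left _ hS0
      have h2 : a * ℓ ≤ a * (0.73 * w) := mul_le_mul_of_nonneg_left hℓu (by linarith)
      have h3 : (0.73 * a) * w ≤ e * w := by
        apply mul_le_mul_of_nonneg_right _ (by linarith)
        linarith
      linarith
    have h4 : S * (e * w) ≤ M * (e * w) := by
      apply mul_le_mul_of_nonneg_right hMl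
      exact mul_nonneg (by linarith) (by linarith)
    linarith
  have hX2 : M * e / ℓ ≤ 4 * BB x := by
    rw [hBB, ← mul_div_assoc, div_le_div_iff₀ hℓ0 (by linarith)]
    have h1 : M * e ≤ 2 * S * a :=
      mul_le_mul hMu hlℓ2 (by linarith) (by linarith)
    have h2 : M * e * w ≤ 2 * S * a * w := mul_le_mul_of_nonneg_right h1 (by linarith)
    have h3 : 0 ≤ 2 * S * a := by
      have : 0 ≤ a := by linarith
      positivity
    have h4 : 2 * S * a * w ≤ 2 * S * a * (2 * ℓ) := mul_le_mul_of_nonneg_left (by linarith) h3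
    linarith
  have hB2 : 2 ≤ BB x := by
    rw [hBB, le_div_iff₀ (by linarith)]
    nlinarith
  have hBS : 2 * BB x ≤ S := by
    rw [hBB, ← mul_div_assoc, div_le_iff₀ (by linarith)]
    nlinarith
  have hexp2 : 6 ≤ Real.exp 2 := by
    have h1 : Real.exp 2 = Real.exp 1 ^ 2 := by rw [← Real.exp_nat_mul]; norm_num
    have h2 := Real.exp_one_gt_d9
    rw [h1]
    nlinarith
  refine ⟨?_, hx2, hℓ4, hM2, ?_, ?_, ?_⟩
  · have h1 : (M₀ : ℝ) ≤ M := by linarith
    exact_mod_cast h1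
  · rw [← he]
    exact hX1
  · rw [← he]
    exact hX2
  · rw [← he]
    obtain ⟨X, hX⟩ : ∃ X, X = M * e / ℓ := ⟨_, rfl⟩
    rw [← hX] at hX1 ⊢
    obtain ⟨B, hB⟩ : ∃ B, B = BB (x : ℝ) := ⟨_, rfl⟩
    rw [← hB] at hX1 hB2 hBS ⊢
    have hx0 : (0 : ℝ) ≤ x := by linarith
    -- the three terms
    have t1 : 6 * 2 ≤ 2 * (x * Real.exp (-B)) := by
      have h1 : (x : ℝ) * Real.exp (-B) = Real.exp (L - B) := by
        rw [hxexp, ← Real.exp_add]
        rfl
      have h2 : Real.exp 2 ≤ Real.exp (L - B) := Real.exp_le_exp.2 (by linarith)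
      rw [h1]
      linarith
    have t2 : 6 * Real.exp (-(M : ℝ)) ≤ Real.exp (-B) := by
      calc 6 * Real.exp (-(M : ℝ)) ≤ Real.exp 2 * Real.exp (-(M : ℝ)) :=
            mul_le_mul_of_nonneg_right hexp2 (Real.exp_pos _).le
        _ = Real.exp (2 + -(M : ℝ)) := (Real.exp_add _ _).symm
        _ ≤ Real.exp (-B) := Real.exp_le_exp.2 (by linarith)
    have t3 : 6 * Real.exp (-(2 * X)) ≤ Real.exp (-B) := by
      calc 6 * Real.exp (-(2 * X)) ≤ Real.exp 2 * Real.exp (-(2 * X)) :=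
            mul_le_mul_of_nonneg_right hexp2 (Real.exp_pos _).le
        _ = Real.exp (2 + -(2 * X)) := (Real.exp_add _ _).symm
        _ ≤ Real.exp (-B) := Real.exp_le_exp.2 (by linarith)
    have t2' := mul_le_mul_of_nonneg_left t2 hx0
    have t3' := mul_le_mul_of_nonneg_left t3 hx0
    linarith

end Pool.Agent.Lib.MP_85a137_nt
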