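import Pool.Agent.Lib.MP_85a137_nt.Spec4

/-!
# MP_85a137_nt, fourth version: the integer parameters
-/

set_option autoImplicit false

namespace Pool.Agent.Lib.MP_85a137_nt

open Finset

theorem tPar4 : StmtPar4 := by
  intro m ρ Λ ℓ hm hρ hΛρ hℓ hB hC
  have hmlt : m < 2 ^ ℓ := by rw [hℓ]; exact Nat.lt_pow_succ_log_self (by norm_num) m
  have hℓ1 : 1 ≤ ℓ := by omega
  have hd : 0 < 200 * ℓ ^ 2 := by positivity
  obtain ⟨n, hn⟩ : ∃ n, n = m / (200 * ℓ ^ 2) := ⟨_, rfl⟩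
  have hn1 : 200 * ℓ ^ 2 * n ≤ m := by rw [hn]; exact Nat.mul_div_le _ _
  have hn2 : m < 200 * ℓ ^ 2 * (n + 1) := by
    rw [hn]; exact Nat.lt_mul_div_succ _ hd
  have hn3 : 1100 * ρ * ℓ ≤ n := by
    rw [hn, Nat.le_div_iff_mul_le hd, mul_comm]
    exact hB
  have hρℓ : 1 ≤ ρ * ℓ := Nat.mul_le_mul hρ hℓ1
  have hℓρ : ℓ ≤ ρ * ℓ := Nat.le_mul_of_pos_left _ hρ
  have hρρ : ρ ≤ ρ * ℓ := Nat.le_mul_of_pos_right _ hℓ1
  have hn4 : 1100 * (ρ * ℓ) ≤ n := by rw [← mul_assoc]; exact hn3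
  have hsl : 1 ≤ ℓ ^ 2 := Nat.one_le_pow _ _ hℓ1
  have h200ℓ : 200 * n * ℓ ^ 2 ≤ m := by
    calc 200 * n * ℓ ^ 2 = 200 * ℓ ^ 2 * n := by ring
      _ ≤ m := hn1
  have h200l : 200 * (ℓ * n) ≤ m := by
    have h1 : ℓ ≤ ℓ ^ 2 := by nlinarith
    calc 200 * (ℓ * n) = 200 * n * ℓ := by ring
      _ ≤ 200 * n * ℓ ^ 2 := Nat.mul_le_mul_left _ h1
      _ ≤ m := h200ℓ
  have h200 : 200 * n ≤ m := by
    calc 200 * n = 200 * n * 1 := by ring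
      _ ≤ 200 * n * ℓ ^ 2 := Nat.mul_le_mul_left _ hsl
      _ ≤ m := h200ℓ
  obtain ⟨J, hJ⟩ : ∃ J, J = m * n / (50 * ℓ) := ⟨_, rfl⟩
  have h50 : 0 < 50 * ℓ := by positivity
  have hJ1 : 50 * ℓ * J ≤ m * n := by rw [hJ]; exact Nat.mul_div_le _ _
  have hJ2 : m * n < 50 * ℓ * (J + 1) := by rw [hJ]; exact Nat.lt_mul_div_succ _ h50
  have hJ3 : 22 * m ≤ J := by
    rw [hJ, Nat.le_div_iff_mul_le h50]
    have h1 : 22 * (50 * ℓ) ≤ n := by omega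
    calc 22 * m * (50 * ℓ) = m * (22 * (50 * ℓ)) := by ring
      _ ≤ m * n := Nat.mul_le_mul_left _ h1
  have hJ4 : J < 2 ^ (2 * ℓ) := by
    have h1 : J ≤ m * n := by
      have h2 : J ≤ 50 * ℓ * J := Nat.le_mul_of_pos_left _ h50
      exact h2.trans hJ1
    have h2 : m * n ≤ m * m := Nat.mul_le_mul_left _ (by omega)
    have h3 : m * m < 2 ^ ℓ * 2 ^ ℓ := Nat.mul_lt_mul'' hmlt hmlt
    have h4 : (2 : ℕ) ^ (2 * ℓ) = 2 ^ ℓ * 2 ^ ℓ := by rw [two_mul, pow_add]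
    omega
  have hJ0 : J ≠ 0 := by omega
  have hlogJ : Nat.log 2 J + 1 ≤ 2 * ℓ := Nat.log_lt_of_lt_pow hJ0 hJ4
  have h100 : 100 * J * (Nat.log 2 J + 1) ≤ 4 * m * n := by
    calc 100 * J * (Nat.log 2 J + 1) ≤ 100 * J * (2 * ℓ) := Nat.mul_le_mul_left _ hlogJ
      _ = 4 * (50 * ℓ * J) := by ring
      _ ≤ 4 * (m * n) := Nat.mul_le_mul_left _ hJ1
      _ = 4 * m * n := by ring
  have hmn : 220 * ℓ ≤ m * n := by
    have h1 : 220 * ℓ ≤ n := by omega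
    exact h1.trans (Nat.le_mul_of_pos_left _ hm)
  have h7 : 7 * m * n + 1 ≤ J * (500 * ℓ) := by
    have h1 : J * (500 * ℓ) = 10 * (50 * ℓ * J) := by ring
    have h2 : 50 * ℓ * (J + 1) = 50 * ℓ * J + 50 * ℓ := by ring
    have h3 : 7 * m * n = 7 * (m * n) := by ring
    omega
  have hR0 : 0 < 34 * m * n := by
    have : 1 ≤ n := by omega
    positivity
  obtain ⟨R, hR⟩ : ∃ R, R = Λ / (34 * m * n) := ⟨_, rfl⟩
  have hR1 : 34 * m * n * R ≤ Λ := by rw [hR]; exact Nat.mul_div_le _ _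
  have hR2 : Λ < 34 * m * n * (R + 1) := by rw [hR]; exact Nat.lt_mul_div_succ _ hR0
  have hR3 : 1 ≤ R := by
    rw [hR, Nat.le_div_iff_mul_le hR0, one_mul]
    have h1 : 34 * m * n * (200 * ℓ ^ 2) ≤ Λ * (200 * ℓ ^ 2) := by
      calc 34 * m * n * (200 * ℓ ^ 2) = 34 * m * (200 * n * ℓ ^ 2) := by ring
        _ ≤ 34 * m * m := Nat.mul_le_mul_left _ h200ℓ
        _ = 34 * m ^ 2 := by ring
        _ ≤ 200 * Λ * ℓ ^ 2 := hC
        _ = Λ * (200 * ℓ ^ 2) := by ring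
    exact Nat.le_of_mul_le_mul_right h1 (by positivity)
  have hR4 : R ≤ 2 ^ ρ := by
    have h1 : R ≤ 34 * m * n * R := Nat.le_mul_of_pos_left _ hR0
    omega
  have hJ5 : J ^ 10 ≤ 2 ^ (20 * ℓ) := by
    have h1 := Nat.pow_le_pow_left hJ4.le 10
    rw [← pow_mul] at h1
    have h2 : 2 * ℓ * 10 = 20 * ℓ := by ring
    rwa [h2] at h1
  have hpow : ∀ a, R ^ a ≤ 2 ^ (ρ * a) := by
    intro a
    have h1 := Nat.pow_le_pow_left hR4 a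
    rwa [← pow_mul] at h1
  have hu : 500 * ℓ ≤ 2 ^ (9 + ℓ) := by
    rw [pow_add]
    exact Nat.mul_le_mul (by norm_num) Nat.lt_two_pow_self.le
  have hlogn : 2 * Nat.log 2 ℓ * n ≤ 2 * (ℓ * n) := by
    have h1 : Nat.log 2 ℓ ≤ ℓ := Nat.log_le_self 2 ℓ
    calc 2 * Nat.log 2 ℓ * n = 2 * (Nat.log 2 ℓ * n) := by ring
      _ ≤ 2 * (ℓ * n) := Nat.mul_le_mul_left _ (Nat.mul_le_mul_right _ h1)
  refine ⟨n, J, 500 * ℓ, R, by omega, hn1, hn2, by omega, by omega, h100, h7,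
    by omega, hR3, ?_, ?_, hR1, hR2, ?_⟩
  · calc 64 * (500 * ℓ) * J ^ 10 * R ^ (2 * (500 * ℓ) + 1)
        ≤ 2 ^ 6 * 2 ^ (9 + ℓ) * 2 ^ (20 * ℓ) * 2 ^ (ρ * (2 * (500 * ℓ) + 1)) := by
          apply Nat.mul_le_mul _ (hpow _)
          apply Nat.mul_le_mul _ hJ5
          exact Nat.mul_le_mul (by norm_num) hu
      _ = 2 ^ (6 + (9 + ℓ) + 20 * ℓ + ρ * (2 * (500 * ℓ) + 1)) := by
          rw [← pow_add, ← pow_add, ← pow_add]
      _ < 2 ^ J := by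
          apply Nat.pow_lt_pow_right (by norm_num)
          have h1 : ρ * (2 * (500 * ℓ) + 1) = 1000 * (ρ * ℓ) + ρ := by ring
          omega
  · calc 8 * J ^ 10 * R ^ (500 * ℓ)
        ≤ 2 ^ 3 * 2 ^ (20 * ℓ) * 2 ^ (ρ * (500 * ℓ)) := by
          apply Nat.mul_le_mul _ (hpow _)
          exact Nat.mul_le_mul (by norm_num) hJ5
      _ = 2 ^ (3 + 20 * ℓ + ρ * (500 * ℓ)) := by
          rw [← pow_add, ← pow_add]
      _ ≤ 2 ^ (n / 2) := by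
          apply Nat.pow_le_pow_right (by norm_num)
          have h1 : ρ * (500 * ℓ) = 500 * (ρ * ℓ) := by ring
          omega
  · have h1 : m ≤ 400 * ℓ ^ 2 * n := by
      calc m ≤ 200 * ℓ ^ 2 * (n + 1) := hn2.le
        _ ≤ 200 * ℓ ^ 2 * (2 * n) := Nat.mul_le_mul_left _ (by omega)
        _ = 400 * ℓ ^ 2 * n := by ring
    calc m ^ 2 = m * m := by ring
      _ ≤ m * (400 * ℓ ^ 2 * n) := Nat.mul_le_mul_left _ h1
      _ = 400 * ℓ ^ 2 * (m * n) := by ring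
      _ ≤ 400 * ℓ ^ 2 * (50 * ℓ * (J + 1)) := Nat.mul_le_mul_left _ hJ2.le
      _ = 20000 * ℓ ^ 3 * (J + 1) := by ring
      _ ≤ 20000 * ℓ ^ 3 * (2 * J) := Nat.mul_le_mul_left _ (by omega)
      _ = 40000 * ℓ ^ 3 * J := by ring

end Pool.Agent.Lib.MP_85a137_nt
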