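import Pool.Agent.Lib.MP_85a137_nt.Spec4

/-!
# MP_85a137_nt, fourth version, module Poo: the sum over the poor numbers
-/

set_option autoImplicit false

namespace Pool.Agent.Lib.MP_85a137_nt

open Finset

/-- the weight `2^(-Gw w c) c^(-(1+s))` -/
private noncomputable def hf (hG : StmtGw) (w : ℕ) (s : ℝ) : ℕ →*₀ ℝ where
  toFun c := if c = 0 then 0 else (1 / 2 : ℝ) ^ Gw w c * (c : ℝ) ^ (-(1 + s))
  map_zero' := by simp
  map_one' := by simp [(hG w).1]
  map_mul' := by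
    intro a b
    by_cases ha : a = 0
    · simp [ha]
    by_cases hb : b = 0
    · simp [hb]
    rw [if_neg ha, if_neg hb, if_neg (mul_ne_zero ha hb), (hG w).2.1 a b ha hb, pow_add]
    push_cast
    rw [Real.mul_rpow (Nat.cast_nonneg a) (Nat.cast_nonneg b)]
    ring

private theorem hf_apply (hG : StmtGw) (w : ℕ) (s : ℝ) {c : ℕ} (hc : c ≠ 0) :
    hf hG w s c = (1 / 2 : ℝ) ^ Gw w c * (c : ℝ) ^ (-(1 + s)) := if_neg hc

private theorem hf_nonneg (hG : StmtGw) (w : ℕ) (s : ℝ) (c : ℕ) : 0 ≤ hf hG w s c := by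
  by_cases hc : c = 0
  · rw [hc, _root_.map_zero]
  · rw [hf_apply hG w s hc]
    positivity

/-- the weight `c^(-(1+s))` -/
private noncomputable def tf (s : ℝ) : ℕ →*₀ ℝ where
  toFun c := if c = 0 then 0 else (c : ℝ) ^ (-(1 + s))
  map_zero' := by simp
  map_one' := by simp
  map_mul' := by
    intro a b
    by_cases ha : a = 0
    · simp [ha]
    by_cases hb : b = 0
    · simp [hb]
    rw [if_neg ha, if_neg hb, if_neg (mul_ne_zero ha hb)]
    push_cast
    rw [Real.mul_rpow (Nat.cast_nonneg a) (Nat.cast_nonneg b)]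

private theorem tf_apply (s : ℝ) {c : ℕ} (hc : c ≠ 0) : tf s c = (c : ℝ) ^ (-(1 + s)) := if_neg hc

private theorem tf_nonneg (s : ℝ) (c : ℕ) : 0 ≤ tf s c := by
  by_cases hc : c = 0
  · rw [hc, _root_.map_zero]
  · rw [tf_apply s hc]
    positivity

private theorem tf_prime_le {s : ℝ} (hs : 0 < s) {p : ℕ} (hp : p.Prime) :
    0 < tf s p ∧ tf s p ≤ 1 / p ∧ tf s p ≤ 1 / 2 := by
  have h2 : (2 : ℝ) ≤ p := by exact_mod_cast hp.two_le
  have h0 : (0 : ℝ) < p := by linarith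
  have h3 : tf s p ≤ 1 / p := by
    rw [tf_apply s hp.ne_zero, one_div, ← Real.rpow_neg_one]
    exact Real.rpow_le_rpow_of_exponent_le (by linarith) (by linarith)
  refine ⟨?_, h3, ?_⟩
  · rw [tf_apply s hp.ne_zero]
    exact Real.rpow_pos_of_pos h0 _
  · exact h3.trans (one_div_le_one_div_of_le (by norm_num) h2)

private theorem hf_prime (hG : StmtGw) (w : ℕ) (s : ℝ) {p : ℕ} (hp : p.Prime) :
    hf hG w s p = if w < p then tf s p / 2 else tf s p := by
  rw [hf_apply hG w s hp.ne_zero, (hG w).2.2.1 p hp, tf_apply s hp.ne_zero]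
  split_ifs
  · rw [pow_one]; ring
  · rw [pow_zero, one_mul]

private theorem hf_prime_le (hG : StmtGw) (w : ℕ) {s : ℝ} (hs : 0 < s) {p : ℕ} (hp : p.Prime) :
    hf hG w s p ≤ 1 / 2 := by
  obtain ⟨h1, -, h2⟩ := tf_prime_le hs hp
  rw [hf_prime hG w s hp]
  split_ifs <;> linarith

/-- the Euler product of the zeta function -/
private theorem prod_tf_le (hZ : StmtZs) {s : ℝ} (hs : 0 < s) (N : ℕ) :
    ∏ p ∈ N.primesBelow, (1 - tf s p)⁻¹ ≤ 1 + 1 / s := by
  have h := EulerProduct.summable_and_hasSum_smoothNumbers_prod_primesBelow_geometric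
    (f := (tf s : ℕ →* ℝ))
    (fun {p} hp => by
      change ‖tf s p‖ < 1
      rw [Real.norm_of_nonneg (tf_nonneg s p)]
      exact (tf_prime_le hs hp).2.2.trans_lt (by norm_num)) N
  refine hasSum_le_of_sum_le h.2 fun F => ?_
  change ∑ c ∈ F, tf s (c : ℕ) ≤ 1 + 1 / s
  obtain ⟨K, hK⟩ : ∃ K : ℕ, ∀ c ∈ F, (c : ℕ) ≤ K :=
    ⟨∑ c ∈ F, (c : ℕ), fun c hc => Finset.single_le_sum (f := fun c : N.smoothNumbers => (c : ℕ))
      (fun _ _ => Nat.zero_le _) hc⟩
  have h1 : ∑ c ∈ F, tf s (c : ℕ) = ∑ c ∈ F.map (Function.Embedding.subtype _), tf s c := by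
    rw [Finset.sum_map]
    rfl
  have h2 : F.map (Function.Embedding.subtype _) ⊆ insert 0 (insert 1 (Ioc 1 K)) := by
    intro c hc
    rw [Finset.mem_map] at hc
    obtain ⟨d, hd, rfl⟩ := hc
    have h3 := hK d hd
    rw [mem_insert, mem_insert, mem_Ioc]
    change (d : ℕ) = 0 ∨ (d : ℕ) = 1 ∨ 1 < (d : ℕ) ∧ (d : ℕ) ≤ K
    omega
  rw [h1]
  refine (Finset.sum_le_sum_of_subset_of_nonneg h2 fun c _ _ => tf_nonneg s c).trans ?_
  have h4 : ∑ c ∈ Ioc 1 K, tf s c ≤ 1 / s := by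
    have h5 := hZ s 1 K hs le_rfl
    rw [Nat.cast_one, Real.one_rpow] at h5
    refine le_trans (le_of_eq ?_) h5
    refine Finset.sum_congr rfl fun c hc => ?_
    rw [mem_Ioc] at hc
    exact tf_apply s (by omega)
  rw [Finset.sum_insert (by simp), Finset.sum_insert (by simp), _root_.map_zero, _root_.map_one]
  linarith

private theorem local_le (hG : StmtGw) (a : ℕ) {s : ℝ} (hs : 0 < s) {p : ℕ} (hp : p.Prime) :
    (1 - hf hG (2 ^ a) s p)⁻¹ ≤ Real.sqrt ((1 - tf s p)⁻¹) *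
      Real.exp (if p ≤ 2 ^ a then (1 : ℝ) / p else 0) := by
  obtain ⟨h0, h1, h2⟩ := tf_prime_le hs hp
  rw [hf_prime hG (2 ^ a) s hp]
  have h3 : 0 < 1 - tf s p := by linarith
  by_cases h : 2 ^ a < p
  · rw [if_pos h, if_neg (by omega), Real.exp_zero, mul_one]
    have h4 : 0 < 1 - tf s p / 2 := by linarith
    rw [Real.le_sqrt' (inv_pos.2 h4), inv_pow]
    refine inv_anti₀ h3 ?_
    nlinarith [sq_nonneg (tf s p)]
  · rw [if_neg h, if_pos (by omega)]
    have h5 : Real.sqrt ((1 - tf s p)⁻¹) ≤ Real.exp (1 / p) := by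
      rw [Real.sqrt_le_left (Real.exp_pos _).le, ← Real.exp_nat_mul]
      rw [inv_le_comm₀ h3 (Real.exp_pos _)]
      have h6 : 1 + 2 * tf s p ≤ Real.exp ((2 : ℕ) * (1 / p)) := by
        have := Real.add_one_le_exp ((2 : ℕ) * ((1 : ℝ) / p))
        push_cast at this ⊢
        linarith
      calc (Real.exp ((2 : ℕ) * (1 / p)))⁻¹ ≤ (1 + 2 * tf s p)⁻¹ := inv_anti₀ (by linarith) h6
        _ ≤ 1 - tf s p := by
            rw [inv_le_iff_one_le_mul₀ (by linarith)]
            nlinarith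
    calc (1 - tf s p)⁻¹ = Real.sqrt ((1 - tf s p)⁻¹) * Real.sqrt ((1 - tf s p)⁻¹) :=
          (Real.mul_self_sqrt (inv_pos.2 h3).le).symm
      _ ≤ _ := mul_le_mul_of_nonneg_left h5 (Real.sqrt_nonneg _)

private theorem sum_hf_le (hG : StmtGw) (w : ℕ) {s : ℝ} (hs : 0 < s) (N : ℕ) :
    ∑ c ∈ Ico 1 N, hf hG w s c ≤ ∏ p ∈ N.primesBelow, (1 - hf hG w s p)⁻¹ := by
  have h := EulerProduct.summable_and_hasSum_smoothNumbers_prod_primesBelow_geometric
    (f := (hf hG w s : ℕ →* ℝ))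
    (fun {p} hp => by
      change ‖hf hG w s p‖ < 1
      rw [Real.norm_of_nonneg (hf_nonneg hG w s p)]
      exact (hf_prime_le hG w hs hp).trans_lt (by norm_num)) N
  have hmem : ∀ c ∈ Ico 1 N, c ∈ N.smoothNumbers := by
    intro c hc
    rw [mem_Ico] at hc
    exact Nat.mem_smoothNumbers_of_lt (by omega) hc.2
  have h2 : ∑ c ∈ Ico 1 N, hf hG w s c =
      ∑ c ∈ (Ico 1 N).subtype (· ∈ N.smoothNumbers), hf hG w s c := by
    rw [Finset.sum_subtype_eq_sum_filter, Finset.filter_true_of_mem hmem]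
  rw [h2]
  exact sum_le_hasSum _ (fun c _ => hf_nonneg hG w s c) h.2

theorem tPoo (hG : StmtGw) (hZ : StmtZs) (hU : StmtUp) : StmtPoo := by
  intro a g N s ha hs
  have h1 : ∑ y ∈ (Icc 2 N).filter (fun y => Gw (2 ^ a) y < g), (y : ℝ) ^ (-(1 + s)) ≤
      2 ^ g * ∑ c ∈ Ico 1 (N + 1), hf hG (2 ^ a) s c := by
    rw [Finset.mul_sum]
    refine le_trans (Finset.sum_le_sum (g := fun c => (2 : ℝ) ^ g * hf hG (2 ^ a) s c)
      fun y hy => ?_) (Finset.sum_le_sum_of_subset_of_nonneg (fun y hy => ?_)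
        fun c _ _ => mul_nonneg (by positivity) (hf_nonneg hG _ s c))
    · rw [mem_filter, mem_Icc] at hy
      rw [hf_apply hG _ s (by omega), ← mul_assoc]
      refine le_mul_of_one_le_left (by positivity) ?_
      obtain ⟨r, hr⟩ := Nat.exists_eq_add_of_le hy.2.le
      rw [hr, pow_add, mul_assoc, mul_comm ((2 : ℝ) ^ r), ← mul_assoc, ← mul_pow]
      have : (2 : ℝ) * (1 / 2) = 1 := by norm_num
      rw [this, one_pow, one_mul]
      exact one_le_pow₀ (by norm_num)
    · rw [mem_filter, mem_Icc] at hy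
      rw [mem_Ico]
      omega
  have h2 : ∏ p ∈ (N + 1).primesBelow, (1 - hf hG (2 ^ a) s p)⁻¹ ≤
      Real.exp (5 + 4 * Real.log a) * Real.sqrt (1 + 1 / s) := by
    calc ∏ p ∈ (N + 1).primesBelow, (1 - hf hG (2 ^ a) s p)⁻¹
        ≤ ∏ p ∈ (N + 1).primesBelow, (Real.sqrt ((1 - tf s p)⁻¹) *
          Real.exp (if p ≤ 2 ^ a then (1 : ℝ) / p else 0)) := by
          refine Finset.prod_le_prod (fun p hp => ?_) (fun p hp => ?_)
          · have := hf_prime_le hG (2 ^ a) hs (Nat.prime_of_mem_primesBelow hp)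
            exact inv_nonneg.2 (by linarith)
          · exact local_le hG a hs (Nat.prime_of_mem_primesBelow hp)
      _ = Real.sqrt (∏ p ∈ (N + 1).primesBelow, (1 - tf s p)⁻¹) *
          Real.exp (∑ p ∈ (N + 1).primesBelow, if p ≤ 2 ^ a then (1 : ℝ) / p else 0) := by
          rw [Finset.prod_mul_distrib, Real.exp_sum, Real.sqrt_prod]
          intro p hp
          have := (tf_prime_le hs (Nat.prime_of_mem_primesBelow hp)).2.2
          exact inv_nonneg.2 (by linarith)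
      _ ≤ Real.sqrt (1 + 1 / s) * Real.exp (5 + 4 * Real.log a) := by
          refine mul_le_mul (Real.sqrt_le_sqrt (prod_tf_le hZ hs _)) ?_ (Real.exp_pos _).le
            (Real.sqrt_nonneg _)
          refine Real.exp_le_exp.2 ?_
          refine le_trans ?_ (hU a ha)
          rw [← Finset.sum_filter]
          refine Finset.sum_le_sum_of_subset_of_nonneg (fun p hp => ?_) fun p _ _ => by positivity
          rw [mem_filter] at hp
          rw [mem_filter, mem_Icc]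
          exact ⟨⟨(Nat.prime_of_mem_primesBelow hp.1).one_le, hp.2⟩,
            Nat.prime_of_mem_primesBelow hp.1⟩
      _ = _ := mul_comm _ _
  calc _ ≤ _ := h1
    _ ≤ 2 ^ g * (Real.exp (5 + 4 * Real.log a) * Real.sqrt (1 + 1 / s)) :=
        mul_le_mul_of_nonneg_left ((sum_hf_le hG _ hs _).trans h2) (by positivity)
    _ = _ := by ring

end Pool.Agent.Lib.MP_85a137_nt
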