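import Pool.Agent.Lib.MP_85a137_nt.Spec

/-! The abstract second moment inequality for residue classes. -/

set_option autoImplicit false

namespace Pool.Agent.Lib.MP_85a137_nt

open Finset

/-- The number of elements of a residue class in an initial segment. -/
lemma second_count (X q : ℕ) (hq : 1 ≤ q) (r : ℤ) :
    (X : ℝ) / q - 1 ≤ (((range X).filter fun k : ℕ => (q : ℤ) ∣ (k : ℤ) - r).card : ℝ) ∧
    (((range X).filter fun k : ℕ => (q : ℤ) ∣ (k : ℤ) - r).card : ℝ) ≤ (X : ℝ) / q + 1 := by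
  have hq0 : (0 : ℤ) < (q : ℤ) := by exact_mod_cast hq
  have hqQ : (0 : ℚ) < ((q : ℤ) : ℚ) := by exact_mod_cast hq
  have h1 : ((range X).filter fun k : ℕ => (q : ℤ) ∣ (k : ℤ) - r).map Nat.castEmbedding =
      (Ico (0 : ℤ) (X : ℤ)).filter (fun x => x ≡ r [ZMOD (q : ℤ)]) := by
    ext x
    simp only [mem_map, mem_filter, mem_range, mem_Ico, Nat.castEmbedding_apply]
    constructor
    · rintro ⟨k, ⟨hk, hd⟩, rfl⟩
      refine ⟨⟨by positivity, by exact_mod_cast hk⟩, ?_⟩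
      exact (Int.modEq_iff_dvd.mpr hd).symm
    · rintro ⟨⟨hx0, hxX⟩, hx⟩
      lift x to ℕ using hx0
      exact ⟨x, ⟨by exact_mod_cast hxX, Int.modEq_iff_dvd.mp hx.symm⟩, rfl⟩
  have h2 : (((range X).filter fun k : ℕ => (q : ℤ) ∣ (k : ℤ) - r).card : ℤ) =
      max (⌈(((X : ℤ) : ℚ) - (r : ℚ)) / ((q : ℤ) : ℚ)⌉ - ⌈(((0 : ℤ) : ℚ) - (r : ℚ)) / ((q : ℤ) : ℚ)⌉) 0 := by
    rw [← card_map (Nat.castEmbedding : ℕ ↪ ℤ), h1]
    exact Int.Ico_filter_modEq_card 0 (X : ℤ) hq0 r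
  set a : ℚ := (((X : ℤ) : ℚ) - (r : ℚ)) / ((q : ℤ) : ℚ) with ha
  set b : ℚ := (((0 : ℤ) : ℚ) - (r : ℚ)) / ((q : ℤ) : ℚ) with hb
  have hab : a - b = (X : ℚ) / (q : ℚ) := by
    rw [ha, hb, ← sub_div]
    push_cast
    congr 1
    ring
  have ha1 := Int.le_ceil a
  have ha2 := Int.ceil_lt_add_one a
  have hb1 := Int.le_ceil b
  have hb2 := Int.ceil_lt_add_one b
  have hnn : (0 : ℚ) ≤ (X : ℚ) / (q : ℚ) := by positivity
  have h3 : ((((range X).filter fun k : ℕ => (q : ℤ) ∣ (k : ℤ) - r).card : ℤ) : ℚ) =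
      max (((⌈a⌉ : ℤ) : ℚ) - ((⌈b⌉ : ℤ) : ℚ)) 0 := by
    rw [h2]
    push_cast
    rfl
  have h4 : (X : ℚ) / q - 1 ≤ ((((range X).filter fun k : ℕ => (q : ℤ) ∣ (k : ℤ) - r).card : ℤ) : ℚ) := by
    rw [h3]
    refine le_trans ?_ (le_max_left _ _)
    linarith
  have h5 : ((((range X).filter fun k : ℕ => (q : ℤ) ∣ (k : ℤ) - r).card : ℤ) : ℚ) ≤ (X : ℚ) / q + 1 := by
    rw [h3]
    refine max_le ?_ (by linarith)
    linarith
  constructor
  · have := (Rat.cast_le (K := ℝ)).mpr h4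
    push_cast at this
    exact this
  · have := (Rat.cast_le (K := ℝ)).mpr h5
    push_cast at this
    exact this

/-- Two residue classes. -/
lemma second_count2 (X q q' : ℕ) (hq : 1 ≤ q) (hq' : 1 ≤ q') (r r' : ℤ) :
    (((range X).filter fun k : ℕ => (q : ℤ) ∣ (k : ℤ) - r ∧ (q' : ℤ) ∣ (k : ℤ) - r').card : ℝ) ≤
      X * (if ((q.gcd q' : ℕ) : ℤ) ∣ r - r' then ((q.gcd q' : ℕ) : ℝ) / (q * q') else 0) + 1 := by
  rcases ((range X).filter fun k : ℕ => (q : ℤ) ∣ (k : ℤ) - r ∧ (q' : ℤ) ∣ (k : ℤ) - r').eq_empty_or_nonempty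
    with he | ⟨k₀, hk₀⟩
  · rw [he, card_empty, Nat.cast_zero]
    split_ifs
    · positivity
    · positivity
  · obtain ⟨_, h1, h2⟩ := mem_filter.mp hk₀
    have hg : ((q.gcd q' : ℕ) : ℤ) ∣ r - r' := by
      have e1 : ((q.gcd q' : ℕ) : ℤ) ∣ (k₀ : ℤ) - r :=
        dvd_trans (Int.natCast_dvd_natCast.mpr (Nat.gcd_dvd_left q q')) h1
      have e2 : ((q.gcd q' : ℕ) : ℤ) ∣ (k₀ : ℤ) - r' :=
        dvd_trans (Int.natCast_dvd_natCast.mpr (Nat.gcd_dvd_right q q')) h2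
      have := dvd_sub e2 e1
      have e3 : (k₀ : ℤ) - r' - ((k₀ : ℤ) - r) = r - r' := by ring
      rwa [e3] at this
    rw [if_pos hg]
    have hl : 1 ≤ q.lcm q' := Nat.lcm_pos hq hq'
    have hsub : ((range X).filter fun k : ℕ => (q : ℤ) ∣ (k : ℤ) - r ∧ (q' : ℤ) ∣ (k : ℤ) - r') ⊆
        (range X).filter fun k : ℕ => ((q.lcm q' : ℕ) : ℤ) ∣ (k : ℤ) - (k₀ : ℤ) := by
      intro k hk
      obtain ⟨hk1, hk2, hk3⟩ := mem_filter.mp hk
      refine mem_filter.mpr ⟨hk1, ?_⟩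
      have e1 : (q : ℤ) ∣ (k : ℤ) - (k₀ : ℤ) := by
        have := dvd_sub hk2 h1
        have e3 : (k : ℤ) - r - ((k₀ : ℤ) - r) = (k : ℤ) - k₀ := by ring
        rwa [e3] at this
      have e2 : (q' : ℤ) ∣ (k : ℤ) - (k₀ : ℤ) := by
        have := dvd_sub hk3 h2
        have e3 : (k : ℤ) - r' - ((k₀ : ℤ) - r') = (k : ℤ) - k₀ := by ring
        rwa [e3] at this
      rw [Int.natCast_dvd] at e1 e2 ⊢
      exact Nat.lcm_dvd e1 e2
    refine le_trans (Nat.cast_le.mpr (card_le_card hsub)) ?_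
    refine le_trans (second_count X (q.lcm q') hl k₀).2 ?_
    refine le_of_eq ?_
    congr 1
    have hq0 : (0 : ℝ) < q := by exact_mod_cast hq
    have hq'0 : (0 : ℝ) < q' := by exact_mod_cast hq'
    have hl0 : (0 : ℝ) < (q.lcm q' : ℕ) := by exact_mod_cast hl
    have hmul : ((q.gcd q' : ℕ) : ℝ) * ((q.lcm q' : ℕ) : ℝ) = (q : ℝ) * q' := by
      exact_mod_cast Nat.gcd_mul_lcm q q'
    rw [div_eq_mul_inv]
    congr 1
    rw [← hmul]
    have hg0 : ((q.gcd q' : ℕ) : ℝ) ≠ 0 := by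
      have : 0 < q.gcd q' := Nat.gcd_pos_of_pos_left _ hq
      exact_mod_cast this.ne'
    field_simp

open Classical in
theorem second : StmtSecond := by
  intro ι I q r X hq
  set M : ℝ := ∑ i ∈ I, (1 : ℝ) / q i with hM
  have hM0 : 0 ≤ M := Finset.sum_nonneg fun i _ => by positivity
  have hMI : M ≤ (I.card : ℝ) := by
    calc M ≤ ∑ i ∈ I, (1 : ℝ) := Finset.sum_le_sum fun i hi => by
            rw [div_le_one (by exact_mod_cast hq i hi)]
            exact_mod_cast hq i hi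
      _ = (I.card : ℝ) := by simp
  set W : ℕ → ℝ := fun k => ((I.filter fun i => (q i : ℤ) ∣ (k : ℤ) - r i).card : ℝ) with hW
  have hWsum : ∀ k, W k = ∑ i ∈ I, (if (q i : ℤ) ∣ (k : ℤ) - r i then (1 : ℝ) else 0) := by
    intro k
    simp only [hW]
    rw [Finset.sum_boole]
  -- first moment
  have h1 : (X : ℝ) * M - I.card ≤ ∑ k ∈ range X, W k := by
    have e : ∑ k ∈ range X, W k =
        ∑ i ∈ I, (((range X).filter fun k : ℕ => (q i : ℤ) ∣ (k : ℤ) - r i).card : ℝ) := by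
      simp only [hWsum]
      rw [Finset.sum_comm]
      refine Finset.sum_congr rfl fun i _ => ?_
      rw [Finset.sum_boole]
    rw [e]
    calc (X : ℝ) * M - I.card = ∑ i ∈ I, ((X : ℝ) / q i - 1) := by
            rw [Finset.sum_sub_distrib, hM, Finset.mul_sum]
            simp [div_eq_mul_inv]
      _ ≤ _ := Finset.sum_le_sum fun i hi => (second_count X (q i) (hq i hi) (r i)).1
  -- second moment
  set G : ℝ := ∑ i ∈ I, ∑ j ∈ I, if 1 < (q i).gcd (q j) ∧ (((q i).gcd (q j) : ℕ) : ℤ) ∣ r i - r j then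
      (((q i).gcd (q j) : ℕ) : ℝ) / (q i * q j) else 0 with hG
  have hMM : M ^ 2 = ∑ i ∈ I, ∑ j ∈ I, (1 : ℝ) / (q i * q j) := by
    rw [hM, sq, Finset.sum_mul_sum]
    refine Finset.sum_congr rfl fun i _ => Finset.sum_congr rfl fun j _ => ?_
    rw [div_mul_div_comm, one_mul]
  have h2 : ∑ k ∈ range X, W k ^ 2 ≤ X * (G + M ^ 2) + (I.card : ℝ) ^ 2 := by
    have e : ∑ k ∈ range X, W k ^ 2 = ∑ i ∈ I, ∑ j ∈ I,
        (((range X).filter fun k : ℕ => (q i : ℤ) ∣ (k : ℤ) - r i ∧ (q j : ℤ) ∣ (k : ℤ) - r j).card : ℝ) := by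
      have e1 : ∀ k, W k ^ 2 = ∑ i ∈ I, ∑ j ∈ I,
          (if (q i : ℤ) ∣ (k : ℤ) - r i ∧ (q j : ℤ) ∣ (k : ℤ) - r j then (1 : ℝ) else 0) := by
        intro k
        rw [hWsum, sq, Finset.sum_mul_sum]
        refine Finset.sum_congr rfl fun i _ => Finset.sum_congr rfl fun j _ => ?_
        by_cases ha : (q i : ℤ) ∣ (k : ℤ) - r i <;> by_cases hb : (q j : ℤ) ∣ (k : ℤ) - r j <;>
          simp [ha, hb]
      simp only [e1]
      rw [Finset.sum_comm]
      refine Finset.sum_congr rfl fun i _ => ?_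
      rw [Finset.sum_comm]
      refine Finset.sum_congr rfl fun j _ => ?_
      rw [Finset.sum_boole]
    rw [e, hG, hMM, ← Finset.sum_add_distrib]
    have e2 : (I.card : ℝ) ^ 2 = ∑ i ∈ I, ∑ j ∈ I, (1 : ℝ) := by
      simp [sq]
    rw [e2, Finset.mul_sum, ← Finset.sum_add_distrib]
    refine Finset.sum_le_sum fun i hi => ?_
    rw [← Finset.sum_add_distrib, Finset.mul_sum, ← Finset.sum_add_distrib]
    refine Finset.sum_le_sum fun j hj => ?_
    refine le_trans (second_count2 X (q i) (q j) (hq i hi) (hq j hj) (r i) (r j)) ?_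
    refine add_le_add_left (mul_le_mul_of_nonneg_left ?_ (Nat.cast_nonneg X)) 1 |>.trans_eq rfl
    have hnn : (0 : ℝ) ≤ 1 / ((q i : ℝ) * q j) := by positivity
    by_cases hd : (((q i).gcd (q j) : ℕ) : ℤ) ∣ r i - r j
    · rw [if_pos hd]
      by_cases hg : 1 < (q i).gcd (q j)
      · rw [if_pos ⟨hg, hd⟩]
        linarith
      · have hg1 : (q i).gcd (q j) = 1 := by
          have : 0 < (q i).gcd (q j) := Nat.gcd_pos_of_pos_left _ (hq i hi)
          omega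
        rw [if_neg (fun h => hg h.1), hg1]
        simp
    · rw [if_neg hd, if_neg (fun h => hd h.2)]
      linarith
  -- the variance
  have h3 : ∑ k ∈ range X, (W k - M) ^ 2 ≤ X * G + 3 * (I.card : ℝ) ^ 2 := by
    have e : ∑ k ∈ range X, (W k - M) ^ 2 =
        ∑ k ∈ range X, W k ^ 2 - 2 * M * ∑ k ∈ range X, W k + X * M ^ 2 := by
      rw [Finset.mul_sum, ← Finset.sum_sub_distrib]
      have : (X : ℝ) * M ^ 2 = ∑ k ∈ range X, M ^ 2 := by simp
      rw [this, ← Finset.sum_add_distrib]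
      exact Finset.sum_congr rfl fun k _ => by ring
    rw [e]
    have h4 : 2 * M * ((X : ℝ) * M - I.card) ≤ 2 * M * ∑ k ∈ range X, W k :=
      mul_le_mul_of_nonneg_left h1 (by linarith)
    have h5 : 2 * M * (I.card : ℝ) ≤ 2 * (I.card : ℝ) ^ 2 := by
      have h0 : (0 : ℝ) ≤ I.card := Nat.cast_nonneg _
      nlinarith
    nlinarith
  refine le_trans ?_ h3
  set B := (range X).filter fun k : ℕ => ((I.filter fun i => (q i : ℤ) ∣ (k : ℤ) - r i).card : ℝ) ≤ M / 2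
    with hB
  calc (B.card : ℝ) * (M ^ 2 / 4) = ∑ k ∈ B, M ^ 2 / 4 := by simp
    _ ≤ ∑ k ∈ B, (W k - M) ^ 2 := by
        refine Finset.sum_le_sum fun k hk => ?_
        have hk' : W k ≤ M / 2 := (mem_filter.mp hk).2
        nlinarith
    _ ≤ ∑ k ∈ range X, (W k - M) ^ 2 :=
        Finset.sum_le_sum_of_subset_of_nonneg (filter_subset _ _) fun k _ _ => sq_nonneg _

end Pool.Agent.Lib.MP_85a137_nt
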