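import Pool.Agent.Lib.MP_85a137_nt.Spec3

/-!
# MP_85a137_nt, third version: trivial bounds and injectivity
-/

set_option autoImplicit false

namespace Pool.Agent.Lib.MP_85a137_nt

open Finset

namespace Size3M

theorem mem3 {s m n : ℕ} {γ : Cf n} (h : γ ∈ cf3 s m n) (j : Fin n) :
    (2 ^ (m + s * (j : ℕ)) < γ.1 j ∧ γ.1 j ≤ 2 ^ (m + s * ((j : ℕ) + 1)) ∧ (γ.1 j).Prime) ∧
      1 ≤ γ.2 j ∧ γ.2 j < 2 ^ m := by
  unfold cf3 at h
  rw [mem_product, Fintype.mem_piFinset, Fintype.mem_piFinset] at h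
  have h1 := h.1 j
  have h2 := h.2 j
  unfold J3 at h1
  unfold CC at h2
  rw [mem_filter, mem_Ioc] at h1
  rw [mem_filter, mem_Ico] at h2
  exact ⟨⟨h1.1.1, h1.1.2, h1.2⟩, h2.1⟩

end Size3M

open Size3M

/-- **Size3** -/
theorem size3 : StmtSize3 := by
  intro s m n hm hn hsn γ h
  have hlb : ∀ j, 2 ^ m ≤ γ.1 j * γ.2 j := by
    intro j
    obtain ⟨⟨q1, -, -⟩, c1, -⟩ := mem3 h j
    calc 2 ^ m ≤ 2 ^ (m + s * (j : ℕ)) := Nat.pow_le_pow_right (by norm_num) (Nat.le_add_right _ _)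
      _ ≤ γ.1 j := q1.le
      _ ≤ γ.1 j * γ.2 j := Nat.le_mul_of_pos_right _ c1
  have hpos : ∀ j, 0 < γ.1 j * γ.2 j := fun j => lt_of_lt_of_le (by positivity) (hlb j)
  have hub : ∀ j, γ.1 j * γ.2 j ≤ 2 ^ (3 * m) := by
    intro j
    obtain ⟨⟨-, q2, -⟩, -, c2⟩ := mem3 h j
    have h1 : s * ((j : ℕ) + 1) ≤ m := (Nat.mul_le_mul_left s j.isLt).trans hsn
    calc γ.1 j * γ.2 j ≤ 2 ^ (m + s * ((j : ℕ) + 1)) * 2 ^ m := Nat.mul_le_mul q2 c2.le
      _ = 2 ^ (m + s * ((j : ℕ) + 1) + m) := by rw [← pow_add]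
      _ ≤ 2 ^ (3 * m) := Nat.pow_le_pow_right (by norm_num) (by omega)
  refine ⟨?_, ?_, ?_⟩
  · have hdvd : γ.1 ⟨0, hn⟩ * γ.2 ⟨0, hn⟩ ∣ PP γ :=
      dvd_prod_of_mem (fun i => γ.1 i * γ.2 i) (mem_univ (⟨0, hn⟩ : Fin n))
    have hPpos : 0 < PP γ := prod_pos fun j _ => hpos j
    exact (hlb _).trans (Nat.le_of_dvd hPpos hdvd)
  · calc PP γ ≤ ∏ _j : Fin n, 2 ^ (3 * m) := prod_le_prod' fun j _ => hub j
      _ = 2 ^ (3 * m * n) := by
          rw [prod_const, card_univ, Fintype.card_fin, ← pow_mul]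
  · have h2 : n ≤ 2 ^ (3 * m * (n - 1)) := by
      have h3 : n - 1 < 2 ^ (n - 1) := Nat.lt_two_pow_self
      have h4 : 2 ^ (n - 1) ≤ 2 ^ (3 * m * (n - 1)) := by
        apply Nat.pow_le_pow_right (by norm_num)
        exact Nat.le_mul_of_pos_left _ (by omega)
      omega
    calc SS γ ≤ ∑ _j : Fin n, 2 ^ (3 * m) := sum_le_sum fun j _ => hub j
      _ = n * 2 ^ (3 * m) := by rw [sum_const, card_univ, Fintype.card_fin, smul_eq_mul]
      _ ≤ 2 ^ (3 * m * (n - 1)) * 2 ^ (3 * m) := Nat.mul_le_mul_right _ h2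
      _ = 2 ^ (3 * m * n) := by
          rw [← pow_add]
          congr 1
          obtain ⟨k, rfl⟩ : ∃ k, n = k + 1 := ⟨n - 1, by omega⟩
          rw [Nat.add_sub_cancel]
          ring

/-- **Inj3** -/
theorem inj3 : StmtInj3 := by
  intro s m n hm γ h γ' h' heq
  have key : ∀ j : Fin n, γ.1 j = γ'.1 j ∧ γ.2 j = γ'.2 j := by
    intro j
    obtain ⟨⟨q1, q2, q3⟩, c1, c2⟩ := mem3 h j
    have hmem : γ.1 j * γ.2 j ∈ (univ : Finset (Fin n)).val.map fun j => γ'.1 j * γ'.2 j := by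
      rw [← heq]
      exact Multiset.mem_map.mpr ⟨j, mem_univ j, rfl⟩
    obtain ⟨i, -, hi⟩ := Multiset.mem_map.mp hmem
    obtain ⟨⟨r1, r2, r3⟩, d1, d2⟩ := mem3 h' i
    have hm1 : 2 ^ m ≤ 2 ^ (m + s * (j : ℕ)) :=
      Nat.pow_le_pow_right (by norm_num) (Nat.le_add_right _ _)
    have hd : γ.1 j ∣ γ'.1 i * γ'.2 i := by
      rw [hi]
      exact Dvd.intro _ rfl
    have hq : γ.1 j = γ'.1 i := by
      rcases (Nat.Prime.dvd_mul q3).mp hd with hq | hc
      · exact (Nat.prime_dvd_prime_iff_eq q3 r3).mp hq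
      · exfalso
        have h1 := Nat.le_of_dvd d1 hc
        omega
    have hij : i = j := by
      rcases lt_trichotomy i j with hij | hij | hij
      · exfalso
        have hle : 2 ^ (m + s * ((i : ℕ) + 1)) ≤ 2 ^ (m + s * (j : ℕ)) := by
          apply Nat.pow_le_pow_right (by norm_num)
          have : (i : ℕ) + 1 ≤ j := hij
          have := Nat.mul_le_mul_left s this
          omega
        omega
      · exact hij
      · exfalso
        have hle : 2 ^ (m + s * ((j : ℕ) + 1)) ≤ 2 ^ (m + s * (i : ℕ)) := by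
          apply Nat.pow_le_pow_right (by norm_num)
          have : (j : ℕ) + 1 ≤ i := hij
          have := Nat.mul_le_mul_left s this
          omega
        omega
    subst hij
    refine ⟨hq, ?_⟩
    rw [← hq] at hi
    exact (Nat.eq_of_mul_eq_mul_left q3.pos hi).symm
  exact Prod.ext (funext fun j => (key j).1) (funext fun j => (key j).2)

end Pool.Agent.Lib.MP_85a137_nt
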