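import Mathlib

/-!
# MP_85a137_nt: sum-equals-product sequences; almost all `k` have many of them

THEOREM.  There is `c > 0` such that for all large `x`, all but at most `x exp (-c (log x)^(1/3))` of the
integers `k < x` satisfy `N(k) ≥ exp (c (log x)^(1/3))`.

Idea.  Let `x_1, …, x_n, t ≥ 2`, `P = ∏ x_j`, `S = ∑ x_j`.  If `P t - 1` divides `k - n - 2 + S + t`, with
quotient `d`, then `x_1, …, x_n, t, d` and `k - n - 2` ones are a solution.  So `k` has to lie in a residue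
class modulo `P t - 1`.  Second moment method for the number `W(k)` of such `(x, t)`, for a family of
`x` where the pairs `(P, S)` are distinct and `∑ 1/P ≥ 2^n`, `t` in `[T, 2T)` such that `P t - 1` has no small
prime factors.  If `g = gcd (P t - 1, P' t' - 1)` and the two residue classes intersect, then `g` divides
`P P' (S' - S) - (P' - P) ≠ 0` (if `(P, S) ≠ (P', S')`).

All statements below are independent modules.  `log` is natural.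
-/

set_option autoImplicit false

namespace Pool.Agent.Lib.MP_85a137_nt

open Finset

/-- sum-equals-product sequences of length `k` -/
def IsSol (k : ℕ) (a : Fin k → ℕ) : Prop :=
  Monotone a ∧ (∀ i, 0 < a i) ∧ ∏ i, a i = ∑ i, a i

/-- the number of sum-equals-product sequences of length `k` -/
noncomputable def NN (k : ℕ) : ℕ∞ := {a : Fin k → ℕ | IsSol k a}.encard

/-- no prime factor `≤ w` -/
def Rough (w N : ℕ) : Prop := ∀ p : ℕ, p.Prime → p ≤ w → ¬ p ∣ N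

/-- primes in `(2 ^ (3 m (j + 1)), 2 ^ (3 m (j + 1) + m)]` -/
noncomputable def JJ (m j : ℕ) : Finset ℕ :=
  (Ioc (2 ^ (3 * m * (j + 1))) (2 ^ (3 * m * (j + 1) + m))).filter Nat.Prime

/-- the type of configurations `(q, c)`; the numbers are `x_j = q_j c_j` -/
abbrev Cf (n : ℕ) := (Fin n → ℕ) × (Fin n → ℕ)

/-- configurations: `q_j` a prime in `JJ m j`, `1 ≤ c_j < 2 ^ m` -/
noncomputable def cfg (m n : ℕ) : Finset (Cf n) :=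
  Fintype.piFinset (fun j : Fin n => JJ m j) ×ˢ Fintype.piFinset (fun _ : Fin n => Ico 1 (2 ^ m))

/-- the product of the `x_j` -/
def PP {n : ℕ} (γ : Cf n) : ℕ := ∏ j, γ.1 j * γ.2 j

/-- the sum of the `x_j` -/
def SS {n : ℕ} (γ : Cf n) : ℕ := ∑ j, γ.1 j * γ.2 j

open Classical in
/-- the `t` in `[T, 2T)` such that `P t - 1` has no prime factor `≤ w` -/
noncomputable def RR (w T P : ℕ) : Finset ℕ := (Ico T (2 * T)).filter fun t => Rough w (P * t - 1)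

/-- the hits of `k` -/
noncomputable def hits (m n T k : ℕ) : Finset (Cf n × ℕ) :=
  (cfg m n ×ˢ Ico T (2 * T)).filter fun i => (PP i.1 * i.2 - 1) ∣ (k + SS i.1 + i.2 - (n + 2))

/-! ### Primes -/

/-- Chebyshev: the number of primes in `(2^j, 2^(j+1)]` is at most `4 * 2^j / j`
(`Chebyshev.theta_le_log4_mul_x` or `primorial_le_four_pow`: each of them contributes `≥ j log 2` to
`θ (2^(j+1)) ≤ 2^(j+1) log 4`), so they contribute at most `4 / j` to the sum; `∑_{j=1}^{J-1} 1/j ≤ 1 + log J`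
(`harmonic_le_one_add_log`). -/
def StmtUp : Prop := ∀ J : ℕ, 1 ≤ J →
  ∑ p ∈ (Icc 1 (2 ^ J)).filter Nat.Prime, (1 : ℝ) / p ≤ 5 + 4 * Real.log J

/-- Chebyshev: for `i ≥ i₀`, `θ (2^(i+2)) - θ (2^i) ≥ 2^i log 2` (`Chebyshev.theta_ge`,
`Chebyshev.theta_le_log4_mul_x`: `4 log 2 - log 4 = 2 log 2`), so the sum of `1/p` over the primes in
`(2^i, 2^(i+2)]` is at least `2^i log 2 / ((i+2) log 2 * 2^(i+2)) = 1/(4 (i+2))`.  Add `i = a, a+2, a+4, …`. -/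
def StmtLow : Prop := ∃ (κ : ℝ) (m₀ : ℕ), 0 < κ ∧ ∀ m a : ℕ, m₀ ≤ m → m ≤ a →
  κ * m / (a + m) ≤ ∑ p ∈ (Ioc (2 ^ a) (2 ^ (a + m))).filter Nat.Prime, (1 : ℝ) / p

/-- Brun's pure sieve (Bonferroni).  Let `w = 2^(m^2)`, `D` the set of primes `p ≤ w` not dividing `P`,
`r = 2 m + 1` (odd).  The number of `t` with no `p ∈ D` dividing `P t - 1` is at least
`∑_{A ⊆ D, |A| ≤ r} (-1)^|A| #{t : ∏ A ∣ P t - 1}` (Bonferroni, truncated after an odd number),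
`#{t ∈ [T, 2T) : d ∣ P t - 1} = T / d + θ`, `|θ| ≤ 1`, for `d` prime to `P`, so it is
`≥ T (∏_{p ∈ D} (1 - 1/p) - λ^(r+1) / (r+1)!) - w^r` with `λ = ∑_{p ≤ w} 1/p ≤ 5 + 8 log m` (`StmtUp` with
`J = m^2`): alternating sums of elementary symmetric functions of numbers in `[0, 1]` also satisfy
Bonferroni (lemmas `bonferroni`, `elemSum_le` in `Pool/Agent/MP0a1886/Sieve.lean`).  Next
`∏ (1 - 1/p) ≥ exp (-2 λ) ≥ e^{-10} m^{-16}` (`exp_neg_two_le`, same file), `λ^(r+1) / (r+1)! ≤ (e λ / (r+1))^(r+1)` is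
tiny, `w^r ≤ 2^(3 m^3)`. -/
def StmtBrun : Prop := ∃ m₀ : ℕ, ∀ m P T : ℕ, m₀ ≤ m → 1 ≤ P → 2 ^ (8 * m ^ 3) ≤ T →
  (T : ℝ) / (m : ℝ) ^ 20 ≤ ((RR (2 ^ (m ^ 2)) T P).card : ℝ)

/-! ### Configurations -/

/-- `P` determines the `q_j` (a prime `q_j ∣ P' = ∏ q'_i c'_i`, `c'_i < 2^m < q_j`, so `q_j = q'_i`, and `i = j`
because the `JJ m j` are disjoint), then `S = ∑ q_j c_j` determines the `c_j`: if `j` is the largest index
with `c_j ≠ c'_j` then `|q_j (c_j - c'_j)| ≥ q_j` but `|∑_{i<j} q_i (c_i - c'_i)| ≤ ∑_{i<j} 2^(3m(i+1)+m) 2^m < q_j`. -/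
def StmtInj : Prop := ∀ m n : ℕ, 1 ≤ m → ∀ γ ∈ cfg m n, ∀ γ' ∈ cfg m n,
  PP γ = PP γ' → SS γ = SS γ' → γ = γ'

/-- trivial bounds -/
def StmtSize : Prop := ∀ m n : ℕ, 1 ≤ m → 1 ≤ n → n ≤ m → ∀ γ ∈ cfg m n,
  2 ^ (3 * m) ≤ PP γ ∧ PP γ ≤ 2 ^ (6 * m ^ 3) ∧ SS γ ≤ 2 ^ (6 * m ^ 3)

/-- `∑ 1/P = ∏_j (∑_{q ∈ JJ m j} 1/q) (∑_{c < 2^m} 1/c)` (`Finset.prod_univ_sum`), where
`∑_{1 ≤ c < 2^m} 1/c ≥ log (2^m) ≥ m/2` and `∑_{q ∈ JJ m j} 1/q ≥ κ m / (3m(j+1) + m) ≥ κ / (3 (n+1))`; so every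
factor is `≥ κ m / (6 (n+1)) ≥ 2` if `n + 1 ≤ κ m / 12`. -/
def StmtWeight : Prop := ∃ (c : ℝ) (m₀ : ℕ), 0 < c ∧ ∀ m : ℕ, m₀ ≤ m →
  ∃ n : ℕ, c * m ≤ n ∧ 1 ≤ n ∧ n ≤ m ∧ (2 : ℝ) ^ n ≤ ∑ γ ∈ cfg m n, (1 : ℝ) / PP γ

/-! ### Second moment -/

open Classical in
/-- The function `W(k) = #{i ∈ I : q_i ∣ k - r_i}`, `M = ∑ 1/q_i`.
`∑_{k<X} (W - M)^2 = ∑ W^2 - 2M ∑ W + X M^2`; the number of `k < X` with `q ∣ k - r` is `≥ X/q - 1`; the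
number of `k < X` with `q_i ∣ k - r_i`, `q_j ∣ k - r_j` is `0` if `g = gcd(q_i, q_j)` does not divide `r_i - r_j`,
and `≤ X g / (q_i q_j) + 1` otherwise.  Hence
`∑ (W - M)^2 ≤ X (∑_{i,j, g ∣ r_i - r_j} g/(q_i q_j) - M^2) + |I|^2 + 2 M |I|` and `M ≤ |I|`,
`M^2 = ∑_{i,j} 1/(q_i q_j)`. -/
def StmtSecond : Prop := ∀ (ι : Type) (I : Finset ι) (q : ι → ℕ) (r : ι → ℤ) (X : ℕ),
  (∀ i ∈ I, 1 ≤ q i) →
    (((range X).filter fun k : ℕ => ((I.filter fun i => (q i : ℤ) ∣ (k : ℤ) - r i).card : ℝ) ≤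
      (∑ i ∈ I, (1 : ℝ) / q i) / 2).card : ℝ) * ((∑ i ∈ I, (1 : ℝ) / q i) ^ 2 / 4) ≤
    X * (∑ i ∈ I, ∑ j ∈ I, if 1 < (q i).gcd (q j) ∧ (((q i).gcd (q j) : ℕ) : ℤ) ∣ r i - r j then
      (((q i).gcd (q j) : ℕ) : ℝ) / (q i * q j) else 0) + 3 * (I.card : ℝ) ^ 2

open Classical in
/-- Induction on `N`: if a prime `p > w` divides `N = p N'` then the number for `N` is at most twice the
number for `N' < w^h`; otherwise only `1` is counted. -/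
def StmtRDiv : Prop := ∀ w N h : ℕ, 1 ≤ w → 1 ≤ N → N < w ^ (h + 1) →
  (N.divisors.filter fun g => Rough w g).card ≤ 2 ^ h

open Classical in
/-- Let `Δ = P P' (S' - S) - (P' - P)`; it is not zero (if `S ≠ S'` because `P P' > |P' - P|`) and
`|Δ| ≤ 2 B^3`.  If `g ∣ P t - 1, P' t' - 1, (S' - S) + (t' - t)` then modulo `g`
`P P' (S' - S) ≡ P P' (t - t') ≡ P' - P`, so `g ∣ Δ`, and `g > 1` is `w`-rough.  For such a `g` the number of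
`t ∈ [T, 2T)` with `g ∣ P t - 1` is `≤ T/g + 1`, the same for `t'`, and `P t - 1 ≥ P T / 2`, so the pairs with gcd
`g` contribute at most `g (T/g + 1)^2 * 4 / (P P' T^2) = (4/(P P')) (1/g) (1 + g/T)^2`, which is
`≤ (4/(P P')) (4/g)` if `g ≤ T` and `≤ (4/(P P')) 4 g / T^2 ≤ (4/(P P')) 8 B / T` if `T < g ≤ 2 B T`.  Both are
`≤ (4/(P P')) (8/w)`, and by `StmtRDiv` (for `N = |Δ|`) there are at most `2^h` such `g`. -/
def StmtOff : Prop := ∀ P P' S S' T w h B : ℕ, 2 ≤ P → 2 ≤ P' → P ≤ B → P' ≤ B → S ≤ B → S' ≤ B →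
  2 ≤ w → B * w ≤ T → 2 * B ^ 3 < w ^ (h + 1) → ¬ (P = P' ∧ S = S') →
  ∑ t ∈ RR w T P, ∑ t' ∈ RR w T P', (if 1 < (P * t - 1).gcd (P' * t' - 1) ∧
      (((P * t - 1).gcd (P' * t' - 1) : ℕ) : ℤ) ∣ ((S' : ℤ) - S) + ((t' : ℤ) - t) then
        (((P * t - 1).gcd (P' * t' - 1) : ℕ) : ℝ) / (((P * t - 1 : ℕ) : ℝ) * ((P' * t' - 1 : ℕ) : ℝ))
        else 0) ≤ 32 * 2 ^ h / (w * (P * P'))

open Classical in
/-- The terms `t = t'` give `∑ 1/(P t - 1)`.  For `t ≠ t'`: `g = gcd` divides `t' - t` (`≠ 0`, `< T`), so `g < T`; for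
given `g` the pairs `(t, t')` number at most `(T/g + 1)^2 ≤ (2T/g)^2`, contribution `≤ g (2T/g)^2 4/(P T)^2 =
16/(g P^2)`; sum over `g < T`. -/
def StmtDiag : Prop := ∀ P T w : ℕ, 2 ≤ P → 1 ≤ T →
  ∑ t ∈ RR w T P, ∑ t' ∈ RR w T P, (if 1 < (P * t - 1).gcd (P * t' - 1) ∧
      (((P * t - 1).gcd (P * t' - 1) : ℕ) : ℤ) ∣ ((t' : ℤ) - t) then
        (((P * t - 1).gcd (P * t' - 1) : ℕ) : ℝ) / (((P * t - 1 : ℕ) : ℝ) * ((P * t' - 1 : ℕ) : ℝ))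
        else 0) ≤ (∑ t ∈ RR w T P, (1 : ℝ) / ((P * t - 1 : ℕ) : ℝ)) + 16 * (1 + Real.log T) / (P : ℝ) ^ 2

/-! ### From hits to sequences -/

/-- A hit `i = (γ, t)`, `d = (k + S + t - (n+2)) / (P t - 1) ≥ 1`, gives the multiset
`Y = {q_j c_j} ∪ {t, d} ∪ (k - n - 2 ones)` with `k` elements, product `P t d`, sum `S + t + d + k - n - 2 = P t d`;
its sorted list is a sequence `a : Fin k → ℕ` with `IsSol k a`.  The sequence determines `Y`; given `Y`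
and the pair `(t, d)`, the product and the sum of the rest determine `(P, S)`, hence `γ` (`StmtInj`).  And `t, d` are
elements of the multiset `Y0 = {q_j c_j} ∪ {t, d}`, which has at most `n + 2` different elements and is
determined by `Y` up to ones: `t, d` are in `{1} ∪ {elements ≠ 1 of Y}`, at most `n + 3` values. -/
def StmtHits : Prop := ∀ m n T k : ℕ, 1 ≤ m → 2 ≤ T → n + 2 ≤ k →
  ((hits m n T k).card : ℕ∞) ≤ ((n + 3) ^ 2 : ℕ) * NN k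

/-! ### Assembly -/

open Classical in
/-- the moment computation with explicit parameters `w = 2^(m^2)`, `T = 2^(8 m^3)`, `X ≥ 2^(29 m^3)`.
`I = {(γ, t) : γ ∈ cfg m n, t ∈ RR w T P_γ}`, `q = P t - 1`, `r = n + 2 - S - t`, `A = ∑ 1/P ≥ 2^n`,
`A / (2 m^20) ≤ M ≤ 2 A` (`StmtBrun`: `M ≥ ∑_γ (T/m^20) / (P 2T)`).
Off-diagonal terms (`StmtOff` with `B = 2^(6 m^3)`, `h = 18 m + 1`: `2 B^3 = 2^(18 m^3 + 1) < w^(h+1) = 2^(18 m^3 + 2 m^2)`) are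
`≤ A^2 32 2^(18 m + 1) / 2^(m^2)`, diagonal terms `≤ M + ∑_γ 16 (1 + log T) / P^2 ≤ 2 A + A`
(`P ≥ 2^(3m) ≥ 16 (1 + 8 m^3)`), `|I| ≤ T ∑_γ 1 ≤ T B A`.  So the number of `k < X` with `W(k) ≤ M/2` is at most
`(16 m^40 / A^2) (X (A^2 2^(18m+6-m^2) + 3 A) + 3 T^2 B^2 A^2) ≤ X (m^40 2^(18 m + 10 - m^2) + 48 m^40 / 2^n) + 48 m^40 2^(28 m^3)`. -/
def StmtMom : Prop := ∃ m₀ : ℕ, ∀ m n X : ℕ, m₀ ≤ m → 1 ≤ n → n ≤ m → 2 ^ (29 * m ^ 3) ≤ X →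
  (2 : ℝ) ^ n ≤ ∑ γ ∈ cfg m n, (1 : ℝ) / PP γ →
    (((range X).filter fun k => n + 2 ≤ k ∧
      ((hits m n (2 ^ (8 * m ^ 3)) k).card : ℝ) ≤ 2 ^ n / (4 * (m : ℝ) ^ 20)).card : ℝ) ≤
    X * (64 * (m : ℝ) ^ 40 / 2 ^ n)

open Classical in
/-- the final theorem (to be handed in with all definitions) -/
def StmtMain : Prop := ∃ (c : ℝ) (x₀ : ℕ), 0 < c ∧ ∀ x : ℕ, x₀ ≤ x →
  (((range x).filter fun k => NN k < ((⌈Real.exp (c * Real.log x ^ (1 / 3 : ℝ))⌉₊ : ℕ) : ℕ∞)).card : ℝ) ≤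
    x * Real.exp (-(c * Real.log x ^ (1 / 3 : ℝ)))

end Pool.Agent.Lib.MP_85a137_nt
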