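import Pool.Agent.Lib.MP_85a137_nt.Spec

/-!
# MP_85a137_nt, stronger theorem

THEOREM.  There is `c > 0` such that for all large `x` and all `y` with
`(log log x)^(3/2) ≤ y ≤ (log x)^(1/3)`, all but at most `x exp (-c log x / y^2)` of the integers `k < x` satisfy
`N(k) ≥ exp (c y)`.  (`y = (log x)^(1/3)` is `StmtMain`; `y = (log log x)^(3/2)` gives an exceptional set of size
`x^(1 - c/(log log x)^3)`.)

New idea: colour the primes with `R` colours; use the moduli `P t - 1` all of whose prime factors have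
colour `c` for the `c`-th count `W_c`.  The functions `(1 - W_c / M_c)^2`, `c < R`, are independent, so
`∑_{k<X} ∏_c (1 - W_c / M_c)^2 ≤ X ε^R + L^R`, and every `k` with few solutions contributes `≥ 4^(-R)`.

Parameters: `m = v^6`, `w = 2^(v^17)`, `T = 2^(8 m^3)`, `R ≤ 2^(v^4)`; a modulus is `< 2^(15 m^3)` and has at most
`15 v` prime factors.
-/

set_option autoImplicit false

namespace Pool.Agent.Lib.MP_85a137_nt

open Finset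

/-- General form of `StmtBrun` (`w = 2^J`): `r` odd with `r + 1 ≥ 60 log2 J`, `λ ≤ 5 + 4 log J` (`StmtUp`),
`e^2 λ ≤ r + 1` so `λ^(r+1)/(r+1)! ≤ e^-(r+1)`, `∏ (1 - 1/p) ≥ exp (-2λ) ≥ e^-10 J^-8`, `w^r ≤ T^(1/2)`. -/
def StmtBrunG : Prop := ∃ J₀ : ℕ, ∀ J P T : ℕ, J₀ ≤ J → 1 ≤ P →
  2 ^ (100 * J * (Nat.log 2 J + 1)) ≤ T →
  (T : ℝ) / (J : ℝ) ^ 10 ≤ ((RR (2 ^ J) T P).card : ℝ)

open Classical in
/-- Random colouring.  `M = ∑ 1/q_i`; every prime dividing some `q_i` divides few of them (with weights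
`1/q_j`, at most `η`); every `q_i` has at most `u` prime factors.  Then there is a colouring of the primes
with `R` colours such that for every colour `c` the `q_i` all of whose primes have colour `c` have total
weight `≥ M / (2 R^u)`.
Proof: `S` = set of all primes dividing some `q_i`, average over all colourings `χ : S → Fin R`.  For a
colour `c` let `X_c(χ) = ∑_{i, all primes of q_i have colour c} 1/q_i`.  The proportion of `χ` with all primes in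
`A ⊆ S` of colour `c` is `R^{-|A|}`, so the mean of `X_c` is `μ = ∑ R^{-ω_i}/q_i ≥ M / R^u`, and the variance is
`∑_{i,j} (R^{-|A_i ∪ A_j|} - R^{-|A_i|-|A_j|})/(q_i q_j) ≤ ∑_{i,j : A_i ∩ A_j ≠ ∅} 1/(q_i q_j) ≤ M u η`.  By Chebyshev the
proportion of `χ` with `X_c < μ/2` is `≤ 4 M u η / μ^2 ≤ 4 u η R^(2u) / M < 1/R`; union bound over `c < R`. -/
def StmtColor : Prop := ∀ (ι : Type) (I : Finset ι) (q : ι → ℕ) (R u : ℕ) (η : ℝ), 1 ≤ R →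
  (∀ i ∈ I, 1 ≤ q i) → (∀ i ∈ I, (q i).primeFactors.card ≤ u) →
  (∀ i ∈ I, ∀ p ∈ (q i).primeFactors, ∑ j ∈ I.filter (fun j => p ∣ q j), (1 : ℝ) / q j ≤ η) →
  4 * u * η * (R : ℝ) ^ (2 * u + 1) < ∑ i ∈ I, (1 : ℝ) / q i →
  ∃ χ : ℕ → ℕ, (∀ p, χ p < R) ∧ ∀ c < R, (∑ i ∈ I, (1 : ℝ) / q i) / (2 * (R : ℝ) ^ u) ≤
    ∑ i ∈ I.filter (fun i => ∀ p ∈ (q i).primeFactors, χ p = c), (1 : ℝ) / q i

open Classical in
/-- Independence.  `F_c = (1 - W_c/M_c)^2 = 1 - (2/M_c) ∑_a 1_a + (1/M_c^2) ∑_{a,b} 1_a 1_b` where `1_a` is the indicator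
function of `k ≡ r_a (mod q_a)` and `1_a 1_b` is `0` if `gcd (q_a, q_b)` does not divide `r_a - r_b`, and otherwise the
indicator function of a residue class modulo `lcm (q_a, q_b)`.  So `F_c = ∑_j c_j 1[d_j ∣ k - s_j]` with
`∑ |c_j| ≤ (1 + |I_c|/M_c)^2 ≤ L` and mean `E_c = ∑ c_j / d_j = (1/M_c^2) (∑_{a,b compatible} g/(q_a q_b) - M_c^2) ≤ ε`,
`E_c ≥ 0` (it is the average of `F_c ≥ 0` over a period).  The moduli `d` of different colours are coprime,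
so multiplying out (Chinese remainder theorem; the number of `k < X` in a residue class modulo `d` is
`X/d + θ`, `|θ| ≤ 1`) `∑_{k<X} ∏_c F_c(k) ≤ X ∏ E_c + ∏ (∑ |c_j|) ≤ X ε^R + L^R`.  If `W_c(k) ≤ M_c/2` for all `c` then
`∏_c F_c(k) ≥ 4^(-R)`, and all terms are nonnegative. -/
def StmtGroup : Prop := ∀ (ι : Type) (R X : ℕ) (I : ℕ → Finset ι) (q : ι → ℕ) (r : ι → ℤ) (ε L : ℝ),
  (∀ c < R, ∀ i ∈ I c, 1 ≤ q i) →
  (∀ c < R, ∀ c' < R, c ≠ c' → ∀ i ∈ I c, ∀ j ∈ I c', Nat.Coprime (q i) (q j)) →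
  (∀ c < R, 0 < ∑ i ∈ I c, (1 : ℝ) / q i) →
  (∀ c < R, (∑ i ∈ I c, ∑ j ∈ I c, if 1 < (q i).gcd (q j) ∧
      (((q i).gcd (q j) : ℕ) : ℤ) ∣ r i - r j then
        (((q i).gcd (q j) : ℕ) : ℝ) / (q i * q j) else 0) ≤ ε * (∑ i ∈ I c, (1 : ℝ) / q i) ^ 2) →
  (∀ c < R, (1 + ((I c).card : ℝ) / ∑ i ∈ I c, (1 : ℝ) / q i) ^ 2 ≤ L) →
  (((range X).filter fun k : ℕ => ∀ c < R,
    (((I c).filter fun i => (q i : ℤ) ∣ (k : ℤ) - r i).card : ℝ) ≤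
      (∑ i ∈ I c, (1 : ℝ) / q i) / 2).card : ℝ) ≤ 4 ^ R * (X * ε ^ R + L ^ R)

open Classical in
/-- Assembly with `m = v^6`, `J = v^17`, `w = 2^J`, `T = 2^(8 m^3)`, `B = 2^(6 m^3)`, `u = 15 v`, `h = 18 v`,
`A = ∑ 1/P ≥ 2^n`, `M ≥ A / (2 J^10)`, `η = 4 A / w`, `R^u ≤ 2^(15 v^5)`, `M_c ≥ M / (2 R^u) ≥ 2^(n/2 + 1)`,
`ε = 2^(2 - n/2)` or so, `L = 2^(31 m^3)`. -/
def StmtMom2 : Prop := ∀ c : ℝ, 0 < c → ∃ v₀ : ℕ, ∀ v n R X : ℕ, v₀ ≤ v →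
  c * (v : ℝ) ^ 6 ≤ n → n ≤ v ^ 6 → 1 ≤ R → R ≤ 2 ^ (v ^ 4) →
  (2 : ℝ) ^ n ≤ ∑ γ ∈ cfg (v ^ 6) n, (1 : ℝ) / PP γ →
    (((range X).filter fun k => n + 2 ≤ k ∧
      ((hits (v ^ 6) n (2 ^ (8 * (v ^ 6) ^ 3)) k).card : ℝ) ≤ 2 ^ (n / 2)).card : ℝ) ≤
    X / 2 ^ (n / 4 * R) + 2 ^ (32 * (v ^ 6) ^ 3 * R)

open Classical in
/-- The final theorem.  From `StmtWeight` (constant `c_w`), `StmtMom2`, `StmtHits`.  Given `x, y`, choose `v`: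
if `y ≤ (log x)^(1/4)` let `v = ⌈(C y)^(1/6)⌉` with `C` a large constant (so `v^4 ≥ 2 log log x ≥ log2 (log2 x)`), otherwise
`v = ⌊(c' y)^(1/6)⌋` with `c'` small (so `128 v^18 ≤ log2 x`; `v^4` is much larger than `log log x`).
`m = v^6` is between `c'' y` and `C'' y`.  `R = ⌊log2 x / (64 m^3)⌋ ≥ 1`, `R ≤ log2 x ≤ 2^(v^4)`, `R ≥ log2 x / (128 m^3)`.
Bad `k` are `< n + 2` or have `≤ 2^(n/2)` hits (`N(k) ≥ hits / (n+3)^2`), and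
`x / 2^((n/4) R) ≤ x exp (- c''' log x / m^2)`, `2^(32 m^3 R) ≤ x^(1/2)`. -/
def StmtMain2 : Prop := ∃ (c : ℝ) (x₀ : ℕ), 0 < c ∧ ∀ x : ℕ, x₀ ≤ x → ∀ y : ℝ,
  Real.log (Real.log x) ^ (3 / 2 : ℝ) ≤ y → y ≤ Real.log x ^ (1 / 3 : ℝ) →
  (((range x).filter fun k => NN k < ((⌈Real.exp (c * y)⌉₊ : ℕ) : ℕ∞)).card : ℝ) ≤
    x * Real.exp (-(c * Real.log x / y ^ 2))

end Pool.Agent.Lib.MP_85a137_nt
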