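import Pool.Agent.Lib.MP_85a137_nt.Spec2

/-!
# MP_85a137_nt, third version: cheap moduli

THEOREM.  There is `c > 0` such that for all large `x` and all `y` with
`log log x (log log log x)^4 ≤ y ≤ (log x)^(1/2) log log x`, all but at most `x exp (-c log x / y)` of the
integers `k < x` satisfy `N(k) ≥ exp (c y / (log y)^2)`.  (`y` maximal: almost all `k` have
`N(k) ≥ exp (c' (log k)^(1/2) / log log k)`; `y` minimal: all but `x^(1 - 1/(log log x)^(1+o(1)))` of the `k < x`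
have `N(k) > 1`.)  Moreover `N(k) ≤ exp (C (log k)^(1/2))` for almost all `k`.

New idea: in the blocks of `Spec` the sum `S` determined the configuration; this made the moduli large
(`exp (m^3)`).  Now the blocks are narrow: `x_j = q_j c_j`, `q_j` a prime in `(2^(m+sj), 2^(m+s(j+1))]` (`s` a constant),
`c_j < 2^m` with at most `100 (log2 m + 1)` prime factors, `n ≤ m / (200 (log2 m + 1)^2)`.  Moduli have size `exp (m n)`,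
the total weight is still `≥ 2^n`, and for most pairs `(P, S)` determines `(q, c)`: `P` determines `q` and `∏ c_j`, there are at
most `n^(Ω(∏ c)) ≤ 2^(m/2)` choices of `c'` with the same product, and for `c' ≠ c` only a proportion `m/2^m` of the `q`
satisfy `∑ q_j (c_j - c'_j) = 0`.
-/

set_option autoImplicit false

namespace Pool.Agent.Lib.MP_85a137_nt

open Finset

/-- primes of block `j` -/
noncomputable def J3 (s m j : ℕ) : Finset ℕ :=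
  (Ioc (2 ^ (m + s * j)) (2 ^ (m + s * (j + 1)))).filter Nat.Prime

/-- the small factors -/
noncomputable def CC (m : ℕ) : Finset ℕ :=
  (Ico 1 (2 ^ m)).filter fun c => ArithmeticFunction.cardFactors c ≤ 100 * (Nat.log 2 m + 1)

/-- configurations `(q, c)`, `x_j = q_j c_j` -/
noncomputable def cf3 (s m n : ℕ) : Finset (Cf n) :=
  Fintype.piFinset (fun j : Fin n => J3 s m j) ×ˢ Fintype.piFinset (fun _ : Fin n => CC m)

/-- the hits of `k` -/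
noncomputable def hits3 (s m n T k : ℕ) : Finset (Cf n × ℕ) :=
  (cf3 s m n ×ˢ Ico T (2 * T)).filter fun i => (PP i.1 * i.2 - 1) ∣ (k + SS i.1 + i.2 - (n + 2))

/-- trivial bounds (`s (j+1) ≤ s n ≤ m`, so `2^m ≤ x_j ≤ 2^(3m)`; the sum is at most the product because all `x_j ≥ 2`) -/
def StmtSize3 : Prop := ∀ s m n : ℕ, 1 ≤ m → 1 ≤ n → s * n ≤ m → ∀ γ ∈ cf3 s m n,
  2 ^ m ≤ PP γ ∧ PP γ ≤ 2 ^ (3 * m * n) ∧ SS γ ≤ 2 ^ (3 * m * n)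

/-- The multiset of the `x_j` determines the configuration: `q_j c_j = q'_i c'_i`, `q_j > 2^m > c'_i`, so `q_j ∣ q'_i`,
`q_j = q'_i`, and `i = j` because the blocks are disjoint; then `c_j = c'_j`. -/
def StmtInj3 : Prop := ∀ s m n : ℕ, 1 ≤ m → ∀ γ ∈ cf3 s m n, ∀ γ' ∈ cf3 s m n,
  ((univ : Finset (Fin n)).val.map fun j => γ.1 j * γ.2 j) =
    ((univ : Finset (Fin n)).val.map fun j => γ'.1 j * γ'.2 j) → γ = γ'

/-- Copy of `StmtHits` (file Hits.lean), using `StmtInj3` where Hits.lean uses `StmtInj` (`h7` there). -/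
def StmtHits3 : Prop := ∀ s m n T k : ℕ, 1 ≤ m → 2 ≤ T → n + 2 ≤ k →
  ((hits3 s m n T k).card : ℕ∞) ≤ ((n + 3) ^ 2 : ℕ) * NN k

/-- From `StmtUp`, Rankin's trick with `z = 3/2`.  `∑_{c < 2^m} z^Ω(c) / c ≤ ∏_{p < 2^m} (1 - z/p)^(-1)`
(`EulerProduct.summable_and_hasSum_smoothNumbers_prod_primesBelow_geometric` for the completely
multiplicative function `c ↦ z^Ω(c) / c`, or induction) `≤ exp (∑ 4 z / p) ≤ exp (30 + 24 log m)` (`-log (1-x) ≤ x/(1-x) ≤ 4x` for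
`x = z/p ≤ 3/4`), so the `c < 2^m` with `Ω(c) > 100 (log2 m + 1)` contribute at most
`e^30 m^24 (2/3)^(100 log2 m) ≤ m / 4` to `∑ 1/c ≥ log (2^m) ≥ m/2`. -/
def StmtCC : Prop := ∃ m₀ : ℕ, ∀ m : ℕ, m₀ ≤ m → (m : ℝ) / 4 ≤ ∑ c ∈ CC m, (1 : ℝ) / c

/-- From `StmtLow` (constants `κ`, `m₀'`) and `StmtCC`: `s ≥ 16/κ`, `s ≥ m₀'`, `s ≥ 1`.  `∑_{q ∈ J3 s m j} 1/q ≥
κ s / (m + s (j+1)) ≥ κ s / (2m) ≥ 8/m` (`StmtLow` with its `m` equal to `s`, `a = m + s j`); the sum over `cf3` is the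
product of the `n` factors `(∑_{q ∈ J3 s m j} 1/q) (∑_{c ∈ CC m} 1/c) ≥ 2` (`Finset.prod_univ_sum`). -/
def StmtWeight3 : Prop := ∃ s m₀ : ℕ, 1 ≤ s ∧ ∀ m n : ℕ, m₀ ≤ m → s * n ≤ m →
  (2 : ℝ) ^ n ≤ ∑ γ ∈ cf3 s m n, (1 : ℝ) / PP γ ∧
  ∀ j < n, (1 : ℝ) / m ≤ ∑ q ∈ J3 s m j, (1 : ℝ) / q

/-- Number of factorizations into `n` (ordered) factors.  Induction on the number of prime factors:
if `C = p C'`, every factorization of `C` arises from one of `C'` by multiplying one of the `n` entries by `p`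
(`p` divides some entry). -/
def StmtFact : Prop := ∀ (n C : ℕ) (F : Finset (Fin n → ℕ)), 1 ≤ n → 1 ≤ C →
  (∀ c ∈ F, ∏ j, c j = C) → F.card ≤ n ^ ArithmeticFunction.cardFactors C

open Classical in
/-- Configurations with the same `(P, S)`.  Let `γ = (q, c)`, `γ' = (q', c')` in `cf3 s m n` have the same `P`.  Then `q = q'` (`q_j`
is a prime `> 2^m`, all `c'_i < 2^m`, blocks disjoint) and `∏ c = ∏ c'`; the same `S` means `∑ q_j (c_j - c'_j) = 0`.  For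
`c ≠ c'` choose `j₀` with `c_{j₀} ≠ c'_{j₀}`: for given `q_j`, `j ≠ j₀`, at most one `q_{j₀}` is possible, so
`∑_{q : ∑ q_j (c_j - c'_j) = 0} ∏ 1/q_j ≤ 2^(-m) ∏_{j ≠ j₀} σ_j ≤ m 2^(-m) ∏ σ_j` where `σ_j = ∑_{q ∈ J3 s m j} 1/q ≥ 1/m`.
For given `c` there are at most `n^(Ω(∏ c)) ≤ n^(100 n ℓ) ≤ 2^(100 n ℓ^2) ≤ 2^(m/2)` such `c'` (`StmtFact`,
`Ω(∏ c) = ∑ Ω(c_j) ≤ 100 n ℓ`, `ℓ = log2 m + 1`, `n ≤ m ≤ 2^ℓ`).  So the sum is at most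
`m 2^(-m) 2^(m/2) ∏ σ_j ∑_c ∏ 1/c_j = m 2^(-m/2) A ≤ 2^(-m/4) A`, `A = ∑_γ 1/P`. -/
def StmtMult3 : Prop := ∃ m₀ : ℕ, ∀ s m n : ℕ, m₀ ≤ m → 1 ≤ n → s * n ≤ m →
  200 * n * (Nat.log 2 m + 1) ^ 2 ≤ m →
  (∀ j < n, (1 : ℝ) / m ≤ ∑ q ∈ J3 s m j, (1 : ℝ) / q) →
  ∑ γ ∈ cf3 s m n, ∑ γ' ∈ cf3 s m n,
    (if γ' ≠ γ ∧ PP γ' = PP γ ∧ SS γ' = SS γ then (1 : ℝ) / PP γ else 0) ≤
    (∑ γ ∈ cf3 s m n, (1 : ℝ) / PP γ) / 2 ^ (m / 4)

open Classical in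
/-- Moment computation with `w = 2^J`, `T = 2^(4 m n)`, `B = 2^(3 m n)`; helper5. -/
def StmtMom3 : Prop := ∃ m₀ : ℕ, ∀ s m n J u R X : ℕ, m₀ ≤ m → m₀ ≤ J → 16 ≤ n → 4 * n ≤ m → s * n ≤ m →
  100 * J * (Nat.log 2 J + 1) ≤ 4 * m * n → 7 * m * n + 1 ≤ J * u → 2 * u + 2 * n + 7 ≤ J → 1 ≤ R →
  32 * u * J ^ 10 * R ^ (2 * u + 1) < 2 ^ J → 4 * J ^ 10 * R ^ u ≤ 2 ^ (n / 2) →
  (2 : ℝ) ^ n ≤ ∑ γ ∈ cf3 s m n, (1 : ℝ) / PP γ →
  ∑ γ ∈ cf3 s m n, ∑ γ' ∈ cf3 s m n,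
    (if γ' ≠ γ ∧ PP γ' = PP γ ∧ SS γ' = SS γ then (1 : ℝ) / PP γ else 0) ≤
    (∑ γ ∈ cf3 s m n, (1 : ℝ) / PP γ) / 2 ^ (m / 4) →
    (((range X).filter fun k => n + 2 ≤ k ∧
      ((hits3 s m n (2 ^ (4 * m * n)) k).card : ℝ) ≤ 2 ^ (n / 4)).card : ℝ) ≤
    X / 2 ^ (n / 8 * R) + 2 ^ (17 * m * n * R)

open Classical in
/-- The third version.  `m = ⌊y⌋`, `ℓ = log2 m + 1`, `n = ⌊m / (C₁ ℓ^2)⌋` (`C₁ ≥ 200`, `C₁ ≥ s`), `J = ⌊m n / (50 ℓ)⌋`, `u = 500 ℓ`,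
`R = ⌊log2 x / (34 m n)⌋` (`≥ 1` because `m n ≤ m^2 / (200 ℓ^2)` and `m ≤ (log x)^(1/2) log log x`), `ρ = log2 log2 x + 1`, `R ≤ 2^ρ`.
`100 J (log2 J + 1) ≤ 200 J ℓ ≤ 4 m n`; `J u ≥ 7 m n + 1`; `4 J^10 R^u ≤ 2^(2 + 20 ℓ + 500 ℓ ρ) ≤ 2^(n/2)` since `n ~ m / (C₁ ℓ^2)` and
`m ≥ C ρ ℓ^3` (`y ≥ log log x (log log log x)^4`); the other two conditions are weaker.  A bad `k` is `< n + 2` or has
`≤ 2^(n/4)` hits (`N(k) ≥ hits / (n+3)^2`, and `2^(n/4) / (n+3)^2 > exp (c y / (log y)^2)`).  The number of these is at most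
`n + 2 + x / 2^((n/8) R) + 2^(17 m n R) ≤ n + 2 + x exp (-c' log x / m) + x^(1/2)`. -/
def StmtMain3 : Prop := ∃ (c : ℝ) (x₀ : ℕ), 0 < c ∧ ∀ x : ℕ, x₀ ≤ x → ∀ y : ℝ,
  Real.log (Real.log x) * Real.log (Real.log (Real.log x)) ^ 4 ≤ y →
  y ≤ Real.sqrt (Real.log x) * Real.log (Real.log x) →
  (((range x).filter fun k => NN k < ((⌈Real.exp (c * y / Real.log y ^ 2)⌉₊ : ℕ) : ℕ∞)).card : ℝ) ≤
    x * Real.exp (-(c * Real.log x / y))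

/-! ### Upper bound for almost all `k` -/

open Classical in
/-- The number of multisets of integers `≥ 2` with product `≤ N` (unordered factorizations of the integers up to
`N`).  Rankin: for `σ > 1` it is at most `∑_Y (N / ∏ Y)^σ ≤ N^σ ∏_{j=2}^{N} (1 - j^(-σ))^(-1) ≤ N^σ exp (2 ∑_{j ≥ 2} j^(-σ)) ≤
N^σ exp (2/(σ-1))`; `σ = 1 + (log N)^(-1/2)`.  (Finite version: the elements of `Y` are `≤ N` and every multiplicity is
`≤ N`; expand `∏_{j=2}^N ∑_{e=0}^N j^(-σ e)` with `Finset.prod_univ_sum` / `Finset.prod_sum`.) -/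
def StmtFacCount : Prop := ∀ (N : ℕ) (F : Finset (Multiset ℕ)), 3 ≤ N →
  (∀ Y ∈ F, (∀ y ∈ Y, 2 ≤ y) ∧ Y.prod ≤ N) → (F.card : ℝ) ≤ N * Real.exp (3 * Real.sqrt (Real.log N))

open Classical in
/-- From `StmtFacCount` with `N = 2 x`.  For `k ≥ 2` let `Y(a)` be the multiset of the entries `≠ 1` of a solution `a`; then
`∏ Y = ∑ Y + k - |Y|`, so `Y` determines `k` and `a` (monotone), and `∏ Y ≤ 2 k`: with `|Y| ≥ 2` (otherwise the product is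
smaller than the sum), `∏ Y - ∑ Y + |Y| ≥ ∏ Y / 2`, since for `x, y ≥ 2`: `x y - (x + y) + 2 = (x-1)(y-1) + 1 ≥ x y / 2`, and
multiplying `x` by a new factor `z ≥ 2` increases `∏ - ∑ + |Y|` by `(z-1)(∏ - 1) ≥ (z-1) ∏ / 2`.  So
`∑_{2 ≤ k < x} N(k) ≤ 2 x exp (3 (log 2x)^(1/2))` (as a bound for finite sets of pairs `(k, a)`), then Markov. -/
def StmtUpper : Prop := ∃ x₀ : ℕ, ∀ x : ℕ, x₀ ≤ x →
  (((range x).filter fun k => ((⌊Real.exp (5 * Real.sqrt (Real.log x))⌋₊ : ℕ) : ℕ∞) < NN k).card : ℝ) ≤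
    x * Real.exp (-Real.sqrt (Real.log x))

end Pool.Agent.Lib.MP_85a137_nt
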