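import Pool.Agent.Lib.MP_85a137_nt.Spec3

/-!
# MP_85a137_nt, fourth version: the order of `log N(k)` for almost all `k`

THEOREM (NormalOrder).  With `B = (log x)^(1/2) logloglog x / loglog x` there are `c, C > 0` such that all but at most
`x exp (-c B)` of the integers `k < x` satisfy `exp (c B) ≤ N(k) ≤ exp (C B)`.

THEOREM (all arithmetic progressions).  There is `c > 0` such that for all large `x`, all `y` with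
`loglog x (logloglog x)^4 ≤ y ≤ (log x)^(1/2) loglog x`, all `Q ≥ 1` with `log Q ≤ exp (c y^2 / (log y)^3)` and all `b`, all but at
most `x exp (-c log x loglog y / y)` of the `i < x` satisfy `N(b + Q i) ≥ exp (c y loglog y / (log y)^2)`.

The proofs are complete in the docstrings. Every module is independent (used statements are
hypotheses): file `Pool/Agent/Lib/MP_85a137_nt/<Name>.lean` which imports this file (and other old files where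
this is said), with `theorem t<Name> : Stmt<Name>` or `theorem t<Name> (h1 : StmtX) (h2 : StmtY) .. : Stmt<Name>` (the
used statements in the order of the docstring), namespace `Pool.Agent.Lib.MP_85a137_nt`, all other
declarations `private`.

Upper bound (new).  `M = ⌈(log 2x)^(1/2)⌉`, `ℓ = log2 M + 1`, `G(y)` = number of prime factors `> 2^(ℓ/2)` of `y`, `V = 4 M ℓ`,
`W = 128 M`.  (A) Almost all `k` have no solution in which the entries `≤ 2^V` have together `≥ W` such prime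
factors: `k` is determined by the product `P` and the sum of these entries and by the other entries, and
`∑ 1/P` over the `2^V`-smooth `P` with `G(P) ≥ W` is very small.  (B) The number of multisets with product `≤ 2x`
and less than `W` such prime factors is at most `x exp (C M log ℓ / ℓ)`: the entries `y` with `G(y) < ℓ/3` contribute
`exp (M^(5/6 + o(1)))` to Rankin's sum, the number of the other entries `≤ 2^V` is `≤ 4 W / ℓ`.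

Lower bound: the construction of `Spec3` with `s = ℓ^2` instead of a constant, `ℓ = log2 m + 1`; then
`∑ 1/P ≥ ℓ^n`.
-/

set_option autoImplicit false

namespace Pool.Agent.Lib.MP_85a137_nt

open Finset

/-- The number of the prime factors `> w` of `y`, with multiplicity. -/
def Gw (w y : ℕ) : ℕ := (y.primeFactorsList.filter fun p => decide (w < p)).length

/-- The order of `log N(k)`. -/
noncomputable def BB (x : ℝ) : ℝ :=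
  Real.sqrt (Real.log x) * Real.log (Real.log (Real.log x)) / Real.log (Real.log x)

/-! ### Tools -/

/-- **Gw** (60 lines).  `Nat.perm_primeFactorsList_mul`, `Nat.primeFactorsList_prime`; (4) by induction. -/
def StmtGw : Prop := ∀ w : ℕ, Gw w 1 = 0 ∧ (∀ a b : ℕ, a ≠ 0 → b ≠ 0 → Gw w (a * b) = Gw w a + Gw w b) ∧
  (∀ p : ℕ, p.Prime → Gw w p = if w < p then 1 else 0) ∧
  ∀ Y : Multiset ℕ, (∀ y ∈ Y, y ≠ 0) → Gw w Y.prod = (Y.map (Gw w)).sum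

/-- **MS** (120 lines).  Sums over multisets.  Copy from `FacCount.lean` (`weight_eq`, `hsum`, `hprod` there, `geom_le`):
the multiplicities are at most `E` for all `Y ∈ F` (`F` is finite), `(Y.map b).prod = ∏_{2 ≤ j ≤ N} b j ^ (count j Y)`, and the
sum is at most `∏_j ∑_{e ≤ E} b j ^ e ≤ ∏_j exp (2 b j)`. -/
def StmtMS : Prop := ∀ (N : ℕ) (b : ℕ → ℝ) (F : Finset (Multiset ℕ)),
  (∀ y ∈ Icc 2 N, 0 ≤ b y ∧ b y ≤ 1 / 2) → (∀ Y ∈ F, ∀ y ∈ Y, 2 ≤ y ∧ y ≤ N) →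
    ∑ Y ∈ F, (Y.map b).prod ≤ Real.exp (2 * ∑ y ∈ Icc 2 N, b y)

/-- **Zs** (50 lines).  `j^(-(1+t)) ≤ ((j-1)^(-t) - j^(-t)) / t` for `j ≥ 2` (`FacCountM.step_le` in `FacCount.lean`, which may be
imported), telescope. -/
def StmtZs : Prop := ∀ (t : ℝ) (Z N : ℕ), 0 < t → 1 ≤ Z →
  ∑ j ∈ Ioc Z N, (j : ℝ) ^ (-(1 + t)) ≤ (Z : ℝ) ^ (-t) / t

/-- **Eu** (120 lines, uses `StmtGw`, `StmtUp`).  Copy from `CC.lean` (`wt`, `sum_wt_le`).  The function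
`f c = z^(Gw w c) / c` is completely multiplicative (`→*₀`, value `0` at `0`); `f p = 1/p ≤ 1/2` for `p ≤ w` and `f p = z/p ≤ 1/2` for
`p > w`; so the sum over the `(2^V+1)`-smooth numbers is `∏_{p ≤ 2^V} (1 - f p)^(-1) ≤ exp (2 ∑ f p) ≤ exp (2 z ∑_{p ≤ 2^V} 1/p)`
(`EulerProduct.summable_and_hasSum_smoothNumbers_prod_primesBelow_geometric`, `(1-t)^(-1) ≤ exp (2t)` for
`0 ≤ t ≤ 1/2`), then `StmtUp` with `J = V`. -/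
def StmtEu : Prop := ∀ (w V : ℕ) (z : ℝ) (F : Finset ℕ), 1 ≤ V → 1 ≤ z → 2 * z ≤ w + 1 →
  (∀ P ∈ F, 1 ≤ P ∧ ∀ p : ℕ, p.Prime → p ∣ P → p ≤ 2 ^ V) →
    ∑ P ∈ F, z ^ (Gw w P) / (P : ℝ) ≤ Real.exp (2 * z * (5 + 4 * Real.log V))

/-- **Poo** (200 lines, uses `StmtGw`, `StmtZs`, `StmtUp`).  The poor numbers.  For `Gw (2^a) y < g` we have
`1 ≤ 2^g 2^(-Gw y)`.  The function `h c = 2^(-Gw (2^a) c) c^(-(1+s))` is completely multiplicative, and with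
`t_p = p^(-(1+s)) ≤ 1/2` `h p = t_p` for `p ≤ 2^a`, `h p = t_p/2` for `p > 2^a`.  So (smooth numbers as in `StmtEu`)
`∑_{1 ≤ y ≤ N} h y ≤ ∏_{p ≤ N} (1 - h p)^(-1)`.  For `p > 2^a` `(1 - t_p/2)^(-1) ≤ (1 - t_p)^(-1/2)` as
`(1 - t/2)^2 ≥ 1 - t`; for `p ≤ 2^a` `(1 - t_p)^(-1) = (1 - t_p)^(-1/2) (1 - t_p)^(-1/2) ≤ (1 - t_p)^(-1/2) exp (1/p)`
(`(1-t)^(-1) ≤ exp (2t)`).  So the product is at most `(∏_{p ≤ N} (1 - t_p)^(-1))^(1/2) exp (∑_{p ≤ 2^a} 1/p)`; the second factor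
is `≤ exp (5 + 4 log a)` (`StmtUp`), and `∏_{p ≤ N} (1 - t_p)^(-1)` is the sum of `c^(-(1+s))` over the smooth numbers, which is
`≤ ∑_{c ≥ 1} c^(-(1+s)) ≤ 1 + 1/s` (every finite sum is `≤ 1 + 1/s` by `StmtZs` with `Z = 1`). -/
def StmtPoo : Prop := ∀ (a g N : ℕ) (s : ℝ), 1 ≤ a → 0 < s →
  ∑ y ∈ (Icc 2 N).filter (fun y => Gw (2 ^ a) y < g), (y : ℝ) ^ (-(1 + s)) ≤
    2 ^ g * Real.exp (5 + 4 * Real.log a) * Real.sqrt (1 + 1 / s)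

/-! ### Upper bound -/

open Classical in
/-- **CntA** (250 lines, uses `StmtGw`, `StmtMS`, `StmtZs`, `StmtEu`).  For every such `k` choose `Y = Y_k`; let `Y₁` be the
multiset of the elements `≤ 2^V` and `Y₂` the rest, `P = ∏ Y₁`, `σ = ∑_{Y₁} (y - 1)`.  `k = P ∏ Y₂ - σ - ∑_{Y₂} (y - 1)`, so
`k ↦ (σ, (P, Y₂))` is injective.  `2^|Y| ≤ ∏ Y ≤ 2x`, so `|Y| log 2 ≤ M^2`, `|Y| ≤ 2 M^2`, `σ ≤ 2 M^2 2^V`.  The pairs `(P, Y₂)` satisfy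
`P ∏ Y₂ ≤ 2x`, all prime factors of `P` are `≤ 2^V`, `Gw (2^a) P ≥ W` (`StmtGw` (4)).  With `τ = 1 + 1/M` their number is at most
`∑ (2x/(P ∏ Y₂))^τ ≤ (2x)^τ (∑_P 1/P) (∑_{Y₂} ∏ y^(-τ))` (sums over the projections of the set of the pairs);
`(2x)^τ ≤ 2x exp M`; the last sum is `≤ exp (2 ∑_{2 ≤ y ≤ 2x} y^(-τ)) ≤ exp (2 M)` (`StmtMS`, `StmtZs` with `Z = 1`); and with
`z = 2^(a-1)` `∑_P 1/P ≤ z^(-W) ∑_P z^(Gw P)/P ≤ z^(-W) exp (2 z (5 + 4 log V))` (`StmtEu` with `w = 2^a`). -/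
def StmtCntA : Prop := ∀ x M V W a : ℕ, 1 ≤ x → 1 ≤ M → 1 ≤ V → 2 ≤ a →
  Real.log (2 * x) ≤ (M : ℝ) ^ 2 →
  (((range x).filter fun k => ∃ Y : Multiset ℕ, (∀ y ∈ Y, 2 ≤ y) ∧ Y.prod ≤ 2 * x ∧
    Y.prod + Y.card = Y.sum + k ∧
    W ≤ ((Y.filter fun y => y ≤ 2 ^ V).map (Gw (2 ^ a))).sum).card : ℝ) ≤
    (2 * (M : ℝ) ^ 2 * 2 ^ V + 1) * (2 * x * Real.exp (3 * M)) * ((2 : ℝ) ^ ((a - 1) * W))⁻¹ *
      Real.exp (2 ^ a * (5 + 4 * Real.log V))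

/-- **NumA** (150 lines).  With `V = 4 M ℓ`: `2^(ℓ-1) ≤ M < 2^ℓ`, `ℓ/2 - 1 ≥ ℓ/4` for `ℓ ≥ 6`, so the logarithm of the left hand side is at
most `log (4 M^2) + V log 2 + log 2 + 3 M - 8 V log 2 + (2M)^(1/2) (5 + 4 log V) ≤ - M` for large `M` (`V ≥ 8 M`). -/
def StmtNumA : Prop := ∃ M₀ : ℕ, ∀ M ℓ : ℕ, M₀ ≤ M → ℓ = Nat.log 2 M + 1 →
  (2 * (M : ℝ) ^ 2 * 2 ^ (4 * M * ℓ) + 1) * (2 * Real.exp (3 * M)) *
    ((2 : ℝ) ^ ((ℓ / 2 - 1) * (128 * M)))⁻¹ *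
      Real.exp (2 ^ (ℓ / 2) * (5 + 4 * Real.log ((4 * M * ℓ : ℕ) : ℝ))) ≤ Real.exp (-M)

/-- **CntB** (250 lines, uses `StmtGw`, `StmtMS`, `StmtZs`, `StmtPoo`).  Let `b y = y^(-(1+s))` if `Gw y < g` or `y > 2^V`, and
`b y = y^(-(1+s)) / H` otherwise.  For `Y ∈ F` let `ρ` be the number of the `y ∈ Y` with `y ≤ 2^V`, `Gw y ≥ g`: `g ρ < W ≤ g r`, so
`ρ ≤ r`, and `1 ≤ (N / ∏ Y)^(1+s) = N^(1+s) ∏ y^(-(1+s)) ≤ N^(1+s) H^r ∏ b y`.  By `StmtMS` (`b y ≤ 1/y ≤ 1/2`)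
`#F ≤ N^(1+s) H^r exp (2 ∑_{2 ≤ y ≤ N} b y)`; the poor `y` contribute at most the bound of `StmtPoo`, the `y > 2^V` at most
`2^(-V s) / s` (`StmtZs`, `Z = 2^V`), the others at most `(1/H) ∑_{2 ≤ y ≤ 2^V} 1/y ≤ V / H`
(`harmonic_le_one_add_log`). -/
def StmtCntB : Prop := ∀ (N V W a g r : ℕ) (s H : ℝ) (F : Finset (Multiset ℕ)), 1 ≤ N → 1 ≤ V → 1 ≤ a →
  1 ≤ g → W ≤ g * r → 0 < s → 1 ≤ H →
  (∀ Y ∈ F, (∀ y ∈ Y, 2 ≤ y) ∧ Y.prod ≤ N ∧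
    ((Y.filter fun y => y ≤ 2 ^ V).map (Gw (2 ^ a))).sum < W) →
  (F.card : ℝ) ≤ (N : ℝ) ^ (1 + s) * H ^ r *
    Real.exp (2 * (2 ^ g * Real.exp (5 + 4 * Real.log a) * Real.sqrt (1 + 1 / s) +
      (2 : ℝ) ^ (-(V * s)) / s + V / H))

/-- **NumB** (200 lines).  With `X = M log ℓ / ℓ`: `N^s ≤ exp (s M^2) = exp X`; `g = ℓ/3 ≥ ℓ/4` for `ℓ ≥ 8`, so
`r ≤ 512 M/ℓ + 1 ≤ 513 M/ℓ` and `(ℓ^2)^r ≤ exp (1026 X)`.  `2^g ≤ (2M)^(1/3)`, `exp (5 + 4 log (ℓ/2)) ≤ e^5 ℓ^4`,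
`(1 + 1/s)^(1/2) ≤ (2 M ℓ)^(1/2)` (`1/s = M ℓ / log ℓ`, `log ℓ ≥ 1`), so the first term in the exponential function is
`≤ C M^(5/6) ℓ^5 ≤ M/ℓ` for large `M`; `V s = 4 log ℓ`, so the second is `ℓ^(-4 log 2) M ℓ / log ℓ ≤ M/ℓ` (`4 log 2 ≥ 2`); the
third is `4 M/ℓ`.  Altogether the exponent is `≤ 1027 X + 12 M/ℓ ≤ 1100 X`. -/
def StmtNumB : Prop := ∃ M₀ : ℕ, ∀ M N ℓ g r : ℕ, M₀ ≤ M → 1 ≤ N → Real.log N ≤ (M : ℝ) ^ 2 →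
  ℓ = Nat.log 2 M + 1 → g = ℓ / 3 → r = 128 * M / g + 1 → ∀ s : ℝ, s = Real.log ℓ / (M * ℓ) →
  1 ≤ g ∧ 0 < s ∧
  (N : ℝ) ^ (1 + s) * ((ℓ : ℝ) ^ 2) ^ r *
    Real.exp (2 * (2 ^ g * Real.exp (5 + 4 * Real.log ((ℓ / 2 : ℕ) : ℝ)) * Real.sqrt (1 + 1 / s) +
      (2 : ℝ) ^ (-(((4 * M * ℓ : ℕ) : ℝ) * s)) / s + ((4 * M * ℓ : ℕ) : ℝ) / (ℓ : ℝ) ^ 2)) ≤
    N * Real.exp (1100 * (M * Real.log ℓ / ℓ))

open Classical in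
/-- **Cou** (120 lines).  Copy from `Upper.lean` (may be imported; `UpperM.Yf`, `UpperM.two_le`, `UpperM.prod_eq`,
`UpperM.prod_le`, `UpperM.key_inj`, `UpperM.inj_on`, `UpperM.exists_sols`, and the proof of `UpperM.count`): choose `T + 1`
solutions for every such `k`; the multisets `Yf a` are different and have the property `Gd`. -/
def StmtCou : Prop := ∀ (x T : ℕ) (D : ℝ) (Gd : Multiset ℕ → Prop), 2 ≤ x →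
  (∀ F : Finset (Multiset ℕ), (∀ Y ∈ F, (∀ y ∈ Y, 2 ≤ y) ∧ Y.prod ≤ 2 * x ∧ Gd Y) → (F.card : ℝ) ≤ D) →
  (((range x).filter fun k => 2 ≤ k ∧ (T : ℕ∞) < NN k ∧ ∀ Y : Multiset ℕ, (∀ y ∈ Y, 2 ≤ y) →
    Y.prod ≤ 2 * x → Y.prod + Y.card = Y.sum + k → Gd Y).card : ℝ) * ((T : ℝ) + 1) ≤ D

/-- **NumU** (200 lines).  `L = log x`, `w = log L`; `L^(1/2) ≤ M ≤ 2 L^(1/2)`, `w / (2 log 2) ≤ ℓ ≤ w / (2 log 2) + 2`, so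
`w/2 ≤ ℓ ≤ w` and `log w - 0.4 ≤ log ℓ ≤ log w`; `M log ℓ / ℓ ≥ L^(1/2) (log w - 0.4) / (0.73 w) ≥ L^(1/2) log w / w`, and
`M log ℓ / ℓ ≤ 2 L^(1/2) log w / (w/2)`.  Last inequality: with `X = M log ℓ / ℓ ≥ B`, `B → ∞`, `M ≥ 2 X` every term on the left is
`≤ x exp (-B) / 3`. -/
def StmtNumU : Prop := ∀ M₀ : ℕ, ∃ x₀ : ℕ, ∀ x M ℓ : ℕ, x₀ ≤ x → M = ⌈Real.sqrt (Real.log (2 * x))⌉₊ →
  ℓ = Nat.log 2 M + 1 → M₀ ≤ M ∧ 2 ≤ x ∧ 4 ≤ ℓ ∧ Real.log (2 * x) ≤ (M : ℝ) ^ 2 ∧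
    BB x ≤ M * Real.log ℓ / ℓ ∧ M * Real.log ℓ / ℓ ≤ 4 * BB x ∧
    2 + x * Real.exp (-M) + 2 * x * Real.exp (-(2 * (M * Real.log ℓ / ℓ))) ≤ x * Real.exp (-BB x)

open Classical in
/-- **Upp** (150 lines, uses `StmtCntA`, `StmtNumA`, `StmtCntB`, `StmtNumB`, `StmtCou`, `StmtNumU`).  Assembly, `C = 4408`.
`M = ⌈(log 2x)^(1/2)⌉`, `ℓ = log2 M + 1`, `a = ℓ/2`, `V = 4 M ℓ`, `W = 128 M`, `X = M log ℓ / ℓ`.  By `StmtCntA`, `StmtNumA` all but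
`x exp (-M)` of the `k < x` have no solution multiset with `∑ Gw ≥ W`.  By `StmtCntB` (`N = 2x`, `H = ℓ^2`), `StmtNumB` and
`StmtCou` (`D = 2x exp (1100 X)`, `T = ⌊exp (1102 X)⌋`) at most `2x exp (-2 X)` of the others with `k ≥ 2` have more than
`T ≤ ⌊exp (C B)⌋` solutions. -/
def StmtUpp : Prop := ∃ (C : ℝ) (x₀ : ℕ), 0 < C ∧ ∀ x : ℕ, x₀ ≤ x →
  (((range x).filter fun k => ((⌊Real.exp (C * BB x)⌋₊ : ℕ) : ℕ∞) < NN k).card : ℝ) ≤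
    x * Real.exp (-BB x)

/-! ### Lower bound -/

/-- **Weight4** (80 lines, uses `StmtLow`, `StmtCC`).  Copy of `Weight3.lean` (may be imported, `Weight3M.sum_eq`) with
`s = ℓ^2`, `ℓ = log2 m + 1`: by `StmtLow` (its `m` equal to `s`, `a = m + s j`) `∑_{q ∈ J3 s m j} 1/q ≥ κ s / (m + s (j+1)) ≥ κ s / (2m) ≥ 1/m`,
and with `StmtCC` every factor is `≥ κ s / 8 = κ ℓ^2 / 8 ≥ ℓ ≥ 2^(log2 ℓ)` for large `m`. -/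
def StmtWeight4 : Prop := ∃ m₀ : ℕ, ∀ m n : ℕ, m₀ ≤ m → (Nat.log 2 m + 1) ^ 2 * n ≤ m →
  (2 : ℝ) ^ (Nat.log 2 (Nat.log 2 m + 1) * n) ≤
    ∑ γ ∈ cf3 ((Nat.log 2 m + 1) ^ 2) m n, (1 : ℝ) / PP γ ∧
  ∀ j < n, (1 : ℝ) / m ≤ ∑ q ∈ J3 ((Nat.log 2 m + 1) ^ 2) m j, (1 : ℝ) / q

open Classical in
/-- **Mom4** (700 lines, mostly a copy; uses `StmtSize3`, `StmtBrunG`, `StmtOff`, `StmtDiag`, `StmtColor`, `StmtGroup`).  The moment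
computation in a progression.  Copy of `Mom3.lean` with three changes.  (1) The index set `I` of
`Mom3.lean` is replaced by `I' = {i ∈ I : gcd (q_i, Q) = 1}`.  The `i ∈ I` with `p ∣ q_i`, for a prime `p ∣ Q`, have total weight
`≤ 4 A / w` (`hη` there; none if `p ≤ w`), `Q` has at most `log2 Q < 2^(J/2)` prime factors, so the total weight of the
other `i` is `≤ 2^(J/2) 4 A / 2^J ≤ 4 A / 2^(J/2) ≤ A / (4 J^10)` for large `J`, and `M' = ∑_{I'} 1/q_i ≥ A / (4 J^10)` (in the place of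
`A / (2 J^10)`; so `K = 8 J^10 R^u`, and `64` instead of `32`).  (2) `b + Q i ≡ r_j (mod q_j)` iff `i ≡ r'_j (mod q_j)` with an integer
`r'_j`, `Q r'_j ≡ r_j - b (mod q_j)`; for `g = gcd (q_i, q_j)`, `i, j ∈ I'`, `g ∣ r'_i - r'_j` implies `g ∣ r_i - r_j`, so
the double sums of `Mom3.lean` are upper bounds.  (3) `A ≥ 2^(v n)`, `G = 2^(v n / 4)`: `2 G K ≤ 2^(v n)`,
`32 2^(2u) 8 G K^2 ≤ 2^J` as `K ≤ 2^(n/2)`; `4^R G^(-R) ≤ 2^(-(v n/8) R)`. -/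
def StmtMom4 : Prop := ∃ m₀ : ℕ, ∀ s m n v J u R X Q b : ℕ, m₀ ≤ m → m₀ ≤ J → 16 ≤ n → 1 ≤ v → 4 * n ≤ m →
  s * n ≤ m → 100 * J * (Nat.log 2 J + 1) ≤ 4 * m * n → 7 * m * n + 1 ≤ J * u →
  2 * u + 2 * v * n + 7 ≤ J → 1 ≤ R → 64 * u * J ^ 10 * R ^ (2 * u + 1) < 2 ^ J →
  8 * J ^ 10 * R ^ u ≤ 2 ^ (n / 2) → 1 ≤ Q → Q < 2 ^ 2 ^ (J / 2) →
  (2 : ℝ) ^ (v * n) ≤ ∑ γ ∈ cf3 s m n, (1 : ℝ) / PP γ →
  ∑ γ ∈ cf3 s m n, ∑ γ' ∈ cf3 s m n,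
    (if γ' ≠ γ ∧ PP γ' = PP γ ∧ SS γ' = SS γ then (1 : ℝ) / PP γ else 0) ≤
    (∑ γ ∈ cf3 s m n, (1 : ℝ) / PP γ) / 2 ^ (m / 4) →
    (((range X).filter fun i => n + 2 ≤ b + Q * i ∧
      ((hits3 s m n (2 ^ (4 * m * n)) (b + Q * i)).card : ℝ) ≤ 2 ^ (v * n / 4)).card : ℝ) ≤
    X / 2 ^ (v * n / 8 * R) + 2 ^ (17 * m * n * R)

/-- **Par4** (150 lines).  Copy of `Main3M.params` in `Main3.lean` (with `s = 1`): `ℓ = log2 m + 1`, `n = ⌊m / (200 ℓ^2)⌋`,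
`J = ⌊m n / (50 ℓ)⌋ ≥ 22 m`, `u = 500 ℓ`, `R = ⌊Λ / (34 m n)⌋`.  New: `2 log2 ℓ n ≤ 2 ℓ n ≤ m`; the constants `64` and `8`;
`m < 400 ℓ^2 n`, so `m^2 < 400 ℓ^2 m n < 20000 ℓ^3 (J + 1) ≤ 40000 ℓ^3 J`. -/
def StmtPar4 : Prop := ∀ m ρ Λ ℓ : ℕ, 1 ≤ m → 1 ≤ ρ → Λ < 2 ^ ρ → ℓ = Nat.log 2 m + 1 →
  200 * ℓ ^ 2 * (1100 * ρ * ℓ) ≤ m → 34 * m ^ 2 ≤ 200 * Λ * ℓ ^ 2 →
  ∃ n J u R : ℕ, 1100 ≤ n ∧ 200 * ℓ ^ 2 * n ≤ m ∧ m < 200 * ℓ ^ 2 * (n + 1) ∧ m ≤ J ∧ 4 * n ≤ m ∧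
    100 * J * (Nat.log 2 J + 1) ≤ 4 * m * n ∧ 7 * m * n + 1 ≤ J * u ∧
    2 * u + 2 * Nat.log 2 ℓ * n + 7 ≤ J ∧ 1 ≤ R ∧ 64 * u * J ^ 10 * R ^ (2 * u + 1) < 2 ^ J ∧
    8 * J ^ 10 * R ^ u ≤ 2 ^ (n / 2) ∧ 34 * m * n * R ≤ Λ ∧ Λ < 34 * m * n * (R + 1) ∧
    m ^ 2 ≤ 40000 * ℓ ^ 3 * J

/-- **Cb4** (250 lines).  The final estimates, compare `two_pow_large`, `exponent_le`, `count_bound` in `Main3.lean` (may be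
imported: `Main3M.two_pow_large`, `Main3M.log_lower`, `Main3M.log_upper`).  `log y ≥ (ℓ-1) log 2 ≥ ℓ/2`,
`log y ≤ log (m+1) ≤ ℓ`, `loglog y ≤ log ℓ ≤ (v+1) log 2 ≤ 2v`, `y ≤ m + 1 ≤ 201 ℓ^2 n`.
(1) `two_pow_large (v n)`: `(n+3)^2 exp (v n/40) ≤ 2^(v n/4)`; and `y loglog y / (log y)^2 ≤ 1608 v n`.
(2) Let `L = log x`, `δ' = v L / (2176 y)`.  `L ≤ (Λ+1) log 2 ≤ 136 m n R log 2`, so `(v n/8) R log 2 ≥ v n R log 2 / 16 ≥ δ'`; the exponent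
`δ` on the right is `≤ 2 v L / (10^7 y) ≤ δ'/2` and `δ' ≥ 4 v` (`8800 y ≤ L`), so `3 exp (-δ') ≤ exp (-δ)`; `2^(17 m n R) ≤ exp (L/2)`,
`n + 2 ≤ exp (L/2)`, `3 exp (L/2) ≤ exp (L - δ)`.
(3) `y^2 / (log y)^3 ≤ 2 m^2 8/ℓ^3 ≤ 640000 J`, so `log Q ≤ exp (0.07 J) < 2^(J/2) log 2`. -/
def StmtCb4 : Prop := ∃ m₀ : ℕ, ∀ (m n J R Λ x ℓ v : ℕ) (y : ℝ), m₀ ≤ m → ℓ = Nat.log 2 m + 1 →
  v = Nat.log 2 ℓ → 1100 ≤ n → 4 * n ≤ m → m < 200 * ℓ ^ 2 * (n + 1) → m ≤ J →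
  m ^ 2 ≤ 40000 * ℓ ^ 3 * J → 1 ≤ R → 1 ≤ x → Λ = Nat.log 2 x → 1 ≤ Λ → 34 * m * n * R ≤ Λ →
  Λ < 34 * m * n * (R + 1) → (m : ℝ) ≤ y → y < m + 1 → 8800 * y ≤ Real.log x →
  1 ≤ v ∧
  ((n : ℝ) + 3) ^ 2 * Real.exp (1 / 10 ^ 7 * y * Real.log (Real.log y) / Real.log y ^ 2) ≤
    2 ^ (v * n / 4) ∧
  (n : ℝ) + 2 + (x / 2 ^ (v * n / 8 * R) + 2 ^ (17 * m * n * R)) ≤
    x * Real.exp (-(1 / 10 ^ 7 * Real.log x * Real.log (Real.log y) / y)) ∧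
  ∀ Q : ℕ, 1 ≤ Q → Real.log Q ≤ Real.exp (1 / 10 ^ 7 * y ^ 2 / Real.log y ^ 3) → Q < 2 ^ 2 ^ (J / 2)

open Classical in
/-- **Main4** (150 lines, uses `StmtWeight4`, `StmtMult3`, `StmtMom4`, `StmtHits3`, `StmtPar4`, `StmtCb4`; imports `Main3.lean` for
`Main3M.regime`).  Assembly as in `main3` (`Main3.lean`): `m = ⌊y⌋`, `Λ = log2 x`, `ρ = log2 Λ + 1`, `s = ℓ^2`; `regime` with
`D = 200 * 1100`.  A bad `i` satisfies `i < n + 2` or has `≤ 2^(v n/4)` hits for `b + Q i`. -/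
def StmtMain4 : Prop := ∃ x₀ : ℕ, ∀ x : ℕ, x₀ ≤ x → ∀ y : ℝ,
  Real.log (Real.log x) * Real.log (Real.log (Real.log x)) ^ 4 ≤ y →
  y ≤ Real.sqrt (Real.log x) * Real.log (Real.log x) →
  ∀ Q b : ℕ, 1 ≤ Q → Real.log Q ≤ Real.exp (1 / 10 ^ 7 * y ^ 2 / Real.log y ^ 3) →
  (((range x).filter fun i => NN (b + Q * i) <
    ((⌈Real.exp (1 / 10 ^ 7 * y * Real.log (Real.log y) / Real.log y ^ 2)⌉₊ : ℕ) : ℕ∞)).card : ℝ) ≤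
    x * Real.exp (-(1 / 10 ^ 7 * Real.log x * Real.log (Real.log y) / y))

/-- **NumF** (120 lines).  `L = log x`, `w = log L`, `y = L^(1/2) w`: `log y = w/2 + log w ≤ w`, `loglog y ≥ log (w/2) ≥ (log w)/2`, so
`y loglog y / (log y)^2 ≥ B/2`, `L loglog y / y ≥ B/2`; `B → ∞`. -/
def StmtNumF : Prop := ∃ x₀ : ℕ, ∀ x : ℕ, x₀ ≤ x → ∀ y : ℝ,
  y = Real.sqrt (Real.log x) * Real.log (Real.log x) →
  Real.log (Real.log x) * Real.log (Real.log (Real.log x)) ^ 4 ≤ y ∧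
  1 / 10 ^ 8 * BB x ≤ 1 / 10 ^ 7 * y * Real.log (Real.log y) / Real.log y ^ 2 ∧
  x * Real.exp (-(1 / 10 ^ 7 * Real.log x * Real.log (Real.log y) / y)) + x * Real.exp (-BB x) ≤
    x * Real.exp (-(1 / 10 ^ 8 * BB x))

open Classical in
/-- **Fin4** (80 lines, uses `StmtMain4`, `StmtUpp`, `StmtNumF`).  Both bounds: `StmtMain4` with `Q = 1`, `b = 0`,
`y = (log x)^(1/2) loglog x`. -/
def StmtFin4 : Prop := ∃ (C : ℝ) (x₀ : ℕ), 0 < C ∧ ∀ x : ℕ, x₀ ≤ x →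
  (((range x).filter fun k => NN k < ((⌈Real.exp (1 / 10 ^ 8 * BB x)⌉₊ : ℕ) : ℕ∞) ∨
    ((⌊Real.exp (C * BB x)⌋₊ : ℕ) : ℕ∞) < NN k).card : ℝ) ≤ x * Real.exp (-(1 / 10 ^ 8 * BB x))

end Pool.Agent.Lib.MP_85a137_nt
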