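import Pool.Agent.Lib.MP_85a137_nt.Spec

/-!
# MP_85a137_nt: Chebyshev's upper bound for the sum of `1 / p` over the primes `p ≤ 2 ^ J`
-/

set_option autoImplicit false

namespace Pool.Agent.Lib.MP_85a137_nt

open Finset

/-- the primes in `(2^j, 2^(j+1)]` contribute at most `4 / j` -/
private lemma up_step (j : ℕ) (hj : 1 ≤ j) :
    ∑ p ∈ (Ioc (2 ^ j) (2 ^ (j + 1))).filter Nat.Prime, (1 : ℝ) / p ≤ 4 / j := by
  set A : Finset ℕ := (Ioc (2 ^ j) (2 ^ (j + 1))).filter Nat.Prime with hA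
  have hjR : (0 : ℝ) < j := by exact_mod_cast hj
  have h2 : (0 : ℝ) < 2 ^ j := by positivity
  have hl2 : 0 < Real.log 2 := Real.log_pos (by norm_num)
  -- the number of elements
  have hcard : (A.card : ℝ) * (j * Real.log 2) ≤ Real.log 4 * (2 : ℝ) ^ (j + 1) := by
    have h1 : (A.card : ℝ) * (j * Real.log 2) ≤ ∑ p ∈ A, Real.log p := by
      rw [← nsmul_eq_mul]
      refine Finset.card_nsmul_le_sum _ _ _ fun p hp => ?_
      have hp' : 2 ^ j < p := (mem_Ioc.1 (mem_filter.1 hp).1).1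
      rw [← Real.log_pow]
      refine Real.log_le_log h2 ?_
      exact_mod_cast hp'.le
    have h3 : ∑ p ∈ A, Real.log p ≤ Chebyshev.theta ((2 : ℝ) ^ (j + 1)) := by
      rw [Chebyshev.theta_eq_sum_Icc]
      refine Finset.sum_le_sum_of_subset_of_nonneg ?_ fun p hp _ => ?_
      · intro p hp
        obtain ⟨hp1, hp2⟩ := mem_filter.1 hp
        obtain ⟨hp3, hp4⟩ := mem_Ioc.1 hp1
        refine mem_filter.2 ⟨mem_Icc.2 ⟨Nat.zero_le _, ?_⟩, hp2⟩
        refine Nat.le_floor ?_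
        exact_mod_cast hp4
      · exact Real.log_natCast_nonneg _
    exact h1.trans (h3.trans (Chebyshev.theta_le_log4_mul_x (by positivity)))
  have hlog4 : Real.log 4 = 2 * Real.log 2 := by
    rw [show (4 : ℝ) = 2 ^ 2 by norm_num, Real.log_pow]
    norm_num
  have hcard2 : (A.card : ℝ) * j ≤ 4 * 2 ^ j := by
    rw [hlog4, pow_succ] at hcard
    have : (A.card : ℝ) * j * Real.log 2 ≤ (4 * 2 ^ j) * Real.log 2 := by nlinarith
    exact le_of_mul_le_mul_right this hl2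
  calc ∑ p ∈ A, (1 : ℝ) / p ≤ ∑ _p ∈ A, (1 : ℝ) / 2 ^ j := by
        refine Finset.sum_le_sum fun p hp => ?_
        have hp' : 2 ^ j < p := (mem_Ioc.1 (mem_filter.1 hp).1).1
        refine one_div_le_one_div_of_le h2 ?_
        exact_mod_cast hp'.le
    _ = A.card / 2 ^ j := by rw [Finset.sum_const, nsmul_eq_mul, mul_one_div]
    _ ≤ 4 / j := by
        rw [div_le_div_iff₀ h2 hjR]
        exact hcard2

private lemma up_harmonic (J : ℕ) :
    ∑ p ∈ (Icc 1 (2 ^ (J + 1))).filter Nat.Prime, (1 : ℝ) / p ≤ 1 / 2 + 4 * (harmonic J : ℝ) := by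
  induction J with
  | zero =>
    have : (Icc 1 (2 ^ (0 + 1))).filter Nat.Prime = {2} := by decide
    rw [this]
    simp
  | succ J ih =>
    have hsplit : (Icc 1 (2 ^ (J + 1 + 1))).filter Nat.Prime =
        (Icc 1 (2 ^ (J + 1))).filter Nat.Prime ∪
          (Ioc (2 ^ (J + 1)) (2 ^ (J + 1 + 1))).filter Nat.Prime := by
      rw [← filter_union]
      congr 1
      ext p
      have h1 : 2 ^ (J + 1) ≤ 2 ^ (J + 1 + 1) := Nat.pow_le_pow_right (by norm_num) (by omega)
      have h2 : 1 ≤ 2 ^ (J + 1) := Nat.one_le_two_pow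
      simp only [mem_union, mem_Icc, mem_Ioc]
      omega
    have hdisj : Disjoint ((Icc 1 (2 ^ (J + 1))).filter Nat.Prime)
        ((Ioc (2 ^ (J + 1)) (2 ^ (J + 1 + 1))).filter Nat.Prime) := by
      refine Finset.disjoint_left.2 fun p hp hp' => ?_
      have h1 := (mem_Icc.1 (mem_filter.1 hp).1).2
      have h2 := (mem_Ioc.1 (mem_filter.1 hp').1).1
      omega
    rw [hsplit, sum_union hdisj, harmonic_succ]
    have h3 := up_step (J + 1) (by omega)
    push_cast at h3 ⊢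
    have h4 : (4 : ℝ) / (J + 1) = 4 * (J + 1 : ℝ)⁻¹ := by rw [div_eq_mul_inv]
    rw [h4] at h3
    linarith

/-- **Chebyshev.** `∑_{p ≤ 2^J} 1/p ≤ 5 + 4 log J`. -/
theorem up : StmtUp := by
  intro J hJ
  obtain ⟨K, rfl⟩ : ∃ K, J = K + 1 := ⟨J - 1, by omega⟩
  have h1 := up_harmonic K
  have h2 : ((harmonic K : ℚ) : ℝ) ≤ 1 + Real.log K := harmonic_le_one_add_log K
  have h3 : Real.log K ≤ Real.log ((K + 1 : ℕ) : ℝ) := by
    rcases Nat.eq_zero_or_pos K with rfl | hK
    · simp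
    · refine Real.log_le_log (by exact_mod_cast hK) ?_
      push_cast
      linarith
  linarith

end Pool.Agent.Lib.MP_85a137_nt
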