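import Pool.Agent.Lib.MP_85a137_nt.Spec4

/-!
# MP_85a137_nt: assembly of the upper bound of the theorem NormalOrder
-/

set_option autoImplicit false

namespace Pool.Agent.Lib.MP_85a137_nt

open Finset

private theorem upp_card (S0 S1 S2 : Finset ℕ) (h : ∀ k ∈ S0, k < 2 ∨ k ∈ S1 ∨ k ∈ S2) :
    (S0.card : ℝ) ≤ 2 + S1.card + S2.card := by
  classical
  have h1 : S0 ⊆ range 2 ∪ (S1 ∪ S2) := by
    intro k hk
    rcases h k hk with h | h | h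
    · exact mem_union_left _ (mem_range.2 h)
    · exact mem_union_right _ (mem_union_left _ h)
    · exact mem_union_right _ (mem_union_right _ h)
  have h2 := (card_le_card h1).trans ((card_union_le _ _).trans
    (Nat.add_le_add_left (card_union_le _ _) _))
  rw [card_range] at h2
  have h3 : (S0.card : ℝ) ≤ ((2 + (S1.card + S2.card) : ℕ) : ℝ) := Nat.cast_le.2 h2
  push_cast at h3
  linarith

/-- The upper bound for almost all `k`. -/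
theorem tUpp (hA : StmtCntA) (hNA : StmtNumA) (hB : StmtCntB) (hNB : StmtNumB) (hC : StmtCou)
    (hU : StmtNumU) : StmtUpp := by
  classical
  obtain ⟨MA, hMA⟩ := hNA
  obtain ⟨MB, hMB⟩ := hNB
  obtain ⟨x₀, hx₀⟩ := hU (max (max MA MB) 1)
  refine ⟨4408, x₀, by norm_num, fun x hx => ?_⟩
  obtain ⟨M, hM⟩ : ∃ M, M = ⌈Real.sqrt (Real.log (2 * x))⌉₊ := ⟨_, rfl⟩
  obtain ⟨ℓ, hℓ⟩ : ∃ ℓ, ℓ = Nat.log 2 M + 1 := ⟨_, rfl⟩
  obtain ⟨h1, h2, h3, h4, h5, h6, h7⟩ := hx₀ x M ℓ hx hM hℓ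
  have hM1 : 1 ≤ M := (le_max_right _ _).trans h1
  have hMA' : MA ≤ M := (le_max_left MA MB).trans ((le_max_left _ _).trans h1)
  have hMB' : MB ≤ M := (le_max_right MA MB).trans ((le_max_left _ _).trans h1)
  have hV : 1 ≤ 4 * M * ℓ := Nat.mul_pos (by omega) (by omega)
  have ha : 2 ≤ ℓ / 2 := by omega
  have hx0 : (0 : ℝ) ≤ x := Nat.cast_nonneg x
  -- the bad multisets
  obtain ⟨S1, hS1, c1⟩ : ∃ S1 : Finset ℕ, (∀ k, k < x → (∃ Y : Multiset ℕ, (∀ y ∈ Y, 2 ≤ y) ∧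
      Y.prod ≤ 2 * x ∧ Y.prod + Y.card = Y.sum + k ∧
      128 * M ≤ ((Y.filter fun y => y ≤ 2 ^ (4 * M * ℓ)).map (Gw (2 ^ (ℓ / 2)))).sum) →
      k ∈ S1) ∧ (S1.card : ℝ) ≤ x * Real.exp (-M) := by
    refine ⟨_, fun k hk h => mem_filter.2 ⟨mem_range.2 hk, h⟩,
      (hA x M (4 * M * ℓ) (128 * M) (ℓ / 2) (by omega) hM1 hV ha h4).trans ?_⟩
    refine le_trans (le_of_eq ?_) (mul_le_mul_of_nonneg_left (hMA M ℓ hMA' hℓ) hx0)
    ring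
  -- the good multisets
  have hg := hMB M (2 * x) ℓ (ℓ / 3) (128 * M / (ℓ / 3) + 1) hMB' (by omega)
    (by push_cast; exact h4) hℓ rfl rfl (Real.log ℓ / (M * ℓ)) rfl
  obtain ⟨g1, g2, g3⟩ := hg
  have hℓ1 : (1 : ℝ) ≤ (ℓ : ℝ) ^ 2 := by
    have : (1 : ℝ) ≤ (ℓ : ℝ) := by exact_mod_cast (by omega : 1 ≤ ℓ)
    nlinarith
  obtain ⟨S2, hS2, c2⟩ : ∃ S2 : Finset ℕ, (∀ k, k < x → 2 ≤ k →
      ((⌊Real.exp (4408 * BB x)⌋₊ : ℕ) : ℕ∞) < NN k →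
      (∀ Y : Multiset ℕ, (∀ y ∈ Y, 2 ≤ y) → Y.prod ≤ 2 * x → Y.prod + Y.card = Y.sum + k →
        ((Y.filter fun y => y ≤ 2 ^ (4 * M * ℓ)).map (Gw (2 ^ (ℓ / 2)))).sum < 128 * M) →
      k ∈ S2) ∧ (S2.card : ℝ) * ((⌊Real.exp (4408 * BB x)⌋₊ : ℝ) + 1) ≤
        ((2 * x : ℕ) : ℝ) * Real.exp (1100 * (M * Real.log ℓ / ℓ)) := by
    refine ⟨_, fun k hk a b c => mem_filter.2 ⟨mem_range.2 hk, a, b, c⟩,
      hC x ⌊Real.exp (4408 * BB x)⌋₊ _ (fun Y =>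
        ((Y.filter fun y => y ≤ 2 ^ (4 * M * ℓ)).map (Gw (2 ^ (ℓ / 2)))).sum < 128 * M)
        h2 fun F hF => ?_⟩
    exact (hB (2 * x) (4 * M * ℓ) (128 * M) (ℓ / 2) (ℓ / 3) (128 * M / (ℓ / 3) + 1)
      (Real.log ℓ / (M * ℓ)) ((ℓ : ℝ) ^ 2) F (by omega) hV (by omega) g1
      (Nat.lt_mul_div_succ _ g1).le g2 hℓ1 hF).trans g3
  have c3 : (S2.card : ℝ) ≤ 2 * x * Real.exp (-(2 * (M * Real.log ℓ / ℓ))) := by
    have e1 : Real.exp (1102 * (M * Real.log ℓ / ℓ)) ≤ (⌊Real.exp (4408 * BB x)⌋₊ : ℝ) + 1 :=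
      (Real.exp_le_exp.2 (by linarith)).trans (Nat.lt_floor_add_one _).le
    have e2 : (S2.card : ℝ) * Real.exp (1102 * (M * Real.log ℓ / ℓ)) ≤
        2 * x * Real.exp (1100 * (M * Real.log ℓ / ℓ)) := by
      refine (mul_le_mul_of_nonneg_left e1 (Nat.cast_nonneg _)).trans (c2.trans (le_of_eq ?_))
      push_cast
      ring
    have e3 : Real.exp (1100 * (M * Real.log ℓ / ℓ)) =
        Real.exp (-(2 * (M * Real.log ℓ / ℓ))) * Real.exp (1102 * (M * Real.log ℓ / ℓ)) := by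
      rw [← Real.exp_add]
      congr 1
      ring
    rw [e3, ← mul_assoc] at e2
    exact le_of_mul_le_mul_right e2 (Real.exp_pos _)
  refine (upp_card _ S1 S2 fun k hk => ?_).trans ?_
  · obtain ⟨hk1, hk2⟩ := mem_filter.1 hk
    rw [mem_range] at hk1
    by_cases hk3 : k < 2
    · exact Or.inl hk3
    · refine Or.inr ?_
      by_cases hY : ∃ Y : Multiset ℕ, (∀ y ∈ Y, 2 ≤ y) ∧
        Y.prod ≤ 2 * x ∧ Y.prod + Y.card = Y.sum + k ∧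
        128 * M ≤ ((Y.filter fun y => y ≤ 2 ^ (4 * M * ℓ)).map (Gw (2 ^ (ℓ / 2)))).sum
      · exact Or.inl (hS1 k hk1 hY)
      · refine Or.inr (hS2 k hk1 (not_lt.1 hk3) hk2 fun Y y1 y2 y3 => ?_)
        by_contra hc
        exact hY ⟨Y, y1, y2, y3, not_lt.1 hc⟩
  · exact (add_le_add (add_le_add le_rfl c1) c3).trans h7

end Pool.Agent.Lib.MP_85a137_nt
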