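import Pool.Agent.Lib.MP_85a137_nt.Spec

/-!
# The total weight of the configurations
-/

set_option autoImplicit false

namespace Pool.Agent.Lib.MP_85a137_nt

open Finset

theorem weight_sum_eq (m n : ℕ) :
    ∑ γ ∈ cfg m n, (1 : ℝ) / PP γ =
      ∏ j : Fin n, ((∑ q ∈ JJ m j, (1 : ℝ) / q) * ∑ c ∈ Ico (1 : ℕ) (2 ^ m), (1 : ℝ) / (c : ℝ)) := by
  rw [prod_mul_distrib, prod_univ_sum, prod_univ_sum, sum_mul_sum, cfg, sum_product]
  refine sum_congr rfl fun q _ => sum_congr rfl fun c _ => ?_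
  rw [← prod_mul_distrib]
  simp only [PP, Nat.cast_prod, Nat.cast_mul, one_div, ← mul_inv, prod_inv_distrib]

theorem weight_harm (m : ℕ) : (m : ℝ) / 2 ≤ ∑ c ∈ Ico (1 : ℕ) (2 ^ m), (1 : ℝ) / (c : ℝ) := by
  have h1 := log_add_one_le_harmonic (2 ^ m - 1)
  have h2 : (1 : ℕ) ≤ 2 ^ m := Nat.one_le_two_pow
  rw [harmonic_eq_sum_Icc] at h1
  push_cast [Nat.cast_sub h2] at h1
  rw [sub_add_cancel, Real.log_pow] at h1
  have h3 : Ico 1 (2 ^ m) = Icc 1 (2 ^ m - 1) := by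
    ext c; simp only [mem_Ico, mem_Icc]; omega
  rw [h3]
  simp only [one_div]
  have h4 := Real.log_two_gt_d9
  have h5 : (0 : ℝ) ≤ m := Nat.cast_nonneg m
  nlinarith

theorem weight (hL : StmtLow) : StmtWeight := by
  obtain ⟨κ, m₀, hκ, h⟩ := hL
  obtain ⟨δ, hδ0, hδκ, hδ1⟩ : ∃ δ : ℝ, 0 < δ ∧ δ ≤ κ ∧ δ ≤ 1 :=
    ⟨min κ 1, lt_min hκ one_pos, min_le_left _ _, min_le_right _ _⟩
  refine ⟨δ / 24, max m₀ ⌈48 / δ⌉₊, by positivity, fun m hm => ?_⟩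
  have hm0 : m₀ ≤ m := le_trans (le_max_left _ _) hm
  have hm1 : 48 / δ ≤ m := (Nat.le_ceil _).trans (by exact_mod_cast le_trans (le_max_right _ _) hm)
  have hm2 : 48 ≤ δ * m := by rw [div_le_iff₀ hδ0] at hm1; linarith
  have hmpos : (0 : ℝ) < m := by
    by_contra hc
    have : (m : ℝ) = 0 := le_antisymm (not_lt.1 hc) (Nat.cast_nonneg m)
    rw [this] at hm2; norm_num at hm2
  have hfl := Nat.floor_le (a := δ * m / 12) (by positivity)
  have hfl2 := Nat.lt_floor_add_one (δ * m / 12)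
  obtain ⟨n, hn⟩ : ∃ n, ⌊δ * m / 12⌋₊ = n + 1 := by
    refine Nat.exists_eq_succ_of_ne_zero fun h0 => ?_
    rw [h0] at hfl2
    norm_num at hfl2
    linarith
  rw [hn] at hfl hfl2
  push_cast at hfl hfl2
  refine ⟨n, by linarith, ?_, ?_, ?_⟩
  · have : (0 : ℝ) < n := by linarith
    exact_mod_cast this
  · have : (n : ℝ) ≤ m := by nlinarith
    exact_mod_cast this
  rw [weight_sum_eq]
  have key : ∀ j : Fin n, (2 : ℝ) ≤
      (∑ q ∈ JJ m j, (1 : ℝ) / q) * ∑ c ∈ Ico (1 : ℕ) (2 ^ m), (1 : ℝ) / (c : ℝ) := by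
    intro j
    have hj : ((j : ℕ) : ℝ) + 1 ≤ n := by exact_mod_cast j.2
    have h1 := h m (3 * m * (j + 1)) hm0 (by nlinarith [Nat.zero_le (m * (j : ℕ))])
    have h2 : κ / (3 * (n + 1)) ≤ κ * m / (((3 * m * ((j : ℕ) + 1) : ℕ) : ℝ) + m) := by
      push_cast
      rw [div_le_div_iff₀ (by positivity) (by positivity)]
      nlinarith [mul_pos hκ hmpos, mul_nonneg (mul_pos hκ hmpos).le (sub_nonneg.2 hj)]
    have h3 := weight_harm m
    have h4 : (2 : ℝ) ≤ κ / (3 * (n + 1)) * (m / 2) := by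
      rw [div_mul_div_comm, le_div_iff₀ (by positivity)]
      nlinarith [mul_le_mul_of_nonneg_right hδκ hmpos.le]
    have h5 : (∑ q ∈ JJ m j, (1 : ℝ) / q) ≥ κ / (3 * (n + 1)) := h2.trans h1
    calc (2 : ℝ) ≤ κ / (3 * (n + 1)) * (m / 2) := h4
      _ ≤ _ := mul_le_mul h5 h3 (by positivity) (le_trans (by positivity) h5)
  calc (2 : ℝ) ^ n = ∏ _j : Fin n, (2 : ℝ) := by simp
    _ ≤ _ := prod_le_prod (fun _ _ => by norm_num) fun j _ => key j

end Pool.Agent.Lib.MP_85a137_nt
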