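import Pool.Agent.Lib.MP_85a137_nt.Spec3

/-!
# The total weight of the configurations, third version
-/

set_option autoImplicit false

namespace Pool.Agent.Lib.MP_85a137_nt

open Finset

theorem Weight3M.sum_eq (s m n : ℕ) :
    ∑ γ ∈ cf3 s m n, (1 : ℝ) / PP γ =
      ∏ j : Fin n, ((∑ q ∈ J3 s m j, (1 : ℝ) / q) * ∑ c ∈ CC m, (1 : ℝ) / (c : ℝ)) := by
  rw [prod_mul_distrib, prod_univ_sum, prod_univ_sum, sum_mul_sum, cf3, sum_product]
  refine sum_congr rfl fun q _ => sum_congr rfl fun c _ => ?_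
  rw [← prod_mul_distrib]
  simp only [PP, Nat.cast_prod, Nat.cast_mul, one_div, ← mul_inv, prod_inv_distrib]

theorem weight3 (hL : StmtLow) (hC : StmtCC) : StmtWeight3 := by
  obtain ⟨κ, m₀, hκ, h⟩ := hL
  obtain ⟨m₁, hm₁⟩ := hC
  refine ⟨max (max m₀ 1) ⌈16 / κ⌉₊, max m₁ 1, le_trans (le_max_right _ _) (le_max_left _ _), ?_⟩
  obtain ⟨s, hs⟩ : ∃ s, s = max (max m₀ 1) ⌈16 / κ⌉₊ := ⟨_, rfl⟩
  rw [← hs]
  have hs0 : m₀ ≤ s := hs ▸ le_trans (le_max_left _ _) (le_max_left _ _)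
  have hs1 : 16 / κ ≤ s := (Nat.le_ceil _).trans (by exact_mod_cast hs ▸ le_max_right _ _)
  have hs2 : 16 ≤ κ * s := by rw [div_le_iff₀ hκ] at hs1; linarith
  intro m n hm hsn
  have hmm : m₁ ≤ m := le_trans (le_max_left _ _) hm
  have hm1 : 1 ≤ m := le_trans (le_max_right _ _) hm
  have hmpos : (0 : ℝ) < m := by exact_mod_cast hm1
  have key : ∀ j, j < n → (8 : ℝ) / m ≤ ∑ q ∈ J3 s m j, (1 : ℝ) / q := by
    intro j hj
    have hj1 : s * (j + 1) ≤ m := le_trans (Nat.mul_le_mul_left s hj) hsn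
    have h0 : s ≤ m + s * j := by
      have : s * (j + 1) = s * j + s := by ring
      omega
    have h1 := h s (m + s * j) hs0 h0
    have h2 : m + s * j + s = m + s * (j + 1) := by ring
    rw [h2] at h1
    refine le_trans ?_ h1
    have h3 : ((s : ℝ) * (j + 1)) ≤ m := by exact_mod_cast hj1
    have h4 : (0 : ℝ) ≤ (s : ℝ) * j := by positivity
    have h5 : (0 : ℝ) ≤ s := by positivity
    push_cast
    rw [div_le_div_iff₀ hmpos (by nlinarith)]
    nlinarith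
  refine ⟨?_, fun j hj => le_trans ?_ (key j hj)⟩
  · rw [Weight3M.sum_eq]
    have h6 : ∀ j : Fin n, (2 : ℝ) ≤
        (∑ q ∈ J3 s m j, (1 : ℝ) / q) * ∑ c ∈ CC m, (1 : ℝ) / (c : ℝ) := by
      intro j
      have h7 := key j j.2
      have h8 := hm₁ m hmm
      calc (2 : ℝ) = 8 / m * (m / 4) := by field_simp; norm_num
        _ ≤ _ := mul_le_mul h7 h8 (by positivity) (le_trans (by positivity) h7)
    calc (2 : ℝ) ^ n = ∏ _j : Fin n, (2 : ℝ) := by simp
      _ ≤ _ := prod_le_prod (fun _ _ => by norm_num) fun j _ => h6 j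
  · exact div_le_div_of_nonneg_right (by norm_num) hmpos.le

end Pool.Agent.Lib.MP_85a137_nt
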