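import Pool.Agent.Lib.MP_85a137_nt.Spec4
import Pool.Agent.Lib.MP_85a137_nt.Weight3

/-!
# The total weight of the configurations, fourth version
-/

set_option autoImplicit false

namespace Pool.Agent.Lib.MP_85a137_nt

open Finset

theorem tWeight4 (hL : StmtLow) (hC : StmtCC) : StmtWeight4 := by
  obtain ⟨κ, m₀, hκ, h⟩ := hL
  obtain ⟨m₁, hm₁⟩ := hC
  refine ⟨max m₁ (2 ^ (max m₀ ⌈8 / κ⌉₊)), ?_⟩
  intro m n hm hsn
  have hmm : m₁ ≤ m := le_trans (le_max_left _ _) hm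
  have hm2 : 2 ^ (max m₀ ⌈8 / κ⌉₊) ≤ m := le_trans (le_max_right _ _) hm
  have hm1 : 1 ≤ m := le_trans Nat.one_le_two_pow hm2
  have hlog : max m₀ ⌈8 / κ⌉₊ ≤ Nat.log 2 m := Nat.le_log_of_pow_le (by norm_num) hm2
  obtain ⟨ℓ, hℓ⟩ : ∃ ℓ, ℓ = Nat.log 2 m + 1 := ⟨_, rfl⟩
  rw [← hℓ] at hsn ⊢
  have hℓ0 : m₀ ≤ ℓ := by
    have := le_max_left m₀ ⌈8 / κ⌉₊
    omega
  have hℓ1 : 1 ≤ ℓ := by omega
  have hℓ1' : (1 : ℝ) ≤ ℓ := by exact_mod_cast hℓ1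
  have hℓ2 : 8 ≤ κ * ℓ := by
    have h1 : ⌈8 / κ⌉₊ ≤ ℓ := by
      have := le_max_right m₀ ⌈8 / κ⌉₊
      omega
    have h2 : 8 / κ ≤ ℓ := (Nat.le_ceil _).trans (by exact_mod_cast h1)
    rw [div_le_iff₀ hκ] at h2
    linarith
  obtain ⟨s, hs⟩ : ∃ s, s = ℓ ^ 2 := ⟨_, rfl⟩
  rw [← hs] at hsn ⊢
  have hs0 : m₀ ≤ s := by
    rw [hs]
    nlinarith
  have hsr : (s : ℝ) = (ℓ : ℝ) ^ 2 := by rw [hs]; push_cast; ring
  have hs2 : 8 * (ℓ : ℝ) ≤ κ * s := by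
    rw [hsr]
    nlinarith
  have hmpos : (0 : ℝ) < m := by exact_mod_cast hm1
  have key : ∀ j, j < n → (4 * ℓ : ℝ) / m ≤ ∑ q ∈ J3 s m j, (1 : ℝ) / q := by
    intro j hj
    have hj1 : s * (j + 1) ≤ m := le_trans (Nat.mul_le_mul_left s hj) hsn
    have h0 : s ≤ m + s * j := by
      have : s * (j + 1) = s * j + s := by ring
      omega
    have h1 := h s (m + s * j) hs0 h0
    have h2 : m + s * j + s = m + s * (j + 1) := by ring
    rw [h2] at h1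
    refine le_trans ?_ h1
    have h3 : ((s : ℝ) * (j + 1)) ≤ m := by exact_mod_cast hj1
    have h4 : (0 : ℝ) ≤ (s : ℝ) * j := by positivity
    have h5 : (0 : ℝ) ≤ s := by positivity
    push_cast
    rw [div_le_div_iff₀ hmpos (by nlinarith)]
    have h6 : (m : ℝ) + s * j + s ≤ 2 * m := by linarith
    have h7 : (4 * ℓ : ℝ) * ((m : ℝ) + s * j + s) ≤ 4 * ℓ * (2 * m) :=
      mul_le_mul_of_nonneg_left h6 (by positivity)
    have h8 : 8 * (ℓ : ℝ) * m ≤ κ * s * m := mul_le_mul_of_nonneg_right hs2 hmpos.le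
    linarith
  refine ⟨?_, fun j hj => le_trans ?_ (key j hj)⟩
  · rw [Weight3M.sum_eq]
    have h6 : ∀ j : Fin n, (ℓ : ℝ) ≤
        (∑ q ∈ J3 s m j, (1 : ℝ) / q) * ∑ c ∈ CC m, (1 : ℝ) / (c : ℝ) := by
      intro j
      have h7 := key j j.2
      have h8 := hm₁ m hmm
      calc (ℓ : ℝ) = 4 * ℓ / m * (m / 4) := by field_simp
        _ ≤ _ := mul_le_mul h7 h8 (by positivity) (le_trans (by positivity) h7)
    calc (2 : ℝ) ^ (Nat.log 2 ℓ * n) = ((2 : ℝ) ^ Nat.log 2 ℓ) ^ n := pow_mul _ _ _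
      _ ≤ (ℓ : ℝ) ^ n := by
          apply pow_le_pow_left₀ (by positivity)
          exact_mod_cast Nat.pow_log_le_self 2 (by omega : ℓ ≠ 0)
      _ = ∏ _j : Fin n, (ℓ : ℝ) := by simp
      _ ≤ _ := prod_le_prod (fun _ _ => by positivity) fun j _ => h6 j
  · exact div_le_div_of_nonneg_right (by linarith) hmpos.le

end Pool.Agent.Lib.MP_85a137_nt
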