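import Pool.Agent.Lib.MP_85a137_nt.Spec4
import Pool.Agent.Lib.MP_85a137_nt.FacCount

/-!
# MP_85a137_nt, Zs: zeta sums
-/

set_option autoImplicit false

namespace Pool.Agent.Lib.MP_85a137_nt

open Finset

private theorem zs_aux (t : ℝ) (Z N : ℕ) (ht : 0 < t) (hZ : 1 ≤ Z) (hN : Z ≤ N) :
    t * ∑ j ∈ Ioc Z N, (j : ℝ) ^ (-(1 + t)) ≤ (Z : ℝ) ^ (-t) - (N : ℝ) ^ (-t) := by
  induction N, hN using Nat.le_induction with
  | base => simp
  | succ n hn ih =>
    rw [Finset.sum_Ioc_succ_top hn, mul_add]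
    have := FacCountM.step_le t n ht (hZ.trans hn)
    linarith

theorem tZs : StmtZs := by
  intro t Z N ht hZ
  rw [le_div_iff₀ ht, mul_comm]
  rcases le_or_gt Z N with h | h
  · have h1 := zs_aux t Z N ht hZ h
    have h2 : 0 ≤ (N : ℝ) ^ (-t) := by positivity
    linarith
  · rw [Finset.Ioc_eq_empty (by omega), Finset.sum_empty, mul_zero]
    positivity

end Pool.Agent.Lib.MP_85a137_nt
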